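import Pool.Agent.Helper793.Hop2
set_option autoImplicit false
set_option linter.unusedSectionVars false
open MeasureTheory Metric Set Filter Topology
open scoped ENNReal NNReal

namespace Pool.Agent.Helper793.Cmp

open Pool.Agent.Helper793.QEig Pool.Agent.Helper793.Sob Pool.Agent.Helper793.Cut
open Pool.Agent.Helper793.Hop

variable {N : ℕ} {q : ℝ≥0} [Fact (1 ≤ (q : ℝ≥0∞))]

theorem integrable_dual {g : EuclideanSpace ℝ (Fin N) → ℝ}
    (hg : MemLp g (ENNReal.conjExponent (q : ℝ≥0∞)) volume)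
    (f : Lp ℝ (q : ℝ≥0∞) (volume : Measure (EuclideanSpace ℝ (Fin N)))) :
    Integrable (fun x => g x * f x) volume := by
  have h1 : ENNReal.HolderConjugate (q : ℝ≥0∞) (ENNReal.conjExponent (q : ℝ≥0∞)) := inferInstance
  have h2 : ENNReal.HolderTriple (ENNReal.conjExponent (q : ℝ≥0∞)) (q : ℝ≥0∞) 1 := h1.symm
  have := MemLp.mul (r := 1) (Lp.memLp f) hg
  rw [memLp_one_iff_integrable] at this
  exact this

/-- duality functionals are continuous -/
theorem continuous_dual {g : EuclideanSpace ℝ (Fin N) → ℝ}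
    (hg : MemLp g (ENNReal.conjExponent (q : ℝ≥0∞)) volume) :
    Continuous (fun f : Lp ℝ (q : ℝ≥0∞) (volume : Measure (EuclideanSpace ℝ (Fin N))) =>
      ∫ x, g x * f x) := by
  have h1 : ENNReal.HolderConjugate (q : ℝ≥0∞) (ENNReal.conjExponent (q : ℝ≥0∞)) := inferInstance
  have h2 : ENNReal.HolderConjugate (ENNReal.conjExponent (q : ℝ≥0∞)) (q : ℝ≥0∞) := h1.symm
  have _ : Fact (1 ≤ ENNReal.conjExponent (q : ℝ≥0∞)) := ⟨h2.one_le⟩
  have h3 := ((ContinuousLinearMap.mul ℝ ℝ).lpPairing (volume : Measure (EuclideanSpace ℝ (Fin N)))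
    (ENNReal.conjExponent (q : ℝ≥0∞)) (q : ℝ≥0∞) (hg.toLp g)).continuous
  refine h3.congr fun f => ?_
  rw [ContinuousLinearMap.lpPairing_eq_integral]
  apply integral_congr_ae
  filter_upwards [MemLp.coeFn_toLp hg] with x hx
  rw [hx]
  rfl

theorem abs_dual {Q : ℝ} (hQ : 1 < Q) (t : ℝ) : |(|t| ^ (Q - 2) * t)| = |t| ^ (Q - 1) := by
  rcases eq_or_ne t 0 with rfl | ht
  · simp [Real.zero_rpow (show Q - 1 ≠ 0 by linarith)]
  · have h0 : 0 < |t| := abs_pos.mpr ht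
    rw [abs_mul, abs_of_pos (Real.rpow_pos_of_pos h0 _)]
    nth_rw 2 [← Real.rpow_one |t|]
    rw [← Real.rpow_add h0]
    congr 1
    ring

theorem memLp_dual (hq : 1 < q)
    (f : Lp ℝ (q : ℝ≥0∞) (volume : Measure (EuclideanSpace ℝ (Fin N)))) :
    MemLp (fun x => |f x| ^ ((q:ℝ) - 2) * f x) (ENNReal.conjExponent (q : ℝ≥0∞)) volume := by
  have hq1 : (1:ℝ) < q := by exact_mod_cast hq
  have h1 := (Lp.memLp f).norm_rpow_div ((q - 1 : ℝ≥0) : ℝ≥0∞)
  have h2 : ((q - 1 : ℝ≥0) : ℝ≥0∞).toReal = (q:ℝ) - 1 := by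
    rw [ENNReal.coe_toReal, NNReal.coe_sub hq.le, NNReal.coe_one]
  have h3 : (q : ℝ≥0∞) / ((q - 1 : ℝ≥0) : ℝ≥0∞) = ENNReal.conjExponent (q : ℝ≥0∞) := by
    have h4 : (q - 1 : ℝ≥0) ≠ 0 := by
      rw [ne_eq, tsub_eq_zero_iff_le, not_le]
      exact hq
    rw [ENNReal.conjExponent, ← ENNReal.coe_one, ← ENNReal.coe_sub, ← ENNReal.coe_div h4,
      ← ENNReal.coe_inv h4, ← ENNReal.coe_add]
    congr 1
    have h5 : q = (q - 1) + 1 := (tsub_add_cancel_of_le hq.le).symm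
    nth_rw 1 [h5]
    rw [add_div, div_self h4, one_div]
  rw [h2, h3] at h1
  have hm : AEStronglyMeasurable (fun x => |f x| ^ ((q:ℝ) - 2) * f x) volume := by
    have h6 : Measurable (fun x => |f x| ^ ((q:ℝ) - 2) * f x) := by
      have := (Lp.stronglyMeasurable f).measurable
      fun_prop
    exact h6.aestronglyMeasurable
  refine h1.congr_norm hm (Eventually.of_forall fun x => ?_)
  simp only [Real.norm_eq_abs]
  rw [abs_dual hq1, abs_of_nonneg (by positivity)]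

theorem inner_pairOf {Ω : Set (EuclideanSpace ℝ (Fin N))} (p : Pairs N q)
    {ψ : EuclideanSpace ℝ (Fin N) → ℝ} (hψ : IsTest Ω ψ) :
    inner ℝ p.2 (pairOf q hψ).2 = ∫ x, inner ℝ (p.2 x) (gradient ψ x) := by
  rw [L2.inner_def]
  apply integral_congr_ae
  filter_upwards [MemLp.coeFn_toLp (memLp_grad hψ 2)] with x e3
  have e4 : (pairOf q hψ).2 x = gradient ψ x := e3
  rw [e4]

/-- a weak solution may be tested with all elements of the space -/
theorem weak_ext (hq : 1 < q) {Ω : Set (EuclideanSpace ℝ (Fin N))} {lam : ℝ} {p : Pairs N q}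
    (h : ∀ ψ : EuclideanSpace ℝ (Fin N) → ℝ, IsTest Ω ψ →
      ∫ x, inner ℝ (p.2 x) (gradient ψ x) = lam * ∫ x, |p.1 x| ^ ((q : ℝ) - 2) * p.1 x * ψ x)
    {p' : Pairs N q} (hp' : p' ∈ D012 q Ω) :
    inner ℝ p.2 p'.2 = lam * ∫ x, |p.1 x| ^ ((q : ℝ) - 2) * p.1 x * p'.1 x := by
  apply D012_induction (P := fun p' : Pairs N q =>
    inner ℝ p.2 p'.2 = lam * ∫ x, |p.1 x| ^ ((q : ℝ) - 2) * p.1 x * p'.1 x) _ _ hp'
  · apply isClosed_eq (by fun_prop)
    exact ((continuous_dual (memLp_dual hq p.1)).comp continuous_fst).const_mul lam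
  · intro ψ hψ
    rw [inner_pairOf, h ψ hψ]
    congr 1
    apply integral_congr_ae
    filter_upwards [MemLp.coeFn_toLp (memLp_test hψ q)] with x hx
    have hx' : (pairOf q hψ).1 x = ψ x := hx
    rw [hx']

theorem pairOf_sub_fst {Ω : Set (EuclideanSpace ℝ (Fin N))} {φ ψ : EuclideanSpace ℝ (Fin N) → ℝ}
    (hφ : IsTest Ω φ) (hψ : IsTest Ω ψ) :
    (pairOf q (isTest_sub hφ hψ)).1 = (pairOf q hφ).1 - (pairOf q hψ).1 :=
  MemLp.toLp_sub (memLp_test hφ q) (memLp_test hψ q)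

theorem pairOf_add_fst {Ω : Set (EuclideanSpace ℝ (Fin N))} {φ ψ : EuclideanSpace ℝ (Fin N) → ℝ}
    (hφ : IsTest Ω φ) (hψ : IsTest Ω ψ) :
    (pairOf q (isTest_add hφ hψ)).1 = (pairOf q hφ).1 + (pairOf q hψ).1 :=
  MemLp.toLp_add (memLp_test hφ q) (memLp_test hψ q)

theorem gradient_sub' {Ω : Set (EuclideanSpace ℝ (Fin N))} {φ ψ : EuclideanSpace ℝ (Fin N) → ℝ}
    (hφ : IsTest Ω φ) (hψ : IsTest Ω ψ) (x : EuclideanSpace ℝ (Fin N)) :
    gradient (fun x => φ x - ψ x) x = gradient φ x - gradient ψ x := by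
  rw [gradient, gradient, gradient, ← map_sub]
  congr 1
  exact fderiv_fun_sub ((hφ.1.differentiable (by simp)) x) ((hψ.1.differentiable (by simp)) x)

theorem gradient_hsm {Ω : Set (EuclideanSpace ℝ (Fin N))} {φ : EuclideanSpace ℝ (Fin N) → ℝ}
    (hφ : IsTest Ω φ) (ε : ℝ) (x : EuclideanSpace ℝ (Fin N)) :
    gradient (fun x => hsm ε (φ x)) x = Real.smoothTransition (φ x / ε) • gradient φ x := by
  rw [gradient, gradient, fderiv_hsm hφ, map_smul]

theorem integrable_inner_grad {Ω : Set (EuclideanSpace ℝ (Fin N))} {φ ψ : EuclideanSpace ℝ (Fin N) → ℝ}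
    (hφ : IsTest Ω φ) (hψ : IsTest Ω ψ) :
    Integrable (fun x => inner ℝ (gradient φ x) (gradient ψ x)) volume := by
  have hc : Continuous (fun x => inner ℝ (gradient φ x) (gradient ψ x)) :=
    (gradient_cont hφ).inner (gradient_cont hψ)
  apply hc.integrable_of_hasCompactSupport
  apply HasCompactSupport.of_support_subset_isCompact (gradient_hcs hψ)
  intro x hx
  apply subset_tsupport
  intro h0
  apply hx
  simp only
  rw [h0, inner_zero_right]

/-- energy estimate for the competitor `max(φ, z)` at the level of test functions -/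
theorem cmp_test (a : EuclideanSpace ℝ (Fin N)) {r ε δ : ℝ} (hr : 0 < r) (hδ : 0 < δ)
    {φ : EuclideanSpace ℝ (Fin N) → ℝ} (hφ : IsTest (ball a r) φ) {δ' : ℝ} (_hδ' : 0 < δ') :
    l1 q (ball a r) * ‖(pairOf q (isTest_hsm (isTest_sub (zz_isTest a (ε := ε) hr hδ) hφ) δ')).1‖ ^ 2 +
      l1 q (ball a r) * ‖(pairOf q hφ).1 +
        (pairOf q (isTest_hsm (isTest_sub (zz_isTest a (ε := ε) hr hδ) hφ) δ')).1‖ ^ 2 ≤
      ‖(pairOf q hφ).2‖ ^ 2 + 2 * ∫ x, rho a r ε δ x * hsm δ' (zz a r ε δ x - φ x) := by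
  set z := zz a r ε δ with hz
  have tz : IsTest (ball a r) z := zz_isTest a hr hδ
  have ts := isTest_sub tz hφ
  have tψ := isTest_hsm ts δ'
  set ψ : EuclideanSpace ℝ (Fin N) → ℝ := fun x => hsm δ' (z x - φ x) with hψ
  have tψ' : IsTest (ball a r) ψ := tψ
  have h1 := l1_ineq (pairOf_mem (q := q) tψ')
  have h2 := l1_ineq (pairOf_mem (q := q) (isTest_add hφ tψ'))
  rw [norm_snd_sq] at h1 h2
  rw [norm_snd_sq]
  have h3 : (pairOf q (isTest_add hφ tψ')).1 = (pairOf q hφ).1 + (pairOf q tψ').1 :=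
    pairOf_add_fst hφ tψ'
  rw [h3] at h2
  have h4 : ∫ x, inner ℝ (gradient z x) (gradient ψ x) = ∫ x, rho a r ε δ x * ψ x :=
    zz_ibp a r ε δ (tψ'.1.of_le (by simp)) tψ'.2.1
  have h5 : (∫ x, ‖fderiv ℝ (fun x => φ x + ψ x) x‖ ^ 2) + ∫ x, ‖fderiv ℝ ψ x‖ ^ 2 ≤
      (∫ x, ‖fderiv ℝ φ x‖ ^ 2) + 2 * ∫ x, inner ℝ (gradient z x) (gradient ψ x) := by
    rw [← integral_const_mul, ← integral_add (integrable_fderiv_sq (isTest_add hφ tψ'))
      (integrable_fderiv_sq tψ'), ← integral_add (integrable_fderiv_sq hφ)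
      ((integrable_inner_grad tz tψ').const_mul 2)]
    apply integral_mono ((integrable_fderiv_sq (isTest_add hφ tψ')).add (integrable_fderiv_sq tψ'))
      ((integrable_fderiv_sq hφ).add ((integrable_inner_grad tz tψ').const_mul 2))
    intro x
    simp only [Pi.add_apply]
    rw [← gradient_norm, ← gradient_norm, ← gradient_norm, gradient_add' hφ tψ']
    simp only
    have g1 : gradient ψ x = Real.smoothTransition ((z x - φ x) / δ') • (gradient z x - gradient φ x) := by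
      rw [← gradient_sub' tz hφ]
      exact gradient_hsm ts δ' x
    set σ := Real.smoothTransition ((z x - φ x) / δ') with hσ
    have hσ0 : 0 ≤ σ := Real.smoothTransition.nonneg _
    have hσ1 : σ ≤ 1 := Real.smoothTransition.le_one _
    have g2 : inner ℝ (gradient z x - gradient φ x) (gradient ψ x) ≥ ‖gradient ψ x‖ ^ 2 := by
      rw [g1, inner_smul_right, real_inner_self_eq_norm_sq, norm_smul, mul_pow, Real.norm_eq_abs, sq_abs]
      have : 0 ≤ ‖gradient z x - gradient φ x‖ ^ 2 := by positivity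
      nlinarith [mul_nonneg hσ0 this, mul_nonneg (mul_nonneg hσ0 (sub_nonneg.mpr hσ1)) this]
    rw [inner_sub_left] at g2
    rw [norm_add_sq_real]
    linarith
  rw [h4] at h5
  linarith

/-- energy estimate for the competitor `max(u, z)` -/
theorem cmp_limit (hq : 1 < q) (a : EuclideanSpace ℝ (Fin N)) {r ε δ η : ℝ} (hr : 0 < r)
    (hε : 0 < ε) (hδ : 0 < δ) (hη : 0 ≤ η)
    (hρ : ∀ x, rho a r ε δ x ≤ η * (zz a r ε δ x) ^ ((q:ℝ) - 1))
    {p : Pairs N q} (hp : p ∈ D012 q (ball a r)) :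
    l1 q (ball a r) * ‖Lp.posPart ((pairOf q (zz_isTest a (ε := ε) hr hδ)).1 - p.1)‖ ^ 2 +
      l1 q (ball a r) * ‖p.1 + Lp.posPart ((pairOf q (zz_isTest a (ε := ε) hr hδ)).1 - p.1)‖ ^ 2 ≤
      ‖p.2‖ ^ 2 + 2 * ∫ x, (η * (zz a r ε δ x) ^ ((q:ℝ) - 1)) *
        (Lp.posPart ((pairOf q (zz_isTest a (ε := ε) hr hδ)).1 - p.1)) x := by
  have hq1 : (1:ℝ) < q := by exact_mod_cast hq
  set z := zz a r ε δ with hz
  have tz : IsTest (ball a r) z := zz_isTest a hr hδ
  have hz0 : ∀ x, 0 ≤ z x := by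
    intro x
    rw [hz, zz]
    rcases le_total (df a r x) δ with h | h
    · rw [cvx_zero hδ h, mul_zero]
    · exact mul_nonneg hε.le (cvx_nonneg hδ (by linarith))
  set Z := (pairOf q tz).1 with hZ
  set g : EuclideanSpace ℝ (Fin N) → ℝ := fun x => η * (z x) ^ ((q:ℝ) - 1) with hg
  have hgc : Continuous g := continuous_const.mul
    (tz.1.continuous.rpow_const (fun _ => Or.inr (by linarith)))
  have hgs : HasCompactSupport g := by
    apply HasCompactSupport.of_support_subset_isCompact tz.2.1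
    intro x hx
    apply subset_tsupport
    intro h0
    apply hx
    simp only [hg]
    rw [h0, Real.zero_rpow (by linarith), mul_zero]
  have hgm : MemLp g (ENNReal.conjExponent (q : ℝ≥0∞)) volume := hgc.memLp_of_hasCompactSupport hgs
  have hg0 : ∀ x, 0 ≤ g x := fun x => by
    have := hz0 x
    positivity
  have hpc : Continuous fun p : Pairs N q => Lp.posPart (Z - p.1) :=
    Lp.continuous_posPart.comp (by fun_prop)
  apply D012_induction (P := fun p : Pairs N q =>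
    l1 q (ball a r) * ‖Lp.posPart (Z - p.1)‖ ^ 2 + l1 q (ball a r) * ‖p.1 + Lp.posPart (Z - p.1)‖ ^ 2 ≤
      ‖p.2‖ ^ 2 + 2 * ∫ x, g x * (Lp.posPart (Z - p.1)) x) _ _ hp
  · apply isClosed_le
    · exact ((hpc.norm.pow 2).const_mul _).add (((continuous_fst.add hpc).norm.pow 2).const_mul _)
    · exact (continuous_snd.norm.pow 2).add (((continuous_dual hgm).comp hpc).const_mul 2)
  · intro φ hφ
    have ts := isTest_sub tz hφ
    have e0 : (pairOf q ts).1 = Z - (pairOf q hφ).1 := pairOf_sub_fst tz hφ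
    have t1 := tendsto_hsm (q := q) ts
    rw [e0] at t1
    have key : ∀ n : ℕ, l1 q (ball a r) * ‖(pairOf q (isTest_hsm ts (1 / ((n : ℝ) + 1)))).1‖ ^ 2 +
        l1 q (ball a r) * ‖(pairOf q hφ).1 + (pairOf q (isTest_hsm ts (1 / ((n : ℝ) + 1)))).1‖ ^ 2 ≤
        ‖(pairOf q hφ).2‖ ^ 2 + 2 * ∫ x, g x * (Lp.posPart (Z - (pairOf q hφ).1)) x := by
      intro n
      have hn : (0:ℝ) < 1 / ((n : ℝ) + 1) := by positivity
      refine (cmp_test (q := q) a (ε := ε) hr hδ hφ hn).trans ?_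
      have h6 : ∫ x, rho a r ε δ x * hsm (1 / ((n : ℝ) + 1)) (zz a r ε δ x - φ x) ≤
          ∫ x, g x * (Lp.posPart (Z - (pairOf q hφ).1)) x := by
        apply integral_mono_ae
        · have tψ := isTest_hsm ts (1 / ((n : ℝ) + 1))
          exact integrable_mul_supp isOpen_univ (rho_cont a r ε δ).continuousOn tψ.1.continuous tψ.2.1
            (subset_univ _)
        · exact integrable_dual hgm _
        · filter_upwards [Lp.coeFn_posPart (Z - (pairOf q hφ).1), Lp.coeFn_sub Z (pairOf q hφ).1,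
            MemLp.coeFn_toLp (memLp_test tz q), MemLp.coeFn_toLp (memLp_test hφ q)] with x a1 a2 a3 a4
          have a3' : Z x = z x := a3
          have a4' : (pairOf q hφ).1 x = φ x := a4
          rw [a1, a2, Pi.sub_apply, a3', a4']
          have b1 : 0 ≤ hsm (1 / ((n : ℝ) + 1)) (z x - φ x) := hsm_nonneg hn
          have b2 : hsm (1 / ((n : ℝ) + 1)) (z x - φ x) ≤ max (z x - φ x) 0 := by
            rcases le_total (z x - φ x) 0 with h | h
            · rw [hsm_nonpos hn h]; exact le_max_right _ _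
            · exact (hsm_le h).trans (le_max_left _ _)
          calc rho a r ε δ x * hsm (1 / ((n : ℝ) + 1)) (z x - φ x) ≤
                g x * hsm (1 / ((n : ℝ) + 1)) (z x - φ x) := mul_le_mul_of_nonneg_right (hρ x) b1
            _ ≤ g x * max (z x - φ x) 0 := mul_le_mul_of_nonneg_left b2 (hg0 x)
      linarith
    have t3 : Tendsto (fun n : ℕ => l1 q (ball a r) * ‖(pairOf q (isTest_hsm ts (1 / ((n : ℝ) + 1)))).1‖ ^ 2 +
        l1 q (ball a r) * ‖(pairOf q hφ).1 + (pairOf q (isTest_hsm ts (1 / ((n : ℝ) + 1)))).1‖ ^ 2) atTop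
        (𝓝 (l1 q (ball a r) * ‖Lp.posPart (Z - (pairOf q hφ).1)‖ ^ 2 +
          l1 q (ball a r) * ‖(pairOf q hφ).1 + Lp.posPart (Z - (pairOf q hφ).1)‖ ^ 2)) :=
      ((t1.norm.pow 2).const_mul _).add (((tendsto_const_nhds.add t1).norm.pow 2).const_mul _)
    exact le_of_tendsto t3 (Eventually.of_forall key)

/-- a nonnegative minimiser on a ball lies above the subsolution -/
theorem cmp_main (hq : 1 < q) (hq2 : q < 2) (a : EuclideanSpace ℝ (Fin N)) {r ε δ η : ℝ}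
    (hr : 0 < r) (hε : 0 < ε) (hδ : 0 < δ) (hη : 0 ≤ η) (hηL : η ≤ l1 q (ball a r) / 2)
    (hL : 0 < l1 q (ball a r))
    (hρ : ∀ x, rho a r ε δ x ≤ η * (zz a r ε δ x) ^ ((q:ℝ) - 1))
    {p : Pairs N q} (hp : p ∈ D012 q (ball a r)) (hp1 : ‖p.1‖ = 1)
    (hp2 : ‖p.2‖ ^ 2 = l1 q (ball a r)) (hpn : ∀ᵐ x ∂volume, 0 ≤ p.1 x) :
    ∀ᵐ x ∂volume, zz a r ε δ x ≤ p.1 x := by
  have hq1 : (1:ℝ) < q := by exact_mod_cast hq
  have hq2' : (q:ℝ) < 2 := by exact_mod_cast hq2
  have hq0 : (0:ℝ) < q := by linarith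
  have h1 := cmp_limit hq a hr hε hδ hη hρ hp
  set L := l1 q (ball a r) with hLdef
  set z := zz a r ε δ with hz
  have tz : IsTest (ball a r) z := zz_isTest a hr hδ
  have hz0 : ∀ x, 0 ≤ z x := by
    intro x
    rw [hz, zz]
    rcases le_total (df a r x) δ with h | h
    · rw [cvx_zero hδ h, mul_zero]
    · exact mul_nonneg hε.le (cvx_nonneg hδ (by linarith))
  set Z := (pairOf q tz).1 with hZ
  set P := Lp.posPart (Z - p.1) with hP
  have hPx : ∀ᵐ x ∂volume, P x = max (z x - p.1 x) 0 := by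
    filter_upwards [Lp.coeFn_posPart (Z - p.1), Lp.coeFn_sub Z p.1,
      MemLp.coeFn_toLp (memLp_test tz q)] with x a1 a2 a3
    have a3' : Z x = z x := a3
    rw [a1, a2, Pi.sub_apply, a3']
  -- the mass of z^{q-1} (z - u)^+
  have hgc : Continuous fun x => (z x) ^ ((q:ℝ) - 1) :=
    tz.1.continuous.rpow_const (fun _ => Or.inr (by linarith))
  have hgs : HasCompactSupport fun x => (z x) ^ ((q:ℝ) - 1) := by
    apply HasCompactSupport.of_support_subset_isCompact tz.2.1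
    intro x hx
    apply subset_tsupport
    intro h0
    apply hx
    simp only
    rw [h0, Real.zero_rpow (by linarith)]
  have hgm : MemLp (fun x => (z x) ^ ((q:ℝ) - 1)) (ENNReal.conjExponent (q : ℝ≥0∞)) volume :=
    hgc.memLp_of_hasCompactSupport hgs
  set m := ∫ x, (z x) ^ ((q:ℝ) - 1) * P x with hm
  have hm0 : 0 ≤ m := by
    apply integral_nonneg_of_ae
    filter_upwards [hPx] with x hx
    rw [hx, Pi.zero_apply]
    have := hz0 x
    positivity
  have e1 : ∫ x, (η * (z x) ^ ((q:ℝ) - 1)) * P x = η * m := by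
    rw [hm, ← integral_const_mul]
    congr 1
    ext x
    ring
  rw [e1, hp2] at h1
  -- the norm of the maximum
  have h2 : 1 + m ≤ ‖p.1 + P‖ ^ (q:ℝ) := by
    have h3 : (1:ℝ) = ‖p.1‖ ^ (q:ℝ) := by rw [hp1, Real.one_rpow]
    rw [h3, norm_Lp_rpow, norm_Lp_rpow, hm, ← integral_add (integrable_abs_rpow _) (integrable_dual hgm P)]
    apply integral_mono_ae ((integrable_abs_rpow _).add (integrable_dual hgm P)) (integrable_abs_rpow _)
    filter_upwards [hPx, Lp.coeFn_add p.1 P, hpn] with x a1 a2 a3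
    rw [a2]
    simp only [Pi.add_apply]
    rw [a1]
    have b0 := hz0 x
    rcases le_total (z x - p.1 x) 0 with h | h
    · rw [max_eq_right h]; simp
    · rw [max_eq_left h, abs_of_nonneg a3, add_sub_cancel, abs_of_nonneg b0]
      have b1 : p.1 x ≤ z x := by linarith
      have b2 : (p.1 x) ^ ((q:ℝ) - 1) ≤ (z x) ^ ((q:ℝ) - 1) := Real.rpow_le_rpow a3 b1 (by linarith)
      have b3 : ∀ t : ℝ, 0 ≤ t → t ^ (q:ℝ) = t * t ^ ((q:ℝ) - 1) := by
        intro t ht
        rcases eq_or_lt_of_le ht with h0 | h0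
        · rw [← h0, Real.zero_rpow hq0.ne', zero_mul]
        · nth_rw 2 [← Real.rpow_one t]
          rw [← Real.rpow_add h0]
          congr 1
          ring
      rw [b3 _ a3, b3 _ b0]
      nlinarith
  have h4 : 1 + m ≤ ‖p.1 + P‖ ^ 2 := by
    have h5 : ‖p.1 + P‖ ^ 2 = (‖p.1 + P‖ ^ (q:ℝ)) ^ ((2:ℝ) / q) := by
      rw [← Real.rpow_mul (norm_nonneg _)]
      have : (q:ℝ) * (2 / q) = (2:ℕ) := by field_simp; norm_num
      rw [this, Real.rpow_natCast]
    rw [h5]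
    have h6 : (1:ℝ) ≤ 2 / q := by
      rw [le_div_iff₀ hq0]; linarith
    have h7 : (1:ℝ) ≤ ‖p.1 + P‖ ^ (q:ℝ) := by linarith
    calc 1 + m ≤ ‖p.1 + P‖ ^ (q:ℝ) := h2
      _ = (‖p.1 + P‖ ^ (q:ℝ)) ^ (1:ℝ) := by rw [Real.rpow_one]
      _ ≤ _ := Real.rpow_le_rpow_of_exponent_le h7 h6
  have h8 : L * (1 + m) ≤ L * ‖p.1 + P‖ ^ 2 := by gcongr
  have h9 : η * m ≤ L / 2 * m := by gcongr
  have h10 : L * ‖P‖ ^ 2 ≤ 0 := by linarith
  have h11 : ‖P‖ = 0 := by
    have : ‖P‖ ^ 2 ≤ 0 := by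
      by_contra hc
      rw [not_le] at hc
      have := mul_pos hL hc
      linarith
    have h12 : ‖P‖ ^ 2 = 0 := le_antisymm this (by positivity)
    exact pow_eq_zero_iff (by norm_num) |>.mp h12
  rw [norm_eq_zero] at h11
  rw [Lp.eq_zero_iff_ae_eq_zero] at h11
  filter_upwards [hPx, h11] with x a1 a2
  rw [a1, Pi.zero_apply] at a2
  have := le_max_left (z x - p.1 x) 0
  linarith

/-- positivity of the minimiser: quadratic lower bound in the defining function -/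
theorem lower_bound (hN : 2 ≤ N) (hq : 1 < q) (hq2 : q < 2) (a : EuclideanSpace ℝ (Fin N)) {r : ℝ}
    (hr : 0 < r) (hL : 0 < l1 q (ball a r)) :
    ∃ c : ℝ, 0 < c ∧ ∀ p ∈ D012 q (ball a r), ‖p.1‖ = 1 → ‖p.2‖ ^ 2 = l1 q (ball a r) →
      (∀ᵐ x ∂volume, 0 ≤ p.1 x) → ∀ᵐ x ∂volume, x ∈ ball a r → c * (df a r x) ^ 2 ≤ p.1 x := by
  have hq1 : (1:ℝ) < q := by exact_mod_cast hq
  have hq2' : (q:ℝ) < 2 := by exact_mod_cast hq2
  obtain ⟨ε, δ₀, hε, hδ₀, h⟩ := exists_sub hN a hr (half_pos hL) hq1 hq2'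
  refine ⟨ε / 8, by positivity, ?_⟩
  intro p hp hp1 hp2 hpn
  -- countably many δ
  have h1 : ∀ n : ℕ, ∀ᵐ x ∂volume, zz a r ε (min δ₀ (1 / ((n:ℝ) + 1))) x ≤ p.1 x := by
    intro n
    have hδ : 0 < min δ₀ (1 / ((n:ℝ) + 1)) := lt_min hδ₀ (by positivity)
    exact cmp_main hq hq2 a hr hε hδ (half_pos hL).le le_rfl hL
      (fun x => h _ hδ (min_le_left _ _) x) hp hp1 hp2 hpn
  rw [← ae_all_iff] at h1
  filter_upwards [h1] with x hx hxb
  have hs : 0 < df a r x := (df_pos_iff a hr x).mpr hxb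
  obtain ⟨n, hn⟩ := exists_nat_one_div_lt (show 0 < df a r x / 4 by positivity)
  have h2 := hx n
  set δ := min δ₀ (1 / ((n:ℝ) + 1)) with hδ
  have hδpos : 0 < δ := lt_min hδ₀ (by positivity)
  have hδs : δ ≤ df a r x / 4 := (min_le_right _ _).trans hn.le
  have h3 := cvx_ge hδpos (show 2 * δ ≤ df a r x by linarith)
  refine le_trans ?_ h2
  rw [zz]
  have h4 : (df a r x / 2) ^ 2 ≤ (df a r x - 2 * δ) ^ 2 := by
    have : df a r x / 2 ≤ df a r x - 2 * δ := by linarith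
    gcongr
  have h5 : (df a r x) ^ 2 / 8 ≤ cvx δ (df a r x) := by linarith
  calc ε / 8 * (df a r x) ^ 2 = ε * ((df a r x) ^ 2 / 8) := by ring
    _ ≤ _ := by gcongr

end Pool.Agent.Helper793.Cmp
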