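import Pool.Agent.Helper793.Har

set_option autoImplicit false
set_option linter.unusedSectionVars false

open MeasureTheory Metric Set Filter Topology
open scoped ENNReal NNReal
open Pool.Agent.Helper793.QEig Pool.Agent.Helper793.Sob Pool.Agent.Helper793.Cut

namespace Pool.Agent.Helper793.Cpt

variable {N : ℕ}

variable {q : ℝ≥0} [Fact (1 ≤ (q : ℝ≥0∞))]

/-- minimising sequences converge strongly along a subsequence -/
theorem compact_seq {Ω : Set (EuclideanSpace ℝ (Fin N))} (hN : 2 ≤ N)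
    (hb : Bornology.IsBounded Ω) (hq' : ((N : ℝ) - 2) * q < 2 * N) {u : ℕ → Pairs N q}
    (hu : ∀ n, u n ∈ D012 q Ω) (h1 : ∀ n, ‖(u n).1‖ = 1)
    (h2 : Tendsto (fun n => ‖(u n).2‖ ^ 2) atTop (𝓝 (l1 q Ω))) :
    ∃ P ∈ D012 q Ω, ‖P.1‖ = 1 ∧ ‖P.2‖ ^ 2 = l1 q Ω ∧
      ∃ k : ℕ → ℕ, StrictMono k ∧ Tendsto (fun n => u (k n)) atTop (𝓝 P) := by
  obtain ⟨M, hM⟩ := h2.bddAbove_range
  have hM' : ∀ n, ‖(u n).2‖ ≤ √M := by
    intro n
    apply Real.le_sqrt_of_sq_le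
    exact hM ⟨n, rfl⟩
  have hT := totallyBounded_D (q := q) hN hb one_le_q hq' (√M)
  set S := (fun p : Pairs N q => p.1) '' {p | p ∈ D012 q Ω ∧ ‖p.2‖ ≤ √M} with hS
  have hK : IsCompact (closure S) := hT.closure.isCompact_of_isClosed isClosed_closure
  have hmem : ∀ n, (u n).1 ∈ closure S := fun n => subset_closure ⟨u n, ⟨hu n, hM' n⟩, rfl⟩
  obtain ⟨y, _, k, hk, hlim⟩ := hK.tendsto_subseq hmem
  have hlim' : Tendsto (fun n => (u (k n)).1) atTop (𝓝 y) := hlim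
  have hy : ‖y‖ = 1 := by
    have := hlim'.norm
    simp_rw [h1] at this
    exact (tendsto_nhds_unique this tendsto_const_nhds)
  set Λ := l1 q Ω with hΛ
  have h2k : Tendsto (fun n => ‖(u (k n)).2‖ ^ 2) atTop (𝓝 Λ) := h2.comp hk.tendsto_atTop
  -- Cauchy
  have hE : Tendsto (fun n : ℕ × ℕ => 2 * ‖(u (k n.1)).2‖ ^ 2 + 2 * ‖(u (k n.2)).2‖ ^ 2 -
      Λ * ‖(u (k n.1)).1 + (u (k n.2)).1‖ ^ 2) atTop (𝓝 0) := by
    rw [← prod_atTop_atTop_eq]
    have a1 : Tendsto (fun n : ℕ × ℕ => ‖(u (k n.1)).2‖ ^ 2) (atTop ×ˢ atTop) (𝓝 Λ) :=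
      h2k.comp tendsto_fst
    have a2 : Tendsto (fun n : ℕ × ℕ => ‖(u (k n.2)).2‖ ^ 2) (atTop ×ˢ atTop) (𝓝 Λ) :=
      h2k.comp tendsto_snd
    have a3 : Tendsto (fun n : ℕ × ℕ => (u (k n.1)).1) (atTop ×ˢ atTop) (𝓝 y) :=
      hlim'.comp tendsto_fst
    have a4 : Tendsto (fun n : ℕ × ℕ => (u (k n.2)).1) (atTop ×ˢ atTop) (𝓝 y) :=
      hlim'.comp tendsto_snd
    have a5 := ((a1.const_mul 2).add (a2.const_mul 2)).sub (((a3.add a4).norm.pow 2).const_mul Λ)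
    have e : 2 * Λ + 2 * Λ - Λ * ‖y + y‖ ^ 2 = 0 := by
      rw [← two_smul ℝ y, norm_smul, hy, Real.norm_two]
      ring
    rw [e] at a5
    exact a5
  have hc2 : CauchySeq (fun n => (u (k n)).2) := by
    rw [cauchySeq_iff_tendsto_dist_atTop_0]
    have hsq := (Real.continuous_sqrt.tendsto 0).comp hE
    rw [Real.sqrt_zero] at hsq
    refine squeeze_zero (fun _ => dist_nonneg) (fun n => ?_) hsq
    apply Real.le_sqrt_of_sq_le
    rw [dist_eq_norm]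
    have e1 := l1_ineq (D012_add (hu (k n.1)) (hu (k n.2)))
    rw [Prod.fst_add, Prod.snd_add] at e1
    have e2 := parallelogram_law_with_norm ℝ (u (k n.1)).2 (u (k n.2)).2
    nlinarith
  have hc1 : CauchySeq (fun n => (u (k n)).1) := hlim'.cauchySeq
  obtain ⟨z, hz⟩ := cauchySeq_tendsto_of_complete hc2
  have hlimP : Tendsto (fun n => u (k n)) atTop (𝓝 (y, z)) := hlim'.prodMk_nhds hz
  refine ⟨(y, z), ?_, hy, ?_, k, hk, hlimP⟩
  · exact (D012_closed Ω).mem_of_tendsto hlimP (Eventually.of_forall fun n => hu (k n))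
  · exact tendsto_nhds_unique (hz.norm.pow 2) h2k

end Pool.Agent.Helper793.Cpt
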