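import Pool.Agent.Helper793.Sob4
set_option autoImplicit false
set_option linter.unusedSectionVars false
open MeasureTheory Metric Set Filter Topology
open scoped ENNReal NNReal

namespace Pool.Agent.Helper793.Cut

open Pool.Agent.Helper793.QEig Pool.Agent.Helper793.Sob

variable {N : ℕ} {q : ℝ≥0} [Fact (1 ≤ (q : ℝ≥0∞))]

/-- the mass of `|f|^q` on `W` -/
noncomputable def mass (W : Set (EuclideanSpace ℝ (Fin N)))
    (f : Lp ℝ (q : ℝ≥0∞) (volume : Measure (EuclideanSpace ℝ (Fin N)))) : ℝ :=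
  ∫ x in W, |f x| ^ (q : ℝ)

theorem q_pos : (0:ℝ) < q := by
  have hq : (1:ℝ) ≤ q := by exact_mod_cast one_le_q (q := q)
  linarith

theorem qe_ne : (q : ℝ≥0∞) ≠ 0 := by
  have := one_le_q (q := q)
  have : 0 < q := lt_of_lt_of_le one_pos this
  exact_mod_cast this.ne'

theorem mass_eq_norm (W : Set (EuclideanSpace ℝ (Fin N)))
    (f : Lp ℝ (q : ℝ≥0∞) (volume : Measure (EuclideanSpace ℝ (Fin N)))) :
    mass W f = ‖LpToLpRestrictCLM (EuclideanSpace ℝ (Fin N)) ℝ ℝ volume (q : ℝ≥0∞) W f‖ ^ (q:ℝ) := by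
  set g := LpToLpRestrictCLM (EuclideanSpace ℝ (Fin N)) ℝ ℝ volume (q : ℝ≥0∞) W f with hg
  have hq0 := q_pos (q := q)
  have h1 : g =ᵐ[volume.restrict W] f := LpToLpRestrictCLM_coeFn ℝ W f
  rw [Lp.norm_def, (Lp.memLp g).eLpNorm_eq_integral_rpow_norm qe_ne ENNReal.coe_ne_top,
    ENNReal.toReal_ofReal (by positivity)]
  simp only [ENNReal.coe_toReal, Real.norm_eq_abs]
  rw [← Real.rpow_mul (integral_nonneg fun _ => by positivity), inv_mul_cancel₀ hq0.ne',
    Real.rpow_one, mass]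
  apply integral_congr_ae
  filter_upwards [h1] with x hx
  rw [hx]

theorem continuous_mass (W : Set (EuclideanSpace ℝ (Fin N))) :
    Continuous (fun f : Lp ℝ (q : ℝ≥0∞) (volume : Measure (EuclideanSpace ℝ (Fin N))) => mass W f) := by
  simp_rw [mass_eq_norm]
  exact (ContinuousLinearMap.continuous _).norm.rpow_const (fun _ => Or.inr (q_pos (q := q)).le)

theorem mass_nonneg (W : Set (EuclideanSpace ℝ (Fin N)))
    (f : Lp ℝ (q : ℝ≥0∞) (volume : Measure (EuclideanSpace ℝ (Fin N)))) : 0 ≤ mass W f :=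
  integral_nonneg fun x => by positivity

theorem mass_add_compl {W : Set (EuclideanSpace ℝ (Fin N))} (hW : MeasurableSet W)
    (f : Lp ℝ (q : ℝ≥0∞) (volume : Measure (EuclideanSpace ℝ (Fin N)))) :
    mass W f + mass Wᶜ f = ‖f‖ ^ (q:ℝ) := by
  rw [norm_Lp_rpow]
  exact integral_add_compl hW (integrable_abs_rpow f)

theorem mass_mono {W W' : Set (EuclideanSpace ℝ (Fin N))} (h : W ⊆ W')
    (f : Lp ℝ (q : ℝ≥0∞) (volume : Measure (EuclideanSpace ℝ (Fin N)))) :
    mass W f ≤ mass W' f :=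
  setIntegral_mono_set (integrable_abs_rpow f).integrableOn
    (Eventually.of_forall fun x => by positivity) (Eventually.of_forall h)

theorem mass_le_add {W T S : Set (EuclideanSpace ℝ (Fin N))} (hS : MeasurableSet S)
    (h : W ⊆ T ∪ S)
    (f : Lp ℝ (q : ℝ≥0∞) (volume : Measure (EuclideanSpace ℝ (Fin N)))) :
    mass W f ≤ mass T f + mass S f := by
  have hi : ∀ s : Set (EuclideanSpace ℝ (Fin N)), IntegrableOn (fun x => |f x| ^ (q:ℝ)) s volume :=
    fun s => (integrable_abs_rpow f).integrableOn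
  have h1 : mass W f ≤ mass ((T \ S) ∪ S) f := mass_mono (by rwa [diff_union_self]) f
  have h2 : mass ((T \ S) ∪ S) f = mass (T \ S) f + mass S f :=
    setIntegral_union disjoint_sdiff_left hS (hi _) (hi _)
  have h3 : mass (T \ S) f ≤ mass T f := mass_mono diff_subset f
  linarith

theorem mass_smul (W : Set (EuclideanSpace ℝ (Fin N))) (c : ℝ)
    (f : Lp ℝ (q : ℝ≥0∞) (volume : Measure (EuclideanSpace ℝ (Fin N)))) :
    mass W (c • f) = |c| ^ (q:ℝ) * mass W f := by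
  rw [mass, mass, ← integral_const_mul]
  apply integral_congr_ae
  apply ae_restrict_of_ae
  filter_upwards [Lp.coeFn_smul c f] with x hx
  rw [hx, Pi.smul_apply, smul_eq_mul, abs_mul, Real.mul_rpow (abs_nonneg _) (abs_nonneg _)]

theorem mass_abs (W : Set (EuclideanSpace ℝ (Fin N)))
    (f : Lp ℝ (q : ℝ≥0∞) (volume : Measure (EuclideanSpace ℝ (Fin N)))) :
    mass W (Lp.posPart f + Lp.negPart f) = mass W f := by
  apply integral_congr_ae
  apply ae_restrict_of_ae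
  filter_upwards [Lp.coeFn_posPart f, Lp.coeFn_negPart_eq_max f,
    Lp.coeFn_add (Lp.posPart f) (Lp.negPart f)] with x h1 h2 h3
  rw [h3, Pi.add_apply, h1, h2]
  rcases le_total (f x) 0 with h | h
  · rw [max_eq_right h, max_eq_left (by linarith), zero_add, abs_neg]
  · rw [max_eq_left h, max_eq_right (by linarith), add_zero]

theorem norm_abs
    (f : Lp ℝ (q : ℝ≥0∞) (volume : Measure (EuclideanSpace ℝ (Fin N)))) :
    ‖Lp.posPart f + Lp.negPart f‖ = ‖f‖ := by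
  have h1 : ∀ g : Lp ℝ (q : ℝ≥0∞) (volume : Measure (EuclideanSpace ℝ (Fin N))),
      mass univ g = ‖g‖ ^ (q:ℝ) := by
    intro g
    rw [norm_Lp_rpow, mass, setIntegral_univ]
  have h2 := mass_abs univ f
  rw [h1, h1] at h2
  exact (Real.rpow_left_inj (norm_nonneg _) (norm_nonneg _) (q_pos (q := q)).ne').mp h2

theorem abs_nonneg_ae
    (f : Lp ℝ (q : ℝ≥0∞) (volume : Measure (EuclideanSpace ℝ (Fin N)))) :
    ∀ᵐ x ∂volume, 0 ≤ (Lp.posPart f + Lp.negPart f) x := by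
  filter_upwards [Lp.coeFn_posPart f, Lp.coeFn_negPart_eq_max f,
    Lp.coeFn_add (Lp.posPart f) (Lp.negPart f)] with x h1 h2 h3
  rw [h3, Pi.add_apply, h1, h2]
  positivity

theorem mass_test {Ω : Set (EuclideanSpace ℝ (Fin N))} (W : Set (EuclideanSpace ℝ (Fin N)))
    {φ : EuclideanSpace ℝ (Fin N) → ℝ} (hφ : IsTest Ω φ) :
    mass W (pairOf q hφ).1 = ∫ x in W, |φ x| ^ (q:ℝ) := by
  apply integral_congr_ae
  apply ae_restrict_of_ae
  filter_upwards [MemLp.coeFn_toLp (memLp_test hφ q)] with x hx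
  have : (pairOf q hφ).1 x = φ x := hx
  rw [this]

theorem mass_test_eLpNorm {Ω : Set (EuclideanSpace ℝ (Fin N))} (W : Set (EuclideanSpace ℝ (Fin N)))
    {φ : EuclideanSpace ℝ (Fin N) → ℝ} (hφ : IsTest Ω φ) :
    mass W (pairOf q hφ).1 = ((eLpNorm φ q (volume.restrict W)).toReal) ^ (q:ℝ) := by
  have h1 := ((memLp_test hφ q).restrict W).eLpNorm_eq_integral_rpow_norm qe_ne ENNReal.coe_ne_top
  have hq0 := q_pos (q := q)
  rw [mass_test, h1, ENNReal.toReal_ofReal (by positivity)]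
  simp only [ENNReal.coe_toReal, Real.norm_eq_abs]
  rw [← Real.rpow_mul (integral_nonneg fun _ => by positivity), inv_mul_cancel₀ hq0.ne',
    Real.rpow_one]

/-! ### Poincare in a thin set -/

theorem thin_poincare {φ : EuclideanSpace ℝ (Fin N) → ℝ} (hφ : ContDiff ℝ 1 φ)
    (w : EuclideanSpace ℝ (Fin N)) {S W : Set (EuclideanSpace ℝ (Fin N))} (hS : MeasurableSet S)
    (hinv : ∀ t : ℝ, ∀ x, x + t • w ∈ S ↔ x ∈ S) (hWS : W ⊆ S)
    (h0 : ∀ x ∈ W, φ x ≠ 0 → φ (x + w) = 0) :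
    ∫⁻ x in W, ‖φ x‖ₑ ^ 2 ≤ ‖w‖ₑ ^ 2 * ∫⁻ x, ‖fderiv ℝ φ x‖ₑ ^ 2 := by
  calc ∫⁻ x in W, ‖φ x‖ₑ ^ 2 ≤ ∫⁻ x in W, ‖φ (x + w) - φ x‖ₑ ^ 2 := by
        apply lintegral_mono_ae
        have hm : Measurable fun x => ‖φ x‖ₑ ^ 2 := by
          have := hφ.continuous
          fun_prop
        have hm2 : Measurable fun x => ‖φ (x + w) - φ x‖ₑ ^ 2 := by
          have := hφ.continuous
          fun_prop
        have hms : MeasurableSet {x | ‖φ x‖ₑ ^ 2 ≤ ‖φ (x + w) - φ x‖ₑ ^ 2} :=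
          measurableSet_le hm hm2
        rw [ae_restrict_iff hms]
        refine Eventually.of_forall fun x hx => ?_
        by_cases hz : φ x = 0
        · rw [hz]; simp
        · rw [h0 x hx hz, zero_sub, enorm_neg]
    _ ≤ ∫⁻ x in S, ‖φ (x + w) - φ x‖ₑ ^ 2 := lintegral_mono_set hWS
    _ ≤ ‖w‖ₑ ^ 2 * ∫⁻ x in S, ‖fderiv ℝ φ x‖ₑ ^ 2 := lintegral_sub_translate_le hφ w hS hinv
    _ ≤ _ := by
      gcongr
      exact Measure.restrict_le_self

/-- Interpolated form: a thin set carries little mass. -/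
theorem thin_mass (hN : 2 ≤ N) {B : Set (EuclideanSpace ℝ (Fin N))} (hB : Bornology.IsBounded B)
    (hq2 : 2 ≤ q) (hq' : ((N : ℝ) - 2) * q < 2 * N) :
    ∃ C α : ℝ, 0 < C ∧ 0 < α ∧ ∀ (Ω W : Set (EuclideanSpace ℝ (Fin N))) (τ : ℝ), 0 ≤ τ →
      Ω ⊆ B →
      (∀ φ : EuclideanSpace ℝ (Fin N) → ℝ, IsTest Ω φ →
        ∫⁻ x in W, ‖φ x‖ₑ ^ 2 ≤ ENNReal.ofReal τ ^ 2 * ∫⁻ x, ‖fderiv ℝ φ x‖ₑ ^ 2) →
      ∀ p ∈ D012 q Ω, mass W p.1 ≤ (C * τ ^ α * ‖p.2‖) ^ (q:ℝ) := by
  obtain ⟨q1, hqq1, hq1'⟩ := exists_exponent hN hq'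
  have hq1 : 1 ≤ q1 := (one_le_q (q := q)).trans hqq1.le
  obtain ⟨C₁, hC₁⟩ := sobolev hN hB hq1 hq1'
  have hq2' : (2:ℝ) ≤ q := by exact_mod_cast hq2
  have hqq1' : (q:ℝ) < q1 := by exact_mod_cast hqq1
  have hq0 := q_pos (q := q)
  have hden : 0 < (q1:ℝ) - 2 := by linarith
  set a := ((q1:ℝ) - q) / (q1 - 2) with ha
  set b := ((q:ℝ) - 2) / (q1 - 2) with hb
  have ha0 : 0 < a := div_pos (by linarith) hden
  have hb0 : 0 ≤ b := div_nonneg (by linarith) hden.le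
  have hab : a + b = 1 := by rw [ha, hb]; field_simp; ring
  have hexp : 2 * a + q1 * b = q := by rw [ha, hb]; field_simp; ring
  set C := ((C₁:ℝ) + 1) ^ (q1 * b / q) with hC
  refine ⟨C, 2 * a / q, by positivity, by positivity, ?_⟩
  intro Ω W τ hτ hΩB h p hp
  apply D012_induction (P := fun p => mass W p.1 ≤ (C * τ ^ (2 * a / q) * ‖p.2‖) ^ (q:ℝ)) _ _ hp
  · apply isClosed_le ((continuous_mass W).comp continuous_fst)
    exact (by fun_prop : Continuous fun p : Pairs N q => C * τ ^ (2 * a / q) * ‖p.2‖).rpow_const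
      (fun _ => Or.inr hq0.le)
  · intro φ hφ
    rw [mass_test_eLpNorm, norm_pairOf_snd]
    set d := (eLpNorm (fderiv ℝ φ) 2 volume).toReal with hd
    have hd0 : 0 ≤ d := ENNReal.toReal_nonneg
    have hde : eLpNorm (fderiv ℝ φ) 2 volume = ENNReal.ofReal d :=
      (ENNReal.ofReal_toReal (eLpNorm_fderiv_lt_top hφ 2).ne).symm
    have h2 : eLpNorm φ 2 (volume.restrict W) ≤ ENNReal.ofReal (τ * d) := by
      have h3 := h φ hφ
      rw [← eLpNorm_two_sq, ← eLpNorm_two_sq, ← mul_pow, hde, ← ENNReal.ofReal_mul hτ] at h3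
      exact (ENNReal.pow_le_pow_left_iff (by norm_num)).mp h3
    have h1 : eLpNorm φ q1 (volume.restrict W) ≤ ENNReal.ofReal ((C₁ + 1) * d) := by
      calc eLpNorm φ q1 (volume.restrict W) ≤ eLpNorm φ q1 volume :=
            eLpNorm_mono_measure _ Measure.restrict_le_self
        _ ≤ C₁ * eLpNorm (fderiv ℝ φ) 2 volume :=
            hC₁ φ (hφ.1.of_le (by simp)) (((subset_tsupport φ).trans hφ.2.2).trans hΩB)
        _ ≤ ENNReal.ofReal (C₁ + 1) * ENNReal.ofReal d := by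
            rw [hde]
            gcongr
            rw [← ENNReal.ofReal_coe_nnreal]
            apply ENNReal.ofReal_le_ofReal
            linarith
        _ = _ := by rw [ENNReal.ofReal_mul (by positivity)]
    have h4 := interp (μ := volume.restrict W) (hφ.1.continuous.aestronglyMeasurable) hq2 hqq1
      (mul_nonneg hτ hd0) (by positivity) h2 h1
    have h5 : (((τ * d) ^ (2:ℝ)) ^ a * (((C₁ + 1) * d) ^ (q1:ℝ)) ^ b) ^ ((q:ℝ)⁻¹) =
        C * τ ^ (2 * a / q) * d := by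
      rw [← Real.rpow_mul (by positivity), ← Real.rpow_mul (by positivity),
        Real.mul_rpow hτ hd0, Real.mul_rpow (by positivity) hd0]
      have h6 : τ ^ (2 * a) * d ^ (2 * a) * (((C₁:ℝ) + 1) ^ ((q1:ℝ) * b) * d ^ ((q1:ℝ) * b)) =
          ((C₁:ℝ) + 1) ^ ((q1:ℝ) * b) * τ ^ (2 * a) * d ^ (q:ℝ) := by
        have : d ^ (q:ℝ) = d ^ (2 * a) * d ^ ((q1:ℝ) * b) := by
          rw [← Real.rpow_add_of_nonneg hd0 (by positivity) (by positivity), hexp]
        rw [this]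
        ring
      rw [h6, Real.mul_rpow (by positivity) (by positivity), Real.mul_rpow (by positivity) (by positivity),
        ← Real.rpow_mul (by positivity), ← Real.rpow_mul hτ, ← Real.rpow_mul hd0,
        mul_inv_cancel₀ hq0.ne', Real.rpow_one, hC]
      rfl
    rw [ha, hb] at h5
    rw [h5, ← ha] at h4
    apply Real.rpow_le_rpow ENNReal.toReal_nonneg _ hq0.le
    exact ENNReal.toReal_le_of_le_ofReal (by positivity) h4

end Pool.Agent.Helper793.Cut
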