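import Pool.Agent.Helper793.Cut
set_option autoImplicit false
set_option linter.unusedSectionVars false
open MeasureTheory Metric Set Filter Topology
open scoped ENNReal NNReal

namespace Pool.Agent.Helper793.Cut

open Pool.Agent.Helper793.QEig Pool.Agent.Helper793.Sob

variable {N : ℕ}

theorem gradient_coord_mul {Ω : Set (EuclideanSpace ℝ (Fin N))} {φ : EuclideanSpace ℝ (Fin N) → ℝ}
    (hφ : IsTest Ω φ) (i : Fin N) {g : ℝ → ℝ} (hg : Differentiable ℝ g)
    (x : EuclideanSpace ℝ (Fin N)) :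
    gradient (fun x => g (x i) * φ x) x =
      g (x i) • gradient φ x + (deriv g (x i) * φ x) • EuclideanSpace.single i (1:ℝ) := by
  have h1 : HasFDerivAt (fun x : EuclideanSpace ℝ (Fin N) => x i) (EuclideanSpace.proj i :
      EuclideanSpace ℝ (Fin N) →L[ℝ] ℝ) x := (EuclideanSpace.proj i : EuclideanSpace ℝ (Fin N) →L[ℝ] ℝ).hasFDerivAt
  have h2 : HasDerivAt g (deriv g (x i)) (x i) := (hg (x i)).hasDerivAt
  have h3 : HasFDerivAt (fun x : EuclideanSpace ℝ (Fin N) => g (x i)) (deriv g (x i) • (EuclideanSpace.proj i :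
      EuclideanSpace ℝ (Fin N) →L[ℝ] ℝ)) x := h2.comp_hasFDerivAt x h1
  have h4 : HasFDerivAt φ (fderiv ℝ φ x) x := ((hφ.1.differentiable (by simp)) x).hasFDerivAt
  have h5 := (h3.mul h4).fderiv
  have h6 : (InnerProductSpace.toDual ℝ (EuclideanSpace ℝ (Fin N))).symm
      (EuclideanSpace.proj i : EuclideanSpace ℝ (Fin N) →L[ℝ] ℝ) = EuclideanSpace.single i (1:ℝ) := by
    rw [LinearIsometryEquiv.symm_apply_eq]
    ext y
    simp [InnerProductSpace.toDual_apply_apply, EuclideanSpace.inner_single_left]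
  rw [gradient, gradient]
  have h7 : fderiv ℝ (fun x => g (x i) * φ x) x = g (x i) • fderiv ℝ φ x +
      (deriv g (x i) * φ x) • (EuclideanSpace.proj i : EuclideanSpace ℝ (Fin N) →L[ℝ] ℝ) := by
    have : (fun x => g (x i) * φ x) = (fun x : EuclideanSpace ℝ (Fin N) => g (x i)) * φ := rfl
    rw [this, h5, smul_smul, mul_comm (φ x)]
  rw [h7, map_add, map_smul, map_smul, h6]

theorem norm_rot {a b : EuclideanSpace ℝ (Fin N)} {s c : ℝ} (h : s ^ 2 + c ^ 2 = 1) :
    ‖s • a + c • b‖ ^ 2 + ‖c • a - s • b‖ ^ 2 = ‖a‖ ^ 2 + ‖b‖ ^ 2 := by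
  rw [norm_add_sq_real, norm_sub_sq_real, inner_smul_left, inner_smul_right, inner_smul_left,
    inner_smul_right, norm_smul, norm_smul, norm_smul, norm_smul, mul_pow, mul_pow, mul_pow, mul_pow,
    Real.norm_eq_abs, Real.norm_eq_abs, sq_abs, sq_abs]
  simp only [conj_trivial]
  have : s ^ 2 * ‖a‖ ^ 2 + 2 * (s * (c * inner ℝ a b)) + c ^ 2 * ‖b‖ ^ 2 +
      (c ^ 2 * ‖a‖ ^ 2 - 2 * (c * (s * inner ℝ a b)) + s ^ 2 * ‖b‖ ^ 2) =
      (s ^ 2 + c ^ 2) * (‖a‖ ^ 2 + ‖b‖ ^ 2) := by ring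
  rw [this, h, one_mul]

theorem ims {Ω : Set (EuclideanSpace ℝ (Fin N))} {φ : EuclideanSpace ℝ (Fin N) → ℝ}
    (hφ : IsTest Ω φ) (i : Fin N) {θ : ℝ → ℝ} (hθ : Differentiable ℝ θ)
    (x : EuclideanSpace ℝ (Fin N)) :
    ‖gradient (fun x => Real.sin (θ (x i)) * φ x) x‖ ^ 2 +
      ‖gradient (fun x => Real.cos (θ (x i)) * φ x) x‖ ^ 2 =
    ‖gradient φ x‖ ^ 2 + (deriv θ (x i) * φ x) ^ 2 := by
  have h1 := gradient_coord_mul hφ i (g := fun s => Real.sin (θ s)) (Real.differentiable_sin.comp hθ) x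
  have h2 := gradient_coord_mul hφ i (g := fun s => Real.cos (θ s)) (Real.differentiable_cos.comp hθ) x
  have d1 : deriv (fun s => Real.sin (θ s)) (x i) = Real.cos (θ (x i)) * deriv θ (x i) :=
    ((hθ (x i)).hasDerivAt.sin).deriv
  have d2 : deriv (fun s => Real.cos (θ s)) (x i) = - Real.sin (θ (x i)) * deriv θ (x i) :=
    ((hθ (x i)).hasDerivAt.cos).deriv
  rw [h1, h2, d1, d2]
  set b := (deriv θ (x i) * φ x) • EuclideanSpace.single i (1:ℝ) with hb
  have e1 : (Real.cos (θ (x i)) * deriv θ (x i) * φ x) • EuclideanSpace.single i (1:ℝ) =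
      Real.cos (θ (x i)) • b := by rw [hb, smul_smul]; congr 1; ring
  have e2 : (-Real.sin (θ (x i)) * deriv θ (x i) * φ x) • EuclideanSpace.single i (1:ℝ) =
      - (Real.sin (θ (x i)) • b) := by rw [hb, smul_smul, ← neg_smul]; congr 1; ring
  rw [e1, e2, ← sub_eq_add_neg, norm_rot (Real.sin_sq_add_cos_sq _), hb, norm_smul,
    Real.norm_eq_abs, EuclideanSpace.norm_single, norm_one, mul_one, sq_abs]

theorem isTest_coord_mul {Ω : Set (EuclideanSpace ℝ (Fin N))} {φ : EuclideanSpace ℝ (Fin N) → ℝ}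
    (hφ : IsTest Ω φ) (i : Fin N) {g : ℝ → ℝ} (hg : ContDiff ℝ ((⊤ : ℕ∞) : WithTop ℕ∞) g) :
    IsTest Ω (fun x => g (x i) * φ x) := by
  refine ⟨?_, hφ.2.1.mul_left, ?_⟩
  · have h1 : ContDiff ℝ ((⊤ : ℕ∞) : WithTop ℕ∞) (fun x : EuclideanSpace ℝ (Fin N) => x i) :=
      (EuclideanSpace.proj i : EuclideanSpace ℝ (Fin N) →L[ℝ] ℝ).contDiff
    exact (hg.comp h1).mul hφ.1
  · refine subset_trans ?_ hφ.2.2
    exact closure_mono (Function.support_mul_subset_right _ _)

/-- the cutoff angle -/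
noncomputable def ang (c t : ℝ) (s : ℝ) : ℝ := Real.pi / 2 * Real.smoothTransition ((s - c) / (t - c))

theorem ang_contDiff (c t : ℝ) : ContDiff ℝ ((⊤ : ℕ∞) : WithTop ℕ∞) (ang c t) := by
  unfold ang
  have h1 : ContDiff ℝ ((⊤ : ℕ∞) : WithTop ℕ∞) Real.smoothTransition := Real.smoothTransition.contDiff
  exact contDiff_const.mul (h1.comp ((contDiff_id.sub contDiff_const).div_const _))

theorem ang_zero {c t s : ℝ} (hct : c < t) (hs : s ≤ c) : ang c t s = 0 := by
  rw [ang, Real.smoothTransition.zero_of_nonpos, mul_zero]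
  exact div_nonpos_of_nonpos_of_nonneg (by linarith) (by linarith)

theorem ang_one {c t s : ℝ} (hct : c < t) (hs : t ≤ s) : ang c t s = Real.pi / 2 := by
  rw [ang, Real.smoothTransition.one_of_one_le, mul_one]
  rw [le_div_iff₀ (by linarith)]
  linarith

theorem ang_bound {c t : ℝ} (hct : c < t) : ∃ M : ℝ, 0 ≤ M ∧ ∀ s, (s ∈ Icc c t → |deriv (ang c t) s| ≤ M) ∧
    (s ∉ Icc c t → deriv (ang c t) s = 0) := by
  have hcd : Continuous (deriv (ang c t)) := (ang_contDiff c t).continuous_deriv (by simp)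
  obtain ⟨M, hM⟩ := isCompact_Icc.exists_bound_of_continuousOn (s := Icc c t) hcd.continuousOn
  refine ⟨max M 0, le_max_right _ _, fun s => ⟨fun hs => ?_, fun hs => ?_⟩⟩
  · exact (hM s hs).trans (le_max_left _ _)
  · rw [mem_Icc, not_and_or, not_le, not_le] at hs
    rcases hs with hs | hs
    · have : ang c t =ᶠ[𝓝 s] fun _ => 0 := by
        filter_upwards [Iio_mem_nhds hs] with y hy
        exact ang_zero hct (le_of_lt hy)
      rw [this.deriv_eq]
      simp
    · have : ang c t =ᶠ[𝓝 s] fun _ => Real.pi / 2 := by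
        filter_upwards [Ioi_mem_nhds hs] with y hy
        exact ang_one hct (le_of_lt hy)
      rw [this.deriv_eq]
      simp

end Pool.Agent.Helper793.Cut
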