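import Pool.Agent.Helper793.Cut2
set_option autoImplicit false
set_option linter.unusedSectionVars false
open MeasureTheory Metric Set Filter Topology
open scoped ENNReal NNReal

namespace Pool.Agent.Helper793.Cut

open Pool.Agent.Helper793.QEig Pool.Agent.Helper793.Sob

variable {N : ℕ}

theorem measurableSet_coord {i : Fin N} {P : ℝ → Prop} (hP : MeasurableSet {s | P s}) :
    MeasurableSet {x : EuclideanSpace ℝ (Fin N) | P (x i)} := by
  have h1 : Measurable (fun x : EuclideanSpace ℝ (Fin N) => x i) := by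
    have : Continuous (fun x : EuclideanSpace ℝ (Fin N) => x i) := by fun_prop
    exact this.measurable
  exact h1 hP

theorem integrable_test_sq {Ω : Set (EuclideanSpace ℝ (Fin N))} {φ : EuclideanSpace ℝ (Fin N) → ℝ}
    (hφ : IsTest Ω φ) : Integrable (fun x => φ x ^ 2) volume := by
  have h0 : HasCompactSupport (fun x => φ x ^ 2) := by
    have h := hφ.2.1.comp_left (g := fun t : ℝ => t ^ 2) (by simp)
    exact h
  have h1 : Continuous (fun x => φ x ^ 2) := hφ.1.continuous.pow 2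
  exact h1.integrable_of_hasCompactSupport h0

theorem lint_sq {Ω : Set (EuclideanSpace ℝ (Fin N))} {φ : EuclideanSpace ℝ (Fin N) → ℝ}
    (hφ : IsTest Ω φ) (W : Set (EuclideanSpace ℝ (Fin N))) :
    ∫⁻ x in W, ‖φ x‖ₑ ^ 2 = ENNReal.ofReal (∫ x in W, φ x ^ 2) := by
  have hi : Integrable (fun x => φ x ^ 2) volume := integrable_test_sq hφ
  rw [ofReal_integral_eq_lintegral_ofReal hi.integrableOn (Eventually.of_forall fun x => by positivity)]
  apply lintegral_congr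
  intro x
  rw [← enorm_pow, Real.enorm_of_nonneg (by positivity)]

theorem lint_fderiv_sq {Ω : Set (EuclideanSpace ℝ (Fin N))} {φ : EuclideanSpace ℝ (Fin N) → ℝ}
    (hφ : IsTest Ω φ) :
    ∫⁻ x, ‖fderiv ℝ φ x‖ₑ ^ 2 = ENNReal.ofReal (∫ x, ‖fderiv ℝ φ x‖ ^ 2) := by
  rw [ofReal_integral_eq_lintegral_ofReal (integrable_fderiv_sq hφ) (Eventually.of_forall fun x => by positivity)]
  apply lintegral_congr
  intro x
  rw [ENNReal.ofReal_pow (norm_nonneg _), ofReal_norm]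

section corridor

variable {i0 i1 : Fin N} {ε s t : ℝ} {Ω : Set (EuclideanSpace ℝ (Fin N))}

theorem corridor_poincare (hne : i0 ≠ i1) (hε : 0 < ε)
    (hthin : ∀ x ∈ Ω, s ≤ x i0 → x i0 ≤ t → |x i1| < ε) {φ : EuclideanSpace ℝ (Fin N) → ℝ}
    (hφ : IsTest Ω φ) :
    ∫⁻ x in {x | s ≤ x i0 ∧ x i0 ≤ t}, ‖φ x‖ₑ ^ 2 ≤
      ENNReal.ofReal (2 * ε) ^ 2 * ∫⁻ x, ‖fderiv ℝ φ x‖ₑ ^ 2 := by
  set w : EuclideanSpace ℝ (Fin N) := (2 * ε) • EuclideanSpace.single i1 (1:ℝ) with hw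
  have hw0 : w i0 = 0 := by rw [hw]; simp [hne]
  have hw1 : w i1 = 2 * ε := by rw [hw]; simp
  have hwn : ‖w‖ₑ = ENNReal.ofReal (2 * ε) := by
    have h1 : ‖(EuclideanSpace.single i1 (1:ℝ) : EuclideanSpace ℝ (Fin N))‖ₑ = 1 := by
      rw [← ofReal_norm, EuclideanSpace.norm_single, norm_one, ENNReal.ofReal_one]
    rw [hw, enorm_smul, Real.enorm_of_nonneg (by positivity), h1, mul_one]
  have hms : MeasurableSet {x : EuclideanSpace ℝ (Fin N) | s ≤ x i0 ∧ x i0 ≤ t} :=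
    measurableSet_coord (P := fun y => s ≤ y ∧ y ≤ t) (measurableSet_Icc)
  have hmem : ∀ x, φ x ≠ 0 → x ∈ Ω := fun x hx => hφ.2.2 (subset_tsupport φ hx)
  rw [← hwn]
  apply thin_poincare (hφ.1.of_le (by simp)) w hms _ (subset_refl _)
  · rintro x ⟨h1, h2⟩ hx
    by_contra hx'
    have h3 := hthin x (hmem x hx) h1 h2
    have e0 : (x + w) i0 = x i0 := by rw [PiLp.add_apply, hw0, add_zero]
    have h4 := hthin (x + w) (hmem _ hx') (by rw [e0]; exact h1) (by rw [e0]; exact h2)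
    rw [PiLp.add_apply, hw1] at h4
    rw [abs_lt] at h3 h4
    linarith
  · intro r x
    have e0 : (x + r • w) i0 = x i0 := by
      rw [PiLp.add_apply, PiLp.smul_apply, hw0, smul_zero, add_zero]
    rw [mem_ofPred_eq, mem_ofPred_eq, e0]

variable {q : ℝ≥0} [Fact (1 ≤ (q : ℝ≥0∞))]

/-- the cut inequality -/
theorem cut_ineq (hne : i0 ≠ i1) (hε : 0 < ε) {c : ℝ} (hsc : s < c) (hct : c < t)
    (hΩB : Ω ⊆ ball 0 1) {M : ℝ}
    (hMb : ∀ y, (y ∈ Icc c t → |deriv (ang c t) y| ≤ M) ∧ (y ∉ Icc c t → deriv (ang c t) y = 0))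
    (hthin : ∀ x ∈ Ω, s ≤ x i0 → x i0 ≤ t → |x i1| < ε) {p : Pairs N q} (hp : p ∈ D012 q Ω) :
    l1 q (Ω ∩ {x | s < x i0}) * (mass {x | t ≤ x i0} p.1) ^ ((2:ℝ) / q) +
      l1 q (ball (0 : EuclideanSpace ℝ (Fin N)) 1) * (mass {x | c < x i0}ᶜ p.1) ^ ((2:ℝ) / q) ≤
      (1 + M ^ 2 * (2 * ε) ^ 2) * ‖p.2‖ ^ 2 := by
  have hq0 := q_pos (q := q)
  have hl1 : ∀ O : Set (EuclideanSpace ℝ (Fin N)), 0 ≤ l1 q O := by
    intro O
    apply Real.sInf_nonneg
    rintro r ⟨p, _, _, rfl⟩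
    positivity
  apply D012_induction (P := fun p : Pairs N q =>
    l1 q (Ω ∩ {x | s < x i0}) * (mass {x | t ≤ x i0} p.1) ^ ((2:ℝ) / q) +
      l1 q (ball (0 : EuclideanSpace ℝ (Fin N)) 1) * (mass {x | c < x i0}ᶜ p.1) ^ ((2:ℝ) / q) ≤
      (1 + M ^ 2 * (2 * ε) ^ 2) * ‖p.2‖ ^ 2) _ _ hp
  · apply isClosed_le
    · have h1 : Continuous fun p : Pairs N q => (mass {x | t ≤ x i0} p.1) ^ ((2:ℝ) / q) :=
        ((continuous_mass _).comp continuous_fst).rpow_const (fun _ => Or.inr (by positivity))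
      have h2 : Continuous fun p : Pairs N q => (mass {x | c < x i0}ᶜ p.1) ^ ((2:ℝ) / q) :=
        ((continuous_mass _).comp continuous_fst).rpow_const (fun _ => Or.inr (by positivity))
      exact (h1.const_mul _).add (h2.const_mul _)
    · fun_prop
  · intro φ hφ
    set φ1 : EuclideanSpace ℝ (Fin N) → ℝ := fun x => Real.sin (ang c t (x i0)) * φ x with hφ1
    set φ2 : EuclideanSpace ℝ (Fin N) → ℝ := fun x => Real.cos (ang c t (x i0)) * φ x with hφ2
    have hac := ang_contDiff c t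
    have t1' : IsTest Ω φ1 := isTest_coord_mul hφ i0 (g := fun y => Real.sin (ang c t y))
      (Real.contDiff_sin.comp hac)
    have t2' : IsTest Ω φ2 := isTest_coord_mul hφ i0 (g := fun y => Real.cos (ang c t y))
      (Real.contDiff_cos.comp hac)
    have t2 : IsTest (ball 0 1) φ2 := isTest_mono hΩB t2'
    have t1 : IsTest (Ω ∩ {x | s < x i0}) φ1 := by
      refine ⟨t1'.1, t1'.2.1, ?_⟩
      intro x hx
      refine ⟨t1'.2.2 hx, ?_⟩
      have hcl : IsClosed {x : EuclideanSpace ℝ (Fin N) | c ≤ x i0} :=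
        isClosed_le continuous_const (by fun_prop)
      have h3 : tsupport φ1 ⊆ {x | c ≤ x i0} := by
        apply closure_minimal _ hcl
        intro y hy
        by_contra hyc
        rw [mem_ofPred_eq, not_le] at hyc
        apply hy
        simp only [hφ1]
        rw [ang_zero hct hyc.le, Real.sin_zero, zero_mul]
      exact lt_of_lt_of_le hsc (h3 hx)
    have e1 := l1_ineq (pairOf_mem (q := q) t1)
    have e2 := l1_ineq (pairOf_mem (q := q) t2)
    rw [norm_snd_sq, norm_fst_sq] at e1 e2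
    rw [mass_test, mass_test, norm_snd_sq]
    -- masses
    have m1 : ∫ x in {x | t ≤ x i0}, |φ x| ^ (q:ℝ) ≤ ∫ x, |φ1 x| ^ (q:ℝ) := by
      have h4 : ∫ x in {x | t ≤ x i0}, |φ x| ^ (q:ℝ) = ∫ x in {x | t ≤ x i0}, |φ1 x| ^ (q:ℝ) := by
        apply setIntegral_congr_fun (measurableSet_coord (P := fun y => t ≤ y) measurableSet_Ici)
        intro x hx
        simp only [hφ1]
        rw [ang_one hct hx, Real.sin_pi_div_two, one_mul]
      rw [h4]
      exact setIntegral_le_integral (integrable_test_rpow t1 hq0) (Eventually.of_forall fun x => by positivity)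
    have m2 : ∫ x in {x | c < x i0}ᶜ, |φ x| ^ (q:ℝ) ≤ ∫ x, |φ2 x| ^ (q:ℝ) := by
      have h4 : ∫ x in {x | c < x i0}ᶜ, |φ x| ^ (q:ℝ) = ∫ x in {x | c < x i0}ᶜ, |φ2 x| ^ (q:ℝ) := by
        apply setIntegral_congr_fun (measurableSet_coord (P := fun y => c < y) measurableSet_Ioi).compl
        intro x hx
        simp only [hφ2]
        rw [mem_compl_iff, mem_ofPred_eq, not_lt] at hx
        rw [ang_zero hct hx, Real.cos_zero, one_mul]
      rw [h4]
      exact setIntegral_le_integral (integrable_test_rpow t2 hq0) (Eventually.of_forall fun x => by positivity)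
    have m1' : (∫ x in {x | t ≤ x i0}, |φ x| ^ (q:ℝ)) ^ ((2:ℝ) / q) ≤
        (∫ x, |φ1 x| ^ (q:ℝ)) ^ ((2:ℝ) / q) :=
      Real.rpow_le_rpow (integral_nonneg fun x => by positivity) m1 (by positivity)
    have m2' : (∫ x in {x | c < x i0}ᶜ, |φ x| ^ (q:ℝ)) ^ ((2:ℝ) / q) ≤
        (∫ x, |φ2 x| ^ (q:ℝ)) ^ ((2:ℝ) / q) :=
      Real.rpow_le_rpow (integral_nonneg fun x => by positivity) m2 (by positivity)
    -- energies
    have hint : Integrable (fun x => (deriv (ang c t) (x i0) * φ x) ^ 2) volume := by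
      have hcd : ContDiff ℝ ((⊤ : ℕ∞) : WithTop ℕ∞) (deriv (ang c t)) :=
        (contDiff_infty_iff_deriv.mp hac).2
      exact integrable_test_sq (isTest_coord_mul hφ i0 hcd)
    have hen : (∫ x, ‖fderiv ℝ φ1 x‖ ^ 2) + ∫ x, ‖fderiv ℝ φ2 x‖ ^ 2 =
        (∫ x, ‖fderiv ℝ φ x‖ ^ 2) + ∫ x, (deriv (ang c t) (x i0) * φ x) ^ 2 := by
      rw [← integral_add (integrable_fderiv_sq t1) (integrable_fderiv_sq t2),
        ← integral_add (integrable_fderiv_sq hφ) hint]
      congr 1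
      ext x
      have h5 := ims hφ i0 (hac.differentiable (by simp)) x
      rw [gradient_norm, gradient_norm, gradient_norm] at h5
      exact h5
    have hSm : MeasurableSet {x : EuclideanSpace ℝ (Fin N) | s ≤ x i0 ∧ x i0 ≤ t} :=
      measurableSet_coord (P := fun y => s ≤ y ∧ y ≤ t) (measurableSet_Icc)
    have hi : Integrable (fun x => φ x ^ 2) volume := integrable_test_sq hφ
    have hth : ∫ x, (deriv (ang c t) (x i0) * φ x) ^ 2 ≤
        M ^ 2 * ∫ x in {x | s ≤ x i0 ∧ x i0 ≤ t}, φ x ^ 2 := by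
      rw [← integral_indicator hSm, ← integral_const_mul]
      apply integral_mono hint ((hi.indicator hSm).const_mul _)
      intro x
      simp only
      by_cases hx : x i0 ∈ Icc c t
      · have hxS : x ∈ {x : EuclideanSpace ℝ (Fin N) | s ≤ x i0 ∧ x i0 ≤ t} :=
          ⟨hsc.le.trans hx.1, hx.2⟩
        rw [indicator_of_mem hxS, mul_pow]
        have h6 := (hMb (x i0)).1 hx
        have h7 : deriv (ang c t) (x i0) ^ 2 ≤ M ^ 2 := sq_le_sq' (by linarith [(abs_le.mp h6).1]) (abs_le.mp h6).2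
        gcongr
      · rw [(hMb (x i0)).2 hx, zero_mul]
        have : 0 ≤ indicator {x : EuclideanSpace ℝ (Fin N) | s ≤ x i0 ∧ x i0 ≤ t} (fun x => φ x ^ 2) x :=
          indicator_nonneg (fun x _ => by positivity) x
        simp only [ne_eq, OfNat.ofNat_ne_zero, not_false_eq_true, zero_pow]
        positivity
    have hpc : ∫ x in {x | s ≤ x i0 ∧ x i0 ≤ t}, φ x ^ 2 ≤ (2 * ε) ^ 2 * ∫ x, ‖fderiv ℝ φ x‖ ^ 2 := by
      have h8 := corridor_poincare hne hε hthin hφ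
      rw [lint_sq hφ, lint_fderiv_sq hφ, ← ENNReal.ofReal_pow (by positivity),
        ← ENNReal.ofReal_mul (by positivity)] at h8
      have h9 : 0 ≤ ∫ x, ‖fderiv ℝ φ x‖ ^ 2 := integral_nonneg fun x => by positivity
      exact (ENNReal.ofReal_le_ofReal_iff (by positivity)).mp h8
    have hfin : ∫ x, (deriv (ang c t) (x i0) * φ x) ^ 2 ≤
        M ^ 2 * ((2 * ε) ^ 2 * ∫ x, ‖fderiv ℝ φ x‖ ^ 2) := hth.trans (by gcongr)
    have a1 : l1 q (Ω ∩ {x | s < x i0}) * (∫ x in {x | t ≤ x i0}, |φ x| ^ (q:ℝ)) ^ ((2:ℝ) / q) ≤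
        ∫ x, ‖fderiv ℝ φ1 x‖ ^ 2 := (mul_le_mul_of_nonneg_left m1' (hl1 _)).trans e1
    have a2 : l1 q (ball (0 : EuclideanSpace ℝ (Fin N)) 1) *
        (∫ x in {x | c < x i0}ᶜ, |φ x| ^ (q:ℝ)) ^ ((2:ℝ) / q) ≤
        ∫ x, ‖fderiv ℝ φ2 x‖ ^ 2 := (mul_le_mul_of_nonneg_left m2' (hl1 _)).trans e2
    linarith

end corridor

end Pool.Agent.Helper793.Cut
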