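import Pool.Agent.Helper793.Cut3
set_option autoImplicit false
set_option linter.unusedSectionVars false
open MeasureTheory Metric Set Filter Topology
open scoped ENNReal NNReal

namespace Pool.Agent.Helper793.Cut

open Pool.Agent.Helper793.QEig Pool.Agent.Helper793.Sob

variable {N : ℕ} {q : ℝ≥0} [Fact (1 ≤ (q : ℝ≥0∞))]

/-- functions of the space vanish off the set -/
theorem mass_zero {Ω Z : Set (EuclideanSpace ℝ (Fin N))} (hd : Disjoint Z Ω)
    {p : Pairs N q} (hp : p ∈ D012 q Ω) : mass Z p.1 = 0 := by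
  have hq0 := q_pos (q := q)
  apply D012_induction (P := fun p : Pairs N q => mass Z p.1 = 0) _ _ hp
  · exact isClosed_eq ((continuous_mass _).comp continuous_fst) continuous_const
  · intro φ hφ
    rw [mass_test]
    apply setIntegral_eq_zero_of_forall_eq_zero
    intro x hx
    have : φ x = 0 := by
      by_contra hne
      exact disjoint_left.mp hd hx (hφ.2.2 (subset_tsupport φ hne))
    rw [this, abs_zero, Real.zero_rpow hq0.ne']

theorem exists_small_eta {γ b L : ℝ} (hγ : γ < 1) (hb : 0 < b) (hL : 0 < L) :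
    ∃ η : ℝ, 0 < η ∧ η ≤ 1 / 2 ∧ L * (2 * η) < b * η ^ γ := by
  have h1 : Tendsto (fun η : ℝ => η ^ (1 - γ)) (𝓝[>] 0) (𝓝 0) := by
    have h2 : ContinuousAt (fun η : ℝ => η ^ (1 - γ)) 0 :=
      Real.continuousAt_rpow_const 0 (1 - γ) (Or.inr (by linarith))
    have h3 := h2.tendsto
    rw [Real.zero_rpow (by linarith)] at h3
    exact h3.mono_left nhdsWithin_le_nhds
  have h4 : ∀ᶠ η : ℝ in 𝓝[>] 0, η ^ (1 - γ) < b / (2 * L) := h1.eventually_lt_const (by positivity)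
  have h5 : ∀ᶠ η : ℝ in 𝓝[>] 0, η < 1 / 2 :=
    (eventually_lt_nhds (by norm_num : (0:ℝ) < 1 / 2)).filter_mono nhdsWithin_le_nhds
  obtain ⟨η, ⟨h6, h7⟩, h8⟩ := ((h4.and h5).and self_mem_nhdsWithin).exists
  have h8' : 0 < η := h8
  refine ⟨η, h8', h7.le, ?_⟩
  have h9 : η = η ^ γ * η ^ (1 - γ) := by
    rw [← Real.rpow_add h8', add_sub_cancel, Real.rpow_one]
  have h10 : 0 < η ^ γ := Real.rpow_pos_of_pos h8' _
  rw [lt_div_iff₀ (by positivity)] at h6
  calc L * (2 * η) = η ^ γ * (η ^ (1 - γ) * (2 * L)) := by nth_rw 1 [h9]; ring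
    _ < η ^ γ * b := by gcongr
    _ = b * η ^ γ := by ring

theorem exists_small_eps {C α M K Q η : ℝ} (hα : 0 < α) (hQ : 0 < Q) (hη : 0 < η) :
    ∃ ε : ℝ, 0 < ε ∧ M ^ 2 * (2 * ε) ^ 2 + (C * (2 * ε) ^ α * K) ^ Q ≤ η := by
  have h1 : ContinuousAt (fun ε : ℝ => M ^ 2 * (2 * ε) ^ 2 + (C * (2 * ε) ^ α * K) ^ Q) 0 := by
    have h2 : ContinuousAt (fun ε : ℝ => (2 * ε) ^ α) 0 := by
      have h3 : ContinuousAt (fun ε : ℝ => 2 * ε) 0 := by fun_prop
      exact h3.rpow_const (Or.inr hα.le)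
    have h4 : ContinuousAt (fun ε : ℝ => (C * (2 * ε) ^ α * K) ^ Q) 0 :=
      ((h2.const_mul C).mul_const K).rpow_const (Or.inr hQ.le)
    exact (by fun_prop : ContinuousAt (fun ε : ℝ => M ^ 2 * (2 * ε) ^ 2) 0).add h4
  have h5 := h1.tendsto
  simp only [mul_zero, Real.zero_rpow hα.ne', zero_mul, Real.zero_rpow hQ.ne', ne_eq,
    OfNat.ofNat_ne_zero, not_false_eq_true, zero_pow, add_zero] at h5
  have h6 := (h5.eventually_lt_const hη).filter_mono (nhdsWithin_le_nhds (s := Ioi 0))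
  obtain ⟨ε, h7, h8⟩ := (h6.and self_mem_nhdsWithin).exists
  exact ⟨ε, h8, h7.le⟩

/-- Local minimisation behind a thin corridor. -/
theorem cut_main (hN : 2 ≤ N) (hq : 2 < q) (hq' : ((N : ℝ) - 2) * q < 2 * N)
    {i0 i1 : Fin N} (hne : i0 ≠ i1) {s t : ℝ} (hst : s < t)
    {R : Set (EuclideanSpace ℝ (Fin N))} (hR : IsOpen R) (hRne : R.Nonempty)
    (hRb : R ⊆ ball 0 1) (hRt : ∀ x ∈ R, t < x i0) :
    ∃ ε : ℝ, 0 < ε ∧ ∀ Ω : Set (EuclideanSpace ℝ (Fin N)), IsOpen Ω → Ω ⊆ ball 0 1 → R ⊆ Ω →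
      (∀ x ∈ Ω, s ≤ x i0 → x i0 ≤ t → |x i1| < ε) →
      ∃ p ∈ D012 q Ω, ‖p.1‖ = 1 ∧ (∀ᵐ x ∂volume, 0 ≤ p.1 x) ∧
        1 / 2 ≤ mass {x | (s + t) / 2 < x i0} p.1 ∧
        ∀ ψ : EuclideanSpace ℝ (Fin N) → ℝ, IsTest Ω ψ →
          ∫ x, inner ℝ (p.2 x) (gradient ψ x) =
            ‖p.2‖ ^ 2 * ∫ x, |p.1 x| ^ ((q : ℝ) - 2) * p.1 x * ψ x := by
  have hq0 := q_pos (q := q)
  have hq2 : (2:ℝ) < q := by exact_mod_cast hq
  have hB : Bornology.IsBounded (ball (0 : EuclideanSpace ℝ (Fin N)) 1) := isBounded_ball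
  obtain ⟨C, α, hC, hα, hthinmass⟩ := thin_mass (q := q) hN hB hq.le hq'
  set c := (s + t) / 2 with hc
  have hsc : s < c := by rw [hc]; linarith
  have hct : c < t := by rw [hc]; linarith
  obtain ⟨M, hM, hMb⟩ := ang_bound hct
  set L := l1 q R with hL
  set b := l1 q (ball (0 : EuclideanSpace ℝ (Fin N)) 1) with hb
  have hLpos : 0 < L := l1_pos hN hR hRne (hB.subset hRb) hq'
  have hbpos : 0 < b := l1_pos hN isOpen_ball ⟨0, mem_ball_self one_pos⟩ hB hq'
  have h2q : (2:ℝ) / q < 1 := by rw [div_lt_one hq0]; exact hq2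
  obtain ⟨η, hη0, hη1, hη2⟩ := exists_small_eta h2q hbpos hLpos
  obtain ⟨ε, hε0, hε⟩ := exists_small_eps (C := C) (α := α) (M := M) (K := Real.sqrt L) (Q := q)
    (η := η) hα hq0 hη0
  refine ⟨ε, hε0, ?_⟩
  intro Ω hΩo hΩB hRΩ hthin
  -- sets
  set V := Ω ∩ {x | s < x i0} with hV
  set W : Set (EuclideanSpace ℝ (Fin N)) := {x | c < x i0} with hW
  set T : Set (EuclideanSpace ℝ (Fin N)) := {x | t ≤ x i0} with hT
  set S : Set (EuclideanSpace ℝ (Fin N)) := {x | s ≤ x i0 ∧ x i0 ≤ t} with hS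
  have hWm : MeasurableSet W := measurableSet_coord (P := fun y => c < y) measurableSet_Ioi
  have hSm : MeasurableSet S := measurableSet_coord (P := fun y => s ≤ y ∧ y ≤ t) measurableSet_Icc
  have hVo : IsOpen V := hΩo.inter (isOpen_lt continuous_const (by fun_prop))
  have hRV : R ⊆ V := fun x hx => ⟨hRΩ hx, hst.trans (hRt x hx)⟩
  have hVne : V.Nonempty := hRne.mono hRV
  have hΩb : Bornology.IsBounded Ω := hB.subset hΩB
  have hVb : Bornology.IsBounded V := hΩb.subset inter_subset_left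
  set κ := M ^ 2 * (2 * ε) ^ 2 with hκ
  set κ' := (C * (2 * ε) ^ α * Real.sqrt L) ^ (q:ℝ) with hκ'
  have hκ0 : 0 ≤ κ := by positivity
  have hκ'0 : 0 ≤ κ' := by positivity
  -- eigenvalue of V
  set LV := l1 q V with hLV
  obtain ⟨pR, hpR, hpR1, hpR2⟩ := exists_minimizer (q := q) hN hR hRne (hB.subset hRb) hq'
  have hLVL : LV ≤ L := by
    rw [hL, ← hpR2]
    exact l1_le (D012_mono hRV hpR) hpR1
  have hLVpos : 0 < LV := l1_pos hN hVo hVne hVb hq'
  obtain ⟨pV, hpV, hpV1, hpV2⟩ := exists_minimizer (q := q) hN hVo hVne hVb hq'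
  have hpVΩ : pV ∈ D012 q Ω := D012_mono inter_subset_left hpV
  -- small mass in the corridor
  have hSmass : ∀ p ∈ D012 q Ω, ‖p.2‖ ^ 2 ≤ LV → mass S p.1 ≤ κ' := by
    intro p hp hpe
    refine (hthinmass Ω S (2 * ε) (by positivity) hΩB (fun φ hφ => corridor_poincare hne hε0 hthin hφ) p hp).trans ?_
    rw [hκ']
    have h1 : ‖p.2‖ ≤ Real.sqrt L := Real.le_sqrt_of_sq_le (hpe.trans hLVL)
    gcongr
  -- the competitor
  have hκη : κ' ≤ η := by linarith
  have hpVW : 1 - η ≤ mass W pV.1 := by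
    have h1 := mass_add_compl hWm pV.1
    rw [hpV1, Real.one_rpow] at h1
    have h2 : mass Wᶜ pV.1 ≤ mass {x | x i0 ≤ s} pV.1 + mass S pV.1 := by
      apply mass_le_add hSm
      intro x hx
      rw [hW, mem_compl_iff, mem_ofPred_eq, not_lt] at hx
      rcases le_total (x i0) s with h | h
      · exact Or.inl h
      · exact Or.inr ⟨h, hx.trans hct.le⟩
    have h3 : mass {x | x i0 ≤ s} pV.1 = 0 := by
      apply mass_zero _ hpV
      rw [disjoint_left]
      rintro x hx ⟨_, hx2⟩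
      have hx3 : x i0 ≤ s := hx
      have hx4 : s < x i0 := hx2
      linarith
    have h4 := hSmass pV hpVΩ hpV2.le
    linarith
  -- minimisation
  set A : Set (Lp ℝ (q : ℝ≥0∞) (volume : Measure (EuclideanSpace ℝ (Fin N)))) :=
    {f | ‖f‖ = 1} ∩ {f | 1 - η ≤ mass W f} with hA
  have hAcl : IsClosed A := (isClosed_eq continuous_norm continuous_const).inter
    (isClosed_le continuous_const (continuous_mass W))
  obtain ⟨p₀, hp₀, hp₀A, hp₀min⟩ := exists_min (q := q) hN hΩb hq' hAcl ⟨pV, hpVΩ, hpV1, hpVW⟩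
  obtain ⟨p, hp, hpabs, hple⟩ := exists_abs hp₀
  have hpA : p.1 ∈ A := by
    rw [hpabs]
    refine ⟨?_, ?_⟩
    · rw [mem_ofPred_eq, norm_abs]; exact hp₀A.1
    · rw [mem_ofPred_eq, mass_abs]; exact hp₀A.2
  have hp1 : ‖p.1‖ = 1 := hpA.1
  have hpmin : ∀ p' ∈ D012 q Ω, p'.1 ∈ A → ‖p.2‖ ≤ ‖p'.2‖ := fun p' h1 h2 =>
    hple.trans (hp₀min p' h1 h2)
  have hpe : ‖p.2‖ ^ 2 ≤ LV := by
    rw [hLV, ← hpV2]
    have := hpmin pV hpVΩ ⟨hpV1, hpVW⟩
    gcongr
  -- interior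
  have hint : 1 - η < mass W p.1 := by
    by_contra hcon
    rw [not_lt] at hcon
    have heq : mass W p.1 = 1 - η := le_antisymm hcon hpA.2
    have h1 := mass_add_compl hWm p.1
    rw [hp1, Real.one_rpow, heq] at h1
    have h2 : mass Wᶜ p.1 = η := by linarith
    have h3 : mass W p.1 ≤ mass T p.1 + mass S p.1 := by
      apply mass_le_add hSm
      intro x hx
      rcases le_total t (x i0) with h | h
      · exact Or.inl h
      · exact Or.inr ⟨(hsc.trans hx).le, h⟩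
    have h4 := hSmass p hp hpe
    have h5 : 1 - η - κ' ≤ mass T p.1 := by linarith
    have h6 := cut_ineq (q := q) hne hε0 hsc hct hΩB hMb hthin hp
    rw [h2] at h6
    have h7 : (1 - η - κ') ≤ (mass T p.1) ^ ((2:ℝ) / q) := by
      have h8 : 0 ≤ 1 - η - κ' := by linarith
      have h9 : 1 - η - κ' ≤ 1 := by linarith
      calc 1 - η - κ' = (1 - η - κ') ^ (1:ℝ) := by rw [Real.rpow_one]
        _ ≤ (1 - η - κ') ^ ((2:ℝ) / q) := Real.rpow_le_rpow_of_exponent_ge_of_imp h8 h9 h2q.le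
            (fun _ h => by
              exfalso
              have : (0:ℝ) < 2 / q := by positivity
              linarith)
        _ ≤ _ := Real.rpow_le_rpow h8 h5 (by positivity)
    have h10 : LV * (1 - η - κ') ≤ LV * (mass T p.1) ^ ((2:ℝ) / q) := by gcongr
    have h11 : (1 + κ) * ‖p.2‖ ^ 2 ≤ (1 + κ) * LV := by gcongr
    have h12 : LV * (κ + κ' + η) ≤ L * (2 * η) := by
      have : κ + κ' + η ≤ 2 * η := by linarith
      gcongr
    have h13 : LV * (1 - η - κ') + b * η ^ ((2:ℝ) / q) ≤ (1 + κ) * LV := by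
      refine le_trans ?_ (h6.trans h11)
      gcongr
    nlinarith
  refine ⟨p, hp, hp1, ?_, ?_, ?_⟩
  · rw [hpabs]
    exact abs_nonneg_ae _
  · linarith
  · intro ψ hψ
    apply euler_lagrange (lt_trans (by norm_num) hq) hp1 hψ
    have hcont : Continuous fun r : ℝ => p.1 + r • (pairOf q hψ).1 := by fun_prop
    have e0 : p.1 + (0:ℝ) • (pairOf q hψ).1 = p.1 := by rw [zero_smul, add_zero]
    have e1 : ∀ᶠ r in 𝓝 (0:ℝ), 0 < ‖p.1 + r • (pairOf q hψ).1‖ := by
      have h1 : ContinuousAt (fun r : ℝ => ‖p.1 + r • (pairOf q hψ).1‖) 0 := hcont.norm.continuousAt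
      apply h1.tendsto.eventually_const_lt
      rw [e0, hp1]
      exact one_pos
    have e2 : ∀ᶠ r in 𝓝 (0:ℝ), 0 < mass W (p.1 + r • (pairOf q hψ).1) -
        (1 - η) * ‖p.1 + r • (pairOf q hψ).1‖ ^ (q:ℝ) := by
      have h1 : ContinuousAt (fun r : ℝ => mass W (p.1 + r • (pairOf q hψ).1) -
        (1 - η) * ‖p.1 + r • (pairOf q hψ).1‖ ^ (q:ℝ)) 0 :=
        (((continuous_mass W).comp hcont).sub
          ((hcont.norm.rpow_const (fun _ => Or.inr hq0.le)).const_mul _)).continuousAt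
      apply h1.tendsto.eventually_const_lt
      rw [e0, hp1, Real.one_rpow]
      linarith
    filter_upwards [e1, e2] with r h1 h2
    set n := ‖p.1 + r • (pairOf q hψ).1‖ with hn
    have h3 := hpmin (n⁻¹ • (p + r • pairOf q hψ))
      (D012_smul _ (D012_add hp (D012_smul r (pairOf_mem hψ)))) (by
        refine ⟨?_, ?_⟩
        · rw [mem_ofPred_eq, Prod.smul_fst, norm_smul, norm_inv, Real.norm_eq_abs, abs_of_pos h1]
          exact inv_mul_cancel₀ h1.ne'
        · rw [mem_ofPred_eq, Prod.smul_fst, mass_smul, abs_of_pos (inv_pos.mpr h1),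
            Real.inv_rpow h1.le]
          have h4 : 0 < n ^ (q:ℝ) := Real.rpow_pos_of_pos h1 _
          rw [inv_mul_eq_div, le_div_iff₀ h4]
          have h5 : (p + r • pairOf q hψ).1 = p.1 + r • (pairOf q hψ).1 := rfl
          rw [h5]
          linarith)
    rw [Prod.smul_snd, norm_smul, norm_inv, Real.norm_eq_abs, abs_of_pos h1, inv_mul_eq_div,
      le_div_iff₀ h1] at h3
    rw [← mul_pow]
    have h6 : (p + r • pairOf q hψ).2 = p.2 + r • (pairOf q hψ).2 := rfl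
    rw [h6] at h3
    gcongr

end Pool.Agent.Helper793.Cut
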