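import Pool.Agent.Helper793.Sob3
set_option autoImplicit false
set_option linter.unusedSectionVars false
open MeasureTheory Metric Set Filter Topology
open scoped ENNReal NNReal

namespace Pool.Agent.Helper793.Sob

open Pool.Agent.Helper793.QEig

variable {N : ℕ} {q : ℝ≥0} [Fact (1 ≤ (q : ℝ≥0∞))]

/-- the first eigenvalue -/
noncomputable def l1 (q : ℝ≥0) [Fact (1 ≤ (q : ℝ≥0∞))] (Ω : Set (EuclideanSpace ℝ (Fin N))) : ℝ :=
  sInf {r | ∃ p ∈ D012 q Ω, ‖p.1‖ = 1 ∧ ‖p.2‖ ^ 2 = r}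

theorem l1_bdd (Ω : Set (EuclideanSpace ℝ (Fin N))) :
    BddBelow {r | ∃ p ∈ D012 q Ω, ‖p.1‖ = 1 ∧ ‖p.2‖ ^ 2 = r} :=
  ⟨0, by rintro r ⟨p, _, _, rfl⟩; positivity⟩

theorem l1_le {Ω : Set (EuclideanSpace ℝ (Fin N))} {p : Pairs N q} (hp : p ∈ D012 q Ω)
    (h1 : ‖p.1‖ = 1) : l1 q Ω ≤ ‖p.2‖ ^ 2 :=
  csInf_le (l1_bdd Ω) ⟨p, hp, h1, rfl⟩

theorem l1_ineq {Ω : Set (EuclideanSpace ℝ (Fin N))} {p : Pairs N q} (hp : p ∈ D012 q Ω) :
    l1 q Ω * ‖p.1‖ ^ 2 ≤ ‖p.2‖ ^ 2 := by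
  rcases eq_or_ne ‖p.1‖ 0 with h0 | h0
  · rw [h0]; simp
  · have hpos : 0 < ‖p.1‖ := lt_of_le_of_ne (norm_nonneg _) (Ne.symm h0)
    have h1 := l1_le (D012_smul (‖p.1‖⁻¹) hp) (by
      rw [Prod.smul_fst, norm_smul, norm_inv, norm_norm, inv_mul_cancel₀ h0])
    rw [Prod.smul_snd, norm_smul, norm_inv, norm_norm, mul_pow] at h1
    calc l1 q Ω * ‖p.1‖ ^ 2 ≤ (‖p.1‖⁻¹ ^ 2 * ‖p.2‖ ^ 2) * ‖p.1‖ ^ 2 := by gcongr
      _ = ‖p.2‖ ^ 2 := by field_simp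

theorem ineq_of_test {Ω : Set (EuclideanSpace ℝ (Fin N))} {c : ℝ}
    (h : ∀ (φ : EuclideanSpace ℝ (Fin N) → ℝ) (hφ : IsTest Ω φ),
      c * ‖(pairOf q hφ).1‖ ^ 2 ≤ ‖(pairOf q hφ).2‖ ^ 2) {p : Pairs N q} (hp : p ∈ D012 q Ω) :
    c * ‖p.1‖ ^ 2 ≤ ‖p.2‖ ^ 2 :=
  D012_induction (P := fun p => c * ‖p.1‖ ^ 2 ≤ ‖p.2‖ ^ 2)
    (isClosed_le (by fun_prop) (by fun_prop)) h hp

theorem exists_unit {Ω : Set (EuclideanSpace ℝ (Fin N))} (hΩ : IsOpen Ω) (hne : Ω.Nonempty) :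
    ∃ p ∈ D012 q Ω, ‖p.1‖ = 1 := by
  obtain ⟨x, hx⟩ := hne
  obtain ⟨r, hr, hb⟩ := Metric.isOpen_iff.mp hΩ x hx
  let φ : ContDiffBump x := ⟨r / 4, r / 2, by positivity, by linarith⟩
  have hφ : IsTest Ω φ := by
    refine ⟨φ.contDiff, φ.hasCompactSupport, ?_⟩
    rw [φ.tsupport_eq]
    exact (closedBall_subset_ball (by change r / 2 < r; linarith)).trans hb
  have hne0 : ‖(pairOf q hφ).1‖ ≠ 0 := by
    intro h0
    rw [norm_eq_zero] at h0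
    have h1 : (φ : EuclideanSpace ℝ (Fin N) → ℝ) =ᵐ[volume] fun _ => (0:ℝ) := by
      have h2 := MemLp.coeFn_toLp (memLp_test hφ q)
      have h3 : ((memLp_test hφ q).toLp φ) = 0 := h0
      rw [h3] at h2
      exact h2.symm.trans (Lp.coeFn_zero _ _ _)
    have h4 := (φ.contDiff (n := 0)).continuous
    have h5 := Continuous.ae_eq_iff_eq volume h4 (continuous_const (y := (0:ℝ)))
    have h6 := congrFun (h5.mp h1) x
    have h7 : φ x = 1 := φ.one_of_mem_closedBall (mem_closedBall_self (by change 0 ≤ r / 4; positivity))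
    rw [h7] at h6
    norm_num at h6
  refine ⟨‖(pairOf q hφ).1‖⁻¹ • pairOf q hφ, D012_smul _ (pairOf_mem hφ), ?_⟩
  rw [Prod.smul_fst, norm_smul, norm_inv, norm_norm, inv_mul_cancel₀ hne0]

theorem exists_minimizer {Ω : Set (EuclideanSpace ℝ (Fin N))} (hN : 2 ≤ N) (hΩ : IsOpen Ω)
    (hne : Ω.Nonempty) (hb : Bornology.IsBounded Ω) (hq' : ((N : ℝ) - 2) * q < 2 * N) :
    ∃ p ∈ D012 q Ω, ‖p.1‖ = 1 ∧ ‖p.2‖ ^ 2 = l1 q Ω := by
  obtain ⟨p, hp, hpA, hmin⟩ := exists_min (q := q) hN hb hq'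
    (A := {f | ‖f‖ = 1}) (isClosed_eq continuous_norm continuous_const) (exists_unit hΩ hne)
  refine ⟨p, hp, hpA, le_antisymm ?_ (l1_le hp hpA)⟩
  apply le_csInf
  · exact ⟨_, p, hp, hpA, rfl⟩
  · rintro r ⟨p', hp', h1, rfl⟩
    have := hmin p' hp' h1
    gcongr

theorem le_l1 {Ω : Set (EuclideanSpace ℝ (Fin N))} (hΩ : IsOpen Ω) (hne : Ω.Nonempty) {c : ℝ}
    (h : ∀ p ∈ D012 q Ω, c * ‖p.1‖ ^ 2 ≤ ‖p.2‖ ^ 2) : c ≤ l1 q Ω := by
  obtain ⟨p, hp, h1⟩ := exists_unit (q := q) hΩ hne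
  refine le_csInf ⟨_, ⟨p, hp, h1, rfl⟩⟩ ?_
  rintro r ⟨p', hp', h2, rfl⟩
  have := h p' hp'
  rw [h2] at this
  simpa using this

theorem l1_pos {Ω : Set (EuclideanSpace ℝ (Fin N))} (hN : 2 ≤ N) (hΩ : IsOpen Ω)
    (hne : Ω.Nonempty) (hb : Bornology.IsBounded Ω) (hq' : ((N : ℝ) - 2) * q < 2 * N) :
    0 < l1 q Ω := by
  obtain ⟨C, hC, h⟩ := sobolev_D (q := q) hN hb one_le_q hq'
  have h1 : (C⁻¹) ^ 2 ≤ l1 q Ω := by
    apply le_l1 hΩ hne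
    intro p hp
    have h2 := h p hp
    have h3 : ‖p.1‖ ^ 2 ≤ (C * ‖p.2‖) ^ 2 := by gcongr
    calc C⁻¹ ^ 2 * ‖p.1‖ ^ 2 ≤ C⁻¹ ^ 2 * (C * ‖p.2‖) ^ 2 := by gcongr
      _ = ‖p.2‖ ^ 2 := by field_simp
  have : 0 < (C⁻¹) ^ 2 := by positivity
  linarith

theorem norm_fst_rpow {Ω : Set (EuclideanSpace ℝ (Fin N))}
    {φ : EuclideanSpace ℝ (Fin N) → ℝ} (hφ : IsTest Ω φ) :
    ‖(pairOf q hφ).1‖ ^ (q : ℝ) = ∫ x, |φ x| ^ (q : ℝ) := by
  rw [norm_Lp_rpow]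
  apply integral_congr_ae
  filter_upwards [MemLp.coeFn_toLp (memLp_test hφ q)] with x hx
  have : (pairOf q hφ).1 x = φ x := hx
  rw [this]

theorem norm_fst_sq {Ω : Set (EuclideanSpace ℝ (Fin N))}
    {φ : EuclideanSpace ℝ (Fin N) → ℝ} (hφ : IsTest Ω φ) :
    ‖(pairOf q hφ).1‖ ^ 2 = (∫ x, |φ x| ^ (q : ℝ)) ^ ((2:ℝ) / q) := by
  have hq : (1:ℝ) ≤ q := by exact_mod_cast one_le_q (q := q)
  rw [← norm_fst_rpow hφ, ← Real.rpow_mul (norm_nonneg _)]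
  have : (q:ℝ) * (2 / q) = (2:ℕ) := by field_simp; norm_num
  rw [this, Real.rpow_natCast]

theorem integrable_test_rpow {Ω : Set (EuclideanSpace ℝ (Fin N))}
    {φ : EuclideanSpace ℝ (Fin N) → ℝ} (hφ : IsTest Ω φ) {s : ℝ} (hs : 0 < s) :
    Integrable (fun x => |φ x| ^ s) volume := by
  have hc : Continuous (fun x => |φ x| ^ s) :=
    (hφ.1.continuous.abs).rpow_const (fun _ => Or.inr hs.le)
  apply hc.integrable_of_hasCompactSupport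
  exact hφ.2.1.comp_left (g := fun t => |t| ^ s) (by simp [Real.zero_rpow hs.ne'])

/-! ### scaling -/

theorem isTest_scale {Ω : Set (EuclideanSpace ℝ (Fin N))} {φ : EuclideanSpace ℝ (Fin N) → ℝ}
    (hφ : IsTest Ω φ) {r : ℝ} (hr : 0 < r) (a : EuclideanSpace ℝ (Fin N)) :
    IsTest ((fun x => a + r • x) ⁻¹' Ω) (fun x => φ (a + r • x)) := by
  have hc : Continuous (fun x : EuclideanSpace ℝ (Fin N) => a + r • x) := by fun_prop
  let e : EuclideanSpace ℝ (Fin N) ≃ₜ EuclideanSpace ℝ (Fin N) :=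
    (Homeomorph.smulOfNeZero r hr.ne').trans (Homeomorph.addLeft a)
  have he : (e : EuclideanSpace ℝ (Fin N) → EuclideanSpace ℝ (Fin N)) = fun x => a + r • x := rfl
  refine ⟨hφ.1.comp (by fun_prop), ?_, ?_⟩
  · exact hφ.2.1.comp_homeomorph e
  · have h1 : tsupport (fun x => φ (a + r • x)) ⊆ (fun x => a + r • x) ⁻¹' (tsupport φ) := by
      apply closure_minimal
      · intro x hx
        exact subset_tsupport φ hx
      · exact (isClosed_tsupport φ).preimage hc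
    exact h1.trans (preimage_mono hφ.2.2)

theorem integral_scale (g : EuclideanSpace ℝ (Fin N) → ℝ) {r : ℝ} (hr : 0 < r)
    (a : EuclideanSpace ℝ (Fin N)) :
    ∫ x, g (a + r • x) = (r ^ N)⁻¹ * ∫ x, g x := by
  have h1 := Measure.integral_comp_smul (volume : Measure (EuclideanSpace ℝ (Fin N)))
    (fun x => g (a + x)) r
  simp only [finrank_euclideanSpace_fin, smul_eq_mul] at h1
  rw [h1, integral_add_left_eq_self, abs_of_pos (by positivity)]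

theorem fderiv_scale {Ω : Set (EuclideanSpace ℝ (Fin N))} {φ : EuclideanSpace ℝ (Fin N) → ℝ}
    (hφ : IsTest Ω φ) (r : ℝ) (a x : EuclideanSpace ℝ (Fin N)) :
    fderiv ℝ (fun x => φ (a + r • x)) x = r • fderiv ℝ φ (a + r • x) := by
  have h1 : HasFDerivAt (fun x : EuclideanSpace ℝ (Fin N) => a + r • x)
      (r • ContinuousLinearMap.id ℝ (EuclideanSpace ℝ (Fin N))) x :=
    ((hasFDerivAt_id x).const_smul r).const_add a
  have h2 := ((hφ.1.differentiable (by simp)) (a + r • x)).hasFDerivAt.comp x h1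
  have e : (fderiv ℝ φ (a + r • x)).comp (r • ContinuousLinearMap.id ℝ (EuclideanSpace ℝ (Fin N)))
      = r • fderiv ℝ φ (a + r • x) := by
    ext v
    simp
  rw [e] at h2
  exact h2.fderiv

/-- scaling of the Rayleigh quotient -/
theorem scale_ineq {Ω : Set (EuclideanSpace ℝ (Fin N))} {c : ℝ} {r : ℝ} (hr : 0 < r)
    (a : EuclideanSpace ℝ (Fin N))
    (h : ∀ p ∈ D012 q ((fun x => a + r • x) ⁻¹' Ω), c * ‖p.1‖ ^ 2 ≤ ‖p.2‖ ^ 2) :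
    ∀ p ∈ D012 q Ω, (c * r ^ ((N : ℝ) - 2 - 2 * N / q)) * ‖p.1‖ ^ 2 ≤ ‖p.2‖ ^ 2 := by
  have hq : (1:ℝ) ≤ q := by exact_mod_cast one_le_q (q := q)
  intro p hp
  apply ineq_of_test _ hp
  intro φ hφ
  have hφ' := isTest_scale hφ hr a
  have h1 := h _ (pairOf_mem (q := q) hφ')
  rw [norm_snd_sq, norm_fst_sq] at h1 ⊢
  rw [integral_scale (fun x => |φ x| ^ (q:ℝ)) hr a] at h1
  have h2 : ∫ x, ‖fderiv ℝ (fun x => φ (a + r • x)) x‖ ^ 2 = r ^ 2 * ((r ^ N)⁻¹ * ∫ x, ‖fderiv ℝ φ x‖ ^ 2) := by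
    rw [← integral_scale (fun x => ‖fderiv ℝ φ x‖ ^ 2) hr a, ← integral_const_mul]
    congr 1
    ext x
    rw [fderiv_scale hφ, norm_smul, Real.norm_eq_abs, abs_of_pos hr, mul_pow]
  rw [h2, Real.mul_rpow (by positivity) (integral_nonneg fun x => by positivity)] at h1
  set I := (∫ x, |φ x| ^ (q : ℝ)) ^ ((2:ℝ) / q)
  set J := ∫ x, ‖fderiv ℝ φ x‖ ^ 2
  have h3 : ((r ^ N)⁻¹) ^ ((2:ℝ) / q) = r ^ (-(2 * N / q) : ℝ) := by
    rw [← Real.rpow_natCast, ← Real.rpow_neg hr.le, ← Real.rpow_mul hr.le]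
    congr 1
    ring
  have h4 : r ^ 2 * (r ^ N)⁻¹ = r ^ ((2:ℝ) - N) := by
    rw [Real.rpow_sub hr, Real.rpow_natCast, div_eq_mul_inv]
    norm_num
  rw [h3, ← mul_assoc (r ^ 2), h4] at h1
  have h5 : r ^ ((N:ℝ) - 2) * (r ^ ((2:ℝ) - N) * J) = J := by
    rw [← mul_assoc, ← Real.rpow_add hr]
    simp
  calc c * r ^ ((N : ℝ) - 2 - 2 * N / q) * I
      = r ^ ((N:ℝ) - 2) * (c * (r ^ (-(2 * N / q) : ℝ) * I)) := by
        rw [show (N : ℝ) - 2 - 2 * N / q = ((N:ℝ) - 2) + (-(2 * N / q)) by ring, Real.rpow_add hr]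
        ring
    _ ≤ r ^ ((N:ℝ) - 2) * (r ^ ((2:ℝ) - N) * J) := by gcongr
    _ = J := h5

theorem preimage_scale_scale (Ω : Set (EuclideanSpace ℝ (Fin N))) {r : ℝ} (hr : 0 < r)
    (a : EuclideanSpace ℝ (Fin N)) :
    (fun x => (-(r⁻¹ • a)) + r⁻¹ • x) ⁻¹' ((fun x => a + r • x) ⁻¹' Ω) = Ω := by
  ext x
  simp only [mem_preimage, smul_add, smul_neg, smul_smul, mul_inv_cancel₀ hr.ne', one_smul,
    add_neg_cancel_left]

/-- exact scaling of the first eigenvalue -/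
theorem l1_scale {Ω : Set (EuclideanSpace ℝ (Fin N))} (hΩ : IsOpen Ω) (hne : Ω.Nonempty)
    {r : ℝ} (hr : 0 < r) (a : EuclideanSpace ℝ (Fin N)) :
    l1 q Ω = l1 q ((fun x => a + r • x) ⁻¹' Ω) * r ^ ((N : ℝ) - 2 - 2 * N / q) := by
  set Ω' : Set (EuclideanSpace ℝ (Fin N)) := (fun x => a + r • x) ⁻¹' Ω with hΩ'
  have hc : Continuous (fun x : EuclideanSpace ℝ (Fin N) => a + r • x) := by fun_prop
  have hopen : IsOpen Ω' := hΩ.preimage hc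
  have hne' : Ω'.Nonempty := by
    obtain ⟨y, hy⟩ := hne
    refine ⟨r⁻¹ • (y - a), ?_⟩
    simp only [hΩ', mem_preimage, smul_smul, mul_inv_cancel₀ hr.ne', one_smul, add_sub_cancel]
    exact hy
  apply le_antisymm
  · -- l1 Ω ≤ ...
    have h1 := scale_ineq (q := q) (Ω := Ω') (c := l1 q Ω) (inv_pos.mpr hr) (-(r⁻¹ • a)) (by
      rw [preimage_scale_scale Ω hr a]
      intro p hp
      exact l1_ineq hp)
    have h2 := le_l1 hopen hne' h1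
    have hpos : 0 < r ^ ((N : ℝ) - 2 - 2 * N / q) := by positivity
    calc l1 q Ω = (l1 q Ω * r⁻¹ ^ ((N : ℝ) - 2 - 2 * N / q)) * r ^ ((N : ℝ) - 2 - 2 * N / q) := by
          rw [Real.inv_rpow hr.le]
          field_simp
      _ ≤ _ := by gcongr
  · exact le_l1 hΩ hne (scale_ineq hr a (fun p hp => l1_ineq hp))

end Pool.Agent.Helper793.Sob
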