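import Pool.Agent.Helper793.FDefs
import Pool.Agent.Helper793.Sob4

set_option autoImplicit false
set_option linter.unusedSectionVars false

open MeasureTheory Metric Set Filter Topology
open scoped ENNReal NNReal
open Pool.Agent.Helper793.QEig Pool.Agent.Helper793.Sob

namespace Pool.Agent.Helper793.FEig

variable {N : ℕ}

theorem isTest_iff {Ω : Set (EuclideanSpace ℝ (Fin N))} {φ : EuclideanSpace ℝ (Fin N) → ℝ} :
    FEig.IsTest Ω φ ↔ QEig.IsTest Ω φ := Iff.rfl

section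
variable {q : ℝ≥0} [Fact (1 ≤ (q : ℝ≥0∞))]

theorem mem_of_appr {Ω : Set (EuclideanSpace ℝ (Fin N))} {u : EuclideanSpace ℝ (Fin N) → ℝ}
    {G : EuclideanSpace ℝ (Fin N) → EuclideanSpace ℝ (Fin N)} (hu : MemLp u q volume)
    (hG : MemLp G 2 volume) {φ : ℕ → EuclideanSpace ℝ (Fin N) → ℝ} (hφ : ∀ n, QEig.IsTest Ω (φ n))
    (h1 : Tendsto (fun n => eLpNorm (fun x => u x - φ n x) q volume) atTop (𝓝 0))
    (h2 : Tendsto (fun n => eLpNorm (fun x => G x - gradient (φ n) x) 2 volume) atTop (𝓝 0)) :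
    (hu.toLp u, hG.toLp G) ∈ D012 q Ω := by
  have hlim : Tendsto (fun n => pairOf q (hφ n)) atTop (𝓝 (hu.toLp u, hG.toLp G)) := by
    rw [nhds_prod_eq]
    apply Tendsto.prodMk
    · rw [tendsto_iff_norm_sub_tendsto_zero]
      have e : ∀ n, ‖(pairOf q (hφ n)).1 - hu.toLp u‖ = (eLpNorm (fun x => u x - φ n x) q volume).toReal := by
        intro n
        have e1 : hu.toLp u - (pairOf q (hφ n)).1 = (hu.sub (memLp_test (hφ n) q)).toLp (u - φ n) :=
          (MemLp.toLp_sub hu (memLp_test (hφ n) q)).symm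
        rw [norm_sub_rev, e1, Lp.norm_toLp]
        rfl
      have := (ENNReal.tendsto_toReal ENNReal.zero_ne_top).comp h1
      rw [ENNReal.toReal_zero] at this
      exact this.congr (fun n => (e n).symm)
    · rw [tendsto_iff_norm_sub_tendsto_zero]
      have e : ∀ n, ‖(pairOf q (hφ n)).2 - hG.toLp G‖ =
          (eLpNorm (fun x => G x - gradient (φ n) x) 2 volume).toReal := by
        intro n
        have e1 : hG.toLp G - (pairOf q (hφ n)).2 =
            (hG.sub (memLp_grad (hφ n) 2)).toLp (G - gradient (φ n)) :=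
          (MemLp.toLp_sub hG (memLp_grad (hφ n) 2)).symm
        rw [norm_sub_rev, e1, Lp.norm_toLp]
        rfl
      have := (ENNReal.tendsto_toReal ENNReal.zero_ne_top).comp h2
      rw [ENNReal.toReal_zero] at this
      exact this.congr (fun n => (e n).symm)
  exact (D012_closed Ω).mem_of_tendsto hlim (Eventually.of_forall fun n => pairOf_mem (hφ n))

theorem appr_of_mem {Ω : Set (EuclideanSpace ℝ (Fin N))} {P : Pairs N q} (hP : P ∈ D012 q Ω) :
    ∃ φ : ℕ → EuclideanSpace ℝ (Fin N) → ℝ, (∀ n, QEig.IsTest Ω (φ n)) ∧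
    Tendsto (fun n => eLpNorm (fun x => P.1 x - φ n x) q volume) atTop (𝓝 0) ∧
    Tendsto (fun n => eLpNorm (fun x => P.2 x - gradient (φ n) x) 2 volume) atTop (𝓝 0) := by
  have hcl : P ∈ closure (TS q Ω : Set (Pairs N q)) := hP
  obtain ⟨x, hx, hlim⟩ := mem_closure_iff_seq_limit.mp hcl
  choose φ hφ hxe using fun n => TS_eq_pairOf (hx n)
  refine ⟨φ, hφ, ?_, ?_⟩
  · have h1 : Tendsto (fun n => (x n).1) atTop (𝓝 P.1) := (continuous_fst.tendsto P).comp hlim
    rw [tendsto_iff_norm_sub_tendsto_zero] at h1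
    have e : ∀ n, eLpNorm (fun x => P.1 x - φ n x) q volume = ENNReal.ofReal ‖(x n).1 - P.1‖ := by
      intro n
      rw [hxe n, norm_sub_rev, Lp.norm_def, ENNReal.ofReal_toReal (Lp.eLpNorm_ne_top _)]
      apply eLpNorm_congr_ae
      filter_upwards [Lp.coeFn_sub P.1 (pairOf q (hφ n)).1, MemLp.coeFn_toLp (memLp_test (hφ n) q)] with y a1 a2
      have a3 : (pairOf q (hφ n)).1 y = φ n y := a2
      rw [a1, Pi.sub_apply, a3]
    have := (ENNReal.continuous_ofReal.tendsto 0).comp h1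
    rw [ENNReal.ofReal_zero] at this
    exact this.congr (fun n => (e n).symm)
  · have h1 : Tendsto (fun n => (x n).2) atTop (𝓝 P.2) := (continuous_snd.tendsto P).comp hlim
    rw [tendsto_iff_norm_sub_tendsto_zero] at h1
    have e : ∀ n, eLpNorm (fun x => P.2 x - gradient (φ n) x) 2 volume = ENNReal.ofReal ‖(x n).2 - P.2‖ := by
      intro n
      rw [hxe n, norm_sub_rev, Lp.norm_def, ENNReal.ofReal_toReal (Lp.eLpNorm_ne_top _)]
      apply eLpNorm_congr_ae
      filter_upwards [Lp.coeFn_sub P.2 (pairOf q (hφ n)).2, MemLp.coeFn_toLp (memLp_grad (hφ n) 2)] with y a1 a2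
      have a3 : (pairOf q (hφ n)).2 y = gradient (φ n) y := a2
      rw [a1, Pi.sub_apply, a3]
    have := (ENNReal.continuous_ofReal.tendsto 0).comp h1
    rw [ENNReal.ofReal_zero] at this
    exact this.congr (fun n => (e n).symm)

end

/-- the exponent may be changed within the subcritical range -/
theorem appr_transfer {Ω : Set (EuclideanSpace ℝ (Fin N))} (hN : 2 ≤ N)
    (hΩ : Bornology.IsBounded Ω) {q r : ℝ≥0} (hq : 1 ≤ q) (hr : 1 ≤ r)
    (hr' : ((N : ℝ) - 2) * r < 2 * N) {u : EuclideanSpace ℝ (Fin N) → ℝ}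
    {G : EuclideanSpace ℝ (Fin N) → EuclideanSpace ℝ (Fin N)} (hu : AEStronglyMeasurable u volume)
    (hG : MemLp G 2 volume) {φ : ℕ → EuclideanSpace ℝ (Fin N) → ℝ} (hφ : ∀ n, QEig.IsTest Ω (φ n))
    (h1 : Tendsto (fun n => eLpNorm (fun x => u x - φ n x) q volume) atTop (𝓝 0))
    (h2 : Tendsto (fun n => eLpNorm (fun x => G x - gradient (φ n) x) 2 volume) atTop (𝓝 0)) :
    MemLp u r volume ∧ Tendsto (fun n => eLpNorm (fun x => u x - φ n x) r volume) atTop (𝓝 0) := by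
  have _ : Fact (1 ≤ (r : ℝ≥0∞)) := ⟨by exact_mod_cast hr⟩
  obtain ⟨C, hC0, hC⟩ := sobolev_D (q := r) hN hΩ hr hr'
  -- gradients converge in L2
  have hgl : Tendsto (fun n => (pairOf r (hφ n)).2) atTop (𝓝 (hG.toLp G)) := by
    rw [tendsto_iff_norm_sub_tendsto_zero]
    have e : ∀ n, ‖(pairOf r (hφ n)).2 - hG.toLp G‖ =
        (eLpNorm (fun x => G x - gradient (φ n) x) 2 volume).toReal := by
      intro n
      have e1 : hG.toLp G - (pairOf r (hφ n)).2 =
          (hG.sub (memLp_grad (hφ n) 2)).toLp (G - gradient (φ n)) :=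
        (MemLp.toLp_sub hG (memLp_grad (hφ n) 2)).symm
      rw [norm_sub_rev, e1, Lp.norm_toLp]
      rfl
    have := (ENNReal.tendsto_toReal ENNReal.zero_ne_top).comp h2
    rw [ENNReal.toReal_zero] at this
    exact this.congr (fun n => (e n).symm)
  have hcg := hgl.cauchySeq
  have hcu : CauchySeq (fun n => (pairOf r (hφ n)).1) := by
    rw [Metric.cauchySeq_iff] at hcg ⊢
    intro ε hε
    obtain ⟨n0, hn0⟩ := hcg (ε / C) (by positivity)
    refine ⟨n0, fun m hm n hn => ?_⟩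
    have h3 := hn0 m hm n hn
    have h4 := hC _ (D012_sub (pairOf_mem (q := r) (hφ m)) (pairOf_mem (q := r) (hφ n)))
    rw [dist_eq_norm] at h3 ⊢
    rw [Prod.fst_sub, Prod.snd_sub] at h4
    rw [lt_div_iff₀ hC0] at h3
    linarith
  obtain ⟨v, hv⟩ := cauchySeq_tendsto_of_complete hcu
  rw [tendsto_iff_norm_sub_tendsto_zero] at hv
  have hvl : Tendsto (fun n => eLpNorm (fun x => φ n x - v x) r volume) atTop (𝓝 0) := by
    have e : ∀ n, eLpNorm (fun x => φ n x - v x) r volume = ENNReal.ofReal ‖(pairOf r (hφ n)).1 - v‖ := by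
      intro n
      rw [Lp.norm_def, ENNReal.ofReal_toReal (Lp.eLpNorm_ne_top _)]
      apply eLpNorm_congr_ae
      filter_upwards [Lp.coeFn_sub (pairOf r (hφ n)).1 v, MemLp.coeFn_toLp (memLp_test (hφ n) r)] with y a1 a2
      have a3 : (pairOf r (hφ n)).1 y = φ n y := a2
      rw [a1, Pi.sub_apply, a3]
    have := (ENNReal.continuous_ofReal.tendsto 0).comp hv
    rw [ENNReal.ofReal_zero] at this
    exact this.congr (fun n => (e n).symm)
  have huv : u =ᵐ[volume] v := by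
    have m1 : TendstoInMeasure volume φ atTop v := by
      apply tendstoInMeasure_of_tendsto_eLpNorm (p := (r : ℝ≥0∞)) _ (fun n => (memLp_test (hφ n) r).1)
        (Lp.aestronglyMeasurable v) hvl
      simp only [ne_eq, ENNReal.coe_eq_zero]
      intro h
      rw [h] at hr
      exact absurd hr (by norm_num)
    have m2 : TendstoInMeasure volume φ atTop u := by
      apply tendstoInMeasure_of_tendsto_eLpNorm (p := (q : ℝ≥0∞)) _ (fun n => (memLp_test (hφ n) q).1) hu
      · have e : ∀ n, eLpNorm (φ n - u) q volume = eLpNorm (fun x => u x - φ n x) q volume := by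
          intro n
          rw [eLpNorm_sub_comm]
          rfl
        simp_rw [e]
        exact h1
      · simp only [ne_eq, ENNReal.coe_eq_zero]
        intro h
        rw [h] at hq
        exact absurd hq (by norm_num)
    exact (tendstoInMeasure_ae_unique m1 m2).symm
  refine ⟨(memLp_congr_ae huv).mpr (Lp.memLp v), ?_⟩
  have e : ∀ n, eLpNorm (fun x => u x - φ n x) r volume = eLpNorm (fun x => φ n x - v x) r volume := by
    intro n
    have : eLpNorm (fun x => φ n x - v x) r volume = eLpNorm (fun x => v x - φ n x) r volume :=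
      eLpNorm_sub_comm _ _ _ _
    rw [this]
    apply eLpNorm_congr_ae
    filter_upwards [huv] with x hx
    rw [hx]
  simp_rw [e]
  exact hvl

section
variable {q : ℝ≥0} [Fact (1 ≤ (q : ℝ≥0∞))]

/-- function level membership is the same as membership in `D012` -/
theorem isD_memLp {Ω : Set (EuclideanSpace ℝ (Fin N))} (hN : 2 ≤ N)
    (hΩ : Bornology.IsBounded Ω) (hq' : ((N : ℝ) - 2) * q < 2 * N) {p : FP N} (hp : IsD Ω p) :
    ∃ (hu : MemLp p.1 q volume) (hG : MemLp p.2 2 volume), (hu.toLp p.1, hG.toLp p.2) ∈ D012 q Ω := by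
  obtain ⟨hu2, hG, φ, hφ, h1, h2⟩ := hp
  have hq : 1 ≤ q := one_le_q
  have h1' : Tendsto (fun n => eLpNorm (fun x => p.1 x - φ n x) ((2 : ℝ≥0) : ℝ≥0∞) volume) atTop (𝓝 0) := by
    simpa using h1
  obtain ⟨hu, h3⟩ := appr_transfer hN hΩ (q := 2) (r := q) (by norm_num) hq hq' hu2.1 hG hφ h1' h2
  exact ⟨hu, hG, mem_of_appr hu hG hφ h3 h2⟩

theorem isD_of_mem {Ω : Set (EuclideanSpace ℝ (Fin N))} (hN : 2 ≤ N)
    (hΩ : Bornology.IsBounded Ω) {P : Pairs N q} (hP : P ∈ D012 q Ω) :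
    IsD Ω ((P.1 : EuclideanSpace ℝ (Fin N) → ℝ),
      (P.2 : EuclideanSpace ℝ (Fin N) → EuclideanSpace ℝ (Fin N))) := by
  obtain ⟨φ, hφ, h1, h2⟩ := appr_of_mem hP
  have hq : 1 ≤ q := one_le_q
  have h2' : ((N : ℝ) - 2) * ((2 : ℝ≥0) : ℝ) < 2 * N := by
    rw [NNReal.coe_ofNat]
    linarith
  obtain ⟨hu, h3⟩ := appr_transfer hN hΩ (q := q) (r := 2) hq (by norm_num) h2' (Lp.aestronglyMeasurable P.1)
    (Lp.memLp P.2) hφ h1 h2
  refine ⟨by simpa using hu, Lp.memLp P.2, φ, hφ, by simpa using h3, h2⟩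

theorem normLq_toLp {u : EuclideanSpace ℝ (Fin N) → ℝ} (hu : MemLp u q volume) :
    normLq q u = ‖hu.toLp u‖ := by
  have hq : (1:ℝ) ≤ q := by exact_mod_cast one_le_q (q := q)
  have hq0 : (q:ℝ) ≠ 0 := by linarith
  have h1 := norm_Lp_rpow (hu.toLp u)
  have h2 : ∫ x, |(hu.toLp u) x| ^ (q:ℝ) = ∫ x, |u x| ^ (q:ℝ) := by
    apply integral_congr_ae
    filter_upwards [MemLp.coeFn_toLp hu] with x hx
    rw [hx]
  rw [normLq, ← h2, ← h1, ← Real.rpow_mul (norm_nonneg _), mul_one_div_cancel hq0, Real.rpow_one]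

theorem normLq_coe (P : Lp ℝ (q : ℝ≥0∞) (volume : Measure (EuclideanSpace ℝ (Fin N)))) :
    normLq q (P : EuclideanSpace ℝ (Fin N) → ℝ) = ‖P‖ := by
  rw [normLq_toLp (Lp.memLp P), Lp.toLp_coeFn]

theorem energy_coe (P : Lp (EuclideanSpace ℝ (Fin N)) 2 (volume : Measure (EuclideanSpace ℝ (Fin N)))) :
    energy (P : EuclideanSpace ℝ (Fin N) → EuclideanSpace ℝ (Fin N)) = ‖P‖ ^ 2 := by
  rw [← real_inner_self_eq_norm_sq, L2.inner_def, energy]
  congr 1
  ext x
  rw [real_inner_self_eq_norm_sq]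

theorem energy_toLp {G : EuclideanSpace ℝ (Fin N) → EuclideanSpace ℝ (Fin N)} (hG : MemLp G 2 volume) :
    energy G = ‖hG.toLp G‖ ^ 2 := by
  rw [← energy_coe, energy, energy]
  apply integral_congr_ae
  filter_upwards [MemLp.coeFn_toLp hG] with x hx
  rw [hx]

theorem isEig_of {Ω : Set (EuclideanSpace ℝ (Fin N))} (hN : 2 ≤ N)
    (hΩ : Bornology.IsBounded Ω) {lam : ℝ} {P : Pairs N q}
    (hP : IsEigenpair q Ω lam P) :
    IsEig q Ω lam ((P.1 : EuclideanSpace ℝ (Fin N) → ℝ),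
      (P.2 : EuclideanSpace ℝ (Fin N) → EuclideanSpace ℝ (Fin N))) := by
  obtain ⟨h1, h2, h3⟩ := hP
  refine ⟨isD_of_mem hN hΩ h1, ?_, ?_⟩
  · intro h
    apply h2
    rw [Lp.eq_zero_iff_ae_eq_zero]
    exact h
  · intro ψ hψ
    rw [normLq_coe]
    exact h3 ψ hψ

open Classical in
/-- the class of a pair of functions -/
noncomputable def cls (q : ℝ≥0) (p : FP N) : Pairs N q :=
  if h : MemLp p.1 q volume ∧ MemLp p.2 2 volume then (h.1.toLp p.1, h.2.toLp p.2) else 0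

theorem cls_eq {p : FP N} (hu : MemLp p.1 q volume) (hG : MemLp p.2 2 volume) :
    cls q p = (hu.toLp p.1, hG.toLp p.2) := by
  rw [cls, dif_pos ⟨hu, hG⟩]

theorem cls_mem {Ω : Set (EuclideanSpace ℝ (Fin N))} (hN : 2 ≤ N)
    (hΩ : Bornology.IsBounded Ω) (hq' : ((N : ℝ) - 2) * q < 2 * N) {p : FP N} (hp : IsD Ω p) :
    cls q p ∈ D012 q Ω ∧ ‖(cls q p).1‖ = normLq q p.1 ∧ ‖(cls q p).2‖ ^ 2 = energy p.2 ∧
      MemLp p.1 q volume ∧ MemLp p.2 2 volume := by
  obtain ⟨hu, hG, h⟩ := isD_memLp hN hΩ hq' hp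
  rw [cls_eq hu hG]
  exact ⟨h, (normLq_toLp hu).symm, (energy_toLp hG).symm, hu, hG⟩

theorem cls_neg {p : FP N} (hu : MemLp p.1 q volume) (hG : MemLp p.2 2 volume) :
    cls q (-p) = - cls q p := by
  rw [cls_eq (p := p) hu hG, cls_eq (p := -p) hu.neg hG.neg]
  rfl

theorem cls_tendsto {Ω : Set (EuclideanSpace ℝ (Fin N))} (hN : 2 ≤ N)
    (hΩ : Bornology.IsBounded Ω) (hq' : ((N : ℝ) - 2) * q < 2 * N) {s : ℕ → FP N} {p : FP N}
    (hs : ∀ n, IsD Ω (s n)) (hp : IsD Ω p) (h : ConvD s p) :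
    Tendsto (fun n => cls q (s n)) atTop (𝓝 (cls q p)) := by
  have hq : 1 ≤ q := one_le_q
  obtain ⟨C, hC0, hC⟩ := sobolev_D (q := q) hN hΩ hq hq'
  have hpm := cls_mem (q := q) hN hΩ hq' hp
  have h2 : Tendsto (fun n => ‖(cls q (s n)).2 - (cls q p).2‖) atTop (𝓝 0) := by
    have e : ∀ n, ‖(cls q (s n)).2 - (cls q p).2‖ = Real.sqrt (energy fun x => (s n).2 x - p.2 x) := by
      intro n
      obtain ⟨_, _, _, hu, hG⟩ := cls_mem (q := q) hN hΩ hq' (hs n)
      rw [cls_eq hu hG, cls_eq hpm.2.2.2.1 hpm.2.2.2.2]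
      have e1 : hG.toLp (s n).2 - hpm.2.2.2.2.toLp p.2 = (hG.sub hpm.2.2.2.2).toLp ((s n).2 - p.2) :=
        (MemLp.toLp_sub _ _).symm
      simp only
      rw [e1]
      have e2 : (energy fun x => (s n).2 x - p.2 x) = energy ((s n).2 - p.2) := rfl
      rw [e2, energy_toLp (hG.sub hpm.2.2.2.2), Real.sqrt_sq (norm_nonneg _)]
    have := (Real.continuous_sqrt.tendsto 0).comp h
    rw [Real.sqrt_zero] at this
    exact this.congr (fun n => (e n).symm)
  rw [nhds_prod_eq (x := (cls q p).1) (y := (cls q p).2)]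
  apply Tendsto.prodMk
  · rw [tendsto_iff_norm_sub_tendsto_zero]
    apply squeeze_zero (fun n => norm_nonneg _) (g := fun n => C * ‖(cls q (s n)).2 - (cls q p).2‖)
    · intro n
      have h3 := hC _ (D012_sub (cls_mem (q := q) hN hΩ hq' (hs n)).1 hpm.1)
      rwa [Prod.fst_sub, Prod.snd_sub] at h3
    · simpa using h2.const_mul C
  · rwa [tendsto_iff_norm_sub_tendsto_zero]

end

end Pool.Agent.Helper793.FEig
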