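import Mathlib

/-!
Definitions for the `q`-eigenvalue problems of the Dirichlet Laplacian on open subsets of `ℝ^N`,
at the level of functions.
-/

set_option autoImplicit false

open MeasureTheory Set Filter Topology

namespace Pool.Agent.Helper793.FEig

variable {N : ℕ}

/-- Smooth real functions on `ℝ^N` with compact support contained in `Ω`. -/
def IsTest (Ω : Set (EuclideanSpace ℝ (Fin N))) (φ : EuclideanSpace ℝ (Fin N) → ℝ) : Prop :=
  ContDiff ℝ ((⊤ : ℕ∞) : WithTop ℕ∞) φ ∧ HasCompactSupport φ ∧ tsupport φ ⊆ Ω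

/-- The Dirichlet integral: integral of `|G|^2` for a vector field `G`. -/
noncomputable def energy (G : EuclideanSpace ℝ (Fin N) → EuclideanSpace ℝ (Fin N)) : ℝ :=
  ∫ x, ‖G x‖ ^ 2

/-- The `L^q` norm of a function. -/
noncomputable def normLq (q : ℝ) (u : EuclideanSpace ℝ (Fin N) → ℝ) : ℝ :=
  (∫ x, |u x| ^ q) ^ (1 / q)

/-- A (function, vector field) pair, to be used as `(u, ∇u)`. -/
abbrev FP (N : ℕ) : Type :=
  (EuclideanSpace ℝ (Fin N) → ℝ) × (EuclideanSpace ℝ (Fin N) → EuclideanSpace ℝ (Fin N))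

/-- `u` belongs to `D^{1,2}_0(Ω)` (for bounded open `Ω`) with weak gradient `G`: `u` and `G` are
square integrable, and there are test functions `φ_n` with `φ_n → u` and `∇φ_n → G` in `L^2`. -/
def IsD (Ω : Set (EuclideanSpace ℝ (Fin N))) (p : FP N) : Prop :=
  MemLp p.1 2 volume ∧ MemLp p.2 2 volume ∧
  ∃ φ : ℕ → EuclideanSpace ℝ (Fin N) → ℝ, (∀ n, IsTest Ω (φ n)) ∧
    Tendsto (fun n => eLpNorm (fun x => p.1 x - φ n x) 2 volume) atTop (𝓝 0) ∧
    Tendsto (fun n => eLpNorm (fun x => p.2 x - gradient (φ n) x) 2 volume) atTop (𝓝 0)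

/-- `p = (u, ∇u)` is a nonzero element of `D^{1,2}_0(Ω)` which is a weak solution of
`-Δu = lam ‖u‖_q^{2-q} |u|^{q-2} u` in `Ω`. -/
def IsEig (q : ℝ) (Ω : Set (EuclideanSpace ℝ (Fin N))) (lam : ℝ) (p : FP N) : Prop :=
  IsD Ω p ∧ ¬ (p.1 =ᵐ[volume] fun _ => 0) ∧
    ∀ ψ : EuclideanSpace ℝ (Fin N) → ℝ, IsTest Ω ψ →
      ∫ x, inner ℝ (p.2 x) (gradient ψ x) =
        lam * normLq q p.1 ^ (2 - q) * ∫ x, |p.1 x| ^ (q - 2) * p.1 x * ψ x

/-- The `q`-spectrum of `Ω`. -/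
def Spec (q : ℝ) (Ω : Set (EuclideanSpace ℝ (Fin N))) : Set ℝ :=
  {lam | ∃ p : FP N, IsEig q Ω lam p}

/-- The unit sphere `S_q(Ω)`: elements of `D^{1,2}_0(Ω)` with `‖u‖_q = 1`. -/
def Sphere (q : ℝ) (Ω : Set (EuclideanSpace ℝ (Fin N))) : Set (FP N) :=
  {p | IsD Ω p ∧ normLq q p.1 = 1}

/-- Convergence in `D^{1,2}_0`: the energy of the difference tends to zero. -/
def ConvD (s : ℕ → FP N) (p : FP N) : Prop :=
  Tendsto (fun n => energy fun x => (s n).2 x - p.2 x) atTop (𝓝 0)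

/-- (Sequential) compactness for convergence in `D^{1,2}_0`. -/
def IsCompactD (F : Set (FP N)) : Prop :=
  ∀ s : ℕ → FP N, (∀ n, s n ∈ F) → ∃ p ∈ F, ∃ k : ℕ → ℕ, StrictMono k ∧ ConvD (fun n => s (k n)) p

/-- There is an odd map from `F` to the unit sphere of `ℝ^j`, continuous for convergence
in `D^{1,2}_0`. -/
def HasOddMap (F : Set (FP N)) (j : ℕ) : Prop :=
  ∃ f : FP N → EuclideanSpace ℝ (Fin j),
    (∀ s : ℕ → FP N, (∀ n, s n ∈ F) → ∀ p ∈ F, ConvD s p →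
      Tendsto (fun n => f (s n)) atTop (𝓝 (f p))) ∧
    (∀ p ∈ F, ‖f p‖ = 1) ∧ ∀ p ∈ F, f (-p) = - f p

/-- The Krasnoselskii genus of `F`: the least `j ≥ 1` with an odd continuous map to the unit sphere
of `ℝ^j` (and `⊤` if there is none). -/
noncomputable def genus (F : Set (FP N)) : ℕ∞ :=
  sInf {k : ℕ∞ | ∃ j : ℕ, k = j ∧ 1 ≤ j ∧ HasOddMap F j}

/-- The Lusternik-Schnirelman value `λ_{k,LS}(Ω;q)`: infimum over compact, nonempty, symmetric
subsets `F` of the sphere with genus at least `k` of the maximum of the energy on `F`. -/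
noncomputable def lamLS (q : ℝ) (Ω : Set (EuclideanSpace ℝ (Fin N))) (k : ℕ) : ℝ :=
  sInf {m : ℝ | ∃ F : Set (FP N), IsCompactD F ∧ F.Nonempty ∧ F ⊆ Sphere q Ω ∧
    (∀ p ∈ F, -p ∈ F) ∧ (k : ℕ∞) ≤ genus F ∧ IsGreatest ((fun p => energy p.2) '' F) m}

/-- The Lusternik-Schnirelman spectrum. -/
def SpecLS (q : ℝ) (Ω : Set (EuclideanSpace ℝ (Fin N))) : Set ℝ :=
  {lam | ∃ k : ℕ, 1 ≤ k ∧ lam = lamLS q Ω k}

end Pool.Agent.Helper793.FEig
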