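import Pool.Agent.Helper793.FDefs

/-!
The first and second `q`-eigenvalue.
-/

set_option autoImplicit false

open MeasureTheory Set

namespace Pool.Agent.Helper793.FEig

variable {N : ℕ}

/-- The first `q`-eigenvalue `λ_1(Ω;q)`: the infimum of the energy on the sphere `S_q(Ω)`. -/
noncomputable def lam1 (q : ℝ) (Ω : Set (EuclideanSpace ℝ (Fin N))) : ℝ :=
  sInf ((fun p => energy p.2) '' Sphere q Ω)

/-- The second `q`-eigenvalue: the infimum of the eigenvalues larger than `λ_1(Ω;q)`. -/
noncomputable def lam2 (q : ℝ) (Ω : Set (EuclideanSpace ℝ (Fin N))) : ℝ :=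
  sInf {lam | lam ∈ Spec q Ω ∧ lam1 q Ω < lam}

end Pool.Agent.Helper793.FEig
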