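import Pool.Agent.Helper793.Sgn
set_option autoImplicit false
set_option linter.unusedSectionVars false
open MeasureTheory Metric Set Filter Topology
open scoped ENNReal NNReal

namespace Pool.Agent.Helper793.Gap

open Pool.Agent.Helper793.QEig Pool.Agent.Helper793.Sob Pool.Agent.Helper793.Cut
open Pool.Agent.Helper793.Hop Pool.Agent.Helper793.Cmp Pool.Agent.Helper793.Sgn

variable {N : ℕ} {q : ℝ≥0} [Fact (1 ≤ (q : ℝ≥0∞))]

theorem abs_coe (f : Lp ℝ (q : ℝ≥0∞) (volume : Measure (EuclideanSpace ℝ (Fin N)))) :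
    ∀ᵐ x ∂volume, (Lp.posPart f + Lp.negPart f) x = |f x| := by
  filter_upwards [Lp.coeFn_posPart f, Lp.coeFn_negPart_eq_max f,
    Lp.coeFn_add (Lp.posPart f) (Lp.negPart f)] with x h1 h2 h3
  rw [h3, Pi.add_apply, h1, h2]
  rcases le_total (f x) 0 with h | h
  · rw [max_eq_right h, max_eq_left (by linarith), zero_add, abs_of_nonpos h]
  · rw [max_eq_left h, max_eq_right (by linarith), add_zero, abs_of_nonneg h]

/-- lower bound for the modulus of a minimiser on a ball -/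
theorem abs_lower (hN : 2 ≤ N) (hq : 1 < q) (hq2 : q < 2) (a : EuclideanSpace ℝ (Fin N)) {r : ℝ}
    (hr : 0 < r) (hL : 0 < l1 q (ball a r)) :
    ∃ c : ℝ, 0 < c ∧ ∀ p ∈ D012 q (ball a r), ‖p.1‖ = 1 → ‖p.2‖ ^ 2 = l1 q (ball a r) →
      ∀ᵐ x ∂volume, x ∈ ball a r → c * (df a r x) ^ 2 ≤ |p.1 x| := by
  obtain ⟨c, hc, h⟩ := lower_bound (q := q) hN hq hq2 a hr hL
  refine ⟨c, hc, ?_⟩
  intro p hp hp1 hp2
  obtain ⟨p', hp', he, hle⟩ := exists_abs hp
  have h1 : ‖p'.1‖ = 1 := by rw [he, norm_abs]; exact hp1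
  have h2 : ‖p'.2‖ ^ 2 = l1 q (ball a r) := by
    apply le_antisymm
    · rw [← hp2]; gcongr
    · exact l1_le hp' h1
  have h3 := h p' hp' h1 h2 (by rw [he]; exact abs_nonneg_ae _)
  rw [he] at h3
  filter_upwards [h3, abs_coe p.1] with x a1 a2 hx
  rw [← a2]
  exact a1 hx

/-- a minimiser on a ball has constant sign -/
theorem minimiser_sign (hN : 2 ≤ N) (hq : 1 < q) (hq2 : q < 2) (a : EuclideanSpace ℝ (Fin N)) {r : ℝ}
    (hr : 0 < r) (hL : 0 < l1 q (ball a r)) {p : Pairs N q} (hp : p ∈ D012 q (ball a r))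
    (hp1 : ‖p.1‖ = 1) (hp2 : ‖p.2‖ ^ 2 = l1 q (ball a r)) :
    (∀ᵐ x ∂volume, x ∈ ball a r → 0 < p.1 x) ∨ (∀ᵐ x ∂volume, x ∈ ball a r → p.1 x < 0) := by
  obtain ⟨c, hc, h⟩ := abs_lower (q := q) hN hq hq2 a hr hL
  have hlow := h p hp hp1 hp2
  set t : ℕ → ℝ := fun n => r - r / ((n:ℝ) + 1) with ht
  have ht0 : ∀ n, 0 ≤ t n := by
    intro n
    have : r / ((n:ℝ) + 1) ≤ r := div_le_self hr.le (by
      have : (0:ℝ) ≤ n := by positivity
      linarith)
    simp only [ht]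
    linarith
  have htr : ∀ n, t n < r := by
    intro n
    have : 0 < r / ((n:ℝ) + 1) := by positivity
    simp only [ht]
    linarith
  have htm : Monotone t := by
    intro m n hmn
    have : (m:ℝ) ≤ n := by exact_mod_cast hmn
    simp only [ht]
    have h1 : r / ((n:ℝ) + 1) ≤ r / ((m:ℝ) + 1) := by gcongr
    linarith
  set cc : ℕ → ℝ := fun n => c * (r ^ 2 - t n ^ 2) ^ 2 with hcc
  have hccpos : ∀ n, 0 < cc n := by
    intro n
    have h1 := ht0 n
    have h2 := htr n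
    have : 0 < r ^ 2 - t n ^ 2 := by nlinarith
    simp only [hcc]
    positivity
  have hKb : ∀ n, closedBall a (t n) ⊆ ball a r := fun n => closedBall_subset_ball (htr n)
  have hKlow : ∀ n, ∀ᵐ x ∂volume, x ∈ closedBall a (t n) → cc n ≤ |p.1 x| := by
    intro n
    filter_upwards [hlow] with x hx hxK
    refine le_trans ?_ (hx (hKb n hxK))
    rw [mem_closedBall, dist_eq_norm] at hxK
    simp only [hcc, df]
    have h1 := ht0 n
    have h2 := htr n
    have h3 : 0 < r ^ 2 - t n ^ 2 := by nlinarith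
    have h4 : r ^ 2 - t n ^ 2 ≤ r ^ 2 - ‖x - a‖ ^ 2 := by
      have : ‖x - a‖ ^ 2 ≤ t n ^ 2 := by gcongr
      linarith
    gcongr
  have hcov : ∀ x ∈ ball a r, ∃ n, x ∈ closedBall a (t n) := by
    intro x hx
    rw [mem_ball] at hx
    obtain ⟨n, hn⟩ := exists_nat_one_div_lt (show 0 < (r - dist x a) / r by
      apply div_pos _ hr
      linarith)
    refine ⟨n, ?_⟩
    rw [mem_closedBall]
    rw [div_lt_div_iff₀ (by positivity) hr, one_mul] at hn
    simp only [ht]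
    have : r / ((n:ℝ) + 1) < r - dist x a := by
      rw [div_lt_iff₀ (by positivity)]
      exact hn
    linarith
  have hdich : ∀ n, volume {x | x ∈ closedBall a (t n) ∧ cc n ≤ p.1 x} = 0 ∨
      volume {x | x ∈ closedBall a (t n) ∧ p.1 x ≤ - cc n} = 0 := by
    intro n
    rcases sign_const (convex_closedBall a (t n)) measurableSet_closedBall (subset_refl _) (hccpos n) hp with h | h | h
    · exact Or.inl h
    · exact Or.inr h
    · exact absurd (hKlow n) h
  -- reformulation on each closed ball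
  have hneg : ∀ n, volume {x | x ∈ closedBall a (t n) ∧ cc n ≤ p.1 x} = 0 →
      ∀ᵐ x ∂volume, x ∈ closedBall a (t n) → p.1 x < 0 := by
    intro n h0
    have h1 : ∀ᵐ x ∂volume, ¬ (x ∈ closedBall a (t n) ∧ cc n ≤ p.1 x) := by
      rw [ae_iff]
      simpa using h0
    filter_upwards [h1, hKlow n] with x b1 b2 hx
    have b3 := b2 hx
    have b4 : p.1 x < cc n := by
      by_contra hc
      exact b1 ⟨hx, not_lt.mp hc⟩
    rcases le_abs.mp b3 with b5 | b5
    · linarith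
    · have := hccpos n
      linarith
  have hpos : ∀ n, volume {x | x ∈ closedBall a (t n) ∧ p.1 x ≤ - cc n} = 0 →
      ∀ᵐ x ∂volume, x ∈ closedBall a (t n) → 0 < p.1 x := by
    intro n h0
    have h1 : ∀ᵐ x ∂volume, ¬ (x ∈ closedBall a (t n) ∧ p.1 x ≤ - cc n) := by
      rw [ae_iff]
      simpa using h0
    filter_upwards [h1, hKlow n] with x b1 b2 hx
    have b3 := b2 hx
    have b4 : - cc n < p.1 x := by
      by_contra hc
      exact b1 ⟨hx, not_lt.mp hc⟩
    rcases le_abs.mp b3 with b5 | b5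
    · have := hccpos n
      linarith
    · linarith
  by_cases hall : ∀ n, ∀ᵐ x ∂volume, x ∈ closedBall a (t n) → 0 < p.1 x
  · left
    rw [← ae_all_iff] at hall
    filter_upwards [hall] with x hx hxb
    obtain ⟨n, hn⟩ := hcov x hxb
    exact hx n hn
  · right
    rw [not_forall] at hall
    obtain ⟨n0, hn0⟩ := hall
    have hall' : ∀ n, ∀ᵐ x ∂volume, x ∈ closedBall a (t n) → p.1 x < 0 := by
      intro n
      rcases hdich (max n n0) with h1 | h1
      · filter_upwards [hneg _ h1] with x hx hxb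
        exact hx (closedBall_subset_closedBall (htm (le_max_left _ _)) hxb)
      · exfalso
        apply hn0
        filter_upwards [hpos _ h1] with x hx hxb
        exact hx (closedBall_subset_closedBall (htm (le_max_right _ _)) hxb)
    rw [← ae_all_iff] at hall'
    filter_upwards [hall'] with x hx hxb
    obtain ⟨n, hn⟩ := hcov x hxb
    exact hx n hn

/-- functions of the space vanish a.e. off the set -/
theorem zero_off {Ω : Set (EuclideanSpace ℝ (Fin N))} (hΩ : MeasurableSet Ω)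
    {p : Pairs N q} (hp : p ∈ D012 q Ω) : ∀ᵐ x ∂volume, x ∉ Ω → p.1 x = 0 := by
  have h1 : mass Ωᶜ p.1 = 0 := mass_zero disjoint_compl_left hp
  rw [mass, setIntegral_eq_zero_iff_of_nonneg_ae (Eventually.of_forall fun x => by positivity)
    (integrable_abs_rpow p.1).integrableOn] at h1
  have h2 := (ae_restrict_iff' hΩ.compl).mp h1
  filter_upwards [h2] with x hx hxo
  have h3 : |p.1 x| ^ (q:ℝ) = 0 := hx hxo
  rw [Real.rpow_eq_zero (abs_nonneg _) (q_pos (q := q)).ne', abs_eq_zero] at h3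
  exact h3

theorem pos_neg_zero (hN : 2 ≤ N) (hq : 1 < q) (hq2 : q < 2) (a : EuclideanSpace ℝ (Fin N)) {r : ℝ}
    (hr : 0 < r) (hL : 0 < l1 q (ball a r)) {p : Pairs N q} (hp : p ∈ D012 q (ball a r))
    (hp1 : ‖p.1‖ = 1) (hp2 : ‖p.2‖ ^ 2 = l1 q (ball a r)) :
    Lp.negPart p.1 = 0 ∨ Lp.posPart p.1 = 0 := by
  have hz := zero_off (q := q) measurableSet_ball hp
  rcases minimiser_sign (q := q) hN hq hq2 a hr hL hp hp1 hp2 with h | h
  · left
    rw [Lp.eq_zero_iff_ae_eq_zero]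
    filter_upwards [h, hz, Lp.coeFn_negPart_eq_max p.1] with x a1 a2 a3
    rw [a3, Pi.zero_apply]
    by_cases hx : x ∈ ball a r
    · rw [max_eq_right (by linarith [a1 hx])]
    · rw [a2 hx]; simp
  · right
    rw [Lp.eq_zero_iff_ae_eq_zero]
    filter_upwards [h, hz, Lp.coeFn_posPart p.1] with x a1 a2 a3
    rw [a3, Pi.zero_apply]
    by_cases hx : x ∈ ball a r
    · rw [max_eq_right (by linarith [a1 hx])]
    · rw [a2 hx]; simp

theorem posPart_smul_norm {c : ℝ} (hc : 0 ≤ c)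
    (f : Lp ℝ (q : ℝ≥0∞) (volume : Measure (EuclideanSpace ℝ (Fin N)))) :
    ‖Lp.posPart (c • f)‖ = c * ‖Lp.posPart f‖ := by
  have h : Lp.posPart (c • f) = c • Lp.posPart f := by
    apply Lp.ext
    filter_upwards [Lp.coeFn_posPart (c • f), Lp.coeFn_smul c f, Lp.coeFn_smul c (Lp.posPart f),
      Lp.coeFn_posPart f] with x a1 a2 a3 a4
    rw [a1, a2, a3, Pi.smul_apply, Pi.smul_apply, a4, smul_eq_mul, smul_eq_mul,
      mul_max_of_nonneg _ _ hc, mul_zero]
  rw [h, norm_smul, Real.norm_eq_abs, abs_of_nonneg hc]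

theorem negPart_smul_norm {c : ℝ} (hc : 0 ≤ c)
    (f : Lp ℝ (q : ℝ≥0∞) (volume : Measure (EuclideanSpace ℝ (Fin N)))) :
    ‖Lp.negPart (c • f)‖ = c * ‖Lp.negPart f‖ := by
  have h1 : Lp.negPart (c • f) = Lp.posPart (c • (-f)) := by
    rw [smul_neg]
    rfl
  have h2 : Lp.negPart f = Lp.posPart (-f) := rfl
  rw [h1, posPart_smul_norm hc, h2]

/-- the gap above the first eigenvalue on a ball -/
theorem gap (hN : 2 ≤ N) (hq : 1 < q) (hq2 : q < 2) (a : EuclideanSpace ℝ (Fin N)) {r : ℝ}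
    (hr : 0 < r) (hq' : ((N : ℝ) - 2) * q < 2 * N) :
    ∃ m : ℝ, l1 q (ball a r) < m ∧ ∀ p ∈ D012 q (ball a r),
      ‖Lp.posPart p.1‖ = ‖Lp.negPart p.1‖ → m * ‖p.1‖ ^ 2 ≤ ‖p.2‖ ^ 2 := by
  have hq0 := q_pos (q := q)
  have hb : Bornology.IsBounded (ball a r) := isBounded_ball
  have hL : 0 < l1 q (ball a r) := l1_pos hN isOpen_ball ⟨a, mem_ball_self hr⟩ hb hq'
  set A : Set (Lp ℝ (q : ℝ≥0∞) (volume : Measure (EuclideanSpace ℝ (Fin N)))) :=
    {f | ‖f‖ = 1} ∩ {f | ‖Lp.posPart f‖ = ‖Lp.negPart f‖} with hA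
  have hAcl : IsClosed A := (isClosed_eq continuous_norm continuous_const).inter
    (isClosed_eq Lp.continuous_posPart.norm Lp.continuous_negPart.norm)
  -- normalisation
  have hnorm : ∀ m : ℝ, (∀ p ∈ D012 q (ball a r), p.1 ∈ A → m ≤ ‖p.2‖ ^ 2) →
      ∀ p ∈ D012 q (ball a r), ‖Lp.posPart p.1‖ = ‖Lp.negPart p.1‖ → m * ‖p.1‖ ^ 2 ≤ ‖p.2‖ ^ 2 := by
    intro m hm p hp hpe
    rcases eq_or_ne ‖p.1‖ 0 with h0 | h0
    · rw [h0]; simp
    · have hpos : 0 < ‖p.1‖ := lt_of_le_of_ne (norm_nonneg _) (Ne.symm h0)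
      have h1 := hm (‖p.1‖⁻¹ • p) (D012_smul _ hp) (by
        refine ⟨?_, ?_⟩
        · rw [mem_ofPred_eq, Prod.smul_fst, norm_smul, norm_inv, norm_norm, inv_mul_cancel₀ h0]
        · rw [mem_ofPred_eq, Prod.smul_fst, posPart_smul_norm (by positivity),
            negPart_smul_norm (by positivity), hpe])
      rw [Prod.smul_snd, norm_smul, norm_inv, norm_norm, mul_pow] at h1
      calc m * ‖p.1‖ ^ 2 ≤ (‖p.1‖⁻¹ ^ 2 * ‖p.2‖ ^ 2) * ‖p.1‖ ^ 2 := by gcongr
        _ = ‖p.2‖ ^ 2 := by field_simp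
  by_cases hne : ∃ p ∈ D012 q (ball a r), p.1 ∈ A
  · obtain ⟨p, hp, hpA, hmin⟩ := exists_min (q := q) hN hb hq' hAcl hne
    refine ⟨‖p.2‖ ^ 2, ?_, ?_⟩
    · refine lt_of_le_of_ne (l1_le hp hpA.1) ?_
      intro heq
      have hz := pos_neg_zero (q := q) hN hq hq2 a hr hL hp hpA.1 heq.symm
      have hpe : ‖Lp.posPart p.1‖ = ‖Lp.negPart p.1‖ := hpA.2
      have h1 : ‖Lp.posPart p.1‖ = 0 ∧ ‖Lp.negPart p.1‖ = 0 := by
        rcases hz with h | h
        · rw [h, norm_zero] at hpe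
          exact ⟨hpe, by rw [h, norm_zero]⟩
        · rw [h, norm_zero] at hpe
          exact ⟨by rw [h, norm_zero], hpe.symm⟩
      have h2 : ‖Lp.posPart p.1 + Lp.negPart p.1‖ = 1 := by rw [norm_abs]; exact hpA.1
      have h3 := norm_add_le (Lp.posPart p.1) (Lp.negPart p.1)
      rw [h1.1, h1.2, h2] at h3
      norm_num at h3
    · apply hnorm
      intro p' hp' hpA'
      have := hmin p' hp' hpA'
      gcongr
  · push Not at hne
    refine ⟨l1 q (ball a r) + 1, by linarith, ?_⟩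
    apply hnorm
    intro p' hp' hpA'
    exact absurd hpA' (hne p' hp')

end Pool.Agent.Helper793.Gap
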