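import Pool.Agent.Helper793.Uni

set_option autoImplicit false
set_option linter.unusedSectionVars false

open MeasureTheory Metric Set Filter Topology
open scoped ENNReal NNReal
open Pool.Agent.Helper793.QEig Pool.Agent.Helper793.Sob Pool.Agent.Helper793.Cut

namespace Pool.Agent.Helper793.HC

variable {N : ℕ}

variable {q : ℝ≥0} [Fact (1 ≤ (q : ℝ≥0∞))]

/-! ### the modulus of a pair of functions, through complex numbers -/

/-- `f + i g` -/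
noncomputable def cpl (f g : Lp ℝ (q : ℝ≥0∞) (volume : Measure (EuclideanSpace ℝ (Fin N)))) :
    Lp ℂ (q : ℝ≥0∞) (volume : Measure (EuclideanSpace ℝ (Fin N))) :=
  Complex.ofRealCLM.compLpL (q : ℝ≥0∞) volume f +
    (Complex.I • Complex.ofRealCLM).compLpL (q : ℝ≥0∞) volume g

theorem cpl_cont : Continuous (fun x : Lp ℝ (q : ℝ≥0∞) (volume : Measure (EuclideanSpace ℝ (Fin N))) ×
    Lp ℝ (q : ℝ≥0∞) (volume : Measure (EuclideanSpace ℝ (Fin N))) => cpl x.1 x.2) := by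
  unfold cpl
  fun_prop

theorem cpl_cont1 (g : Lp ℝ (q : ℝ≥0∞) (volume : Measure (EuclideanSpace ℝ (Fin N)))) :
    Continuous (fun p : Pairs N q => ‖cpl p.1 g‖) := by
  unfold cpl
  fun_prop

theorem cpl_cont2 (f : Lp ℝ (q : ℝ≥0∞) (volume : Measure (EuclideanSpace ℝ (Fin N)))) :
    Continuous (fun p : Pairs N q => ‖cpl f p.1‖) := by
  unfold cpl
  fun_prop

theorem cpl_coe (f g : Lp ℝ (q : ℝ≥0∞) (volume : Measure (EuclideanSpace ℝ (Fin N)))) :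
    ∀ᵐ x ∂volume, ‖cpl f g x‖ ^ (q:ℝ) = ((f x) ^ 2 + (g x) ^ 2) ^ ((q:ℝ) / 2) := by
  filter_upwards [Complex.ofRealCLM.coeFn_compLpL f, (Complex.I • Complex.ofRealCLM).coeFn_compLpL g,
    Lp.coeFn_add (Complex.ofRealCLM.compLpL (q : ℝ≥0∞) volume f)
      ((Complex.I • Complex.ofRealCLM).compLpL (q : ℝ≥0∞) volume g)] with x a1 a2 a3
  unfold cpl
  rw [a3, Pi.add_apply, a1, a2]
  have h1 : (Complex.I • Complex.ofRealCLM) (g x) = (g x : ℂ) * Complex.I := by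
    simp [mul_comm]
  rw [h1, Complex.ofRealCLM_apply, Complex.norm_add_mul_I, Real.sqrt_eq_rpow,
    ← Real.rpow_mul (by positivity)]
  congr 1
  ring

theorem cpl_norm (f g : Lp ℝ (q : ℝ≥0∞) (volume : Measure (EuclideanSpace ℝ (Fin N)))) :
    ‖cpl f g‖ ^ (q:ℝ) = ∫ x, ((f x) ^ 2 + (g x) ^ 2) ^ ((q:ℝ) / 2) := by
  rw [← integral_congr_ae (cpl_coe f g), Lp.norm_def,
    (Lp.memLp (cpl f g)).eLpNorm_eq_integral_rpow_norm qe_ne ENNReal.coe_ne_top,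
    ENNReal.toReal_ofReal (by positivity)]
  simp only [ENNReal.coe_toReal]
  have hq0 := q_pos (q := q)
  rw [← Real.rpow_mul (integral_nonneg fun _ => by positivity), inv_mul_cancel₀ (by positivity),
    Real.rpow_one]

theorem cpl_int (f g : Lp ℝ (q : ℝ≥0∞) (volume : Measure (EuclideanSpace ℝ (Fin N)))) :
    Integrable (fun x => ((f x) ^ 2 + (g x) ^ 2) ^ ((q:ℝ) / 2)) volume := by
  have h1 := (Lp.memLp (cpl f g)).integrable_norm_rpow qe_ne ENNReal.coe_ne_top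
  simp only [ENNReal.coe_toReal] at h1
  exact h1.congr (cpl_coe f g)

/-! ### the regularised modulus of two test functions -/

theorem sq_pos' (a b : ℝ) {η : ℝ} (hη : 0 < η) : 0 < a ^ 2 + b ^ 2 + η ^ 2 := by positivity

theorem isTest_mod {Ω : Set (EuclideanSpace ℝ (Fin N))} {φ ψ : EuclideanSpace ℝ (Fin N) → ℝ}
    (hφ : IsTest Ω φ) (hψ : IsTest Ω ψ) {η : ℝ} (hη : 0 < η) :
    IsTest Ω (fun x => √(φ x ^ 2 + ψ x ^ 2 + η ^ 2) - η) := by
  have hsup : Function.support (fun x => √(φ x ^ 2 + ψ x ^ 2 + η ^ 2) - η) ⊆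
      Function.support φ ∪ Function.support ψ := by
    intro x hx
    by_contra hcon
    rw [mem_union, not_or, Function.mem_support, Function.mem_support, not_not, not_not] at hcon
    apply hx
    simp only
    rw [hcon.1, hcon.2]
    simp [Real.sqrt_sq hη.le]
  have hts : tsupport (fun x => √(φ x ^ 2 + ψ x ^ 2 + η ^ 2) - η) ⊆ tsupport φ ∪ tsupport ψ := by
    apply closure_minimal _ ((isClosed_tsupport φ).union (isClosed_tsupport ψ))
    exact hsup.trans (union_subset_union (subset_tsupport φ) (subset_tsupport ψ))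
  refine ⟨?_, ?_, hts.trans (union_subset hφ.2.2 hψ.2.2)⟩
  · apply ContDiff.sub _ contDiff_const
    apply ContDiff.sqrt
    · exact ((hφ.1.pow 2).add (hψ.1.pow 2)).add contDiff_const
    · intro x
      exact (sq_pos' _ _ hη).ne'
  · exact (hφ.2.1.union hψ.2.1).of_isClosed_subset (isClosed_tsupport _) hts

theorem fderiv_mod {Ω : Set (EuclideanSpace ℝ (Fin N))} {φ ψ : EuclideanSpace ℝ (Fin N) → ℝ}
    (hφ : IsTest Ω φ) (hψ : IsTest Ω ψ) {η : ℝ} (hη : 0 < η) (x : EuclideanSpace ℝ (Fin N)) :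
    ‖fderiv ℝ (fun x => √(φ x ^ 2 + ψ x ^ 2 + η ^ 2) - η) x‖ ^ 2 ≤
      ‖fderiv ℝ φ x‖ ^ 2 + ‖fderiv ℝ ψ x‖ ^ 2 := by
  have d1 := (hφ.1.differentiable (by simp) x).hasFDerivAt
  have d2 := (hψ.1.differentiable (by simp) x).hasFDerivAt
  have d3 := (((d1.pow 2).add (d2.pow 2)).add_const (η ^ 2)).sqrt (sq_pos' (φ x) (ψ x) hη).ne'
  have d4 := d3.sub_const η
  have hS := sq_pos' (φ x) (ψ x) hη
  set S := φ x ^ 2 + ψ x ^ 2 + η ^ 2 with hSd
  have e : fderiv ℝ (fun x => √(φ x ^ 2 + ψ x ^ 2 + η ^ 2) - η) x =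
      (1 / √S) • (φ x • fderiv ℝ φ x + ψ x • fderiv ℝ ψ x) := by
    have e0 : fderiv ℝ (fun x => √(φ x ^ 2 + ψ x ^ 2 + η ^ 2) - η) x =
      (1 / (2 * √S)) • ((2 • φ x ^ (2 - 1)) • fderiv ℝ φ x + (2 • ψ x ^ (2 - 1)) • fderiv ℝ ψ x) :=
      d4.fderiv
    rw [e0]
    ext v
    simp only [smul_apply, add_apply, smul_eq_mul, nsmul_eq_mul]
    field_simp
    norm_num
    ring
  rw [e, norm_smul, mul_pow]
  have h1 : ‖φ x • fderiv ℝ φ x + ψ x • fderiv ℝ ψ x‖ ≤ |φ x| * ‖fderiv ℝ φ x‖ + |ψ x| * ‖fderiv ℝ ψ x‖ := by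
    refine (norm_add_le _ _).trans ?_
    rw [norm_smul, norm_smul, Real.norm_eq_abs, Real.norm_eq_abs]
  have h2 : (|φ x| * ‖fderiv ℝ φ x‖ + |ψ x| * ‖fderiv ℝ ψ x‖) ^ 2 ≤
      (φ x ^ 2 + ψ x ^ 2) * (‖fderiv ℝ φ x‖ ^ 2 + ‖fderiv ℝ ψ x‖ ^ 2) := by
    rw [← sq_abs (φ x), ← sq_abs (ψ x)]
    nlinarith [sq_nonneg (|φ x| * ‖fderiv ℝ ψ x‖ - |ψ x| * ‖fderiv ℝ φ x‖)]
  have h3 : ‖1 / √S‖ ^ 2 = 1 / S := by
    rw [Real.norm_eq_abs, sq_abs, div_pow, one_pow, Real.sq_sqrt hS.le]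
  rw [h3, one_div, inv_mul_le_iff₀ hS]
  calc ‖φ x • fderiv ℝ φ x + ψ x • fderiv ℝ ψ x‖ ^ 2
      ≤ (|φ x| * ‖fderiv ℝ φ x‖ + |ψ x| * ‖fderiv ℝ ψ x‖) ^ 2 := by gcongr
    _ ≤ (φ x ^ 2 + ψ x ^ 2) * (‖fderiv ℝ φ x‖ ^ 2 + ‖fderiv ℝ ψ x‖ ^ 2) := h2
    _ ≤ S * (‖fderiv ℝ φ x‖ ^ 2 + ‖fderiv ℝ ψ x‖ ^ 2) := by
        gcongr
        rw [hSd]
        linarith [sq_nonneg η]

/-- hidden convexity for test functions -/
theorem hc_test {Ω : Set (EuclideanSpace ℝ (Fin N))} {φ ψ : EuclideanSpace ℝ (Fin N) → ℝ}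
    (hφ : IsTest Ω φ) (hψ : IsTest Ω ψ) :
    l1 q Ω * ‖cpl (pairOf q hφ).1 (pairOf q hψ).1‖ ^ 2 ≤
      ‖(pairOf q hφ).2‖ ^ 2 + ‖(pairOf q hψ).2‖ ^ 2 := by
  have hq0 := q_pos (q := q)
  have hq1 : (1:ℝ) ≤ q := by exact_mod_cast one_le_q (q := q)
  -- along eta
  set et : ℕ → ℝ := fun n => 1 / ((n:ℝ) + 1) with het
  have hetp : ∀ n, 0 < et n := fun n => by positivity
  have hett : Tendsto et atTop (𝓝 0) := tendsto_one_div_add_atTop_nhds_zero_nat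
  have h1 : ∀ n, l1 q Ω * (∫ x, |√(φ x ^ 2 + ψ x ^ 2 + et n ^ 2) - et n| ^ (q:ℝ)) ^ (2 / (q:ℝ)) ≤
      ‖(pairOf q hφ).2‖ ^ 2 + ‖(pairOf q hψ).2‖ ^ 2 := by
    intro n
    have h2 := l1_ineq (pairOf_mem (q := q) (isTest_mod hφ hψ (hetp n)))
    rw [norm_fst_sq, norm_snd_sq] at h2
    refine h2.trans ?_
    rw [norm_snd_sq, norm_snd_sq, ← integral_add (integrable_fderiv_sq hφ) (integrable_fderiv_sq hψ)]
    exact integral_mono (integrable_fderiv_sq (isTest_mod hφ hψ (hetp n))) ((integrable_fderiv_sq hφ).add (integrable_fderiv_sq hψ))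
      (fun x => fderiv_mod hφ hψ (hetp n) x)
  have hlim : Tendsto (fun n => ∫ x, |√(φ x ^ 2 + ψ x ^ 2 + et n ^ 2) - et n| ^ (q:ℝ)) atTop
      (𝓝 (∫ x, (φ x ^ 2 + ψ x ^ 2) ^ ((q:ℝ) / 2))) := by
    apply tendsto_integral_of_dominated_convergence (fun x => (φ x ^ 2 + ψ x ^ 2) ^ ((q:ℝ) / 2))
    · intro n
      have hc : Continuous (fun x => |√(φ x ^ 2 + ψ x ^ 2 + et n ^ 2) - et n| ^ (q:ℝ)) := by
        apply Continuous.rpow_const _ (fun _ => Or.inr hq0.le)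
        have := hφ.1.continuous
        have := hψ.1.continuous
        fun_prop
      exact hc.aestronglyMeasurable
    · have hc : Continuous (fun x => (φ x ^ 2 + ψ x ^ 2) ^ ((q:ℝ) / 2)) := by
        apply Continuous.rpow_const _ (fun _ => Or.inr (by positivity))
        have := hφ.1.continuous
        have := hψ.1.continuous
        fun_prop
      apply hc.integrable_of_hasCompactSupport
      apply HasCompactSupport.intro (hφ.2.1.union hψ.2.1)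
      intro x hx
      rw [mem_union, not_or] at hx
      rw [image_eq_zero_of_notMem_tsupport hx.1, image_eq_zero_of_notMem_tsupport hx.2]
      simp [Real.zero_rpow (show (q:ℝ) / 2 ≠ 0 by positivity)]
    · intro n
      refine Eventually.of_forall fun x => ?_
      have hA : 0 ≤ φ x ^ 2 + ψ x ^ 2 := by positivity
      have b1 : 0 ≤ √(φ x ^ 2 + ψ x ^ 2 + et n ^ 2) - et n := by
        rw [sub_nonneg]
        apply Real.le_sqrt_of_sq_le
        linarith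
      have b2 : √(φ x ^ 2 + ψ x ^ 2 + et n ^ 2) - et n ≤ √(φ x ^ 2 + ψ x ^ 2) := by
        have h8 : √(φ x ^ 2 + ψ x ^ 2 + et n ^ 2) ≤ √(φ x ^ 2 + ψ x ^ 2) + et n := by
          have h9 := Real.sqrt_nonneg (φ x ^ 2 + ψ x ^ 2)
          have h10 := (hetp n).le
          apply Real.sqrt_le_iff.mpr ⟨by positivity, ?_⟩
          have h11 := Real.sq_sqrt hA
          nlinarith [mul_nonneg h9 h10]
        linarith
      rw [Real.norm_eq_abs, abs_of_nonneg (by positivity), abs_of_nonneg b1]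
      calc (√(φ x ^ 2 + ψ x ^ 2 + et n ^ 2) - et n) ^ (q:ℝ) ≤ (√(φ x ^ 2 + ψ x ^ 2)) ^ (q:ℝ) :=
            Real.rpow_le_rpow b1 b2 hq0.le
        _ = (φ x ^ 2 + ψ x ^ 2) ^ ((q:ℝ) / 2) := by
            rw [Real.sqrt_eq_rpow, ← Real.rpow_mul hA]
            congr 1
            ring
    · refine Eventually.of_forall fun x => ?_
      have hc : Continuous (fun t : ℝ => |√(φ x ^ 2 + ψ x ^ 2 + t ^ 2) - t| ^ (q:ℝ)) :=
        Continuous.rpow_const (by fun_prop) (fun _ => Or.inr hq0.le)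
      have h3 := (hc.tendsto 0).comp hett
      have hA : 0 ≤ φ x ^ 2 + ψ x ^ 2 := by positivity
      have e : |√(φ x ^ 2 + ψ x ^ 2 + (0:ℝ) ^ 2) - 0| ^ (q:ℝ) = (φ x ^ 2 + ψ x ^ 2) ^ ((q:ℝ) / 2) := by
        rw [sub_zero, zero_pow (by norm_num), add_zero, abs_of_nonneg (Real.sqrt_nonneg _),
          Real.sqrt_eq_rpow, ← Real.rpow_mul hA]
        congr 1
        ring
      rw [← e]
      exact h3
  have h4 : Tendsto (fun n => l1 q Ω *
      (∫ x, |√(φ x ^ 2 + ψ x ^ 2 + et n ^ 2) - et n| ^ (q:ℝ)) ^ (2 / (q:ℝ))) atTop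
      (𝓝 (l1 q Ω * (∫ x, (φ x ^ 2 + ψ x ^ 2) ^ ((q:ℝ) / 2)) ^ (2 / (q:ℝ)))) :=
    (hlim.rpow_const (Or.inr (by positivity))).const_mul _
  have h5 := le_of_tendsto h4 (Eventually.of_forall h1)
  have h6 : ‖cpl (pairOf q hφ).1 (pairOf q hψ).1‖ ^ 2 =
      (∫ x, (φ x ^ 2 + ψ x ^ 2) ^ ((q:ℝ) / 2)) ^ (2 / (q:ℝ)) := by
    have h7 : ∫ x, (φ x ^ 2 + ψ x ^ 2) ^ ((q:ℝ) / 2) =
        ‖cpl (pairOf q hφ).1 (pairOf q hψ).1‖ ^ (q:ℝ) := by
      rw [cpl_norm]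
      apply integral_congr_ae
      filter_upwards [MemLp.coeFn_toLp (memLp_test hφ q), MemLp.coeFn_toLp (memLp_test hψ q)]
        with x a1 a2
      have b1 : (pairOf q hφ).1 x = φ x := a1
      have b2 : (pairOf q hψ).1 x = ψ x := a2
      rw [b1, b2]
    rw [h7, ← Real.rpow_mul (norm_nonneg _)]
    have : (q:ℝ) * (2 / q) = (2:ℕ) := by field_simp; norm_num
    rw [this, Real.rpow_natCast]
  rw [h6]
  exact h5

/-- hidden convexity -/
theorem hc {Ω : Set (EuclideanSpace ℝ (Fin N))} {p p' : Pairs N q} (hp : p ∈ D012 q Ω)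
    (hp' : p' ∈ D012 q Ω) :
    l1 q Ω * ‖cpl p.1 p'.1‖ ^ 2 ≤ ‖p.2‖ ^ 2 + ‖p'.2‖ ^ 2 := by
  apply D012_induction (P := fun p => l1 q Ω * ‖cpl p.1 p'.1‖ ^ 2 ≤ ‖p.2‖ ^ 2 + ‖p'.2‖ ^ 2) _ _ hp
  · exact isClosed_le (((cpl_cont1 p'.1).pow 2).const_mul _)
      ((continuous_snd.norm.pow 2).add continuous_const)
  · intro φ hφ
    apply D012_induction (P := fun p' => l1 q Ω * ‖cpl (pairOf q hφ).1 p'.1‖ ^ 2 ≤
      ‖(pairOf q hφ).2‖ ^ 2 + ‖p'.2‖ ^ 2) _ _ hp'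
    · exact isClosed_le (((cpl_cont2 (pairOf q hφ).1).pow 2).const_mul _)
        (continuous_const.add (continuous_snd.norm.pow 2))
    · intro ψ hψ
      exact hc_test hφ hψ

end Pool.Agent.Helper793.HC
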