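import Pool.Agent.Helper793.Jac

set_option autoImplicit false
set_option linter.unusedSectionVars false

open MeasureTheory Metric Set Filter Topology
open scoped ENNReal NNReal
open Pool.Agent.Helper793.QEig Pool.Agent.Helper793.Sob Pool.Agent.Helper793.Cut
open Pool.Agent.Helper793.Hop

namespace Pool.Agent.Helper793.Har

variable {N : ℕ}

variable {q : ℝ≥0} [Fact (1 ≤ (q : ℝ≥0∞))]

/-- inequalities with a lower semicontinuous left-hand side pass from test functions to the
whole space -/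
theorem fatou_D {Ω : Set (EuclideanSpace ℝ (Fin N))} {F : EuclideanSpace ℝ (Fin N) → ℝ → ℝ≥0∞}
    (hFc : ∀ x, Continuous (F x))
    (hFm : ∀ φ, IsTest Ω φ → AEMeasurable (fun x => F x (φ x)) volume)
    {G : ℝ → ℝ≥0∞} (hG : Continuous G)
    (h : ∀ (φ : EuclideanSpace ℝ (Fin N) → ℝ) (hφ : IsTest Ω φ),
      ∫⁻ x, F x (φ x) ≤ G ‖(pairOf q hφ).2‖)
    {p : Pairs N q} (hp : p ∈ D012 q Ω) : ∫⁻ x, F x (p.1 x) ≤ G ‖p.2‖ := by
  have hcl : p ∈ closure (TS q Ω : Set (Pairs N q)) := hp
  obtain ⟨y, hy, hlim⟩ := mem_closure_iff_seq_limit.mp hcl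
  choose φ hφ hxe using fun n => TS_eq_pairOf (hy n)
  have h1 : Tendsto (fun n => (y n).1) atTop (𝓝 p.1) := (continuous_fst.tendsto p).comp hlim
  have h2 : Tendsto (fun n => ‖(y n).2‖) atTop (𝓝 ‖p.2‖) :=
    ((continuous_snd.tendsto p).comp hlim).norm
  have h3 : TendstoInMeasure volume (fun n => ((y n).1 : EuclideanSpace ℝ (Fin N) → ℝ)) atTop p.1 :=
    tendstoInMeasure_of_tendsto_Lp h1
  obtain ⟨k, hk, hae⟩ := h3.exists_seq_tendsto_ae
  have hae2 : ∀ᵐ x ∂volume, ∀ n, (y (k n)).1 x = φ (k n) x := by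
    rw [ae_all_iff]
    intro n
    rw [hxe (k n)]
    exact MemLp.coeFn_toLp (memLp_test (hφ (k n)) q)
  calc ∫⁻ x, F x (p.1 x) = ∫⁻ x, liminf (fun n => F x (φ (k n) x)) atTop := by
        apply lintegral_congr_ae
        filter_upwards [hae, hae2] with x hx hx2
        have h4 : Tendsto (fun n => φ (k n) x) atTop (𝓝 (p.1 x)) :=
          hx.congr fun n => hx2 n
        exact ((((hFc x).tendsto _).comp h4).liminf_eq).symm
    _ ≤ liminf (fun n => ∫⁻ x, F x (φ (k n) x)) atTop :=
        lintegral_liminf_le' fun n => hFm _ (hφ (k n))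
    _ ≤ liminf (fun n => G ‖(y (k n)).2‖) atTop := by
        apply liminf_le_liminf
        · refine Eventually.of_forall fun n => ?_
          have := h (φ (k n)) (hφ (k n))
          rwa [← hxe (k n)] at this
        · exact ⟨0, Eventually.of_forall fun _ => bot_le⟩
        · exact ⟨⊤, fun a _ => le_top⟩
    _ = G ‖p.2‖ := ((((hG.tendsto _).comp h2).comp hk.tendsto_atTop).liminf_eq)

/-! ### Hardy's inequality on a ball -/

theorem hardy_test (hN : 2 ≤ N) (a : EuclideanSpace ℝ (Fin N)) {r : ℝ} (hr : 0 < r)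
    {φ : EuclideanSpace ℝ (Fin N) → ℝ} (hφ : IsTest (ball a r) φ) :
    Integrable (fun x => (φ x) ^ 2 / (df a r x) ^ 2) volume ∧
    r ^ 2 * ∫ x, (φ x) ^ 2 / (df a r x) ^ 2 ≤ ∫ x, ‖fderiv ℝ φ x‖ ^ 2 := by
  have hN2 : (2:ℝ) ≤ N := by exact_mod_cast hN
  have hdc : Continuous (df a r) := (df_contDiff a r).continuous
  have hdne : ∀ x ∈ ball a r, df a r x ≠ 0 := fun x hx => ((df_pos_iff a hr x).mpr hx).ne'
  -- the weight
  set h : EuclideanSpace ℝ (Fin N) → ℝ := fun x => (df a r x)⁻¹ with hh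
  have hhc : ContDiffOn ℝ 1 h (ball a r) :=
    ContDiffOn.inv (((df_contDiff a r).of_le (by simp)).contDiffOn) hdne
  set ψ : EuclideanSpace ℝ (Fin N) → ℝ := fun x => φ x ^ 2 with hψ
  have hψc : ContDiff ℝ 1 ψ := (hφ.1.pow 2).of_le (by simp)
  have hsup : Function.support ψ ⊆ Function.support φ := by
    intro x hx h0
    apply hx
    simp only [hψ]
    rw [h0]
    norm_num
  have hψcs : HasCompactSupport ψ := hφ.2.1.mono hsup
  have hψs : tsupport ψ ⊆ ball a r := (closure_mono hsup).trans hφ.2.2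
  have hi := Hop.div_radial isOpen_ball a hhc hψc hψcs hψs
  -- integrability
  have i1 : Integrable (fun x => (φ x) ^ 2 / (df a r x) ^ 2) volume := by
    have := Hop.integrable_mul_supp isOpen_ball (k := fun x => ((df a r x) ^ 2)⁻¹)
      (ContinuousOn.inv₀ (hdc.pow 2).continuousOn fun x hx => pow_ne_zero 2 (hdne x hx))
      hψc.continuous hψcs hψs
    refine this.congr (Eventually.of_forall fun x => ?_)
    simp only [hψ]
    rw [div_eq_inv_mul]
  refine ⟨i1, ?_⟩
  have hgrad : ∀ x, fderiv ℝ ψ x (x - a) = 2 * φ x * fderiv ℝ φ x (x - a) := by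
    intro x
    have d1 := (hφ.1.differentiable (by simp) x).hasFDerivAt
    have d2 : fderiv ℝ ψ x = _ := (d1.pow 2).fderiv
    rw [d2]
    simp only [smul_apply, smul_eq_mul, nsmul_eq_mul]
    norm_num
  have hhd : ∀ x ∈ ball a r, fderiv ℝ h x (x - a) = 2 * ‖x - a‖ ^ 2 / (df a r x) ^ 2 := by
    intro x hx
    have d1 := ((df_contDiff a r).differentiable (by simp) x).hasFDerivAt
    have d2 : fderiv ℝ h x = _ := ((hasDerivAt_inv (hdne x hx)).comp_hasFDerivAt x d1).fderiv
    rw [d2]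
    simp only [smul_apply, smul_eq_mul]
    rw [df_fderiv, real_inner_self_eq_norm_sq]
    have := hdne x hx
    field_simp
  -- the two sides
  have hball : ∀ x, φ x ≠ 0 → x ∈ ball a r := fun x hx => hφ.2.2 (subset_tsupport φ hx)
  have hlow : ∀ x, 2 * r ^ 2 * ((φ x) ^ 2 / (df a r x) ^ 2) ≤
      (N * h x + fderiv ℝ h x (x - a)) * ψ x := by
    intro x
    by_cases hx0 : φ x = 0
    · simp only [hψ]
      rw [hx0]
      simp
    · have hx := hball x hx0
      have hd := (df_pos_iff a hr x).mpr hx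
      rw [hhd x hx]
      simp only [hh, hψ]
      have e1 : (N * (df a r x)⁻¹ + 2 * ‖x - a‖ ^ 2 / (df a r x) ^ 2) * φ x ^ 2 =
          (N * df a r x + 2 * ‖x - a‖ ^ 2) * ((φ x) ^ 2 / (df a r x) ^ 2) := by
        field_simp
      rw [e1]
      apply mul_le_mul_of_nonneg_right _ (by positivity)
      have e2 : ‖x - a‖ ^ 2 = r ^ 2 - df a r x := by rw [df]; ring
      rw [e2]
      nlinarith
  have hup : ∀ x, - (h x * fderiv ℝ ψ x (x - a)) ≤
      r ^ 2 * ((φ x) ^ 2 / (df a r x) ^ 2) + ‖fderiv ℝ φ x‖ ^ 2 := by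
    intro x
    rw [hgrad]
    by_cases hx0 : φ x = 0
    · rw [hx0]
      have : 0 ≤ ‖fderiv ℝ φ x‖ ^ 2 := by positivity
      simp
    · have hx := hball x hx0
      have hd := (df_pos_iff a hr x).mpr hx
      have b1 : |fderiv ℝ φ x (x - a)| ≤ ‖fderiv ℝ φ x‖ * r := by
        have b2 := (fderiv ℝ φ x).le_opNorm (x - a)
        rw [Real.norm_eq_abs] at b2
        refine b2.trans ?_
        rw [mem_ball, dist_eq_norm] at hx
        gcongr
      have b3 : - (h x * (2 * φ x * fderiv ℝ φ x (x - a))) ≤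
          2 * (|φ x| / df a r x) * (‖fderiv ℝ φ x‖ * r) := by
        have b4 : |h x * (2 * φ x * fderiv ℝ φ x (x - a))| =
            2 * (|φ x| / df a r x) * |fderiv ℝ φ x (x - a)| := by
          simp only [hh]
          rw [abs_mul, abs_mul, abs_mul, abs_inv, abs_of_pos hd, abs_two]
          field_simp
        have b5 := neg_le_abs (h x * (2 * φ x * fderiv ℝ φ x (x - a)))
        rw [b4] at b5
        refine b5.trans ?_
        gcongr
      refine b3.trans ?_
      have b6 : (φ x) ^ 2 / (df a r x) ^ 2 = (|φ x| / df a r x) ^ 2 := by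
        rw [div_pow, sq_abs]
      rw [b6]
      nlinarith [sq_nonneg ((|φ x| / df a r x) * r - ‖fderiv ℝ φ x‖)]
  have i2 : Integrable (fun x => (N * h x + fderiv ℝ h x (x - a)) * ψ x) volume := by
    apply Hop.integrable_mul_supp isOpen_ball _ hψc.continuous hψcs hψs
    apply ContinuousOn.add (continuousOn_const.mul hhc.continuousOn)
    have hh' : ContinuousOn (fderiv ℝ h) (ball a r) :=
      hhc.continuousOn_fderiv_of_isOpen isOpen_ball (by norm_num)
    exact hh'.clm_apply (by fun_prop)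
  have i3 : Integrable (fun x => h x * fderiv ℝ ψ x (x - a)) volume := by
    apply Hop.integrable_mul_supp isOpen_ball hhc.continuousOn
    · exact (hψc.continuous_fderiv (by norm_num)).clm_apply (by fun_prop)
    · have := hψcs.fderiv ℝ
      apply HasCompactSupport.intro this
      intro x hx
      rw [image_eq_zero_of_notMem_tsupport hx]
      simp
    · refine subset_trans ?_ hψs
      apply closure_minimal _ (isClosed_tsupport ψ)
      intro x hx
      by_contra hcon
      apply hx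
      have h3 : ψ =ᶠ[𝓝 x] 0 := notMem_tsupport_iff_eventuallyEq.mp hcon
      simp only
      rw [h3.fderiv_eq]
      simp
  have s1 : 2 * r ^ 2 * ∫ x, (φ x) ^ 2 / (df a r x) ^ 2 ≤
      ∫ x, (N * h x + fderiv ℝ h x (x - a)) * ψ x := by
    rw [← integral_const_mul]
    exact integral_mono (i1.const_mul _) i2 hlow
  have s2 : ∫ x, (N * h x + fderiv ℝ h x (x - a)) * ψ x ≤
      r ^ 2 * (∫ x, (φ x) ^ 2 / (df a r x) ^ 2) + ∫ x, ‖fderiv ℝ φ x‖ ^ 2 := by
    have e1 : ∫ x, (N * h x + fderiv ℝ h x (x - a)) * ψ x =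
        ∫ x, - (h x * fderiv ℝ ψ x (x - a)) := by
      rw [integral_neg]
      linarith
    rw [e1, ← integral_const_mul, ← integral_add (i1.const_mul _) (integrable_fderiv_sq hφ)]
    exact integral_mono i3.neg ((i1.const_mul _).add (integrable_fderiv_sq hφ)) hup
  linarith

theorem hardy (hN : 2 ≤ N) (a : EuclideanSpace ℝ (Fin N)) {r : ℝ} (hr : 0 < r)
    {p : Pairs N q} (hp : p ∈ D012 q (ball a r)) :
    Integrable (fun x => (p.1 x) ^ 2 / (df a r x) ^ 2) volume ∧
    ∫ x, (p.1 x) ^ 2 / (df a r x) ^ 2 ≤ ‖p.2‖ ^ 2 / r ^ 2 := by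
  have hdc : Continuous (df a r) := (df_contDiff a r).continuous
  have h1 := fatou_D (q := q) (Ω := ball a r)
    (F := fun x t => ENNReal.ofReal (t ^ 2 / (df a r x) ^ 2))
    (G := fun t => ENNReal.ofReal (t ^ 2 / r ^ 2))
    (fun x => ENNReal.continuous_ofReal.comp (by fun_prop)) (fun φ hφ => by
      have m1 := hφ.1.continuous.measurable
      have m2 := hdc.measurable
      exact (((m1.pow_const 2).div (m2.pow_const 2)).ennreal_ofReal).aemeasurable)
    (ENNReal.continuous_ofReal.comp (by fun_prop)) (fun φ hφ => by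
      obtain ⟨i1, i2⟩ := hardy_test hN a hr hφ
      rw [← ofReal_integral_eq_lintegral_ofReal i1 (Eventually.of_forall fun x => by positivity)]
      apply ENNReal.ofReal_le_ofReal
      rw [norm_snd_sq, le_div_iff₀ (by positivity)]
      linarith) hp
  apply Jac.real_of_lint _ (Eventually.of_forall fun x => by positivity) (by positivity) h1
  have m1 : Measurable (p.1 : EuclideanSpace ℝ (Fin N) → ℝ) := (Lp.stronglyMeasurable p.1).measurable
  have m2 := hdc.measurable
  exact ((m1.pow_const 2).div (m2.pow_const 2)).aestronglyMeasurable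

/-- Sobolev inequality with a different exponent -/
theorem sobolev_s {Ω : Set (EuclideanSpace ℝ (Fin N))} (hN : 2 ≤ N) (hΩ : Bornology.IsBounded Ω)
    {s : ℝ≥0} (hs : 1 ≤ s) (hs' : ((N : ℝ) - 2) * s < 2 * N) :
    ∃ C : ℝ, 0 < C ∧ ∀ p ∈ D012 q Ω, Integrable (fun x => |p.1 x| ^ (s:ℝ)) volume ∧
      ∫ x, |p.1 x| ^ (s:ℝ) ≤ C * ‖p.2‖ ^ (s:ℝ) := by
  obtain ⟨C, hC⟩ := sobolev hN hΩ hs hs'
  have hs0 : (0:ℝ≥0) < s := lt_of_lt_of_le one_pos hs
  have hs0' : (0:ℝ) < s := by exact_mod_cast hs0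
  refine ⟨((C:ℝ) + 1) ^ (s:ℝ), by positivity, ?_⟩
  intro p hp
  have h1 := fatou_D (q := q) (Ω := Ω) (F := fun x t => ENNReal.ofReal (|t| ^ (s:ℝ)))
    (G := fun t => ENNReal.ofReal (((C:ℝ) + 1) ^ (s:ℝ) * |t| ^ (s:ℝ)))
    (fun x => ENNReal.continuous_ofReal.comp (continuous_abs.rpow_const fun _ => Or.inr hs0'.le))
    (fun φ hφ => by
      have m1 := hφ.1.continuous.measurable
      exact ((m1.abs.pow_const (s:ℝ)).ennreal_ofReal).aemeasurable)
    (ENNReal.continuous_ofReal.comp ((continuous_abs.rpow_const fun _ => Or.inr hs0'.le).const_mul _))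
    (fun φ hφ => by
      have h2 := hC φ (hφ.1.of_le (by simp)) ((subset_tsupport φ).trans hφ.2.2)
      have h3 : ∫⁻ x, ENNReal.ofReal (|φ x| ^ (s:ℝ)) = eLpNorm φ s volume ^ (s:ℝ) := by
        rw [eLpNorm_nn_rpow φ hs0]
        apply lintegral_congr
        intro x
        rw [← ENNReal.ofReal_rpow_of_nonneg (abs_nonneg _) hs0'.le, ← Real.norm_eq_abs, ofReal_norm]
      have h4 : eLpNorm (fderiv ℝ φ) 2 volume = ENNReal.ofReal |‖(pairOf q hφ).2‖| := by
        rw [abs_of_nonneg (norm_nonneg _), norm_pairOf_snd,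
          ENNReal.ofReal_toReal (eLpNorm_fderiv_lt_top hφ 2).ne]
      rw [h3, ← Real.mul_rpow (by positivity) (abs_nonneg _),
        ← ENNReal.ofReal_rpow_of_nonneg (by positivity) hs0'.le]
      apply ENNReal.rpow_le_rpow _ hs0'.le
      refine h2.trans ?_
      rw [h4, ENNReal.ofReal_mul (by positivity)]
      gcongr
      rw [← ENNReal.ofReal_coe_nnreal]
      apply ENNReal.ofReal_le_ofReal
      linarith) hp
  rw [abs_of_nonneg (norm_nonneg p.2)] at h1
  apply Jac.real_of_lint _ (Eventually.of_forall fun x => by positivity) (by positivity) h1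
  have m1 : Measurable (p.1 : EuclideanSpace ℝ (Fin N) → ℝ) := (Lp.stronglyMeasurable p.1).measurable
  exact (m1.abs.pow_const (s:ℝ)).aestronglyMeasurable

end Pool.Agent.Helper793.Har
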