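import Pool.Agent.Helper793.Cut4
set_option autoImplicit false
set_option linter.unusedSectionVars false
open MeasureTheory Metric Set Filter Topology
open scoped ENNReal NNReal

namespace Pool.Agent.Helper793.Hop

open Pool.Agent.Helper793.QEig Pool.Agent.Helper793.Sob Pool.Agent.Helper793.Cut

variable {N : ℕ}

theorem continuous_mul_supp {U : Set (EuclideanSpace ℝ (Fin N))} (hU : IsOpen U)
    {k ψ : EuclideanSpace ℝ (Fin N) → ℝ} (hk : ContinuousOn k U) (hψ : Continuous ψ)
    (hs : tsupport ψ ⊆ U) : Continuous (fun x => k x * ψ x) := by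
  rw [continuous_iff_continuousAt]
  intro x
  by_cases hx : x ∈ tsupport ψ
  · exact (hk.continuousAt (hU.mem_nhds (hs hx))).mul hψ.continuousAt
  · have h1 : ψ =ᶠ[𝓝 x] 0 := notMem_tsupport_iff_eventuallyEq.mp hx
    have h2 : (fun x => k x * ψ x) =ᶠ[𝓝 x] fun _ => 0 := by
      filter_upwards [h1] with y hy
      rw [hy, Pi.zero_apply, mul_zero]
    exact (continuousAt_const (y := (0:ℝ))).congr h2.symm

theorem integrable_mul_supp {U : Set (EuclideanSpace ℝ (Fin N))} (hU : IsOpen U)
    {k ψ : EuclideanSpace ℝ (Fin N) → ℝ} (hk : ContinuousOn k U) (hψ : Continuous ψ)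
    (hc : HasCompactSupport ψ) (hs : tsupport ψ ⊆ U) : Integrable (fun x => k x * ψ x) volume :=
  (continuous_mul_supp hU hk hψ hs).integrable_of_hasCompactSupport hc.mul_left

/-- integration by parts against the radial field -/
theorem div_radial {U : Set (EuclideanSpace ℝ (Fin N))} (hU : IsOpen U)
    {h ψ : EuclideanSpace ℝ (Fin N) → ℝ} (a : EuclideanSpace ℝ (Fin N))
    (hh : ContDiffOn ℝ 1 h U) (hψ : ContDiff ℝ 1 ψ) (hc : HasCompactSupport ψ)
    (hs : tsupport ψ ⊆ U) :
    ∫ x, h x * fderiv ℝ ψ x (x - a) = - ∫ x, (N * h x + fderiv ℝ h x (x - a)) * ψ x := by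
  have hhc : ContinuousOn h U := hh.continuousOn
  have hhd : ∀ x ∈ U, DifferentiableAt ℝ h x := fun x hx =>
    (hh.differentiableOn (by norm_num) x hx).differentiableAt (hU.mem_nhds hx)
  have hh' : ContinuousOn (fderiv ℝ h) U := hh.continuousOn_fderiv_of_isOpen hU (by norm_num)
  have hψ' : Continuous (fderiv ℝ ψ) := hψ.continuous_fderiv (by norm_num)
  have hcs : ∀ v, HasCompactSupport (fun x => fderiv ℝ ψ x v) := by
    intro v
    exact (hc.fderiv ℝ).comp_left (g := fun A : EuclideanSpace ℝ (Fin N) →L[ℝ] ℝ => A v) (by simp)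
  have hts : ∀ v, tsupport (fun x => fderiv ℝ ψ x v) ⊆ U := by
    intro v
    refine subset_trans ?_ hs
    apply closure_minimal _ (isClosed_tsupport ψ)
    intro x hx
    by_contra hx'
    apply hx
    have h1 : ψ =ᶠ[𝓝 x] 0 := notMem_tsupport_iff_eventuallyEq.mp hx'
    simp only
    rw [h1.fderiv_eq]
    simp
  -- coordinates
  have hcoord : ∀ x : EuclideanSpace ℝ (Fin N), x = ∑ i, x i • EuclideanSpace.single i (1:ℝ) := by
    intro x
    ext j
    simp [Finset.sum_apply, Pi.single_apply]
  have hexp : ∀ (A : EuclideanSpace ℝ (Fin N) →L[ℝ] ℝ) (x : EuclideanSpace ℝ (Fin N)),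
      A (x - a) = ∑ i, (x i - a i) * A (EuclideanSpace.single i 1) := by
    intro A x
    conv_lhs => rw [hcoord (x - a), map_sum]
    apply Finset.sum_congr rfl
    intro i _
    rw [map_smul, smul_eq_mul, PiLp.sub_apply]
  set f : Fin N → EuclideanSpace ℝ (Fin N) → ℝ := fun i x => h x * (x i - a i) with hf
  have hfd : ∀ i, ∀ x ∈ U, HasFDerivAt (f i) (h x • (EuclideanSpace.proj i :
      EuclideanSpace ℝ (Fin N) →L[ℝ] ℝ) + (x i - a i) • fderiv ℝ h x) x := by
    intro i x hx
    have h1 : HasFDerivAt (fun x : EuclideanSpace ℝ (Fin N) => x i - a i) (EuclideanSpace.proj i :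
      EuclideanSpace ℝ (Fin N) →L[ℝ] ℝ) x :=
      ((EuclideanSpace.proj i : EuclideanSpace ℝ (Fin N) →L[ℝ] ℝ).hasFDerivAt).sub_const _
    exact (hhd x hx).hasFDerivAt.mul h1
  have hfv : ∀ i, ∀ x ∈ U, fderiv ℝ (f i) x (EuclideanSpace.single i 1) =
      h x + (x i - a i) * fderiv ℝ h x (EuclideanSpace.single i 1) := by
    intro i x hx
    rw [(hfd i x hx).fderiv]
    simp
  have hcc : ∀ i : Fin N, Continuous (fun x : EuclideanSpace ℝ (Fin N) => x i - a i) := fun i => by fun_prop
  have hfc : ∀ i, ContinuousOn (f i) U := fun i => hhc.mul (hcc i).continuousOn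
  have hev : ∀ v : EuclideanSpace ℝ (Fin N), ContinuousOn (fun x => fderiv ℝ h x v) U := fun v =>
    hh'.clm_apply continuousOn_const
  have hfc' : ∀ i, ContinuousOn (fun x => fderiv ℝ (f i) x (EuclideanSpace.single i 1)) U := by
    intro i
    have h1 : ContinuousOn (fun x => h x + (x i - a i) * fderiv ℝ h x (EuclideanSpace.single i 1)) U :=
      hhc.add ((hcc i).continuousOn.mul (hev _))
    exact h1.congr (fun x hx => hfv i x hx)
  have hψv : ∀ v : EuclideanSpace ℝ (Fin N), Continuous (fun x => fderiv ℝ ψ x v) := fun v => by fun_prop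
  have ibp : ∀ i, ∫ x, f i x * fderiv ℝ ψ x (EuclideanSpace.single i 1) =
      - ∫ x, fderiv ℝ (f i) x (EuclideanSpace.single i 1) * ψ x := by
    intro i
    apply integral_mul_fderiv_eq_neg_fderiv_mul_of_integrable
    · exact integrable_mul_supp hU (hfc' i) hψ.continuous hc hs
    · exact integrable_mul_supp hU (hfc i) (hψv _) (hcs _) (hts _)
    · exact integrable_mul_supp hU (hfc i) hψ.continuous hc hs
    · intro x hx
      exact (hfd i x (hs hx)).differentiableAt
    · intro x _
      exact hψ.differentiable (by norm_num) x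
  have e1 : ∫ x, h x * fderiv ℝ ψ x (x - a) = ∑ i, ∫ x, f i x * fderiv ℝ ψ x (EuclideanSpace.single i 1) := by
    rw [← integral_finsetSum _ (fun i _ => integrable_mul_supp hU (hfc i) (hψv _) (hcs _) (hts _))]
    congr 1
    ext x
    rw [hexp, Finset.mul_sum]
    apply Finset.sum_congr rfl
    intro i _
    simp only [hf]
    ring
  have e2 : ∫ x, (N * h x + fderiv ℝ h x (x - a)) * ψ x =
      ∑ i, ∫ x, fderiv ℝ (f i) x (EuclideanSpace.single i 1) * ψ x := by
    rw [← integral_finsetSum _ (fun i _ => integrable_mul_supp hU (hfc' i) hψ.continuous hc hs)]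
    congr 1
    ext x
    by_cases hx : x ∈ U
    · rw [← Finset.sum_mul, Finset.sum_congr rfl (fun i _ => hfv i x hx), Finset.sum_add_distrib, hexp]
      simp
    · have : ψ x = 0 := image_eq_zero_of_notMem_tsupport (fun h => hx (hs h))
      simp [this]
  rw [e1, e2, ← Finset.sum_neg_distrib]
  exact Finset.sum_congr rfl (fun i _ => ibp i)

end Pool.Agent.Helper793.Hop
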