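import Pool.Agent.Helper793.Hop
set_option autoImplicit false
set_option linter.unusedSectionVars false
open MeasureTheory Metric Set Filter Topology
open scoped ENNReal NNReal

namespace Pool.Agent.Helper793.Hop

open Pool.Agent.Helper793.QEig Pool.Agent.Helper793.Sob Pool.Agent.Helper793.Cut

variable {N : ℕ}

/-- smooth convex function, zero up to `δ` -/
noncomputable def cvx (δ t : ℝ) : ℝ := ∫ σ in (0:ℝ)..t, hsm δ (σ - δ)

theorem hsm_cont (δ : ℝ) : Continuous (hsm δ) := (hsm_contDiff δ).continuous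

theorem cvx_deriv (δ t : ℝ) : HasDerivAt (cvx δ) (hsm δ (t - δ)) t := by
  have hc : Continuous (fun σ => hsm δ (σ - δ)) := (hsm_cont δ).comp (by fun_prop)
  exact intervalIntegral.integral_hasDerivAt_right (hc.intervalIntegrable _ _)
    (hc.stronglyMeasurableAtFilter _ _) hc.continuousAt

theorem cvx_contDiff (δ : ℝ) : ContDiff ℝ ((⊤ : ℕ∞) : WithTop ℕ∞) (cvx δ) := by
  rw [contDiff_infty_iff_deriv]
  refine ⟨fun t => (cvx_deriv δ t).differentiableAt, ?_⟩
  have : deriv (cvx δ) = fun t => hsm δ (t - δ) := by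
    ext t
    exact (cvx_deriv δ t).deriv
  rw [this]
  exact (hsm_contDiff δ).comp (by fun_prop)

theorem cvx_nonneg {δ t : ℝ} (hδ : 0 < δ) (ht : 0 ≤ t) : 0 ≤ cvx δ t :=
  intervalIntegral.integral_nonneg ht (fun _ _ => hsm_nonneg hδ)

theorem cvx_zero {δ t : ℝ} (hδ : 0 < δ) (ht : t ≤ δ) : cvx δ t = 0 := by
  rw [cvx, intervalIntegral.integral_congr (g := fun _ => 0)]
  · simp
  · intro σ hσ
    apply hsm_nonpos hδ
    rw [mem_uIcc] at hσ
    rcases hσ with h | h
    · linarith [h.2]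
    · linarith [h.2]

theorem cvx_mono {δ s t : ℝ} (hδ : 0 < δ) (hst : s ≤ t) : cvx δ s ≤ cvx δ t := by
  have hc : Continuous (fun σ => hsm δ (σ - δ)) := (hsm_cont δ).comp (by fun_prop)
  have h1 : cvx δ t - cvx δ s = ∫ σ in s..t, hsm δ (σ - δ) := by
    rw [cvx, cvx, intervalIntegral.integral_interval_sub_left (hc.intervalIntegrable _ _)
      (hc.intervalIntegrable _ _)]
  have h2 : 0 ≤ ∫ σ in s..t, hsm δ (σ - δ) :=
    intervalIntegral.integral_nonneg hst (fun _ _ => hsm_nonneg hδ)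
  linarith

theorem cvx_ge {δ t : ℝ} (hδ : 0 < δ) (ht : 2 * δ ≤ t) : (t - 2 * δ) ^ 2 / 2 ≤ cvx δ t := by
  have hc : Continuous (fun σ => hsm δ (σ - δ)) := (hsm_cont δ).comp (by fun_prop)
  have h1 : cvx δ t - cvx δ (2 * δ) = ∫ σ in (2 * δ)..t, hsm δ (σ - δ) := by
    rw [cvx, cvx, intervalIntegral.integral_interval_sub_left (hc.intervalIntegrable _ _)
      (hc.intervalIntegrable _ _)]
  have h2 : ∫ σ in (2 * δ)..t, (σ - 2 * δ) ≤ ∫ σ in (2 * δ)..t, hsm δ (σ - δ) := by
    apply intervalIntegral.integral_mono_on ht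
      ((by fun_prop : Continuous fun σ : ℝ => σ - 2 * δ).intervalIntegrable _ _)
      (hc.intervalIntegrable _ _)
    intro σ hσ
    have := hsm_ge hδ (show 0 ≤ σ - δ by linarith [hσ.1])
    linarith
  have h3 : ∫ σ in (2 * δ)..t, (σ - 2 * δ) = (t - 2 * δ) ^ 2 / 2 := by
    rw [intervalIntegral.integral_sub ((continuous_id' (X := ℝ)).intervalIntegrable _ _)
      (continuous_const.intervalIntegrable _ _), integral_id,
      intervalIntegral.integral_const, smul_eq_mul]
    ring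
  have h4 : 0 ≤ cvx δ (2 * δ) := cvx_nonneg hδ (by linarith)
  linarith

theorem hsm_le_mul {δ t : ℝ} (hδ : 0 < δ) (ht : 0 ≤ t) : hsm δ t ≤ t * Real.smoothTransition (t / δ) := by
  have hc : Continuous (fun s => Real.smoothTransition (s / δ)) :=
    Real.smoothTransition.continuous.comp (by fun_prop)
  have h1 : hsm δ t ≤ ∫ s in (0:ℝ)..t, Real.smoothTransition (t / δ) := by
    apply intervalIntegral.integral_mono_on ht (hc.intervalIntegrable _ _)
      (continuous_const.intervalIntegrable _ _)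
    intro s hs
    apply Real.smoothTransition.monotone
    have := hs.2
    gcongr
  rw [intervalIntegral.integral_const, smul_eq_mul, sub_zero] at h1
  exact h1

/-- defining function of the ball -/
noncomputable def df (a : EuclideanSpace ℝ (Fin N)) (r : ℝ) (x : EuclideanSpace ℝ (Fin N)) : ℝ :=
  r ^ 2 - ‖x - a‖ ^ 2

theorem df_contDiff (a : EuclideanSpace ℝ (Fin N)) (r : ℝ) :
    ContDiff ℝ ((⊤ : ℕ∞) : WithTop ℕ∞) (df a r) := by
  unfold df
  exact contDiff_const.sub ((contDiff_id.sub contDiff_const).norm_sq ℝ)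

theorem df_fderiv (a : EuclideanSpace ℝ (Fin N)) (r : ℝ) (x v : EuclideanSpace ℝ (Fin N)) :
    fderiv ℝ (df a r) x v = - 2 * inner ℝ (x - a) v := by
  have h1 : HasFDerivAt (fun x : EuclideanSpace ℝ (Fin N) => x - a) (ContinuousLinearMap.id ℝ _) x :=
    (hasFDerivAt_id x).sub_const a
  have h2 := (h1.norm_sq).const_sub (r ^ 2)
  have h3 : fderiv ℝ (df a r) x = _ := h2.fderiv
  rw [h3]
  simp [inner_sub_left]

theorem df_pos_iff (a : EuclideanSpace ℝ (Fin N)) {r : ℝ} (hr : 0 < r) (x : EuclideanSpace ℝ (Fin N)) :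
    0 < df a r x ↔ x ∈ ball a r := by
  rw [df, mem_ball, dist_eq_norm, sub_pos, sq_lt_sq₀ (norm_nonneg _) hr.le]

/-- the subsolution -/
noncomputable def zz (a : EuclideanSpace ℝ (Fin N)) (r ε δ : ℝ) (x : EuclideanSpace ℝ (Fin N)) : ℝ :=
  ε * cvx δ (df a r x)

theorem zz_isTest (a : EuclideanSpace ℝ (Fin N)) {r ε δ : ℝ} (hr : 0 < r) (hδ : 0 < δ) :
    IsTest (ball a r) (zz a r ε δ) := by
  have hcl : IsClosed {x : EuclideanSpace ℝ (Fin N) | δ ≤ df a r x} :=
    isClosed_le continuous_const (df_contDiff a r).continuous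
  have hsub : tsupport (zz a r ε δ) ⊆ {x | δ ≤ df a r x} := by
    apply closure_minimal _ hcl
    intro x hx
    by_contra hx'
    rw [mem_ofPred_eq, not_le] at hx'
    apply hx
    rw [zz, cvx_zero hδ hx'.le, mul_zero]
  have hsub2 : {x : EuclideanSpace ℝ (Fin N) | δ ≤ df a r x} ⊆ ball a r := by
    intro x hx
    rw [← df_pos_iff a hr]
    exact lt_of_lt_of_le hδ hx
  refine ⟨contDiff_const.mul ((cvx_contDiff δ).comp (df_contDiff a r)), ?_, hsub.trans hsub2⟩
  apply HasCompactSupport.of_support_subset_isCompact (isCompact_closedBall a r)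
  exact (subset_tsupport _).trans ((hsub.trans hsub2).trans ball_subset_closedBall)

/-- minus the Laplacian of the subsolution -/
noncomputable def rho (a : EuclideanSpace ℝ (Fin N)) (r ε δ : ℝ) (x : EuclideanSpace ℝ (Fin N)) : ℝ :=
  ε * (2 * N * hsm δ (df a r x - δ) -
    4 * ‖x - a‖ ^ 2 * Real.smoothTransition ((df a r x - δ) / δ))

theorem zz_fderiv (a : EuclideanSpace ℝ (Fin N)) (r ε δ : ℝ) (x v : EuclideanSpace ℝ (Fin N)) :
    fderiv ℝ (zz a r ε δ) x v = ε * (hsm δ (df a r x - δ) * (- 2 * inner ℝ (x - a) v)) := by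
  have h1 : HasFDerivAt (df a r) (fderiv ℝ (df a r) x) x :=
    ((df_contDiff a r).differentiable (by simp) x).hasFDerivAt
  have h2 := ((cvx_deriv δ (df a r x)).comp_hasFDerivAt x h1).const_mul ε
  have h3 : fderiv ℝ (zz a r ε δ) x = _ := h2.fderiv
  rw [h3]
  simp only [smul_apply, smul_eq_mul]
  rw [df_fderiv]

theorem inner_gradient (G : EuclideanSpace ℝ (Fin N)) (ψ : EuclideanSpace ℝ (Fin N) → ℝ)
    (x : EuclideanSpace ℝ (Fin N)) : inner ℝ (gradient ψ x) G = fderiv ℝ ψ x G := by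
  rw [gradient, InnerProductSpace.toDual_symm_apply]

theorem zz_gradient (a : EuclideanSpace ℝ (Fin N)) (r ε δ : ℝ) (x : EuclideanSpace ℝ (Fin N)) :
    gradient (zz a r ε δ) x = (- 2 * ε * hsm δ (df a r x - δ)) • (x - a) := by
  apply ext_inner_right ℝ
  intro v
  rw [inner_gradient, zz_fderiv, inner_smul_left]
  simp only [conj_trivial]
  ring

theorem zz_ibp (a : EuclideanSpace ℝ (Fin N)) (r ε δ : ℝ) {ψ : EuclideanSpace ℝ (Fin N) → ℝ}
    (hψ : ContDiff ℝ 1 ψ) (hc : HasCompactSupport ψ) :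
    ∫ x, inner ℝ (gradient (zz a r ε δ) x) (gradient ψ x) = ∫ x, rho a r ε δ x * ψ x := by
  set h : EuclideanSpace ℝ (Fin N) → ℝ := fun x => - 2 * ε * hsm δ (df a r x - δ) with hh
  have hd1 : ∀ x, HasFDerivAt h ((- 2 * ε) • (Real.smoothTransition ((df a r x - δ) / δ) • fderiv ℝ (df a r) x)) x := by
    intro x
    have h1 : HasFDerivAt (fun x => df a r x - δ) (fderiv ℝ (df a r) x) x :=
      (((df_contDiff a r).differentiable (by simp) x).hasFDerivAt).sub_const δ
    exact ((hsm_deriv δ (df a r x - δ)).comp_hasFDerivAt x h1).const_mul (-2 * ε)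
  have hcd : ContDiff ℝ 1 h := by
    have h1 : ContDiff ℝ ((⊤ : ℕ∞) : WithTop ℕ∞) h :=
      contDiff_const.mul ((hsm_contDiff δ).comp ((df_contDiff a r).sub contDiff_const))
    exact h1.of_le (by simp)
  have h2 := div_radial isOpen_univ a hcd.contDiffOn hψ hc (subset_univ _)
  have e1 : ∫ x, inner ℝ (gradient (zz a r ε δ) x) (gradient ψ x) = ∫ x, h x * fderiv ℝ ψ x (x - a) := by
    congr 1
    ext x
    rw [zz_gradient, inner_smul_left, real_inner_comm, inner_gradient]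
    simp [hh]
  rw [e1, h2, ← integral_neg]
  congr 1
  ext x
  rw [(hd1 x).fderiv]
  simp only [smul_apply, smul_eq_mul, hh, rho]
  rw [df_fderiv, real_inner_self_eq_norm_sq]
  ring

theorem rho_cont (a : EuclideanSpace ℝ (Fin N)) (r ε δ : ℝ) : Continuous (rho a r ε δ) := by
  unfold rho
  have h1 : Continuous (df a r) := (df_contDiff a r).continuous
  have h2 : Continuous fun x => hsm δ (df a r x - δ) := (hsm_cont δ).comp (by fun_prop)
  have h3 : Continuous fun x => Real.smoothTransition ((df a r x - δ) / δ) :=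
    Real.smoothTransition.continuous.comp (by fun_prop)
  fun_prop

theorem df_le (a : EuclideanSpace ℝ (Fin N)) (r : ℝ) (x : EuclideanSpace ℝ (Fin N)) :
    df a r x ≤ r ^ 2 := by
  unfold df
  nlinarith [sq_nonneg ‖x - a‖]

/-- the differential inequality -/
theorem exists_sub (hN : 2 ≤ N) (a : EuclideanSpace ℝ (Fin N)) {r : ℝ} (hr : 0 < r) {η Q : ℝ} (hη : 0 < η)
    (hQ1 : 1 < Q) (hQ2 : Q < 2) :
    ∃ ε δ₀ : ℝ, 0 < ε ∧ 0 < δ₀ ∧ ∀ δ, 0 < δ → δ ≤ δ₀ → ∀ x : EuclideanSpace ℝ (Fin N),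
      rho a r ε δ x ≤ η * (zz a r ε δ x) ^ (Q - 1) := by
  have hN2 : (2:ℝ) ≤ N := by exact_mod_cast hN
  have hN0 : (0:ℝ) < N := by linarith
  set s₀ : ℝ := r ^ 2 / N with hs₀
  have hs₀pos : 0 < s₀ := by positivity
  have h1 : Tendsto (fun ε : ℝ => ε ^ (2 - Q)) (𝓝[>] 0) (𝓝 0) := by
    have h2 : ContinuousAt (fun ε : ℝ => ε ^ (2 - Q)) 0 :=
      Real.continuousAt_rpow_const 0 (2 - Q) (Or.inr (by linarith))
    have h3 := h2.tendsto
    rw [Real.zero_rpow (by linarith)] at h3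
    exact h3.mono_left nhdsWithin_le_nhds
  have hcpos : 0 < η * (s₀ ^ 2 / 8) ^ (Q - 1) / (2 * N * r ^ 2) := by positivity
  obtain ⟨ε, h4, h5⟩ := ((h1.eventually_lt_const hcpos).and self_mem_nhdsWithin).exists
  have hε : 0 < ε := h5
  refine ⟨ε, s₀ / 4, hε, by positivity, ?_⟩
  intro δ hδ hδ2 x
  set s := df a r x with hs
  have hsr : s ≤ r ^ 2 := df_le a r x
  have hxs : ‖x - a‖ ^ 2 = r ^ 2 - s := by rw [hs, df]; ring
  have hz0 : 0 ≤ zz a r ε δ x := by
    rw [zz]
    rcases le_total s δ with h | h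
    · rw [cvx_zero hδ h, mul_zero]
    · exact mul_nonneg hε.le (cvx_nonneg hδ (by linarith))
  have hrhs : 0 ≤ η * (zz a r ε δ x) ^ (Q - 1) := by positivity
  rcases le_or_gt s δ with hsδ | hsδ
  · -- zero region
    have : rho a r ε δ x = 0 := by
      rw [rho, ← hs, hsm_nonpos hδ (by linarith), Real.smoothTransition.zero_of_nonpos]
      · ring
      · exact div_nonpos_of_nonpos_of_nonneg (by linarith) hδ.le
    rw [this]
    exact hrhs
  · rcases le_or_gt s s₀ with hss | hss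
    · refine le_trans ?_ hrhs
      rw [rho, ← hs, hxs]
      set σ := Real.smoothTransition ((s - δ) / δ) with hσ
      have hσ0 : 0 ≤ σ := Real.smoothTransition.nonneg _
      have h6 : hsm δ (s - δ) ≤ (s - δ) * σ := hsm_le_mul hδ (by linarith)
      have h7 : s₀ * N = r ^ 2 := by rw [hs₀]; field_simp
      have h8 : s₀ ≤ r ^ 2 / 2 := by
        rw [hs₀]
        gcongr
      have h9 : 2 * N * hsm δ (s - δ) ≤ 2 * N * ((s - δ) * σ) := by gcongr
      have h10 : 2 * N * ((s - δ) * σ) ≤ 4 * (r ^ 2 - s) * σ := by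
        have h11 : 2 * N * (s - δ) ≤ 4 * (r ^ 2 - s) := by nlinarith
        nlinarith
      apply mul_nonpos_of_nonneg_of_nonpos hε.le
      linarith
    · -- bulk region
      have h6 : hsm δ (s - δ) ≤ r ^ 2 := (hsm_le (by linarith)).trans (by linarith)
      have h7 : 0 ≤ Real.smoothTransition ((s - δ) / δ) := Real.smoothTransition.nonneg _
      have h8 : rho a r ε δ x ≤ ε * (2 * N * r ^ 2) := by
        rw [rho, ← hs]
        have h9 : 0 ≤ 4 * ‖x - a‖ ^ 2 * Real.smoothTransition ((s - δ) / δ) := by positivity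
        have h10 : 2 * N * hsm δ (s - δ) ≤ 2 * N * r ^ 2 := by gcongr
        have h11 : 2 * N * hsm δ (s - δ) - 4 * ‖x - a‖ ^ 2 * Real.smoothTransition ((s - δ) / δ) ≤
          2 * N * r ^ 2 := by linarith
        gcongr
      have h9 : s₀ ^ 2 / 8 ≤ cvx δ s := by
        have h10 := cvx_ge hδ (show 2 * δ ≤ s by linarith)
        have h11 : s₀ / 2 ≤ s - 2 * δ := by linarith
        have h12 : (s₀ / 2) ^ 2 ≤ (s - 2 * δ) ^ 2 := by gcongr
        linarith
      have h10 : (ε * (s₀ ^ 2 / 8)) ^ (Q - 1) ≤ (zz a r ε δ x) ^ (Q - 1) := by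
        apply Real.rpow_le_rpow (by positivity) _ (by linarith)
        rw [zz]
        gcongr
      refine h8.trans (le_trans ?_ (mul_le_mul_of_nonneg_left h10 hη.le))
      rw [Real.mul_rpow hε.le (by positivity)]
      rw [lt_div_iff₀ (by positivity)] at h4
      have h11 : ε = ε ^ (Q - 1) * ε ^ (2 - Q) := by
        rw [← Real.rpow_add hε]
        have : Q - 1 + (2 - Q) = 1 := by ring
        rw [this, Real.rpow_one]
      have h12 : 0 < ε ^ (Q - 1) := Real.rpow_pos_of_pos hε _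
      calc ε * (2 * N * r ^ 2) = ε ^ (Q - 1) * (ε ^ (2 - Q) * (2 * N * r ^ 2)) := by
            nth_rw 1 [h11]; ring
        _ ≤ ε ^ (Q - 1) * (η * (s₀ ^ 2 / 8) ^ (Q - 1)) := by gcongr
        _ = η * (ε ^ (Q - 1) * (s₀ ^ 2 / 8) ^ (Q - 1)) := by ring

end Pool.Agent.Helper793.Hop
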