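import Mathlib

set_option autoImplicit false
set_option linter.unusedSectionVars false

open Set

namespace Pool.Agent.Helper793.Pt

/-- the scalar inequality -/
theorem pt_a {Q : ℝ} (hQ1 : 1 < Q) (hQ2 : Q < 2) :
    ∃ ρ : ℝ, 0 < ρ ∧ ρ < 1 ∧ ∀ s : ℝ, (|1 + s| ^ (Q - 2) * (1 + s) - 1) * s ≤
      (if s < -1/2 then 2 else ρ) * s ^ 2 := by
  set p : ℝ := Q - 1 with hp
  have hp0 : 0 < p := by linarith
  have hp1 : p < 1 := by linarith
  set c : ℝ := (1 / 2 : ℝ) ^ p with hc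
  have hc0 : 0 < c := by positivity
  have hc1 : 1 / 2 < c := by
    have : (1 / 2 : ℝ) ^ (1:ℝ) < (1 / 2 : ℝ) ^ p :=
      Real.rpow_lt_rpow_of_exponent_gt (by norm_num) (by norm_num) hp1
    rwa [Real.rpow_one] at this
  have hc2 : c < 1 := Real.rpow_lt_one (by norm_num) (by norm_num) hp0
  have hg : ∀ t : ℝ, 0 < t → |t| ^ (Q - 2) * t = t ^ p := by
    intro t ht
    rw [abs_of_pos ht]
    nth_rw 2 [← Real.rpow_one t]
    rw [← Real.rpow_add ht]
    congr 1
    rw [hp]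
    ring
  refine ⟨max p (2 * (1 - c)), lt_max_of_lt_left hp0, max_lt hp1 (by linarith), ?_⟩
  intro s
  split_ifs with hs
  · rcases lt_trichotomy (1 + s) 0 with h | h | h
    · -- 1 + s < 0
      have e : |1 + s| ^ (Q - 2) * (1 + s) = - (-(1 + s)) ^ p := by
        have := hg (-(1 + s)) (by linarith)
        rw [abs_neg] at this
        linarith
      rw [e]
      have h0 : 0 < -(1 + s) := by linarith
      have h1 : (-(1 + s)) ^ p ≤ -s := by
        rcases le_total (-(1 + s)) 1 with h2 | h2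
        · have := Real.rpow_le_one h0.le h2 hp0.le
          linarith
        · have : (-(1 + s)) ^ p ≤ (-(1 + s)) ^ (1:ℝ) :=
            Real.rpow_le_rpow_of_exponent_le h2 hp1.le
          rw [Real.rpow_one] at this
          linarith
      nlinarith
    · rw [h]
      have hs1 : s = -1 := by linarith
      rw [hs1]
      norm_num
    · rw [hg _ h]
      have h1 : 0 ≤ (1 + s) ^ p := by positivity
      nlinarith
  · rw [not_lt] at hs
    have h0 : 0 < 1 + s := by linarith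
    rw [hg _ h0]
    rcases le_total 0 s with h | h
    · have h1 : (1 + s) ^ p ≤ 1 + p * s :=
        rpow_one_add_le_one_add_mul_self (by linarith) hp0.le hp1.le
      have h2 : p ≤ max p (2 * (1 - c)) := le_max_left _ _
      have h3 : (max p (2 * (1 - c)) - p) * s ^ 2 ≥ 0 := by
        apply mul_nonneg (by linarith) (by positivity)
      nlinarith
    · -- concavity
      have h1 : 1 + 2 * s * (1 - c) ≤ (1 + s) ^ p := by
        have hcc := (Real.concaveOn_rpow hp0.le hp1.le).2 (show (1/2 : ℝ) ∈ Ici 0 by norm_num)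
          (show (1:ℝ) ∈ Ici 0 by norm_num) (show (0:ℝ) ≤ -2 * s by linarith)
          (show (0:ℝ) ≤ 1 + 2 * s by linarith) (by ring)
        simp only [smul_eq_mul, mul_one, Real.one_rpow] at hcc
        have e1 : -2 * s * (1 / 2) + (1 + 2 * s) = 1 + s := by ring
        rw [e1] at hcc
        have e2 : -2 * s * (1 / 2 : ℝ) ^ p + (1 + 2 * s) = 1 + 2 * s * (1 - c) := by
          rw [← hc]; ring
        rw [e2] at hcc
        exact hcc
      have h2 : 2 * (1 - c) ≤ max p (2 * (1 - c)) := le_max_right _ _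
      have h3 : (max p (2 * (1 - c)) - 2 * (1 - c)) * s ^ 2 ≥ 0 := by
        apply mul_nonneg (by linarith) (by positivity)
      nlinarith

/-- the homogeneous form -/
theorem pt_b {Q : ℝ} (hQ1 : 1 < Q) (hQ2 : Q < 2) :
    ∃ ρ : ℝ, 0 < ρ ∧ ρ < 1 ∧ ∀ W v : ℝ, 0 < W →
      (|W + v| ^ (Q - 2) * (W + v) - |W| ^ (Q - 2) * W) * v ≤
      (if v < -W/2 then 2 else ρ) * (W ^ (Q - 2) * v ^ 2) := by
  obtain ⟨ρ, h0, h1, h⟩ := pt_a hQ1 hQ2
  refine ⟨ρ, h0, h1, ?_⟩
  intro W v hW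
  set s := v / W with hs
  have hv : v = W * s := by rw [hs]; field_simp
  have h2 := h s
  have hif : (if v < -W/2 then (2:ℝ) else ρ) = if s < -1/2 then 2 else ρ := by
    have : v < -W/2 ↔ s < -1/2 := by
      rw [hs, div_lt_iff₀ hW]
      constructor <;> intro h3 <;> linarith
    simp only [this]
  rw [hif]
  set cc : ℝ := if s < -1/2 then 2 else ρ with hcc
  have e1 : |W + v| ^ (Q - 2) * (W + v) = W ^ (Q - 2) * W * (|1 + s| ^ (Q - 2) * (1 + s)) := by
    have : W + v = W * (1 + s) := by rw [hv]; ring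
    rw [this, abs_mul, abs_of_pos hW, Real.mul_rpow hW.le (abs_nonneg _)]
    ring
  rw [e1, abs_of_pos hW]
  have hW2 : 0 < W ^ (Q - 2) := by positivity
  have e2 : (W ^ (Q - 2) * W * (|1 + s| ^ (Q - 2) * (1 + s)) - W ^ (Q - 2) * W) * v =
      (W ^ (Q - 2) * W ^ 2) * ((|1 + s| ^ (Q - 2) * (1 + s) - 1) * s) := by
    rw [hv]; ring
  have e3 : cc * (W ^ (Q - 2) * v ^ 2) = (W ^ (Q - 2) * W ^ 2) * (cc * s ^ 2) := by
    rw [hv]; ring
  rw [e2, e3]
  exact mul_le_mul_of_nonneg_left h2 (by positivity)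

/-- convexity of `|·|^Q` -/
theorem pt_conv {Q : ℝ} (hQ1 : 1 < Q) {W v : ℝ} (hW : 0 ≤ W) :
    |W| ^ Q + Q * ((|W| ^ (Q - 2) * W) * v) ≤ |W + v| ^ Q := by
  rcases hW.eq_or_lt with h0 | h0
  · rw [← h0]
    simp only [abs_zero, mul_zero, zero_mul, zero_add, add_zero]
    rw [Real.zero_rpow (by linarith)]
    positivity
  · rw [abs_of_pos h0]
    set s := v / W with hs
    have hv : v = W * s := by rw [hs]; field_simp
    have e : W + v = W * (1 + s) := by rw [hv]; ring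
    rw [e, abs_mul, abs_of_pos h0, Real.mul_rpow h0.le (abs_nonneg _), hv]
    have e2 : W ^ (Q - 2) * W * (W * s) = W ^ Q * s := by
      have : W ^ (Q - 2) * W * W = W ^ Q := by
        rw [mul_assoc, ← sq, ← Real.rpow_natCast, ← Real.rpow_add h0]
        norm_num
      calc W ^ (Q - 2) * W * (W * s) = (W ^ (Q - 2) * W * W) * s := by ring
        _ = W ^ Q * s := by rw [this]
    rw [e2]
    have hWQ : 0 < W ^ Q := by positivity
    have key : 1 + Q * s ≤ |1 + s| ^ Q := by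
      rcases le_total (-1) s with h1 | h1
      · rw [abs_of_nonneg (by linarith)]
        exact one_add_mul_self_le_rpow_one_add h1 hQ1.le
      · have : 0 ≤ |1 + s| ^ Q := by positivity
        nlinarith
    nlinarith

/-- splitting on the bad set -/
theorem pt_c {Q : ℝ} (hQ1 : 1 < Q) (hQ2 : Q < 2) {c δ s : ℝ} (hc : 0 < c) (hδ : 0 < δ) (hs : 2 < s)
    {W d v : ℝ} (hd : 0 < d) (hW : c * d ^ 2 ≤ W) (hv : v < -W/2) :
    W ^ (Q - 2) * v ^ 2 ≤ c ^ (Q - 2) * δ ^ (2 * (Q - 1)) * (v ^ 2 / d ^ 2) +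
      (c * δ ^ 2) ^ (Q - 2) * (c * δ ^ 2 / 2) ^ (2 - s) * |v| ^ s := by
  have hW0 : 0 < W := lt_of_lt_of_le (by positivity) hW
  rcases le_total d δ with h | h
  · have h1 : W ^ (Q - 2) ≤ (c * d ^ 2) ^ (Q - 2) :=
      Real.rpow_le_rpow_of_nonpos (by positivity) hW (by linarith)
    have e1 : (c * d ^ 2) ^ (Q - 2) * v ^ 2 = c ^ (Q - 2) * d ^ (2 * (Q - 1)) * (v ^ 2 / d ^ 2) := by
      rw [Real.mul_rpow hc.le (by positivity), ← Real.rpow_natCast d 2, ← Real.rpow_mul hd.le]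
      have : d ^ (2 * (Q - 1)) = d ^ (((2:ℕ):ℝ) * (Q - 2)) * d ^ ((2:ℕ):ℝ) := by
        rw [← Real.rpow_add hd]
        congr 1
        push_cast
        ring
      rw [this]
      have hd2 : d ^ ((2:ℕ):ℝ) ≠ 0 := by positivity
      field_simp
    have h2 : d ^ (2 * (Q - 1)) ≤ δ ^ (2 * (Q - 1)) :=
      Real.rpow_le_rpow hd.le h (by linarith)
    calc W ^ (Q - 2) * v ^ 2 ≤ (c * d ^ 2) ^ (Q - 2) * v ^ 2 := by gcongr
      _ = c ^ (Q - 2) * d ^ (2 * (Q - 1)) * (v ^ 2 / d ^ 2) := e1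
      _ ≤ c ^ (Q - 2) * δ ^ (2 * (Q - 1)) * (v ^ 2 / d ^ 2) := by gcongr
      _ ≤ _ := le_add_of_nonneg_right (by positivity)
  · have hW' : c * δ ^ 2 ≤ W := by
      refine le_trans ?_ hW
      gcongr
    have h1 : W ^ (Q - 2) ≤ (c * δ ^ 2) ^ (Q - 2) :=
      Real.rpow_le_rpow_of_nonpos (by positivity) hW' (by linarith)
    have hv0 : c * δ ^ 2 / 2 < |v| := by
      rw [abs_of_neg (by linarith)]
      linarith
    have hvp : 0 < |v| := lt_trans (by positivity) hv0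
    have h2 : |v| ^ (2 - s) ≤ (c * δ ^ 2 / 2) ^ (2 - s) :=
      Real.rpow_le_rpow_of_nonpos (by positivity) hv0.le (by linarith)
    have e2 : v ^ 2 = |v| ^ (2 - s) * |v| ^ s := by
      rw [← Real.rpow_add hvp, sub_add_cancel, ← sq_abs, ← Real.rpow_natCast]
      norm_num
    calc W ^ (Q - 2) * v ^ 2 = W ^ (Q - 2) * (|v| ^ (2 - s) * |v| ^ s) := by rw [← e2]
      _ ≤ (c * δ ^ 2) ^ (Q - 2) * ((c * δ ^ 2 / 2) ^ (2 - s) * |v| ^ s) := by gcongr
      _ = (c * δ ^ 2) ^ (Q - 2) * (c * δ ^ 2 / 2) ^ (2 - s) * |v| ^ s := by ring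
      _ ≤ _ := le_add_of_nonneg_left (by positivity)

end Pool.Agent.Helper793.Pt
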