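import Pool.Agent.Helper793.Cpt
import Pool.Agent.Helper793.Pt

set_option autoImplicit false
set_option linter.unusedSectionVars false

open MeasureTheory Metric Set Filter Topology
open scoped ENNReal NNReal
open Pool.Agent.Helper793.QEig Pool.Agent.Helper793.Sob Pool.Agent.Helper793.Cut
open Pool.Agent.Helper793.Hop

namespace Pool.Agent.Helper793.Iso

variable {N : ℕ}

variable {q : ℝ≥0} [Fact (1 ≤ (q : ℝ≥0∞))]

/-- the contraction estimate near a positive minimiser -/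
theorem key (hN : 2 ≤ N) (hq : 1 < q) (hq2 : q < 2) (a : EuclideanSpace ℝ (Fin N)) {r : ℝ}
    (hr : 0 < r) (hL : 0 < l1 q (ball a r)) :
    ∃ ρ s : ℝ, 0 < ρ ∧ ρ < 1 ∧ 2 < s ∧ ∀ ε > 0, ∃ K : ℝ, 0 < K ∧
      ∀ P ∈ D012 q (ball a r), ‖P.1‖ = 1 → ‖P.2‖ ^ 2 = l1 q (ball a r) →
      (∀ᵐ x ∂volume, x ∈ ball a r → 0 < P.1 x) →
      ∀ u ∈ D012 q (ball a r), ‖u.1‖ = 1 → ∀ lam : ℝ,
      (∀ ψ : EuclideanSpace ℝ (Fin N) → ℝ, IsTest (ball a r) ψ →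
        ∫ x, inner ℝ (u.2 x) (gradient ψ x) = lam * ∫ x, |u.1 x| ^ ((q : ℝ) - 2) * u.1 x * ψ x) →
      l1 q (ball a r) ≤ lam →
      ‖(u - P).2‖ ^ 2 ≤ lam * ((ρ / l1 q (ball a r) + ε) * ‖(u - P).2‖ ^ 2 +
        K * ‖(u - P).2‖ ^ s) := by
  have hq1 : (1:ℝ) < q := by exact_mod_cast hq
  have hq2' : (q:ℝ) < 2 := by exact_mod_cast hq2
  have hN2 : (2:ℝ) ≤ N := by exact_mod_cast hN
  set Λ := l1 q (ball a r) with hΛ
  obtain ⟨ρ, hρ0, hρ1, hpt⟩ := Pt.pt_b hq1 hq2'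
  obtain ⟨s, hs2, hs'⟩ := exists_exponent (N := N) (q := 2) hN (by
    rw [NNReal.coe_ofNat]; linarith)
  have hs2' : (2:ℝ) < s := by exact_mod_cast hs2
  obtain ⟨C, hC0, hC⟩ := Har.sobolev_s (q := q) (Ω := ball a r) hN isBounded_ball
    (s := s) (le_trans (by norm_num) hs2.le) hs'
  obtain ⟨c, hc0, hc⟩ := Cmp.lower_bound (q := q) hN hq hq2 a hr hL
  refine ⟨ρ, s, hρ0, hρ1, hs2', ?_⟩
  intro ε hε
  set δ : ℝ := (ε * r ^ 2 / (2 * c ^ ((q:ℝ) - 2))) ^ (1 / (2 * ((q:ℝ) - 1))) with hδ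
  have hδ0 : 0 < δ := by positivity
  have hδe : 2 * (c ^ ((q:ℝ) - 2) * δ ^ (2 * ((q:ℝ) - 1))) / r ^ 2 = ε := by
    have h1 : δ ^ (2 * ((q:ℝ) - 1)) = ε * r ^ 2 / (2 * c ^ ((q:ℝ) - 2)) := by
      have h2 : 2 * ((q:ℝ) - 1) ≠ 0 := by
        have : 0 < (q:ℝ) - 1 := by linarith
        positivity
      rw [hδ, ← Real.rpow_mul (by positivity), one_div, inv_mul_cancel₀ h2, Real.rpow_one]
    rw [h1]
    have : c ^ ((q:ℝ) - 2) ≠ 0 := by positivity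
    field_simp
  set Kd : ℝ := (c * δ ^ 2) ^ ((q:ℝ) - 2) * (c * δ ^ 2 / 2) ^ (2 - (s:ℝ)) with hKd
  have hKd0 : 0 < Kd := by positivity
  refine ⟨2 * Kd * C, by positivity, ?_⟩
  intro P hP hP1 hP2 hPpos u hu hu1 lam hweak hlam
  set v := u - P with hv
  have hvD : v ∈ D012 q (ball a r) := D012_sub hu hP
  have hlam0 : 0 < lam := lt_of_lt_of_le hL hlam
  -- weak equations
  have hweakP : ∀ ψ : EuclideanSpace ℝ (Fin N) → ℝ, IsTest (ball a r) ψ →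
      ∫ x, inner ℝ (P.2 x) (gradient ψ x) = Λ * ∫ x, |P.1 x| ^ ((q : ℝ) - 2) * P.1 x * ψ x := by
    intro ψ hψ
    have el := euler_lagrange hq hP1 hψ (Eventually.of_forall fun t => by
      rw [hP2]
      have := l1_ineq (D012_add hP (D012_smul t (pairOf_mem (q := q) hψ)))
      exact this)
    rw [el, hP2]
  have w1 := Cmp.weak_ext hq hweak hvD
  have w2 := Cmp.weak_ext hq hweakP hvD
  set gu : EuclideanSpace ℝ (Fin N) → ℝ := fun x => |u.1 x| ^ ((q : ℝ) - 2) * u.1 x * v.1 x with hgu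
  set gP : EuclideanSpace ℝ (Fin N) → ℝ := fun x => |P.1 x| ^ ((q : ℝ) - 2) * P.1 x * v.1 x with hgP
  have iu : Integrable gu volume := Cmp.integrable_dual (Cmp.memLp_dual hq u.1) v.1
  have iP : Integrable gP volume := Cmp.integrable_dual (Cmp.memLp_dual hq P.1) v.1
  have hvx : ∀ᵐ x ∂volume, u.1 x = P.1 x + v.1 x := by
    have e : u.1 = P.1 + v.1 := by rw [hv, Prod.fst_sub]; abel
    filter_upwards [Lp.coeFn_add P.1 v.1] with x hx
    rw [e, hx, Pi.add_apply]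
  have hPz := Gap.zero_off (q := q) measurableSet_ball hP
  have hvz := Gap.zero_off (q := q) measurableSet_ball hvD
  have hP0 : ∀ᵐ x ∂volume, 0 ≤ P.1 x := by
    filter_upwards [hPpos, hPz] with x h1 h2
    by_cases hx : x ∈ ball a r
    · exact (h1 hx).le
    · rw [h2 hx]
  -- sign of the linear term
  have hsign : ∫ x, gP x ≤ 0 := by
    have h1 : ∫ x, (|P.1 x| ^ (q:ℝ) + (q:ℝ) * gP x) ≤ ∫ x, |u.1 x| ^ (q:ℝ) := by
      apply integral_mono_ae ((integrable_abs_rpow P.1).add (iP.const_mul _))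
        (integrable_abs_rpow u.1)
      filter_upwards [hvx, hP0] with x h2 h3
      simp only [hgP]
      rw [h2]
      exact Pt.pt_conv hq1 h3
    rw [integral_add (integrable_abs_rpow P.1) (iP.const_mul _), integral_const_mul,
      ← norm_Lp_rpow, ← norm_Lp_rpow, hP1, hu1] at h1
    nlinarith
  -- the identity for the energy
  have hD : ‖v.2‖ ^ 2 ≤ lam * ∫ x, (gu x - gP x) := by
    have h1 : ‖v.2‖ ^ 2 = inner ℝ u.2 v.2 - inner ℝ P.2 v.2 := by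
      rw [← inner_sub_left, ← real_inner_self_eq_norm_sq]
      rfl
    rw [h1, w1, w2, integral_sub iu iP]
    have h2 : (lam - Λ) * ∫ x, gP x ≤ 0 :=
      mul_nonpos_of_nonneg_of_nonpos (by linarith) hsign
    change lam * (∫ x, gu x) - Λ * (∫ x, gP x) ≤ _
    nlinarith
  -- estimates of the integrals
  obtain ⟨j1, j2⟩ := Jac.jacobi (q := q) measurableSet_ball hq2 hL hP hP1 hP2 hPpos hvD
  obtain ⟨k1, k2⟩ := Har.hardy (q := q) hN a hr hvD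
  obtain ⟨m1, m2⟩ := hC v hvD
  have hlow := hc P hP hP1 hP2 hP0
  have hpoint : ∀ᵐ x ∂volume, gu x - gP x ≤ ρ * ((P.1 x) ^ ((q:ℝ) - 2) * (v.1 x) ^ 2) +
      (2 * (c ^ ((q:ℝ) - 2) * δ ^ (2 * ((q:ℝ) - 1))) * ((v.1 x) ^ 2 / (df a r x) ^ 2) +
        2 * Kd * |v.1 x| ^ (s:ℝ)) := by
    filter_upwards [hvx, hPpos, hPz, hvz, hlow] with x h1 h2 h3 h4 h5
    simp only [hgu, hgP]
    rw [h1]
    by_cases hx : x ∈ ball a r
    · have hW := h2 hx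
      have hd := (df_pos_iff a hr x).mpr hx
      have b1 := hpt (P.1 x) (v.1 x) hW
      have b0 : 0 ≤ 2 * (c ^ ((q:ℝ) - 2) * δ ^ (2 * ((q:ℝ) - 1))) * ((v.1 x) ^ 2 / (df a r x) ^ 2) +
        2 * Kd * |v.1 x| ^ (s:ℝ) := by positivity
      have b2 : |P.1 x + v.1 x| ^ ((q:ℝ) - 2) * (P.1 x + v.1 x) * v.1 x -
          |P.1 x| ^ ((q:ℝ) - 2) * P.1 x * v.1 x =
          (|P.1 x + v.1 x| ^ ((q:ℝ) - 2) * (P.1 x + v.1 x) - |P.1 x| ^ ((q:ℝ) - 2) * P.1 x) * v.1 x := by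
        ring
      rw [b2]
      refine b1.trans ?_
      split_ifs with hcase
      · have b3 := Pt.pt_c hq1 hq2' hc0 hδ0 hs2' hd (h5 hx) hcase
        have b4 : 0 ≤ ρ * ((P.1 x) ^ ((q:ℝ) - 2) * (v.1 x) ^ 2) := by positivity
        rw [hKd]
        linarith
      · linarith
    · rw [h3 hx, h4 hx]
      have : (0:ℝ) ≤ ρ * ((0:ℝ) ^ ((q:ℝ) - 2) * 0 ^ 2) := by simp
      have hz : (0:ℝ) ≤ 2 * Kd * |0| ^ (s:ℝ) := by positivity
      simp only [mul_zero, zero_pow two_ne_zero, zero_div, add_zero, sub_zero, zero_add]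
      exact hz
  have hint : ∫ x, (gu x - gP x) ≤ ρ * (∫ x, (P.1 x) ^ ((q:ℝ) - 2) * (v.1 x) ^ 2) +
      (2 * (c ^ ((q:ℝ) - 2) * δ ^ (2 * ((q:ℝ) - 1))) * (∫ x, (v.1 x) ^ 2 / (df a r x) ^ 2) +
        2 * Kd * ∫ x, |v.1 x| ^ (s:ℝ)) := by
    have i12 : Integrable (fun x =>
        2 * (c ^ ((q:ℝ) - 2) * δ ^ (2 * ((q:ℝ) - 1))) * ((v.1 x) ^ 2 / (df a r x) ^ 2) +
        2 * Kd * |v.1 x| ^ (s:ℝ)) volume := (k1.const_mul _).add (m1.const_mul _)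
    rw [← integral_const_mul, ← integral_const_mul, ← integral_const_mul,
      ← integral_add (k1.const_mul _) (m1.const_mul _),
      ← integral_add (j1.const_mul _) i12]
    exact integral_mono_ae (iu.sub iP) ((j1.const_mul _).add i12) hpoint
  have hb1 : ρ * (∫ x, (P.1 x) ^ ((q:ℝ) - 2) * (v.1 x) ^ 2) ≤ ρ / Λ * ‖v.2‖ ^ 2 := by
    have : ∫ x, (P.1 x) ^ ((q:ℝ) - 2) * (v.1 x) ^ 2 ≤ ‖v.2‖ ^ 2 / Λ := by
      rw [le_div_iff₀ hL]
      linarith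
    calc ρ * (∫ x, (P.1 x) ^ ((q:ℝ) - 2) * (v.1 x) ^ 2) ≤ ρ * (‖v.2‖ ^ 2 / Λ) := by gcongr
      _ = ρ / Λ * ‖v.2‖ ^ 2 := by ring
  have hb2 : 2 * (c ^ ((q:ℝ) - 2) * δ ^ (2 * ((q:ℝ) - 1))) * (∫ x, (v.1 x) ^ 2 / (df a r x) ^ 2) ≤
      ε * ‖v.2‖ ^ 2 := by
    calc 2 * (c ^ ((q:ℝ) - 2) * δ ^ (2 * ((q:ℝ) - 1))) * (∫ x, (v.1 x) ^ 2 / (df a r x) ^ 2)
        ≤ 2 * (c ^ ((q:ℝ) - 2) * δ ^ (2 * ((q:ℝ) - 1))) * (‖v.2‖ ^ 2 / r ^ 2) := by gcongr
      _ = (2 * (c ^ ((q:ℝ) - 2) * δ ^ (2 * ((q:ℝ) - 1))) / r ^ 2) * ‖v.2‖ ^ 2 := by ring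
      _ = ε * ‖v.2‖ ^ 2 := by rw [hδe]
  have hb3 : 2 * Kd * (∫ x, |v.1 x| ^ (s:ℝ)) ≤ 2 * Kd * C * ‖v.2‖ ^ (s:ℝ) := by
    calc 2 * Kd * (∫ x, |v.1 x| ^ (s:ℝ)) ≤ 2 * Kd * (C * ‖v.2‖ ^ (s:ℝ)) := by gcongr
      _ = 2 * Kd * C * ‖v.2‖ ^ (s:ℝ) := by ring
  refine hD.trans ?_
  apply mul_le_mul_of_nonneg_left _ hlam0.le
  linarith

/-- normalisation of eigenpairs -/
theorem normalise {Ω : Set (EuclideanSpace ℝ (Fin N))} {lam : ℝ} {p : Pairs N q}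
    (hp : IsEigenpair q Ω lam p) : ∃ u ∈ D012 q Ω, ‖u.1‖ = 1 ∧
      ∀ ψ : EuclideanSpace ℝ (Fin N) → ℝ, IsTest Ω ψ →
        ∫ x, inner ℝ (u.2 x) (gradient ψ x) = lam * ∫ x, |u.1 x| ^ ((q : ℝ) - 2) * u.1 x * ψ x := by
  obtain ⟨hD, hne, hw⟩ := hp
  have hn : 0 < ‖p.1‖ := norm_pos_iff.mpr hne
  set c : ℝ := ‖p.1‖⁻¹ with hc
  have hc0 : 0 < c := by positivity
  refine ⟨c • p, D012_smul c hD, ?_, ?_⟩
  · rw [Prod.smul_fst, norm_smul, Real.norm_eq_abs, abs_of_pos hc0, hc, inv_mul_cancel₀ hn.ne']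
  · intro ψ hψ
    have h1 := hw ψ hψ
    have e1 : ∫ x, inner ℝ ((c • p).2 x) (gradient ψ x) =
        c * ∫ x, inner ℝ (p.2 x) (gradient ψ x) := by
      rw [← integral_const_mul]
      apply integral_congr_ae
      filter_upwards [Lp.coeFn_smul c p.2] with x hx
      rw [Prod.smul_snd, hx, Pi.smul_apply, real_inner_smul_left]
    have e2 : ∫ x, |(c • p).1 x| ^ ((q : ℝ) - 2) * (c • p).1 x * ψ x =
        c ^ ((q:ℝ) - 2) * c * ∫ x, |p.1 x| ^ ((q : ℝ) - 2) * p.1 x * ψ x := by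
      rw [← integral_const_mul]
      apply integral_congr_ae
      filter_upwards [Lp.coeFn_smul c p.1] with x hx
      rw [Prod.smul_fst, hx, Pi.smul_apply, smul_eq_mul, abs_mul, abs_of_pos hc0,
        Real.mul_rpow hc0.le (abs_nonneg _)]
      ring
    rw [e1, e2, h1]
    have e3 : ‖p.1‖ ^ ((2:ℝ) - q) = c ^ ((q:ℝ) - 2) := by
      rw [hc, Real.inv_rpow hn.le, ← Real.rpow_neg hn.le]
      congr 1
      ring
    rw [e3]
    ring

/-- the energy of a normalised eigenpair -/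
theorem energy_eq (hq : 1 < q) {Ω : Set (EuclideanSpace ℝ (Fin N))} {lam : ℝ} {u : Pairs N q}
    (hu : u ∈ D012 q Ω) (hw : ∀ ψ : EuclideanSpace ℝ (Fin N) → ℝ, IsTest Ω ψ →
        ∫ x, inner ℝ (u.2 x) (gradient ψ x) = lam * ∫ x, |u.1 x| ^ ((q : ℝ) - 2) * u.1 x * ψ x) :
    ‖u.2‖ ^ 2 = lam * ‖u.1‖ ^ (q:ℝ) := by
  have hq1 : (1:ℝ) < q := by exact_mod_cast hq
  have w1 := Cmp.weak_ext hq hw hu
  rw [real_inner_self_eq_norm_sq] at w1
  rw [w1, norm_Lp_rpow]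
  congr 1
  apply integral_congr_ae
  refine Eventually.of_forall fun x => ?_
  simp only
  rcases eq_or_ne (u.1 x) 0 with h | h
  · rw [h]
    simp [Real.zero_rpow (show (q:ℝ) ≠ 0 by linarith)]
  · have h0 : 0 < |u.1 x| := abs_pos.mpr h
    rw [mul_assoc, ← sq, ← sq_abs, ← Real.rpow_natCast, ← Real.rpow_add h0]
    congr 1
    push_cast
    ring

/-- **The first eigenvalue of a ball is isolated.** -/
theorem ball_isolated (hN : 2 ≤ N) (hq : 1 < q) (hq2 : q < 2) (a : EuclideanSpace ℝ (Fin N)) {r : ℝ}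
    (hr : 0 < r) :
    ∃ δ > 0, ∀ (lam : ℝ) (p : Pairs N q), IsEigenpair q (ball a r) lam p →
      lam < l1 q (ball a r) + δ → lam = l1 q (ball a r) := by
  have hq1 : (1:ℝ) < q := by exact_mod_cast hq
  have hq2' : (q:ℝ) < 2 := by exact_mod_cast hq2
  have hN2 : (2:ℝ) ≤ N := by exact_mod_cast hN
  have hq' : ((N : ℝ) - 2) * q < 2 * N := by nlinarith
  have hb : Bornology.IsBounded (ball a r) := isBounded_ball
  have hL : 0 < l1 q (ball a r) := l1_pos hN isOpen_ball ⟨a, mem_ball_self hr⟩ hb hq'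
  obtain ⟨ρ, s, hρ0, hρ1, hs, hkey⟩ := key (q := q) hN hq hq2 a hr hL
  set Λ := l1 q (ball a r) with hΛ
  by_contra hcon
  push Not at hcon
  have hch : ∀ n : ℕ, ∃ (lam : ℝ) (u : Pairs N q), u ∈ D012 q (ball a r) ∧ ‖u.1‖ = 1 ∧
      (∀ ψ : EuclideanSpace ℝ (Fin N) → ℝ, IsTest (ball a r) ψ →
        ∫ x, inner ℝ (u.2 x) (gradient ψ x) = lam * ∫ x, |u.1 x| ^ ((q : ℝ) - 2) * u.1 x * ψ x) ∧
      lam < Λ + 1 / ((n:ℝ) + 1) ∧ lam ≠ Λ := by
    intro n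
    obtain ⟨lam, p, hp, h1, h2⟩ := hcon (1 / ((n:ℝ) + 1)) (by positivity)
    obtain ⟨u, hu, hu1, hw⟩ := normalise hp
    exact ⟨lam, u, hu, hu1, hw, h1, h2⟩
  choose lam u hu hu1 hw hl1 hl2 using hch
  have hen : ∀ n, ‖(u n).2‖ ^ 2 = lam n := by
    intro n
    rw [energy_eq hq (hu n) (hw n), hu1, Real.one_rpow, mul_one]
  have hge : ∀ n, Λ ≤ lam n := fun n => by
    rw [← hen n]
    exact l1_le (hu n) (hu1 n)
  have hlt : Tendsto lam atTop (𝓝 Λ) := by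
    have h1 : Tendsto (fun n : ℕ => Λ + 1 / ((n:ℝ) + 1)) atTop (𝓝 (Λ + 0)) :=
      tendsto_one_div_add_atTop_nhds_zero_nat.const_add Λ
    rw [add_zero] at h1
    exact tendsto_of_tendsto_of_tendsto_of_le_of_le tendsto_const_nhds h1 hge (fun n => (hl1 n).le)
  have hent : Tendsto (fun n => ‖(u n).2‖ ^ 2) atTop (𝓝 Λ) := by
    simp_rw [hen]
    exact hlt
  obtain ⟨P, hP, hP1, hP2, k, hk, hlim⟩ := Cpt.compact_seq (q := q) hN hb hq' hu hu1 hent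
  -- a sign making the limit positive
  have hsgn : ∃ σ : ℝ, σ ^ 2 = 1 ∧ ∀ᵐ x ∂volume, x ∈ ball a r → 0 < (σ • P).1 x := by
    rcases Gap.minimiser_sign (q := q) hN hq hq2 a hr hL hP hP1 hP2 with h | h
    · refine ⟨1, by norm_num, ?_⟩
      rw [one_smul]
      exact h
    · refine ⟨-1, by norm_num, ?_⟩
      filter_upwards [h, Lp.coeFn_smul (-1:ℝ) P.1] with x h1 h2 hx
      rw [Prod.smul_fst, h2, Pi.smul_apply, smul_eq_mul]
      linarith [h1 hx]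
  obtain ⟨σ, hσ, hσpos⟩ := hsgn
  have hσa : |σ| = 1 := by
    have : |σ| ^ 2 = 1 := by rw [sq_abs, hσ]
    nlinarith [abs_nonneg σ]
  have hσP1 : ‖(σ • P).1‖ = 1 := by rw [Prod.smul_fst, norm_smul, Real.norm_eq_abs, hσa, one_mul, hP1]
  have hσP2 : ‖(σ • P).2‖ ^ 2 = Λ := by
    rw [Prod.smul_snd, norm_smul, Real.norm_eq_abs, hσa, one_mul, hP2]
  have hweakσ : ∀ n, ∀ ψ : EuclideanSpace ℝ (Fin N) → ℝ, IsTest (ball a r) ψ →
        ∫ x, inner ℝ ((σ • u n).2 x) (gradient ψ x) =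
          lam n * ∫ x, |(σ • u n).1 x| ^ ((q : ℝ) - 2) * (σ • u n).1 x * ψ x := by
    intro n ψ hψ
    have e1 : ∫ x, inner ℝ ((σ • u n).2 x) (gradient ψ x) =
        σ * ∫ x, inner ℝ ((u n).2 x) (gradient ψ x) := by
      rw [← integral_const_mul]
      apply integral_congr_ae
      filter_upwards [Lp.coeFn_smul σ (u n).2] with x hx
      rw [Prod.smul_snd, hx, Pi.smul_apply, real_inner_smul_left]
    have e2 : ∫ x, |(σ • u n).1 x| ^ ((q : ℝ) - 2) * (σ • u n).1 x * ψ x =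
        σ * ∫ x, |(u n).1 x| ^ ((q : ℝ) - 2) * (u n).1 x * ψ x := by
      rw [← integral_const_mul]
      apply integral_congr_ae
      filter_upwards [Lp.coeFn_smul σ (u n).1] with x hx
      rw [Prod.smul_fst, hx, Pi.smul_apply, smul_eq_mul, abs_mul, hσa, one_mul]
      ring
    rw [e1, e2, hw n ψ hψ]
    ring
  obtain ⟨K, hK0, hK⟩ := hkey ((1 - ρ) / (2 * Λ)) (by
    have : 0 < 1 - ρ := by linarith
    positivity)
  set D : ℕ → ℝ := fun n => ‖(σ • u n - σ • P).2‖ with hDdef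
  have hest : ∀ n, D n ^ 2 ≤ lam n * ((ρ / Λ + (1 - ρ) / (2 * Λ)) * D n ^ 2 + K * D n ^ s) := by
    intro n
    exact hK (σ • P) (D012_smul σ hP) hσP1 hσP2 hσpos (σ • u n) (D012_smul σ (hu n))
      (by rw [Prod.smul_fst, norm_smul, Real.norm_eq_abs, hσa, one_mul, hu1]) (lam n)
      (hweakσ n) (hge n)
  have hDt : Tendsto (fun n => D (k n)) atTop (𝓝 0) := by
    have h1 : Tendsto (fun n => σ • u (k n) - σ • P) atTop (𝓝 (σ • P - σ • P)) :=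
      (hlim.const_smul σ).sub_const _
    rw [sub_self] at h1
    have h2 : Tendsto (fun n => ‖(σ • u (k n) - σ • P).2‖) atTop (𝓝 ‖(0 : Pairs N q).2‖) :=
      ((continuous_snd.tendsto _).comp h1).norm
    rw [Prod.snd_zero, norm_zero] at h2
    exact h2
  have hDpos : ∀ n, 0 < D n := by
    intro n
    refine lt_of_le_of_ne (norm_nonneg _) ?_
    intro h0
    apply hl2 n
    have h1 : (σ • u n - σ • P).2 = 0 := norm_eq_zero.mp h0.symm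
    rw [Prod.snd_sub, sub_eq_zero] at h1
    rw [← hen n, ← hσP2, ← h1, Prod.smul_snd, norm_smul, Real.norm_eq_abs, hσa, one_mul]
  have hest2 : ∀ n, 1 ≤ lam n * ((ρ / Λ + (1 - ρ) / (2 * Λ)) + K * D n ^ (s - 2)) := by
    intro n
    have h1 := hest n
    have h2 : D n ^ s = D n ^ (s - 2) * D n ^ 2 := by
      rw [← Real.rpow_natCast (D n) 2, ← Real.rpow_add (hDpos n)]
      congr 1
      push_cast
      ring
    rw [h2] at h1
    have h3 : 0 < D n ^ 2 := by have := hDpos n; positivity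
    have h4 : D n ^ 2 * 1 ≤
        D n ^ 2 * (lam n * ((ρ / Λ + (1 - ρ) / (2 * Λ)) + K * D n ^ (s - 2))) := by
      calc D n ^ 2 * 1 = D n ^ 2 := mul_one _
        _ ≤ lam n * ((ρ / Λ + (1 - ρ) / (2 * Λ)) * D n ^ 2 + K * (D n ^ (s - 2) * D n ^ 2)) := h1
        _ = D n ^ 2 * (lam n * ((ρ / Λ + (1 - ρ) / (2 * Λ)) + K * D n ^ (s - 2))) := by ring
    exact le_of_mul_le_mul_left h4 h3
  have hfin : Tendsto (fun n => lam (k n) * ((ρ / Λ + (1 - ρ) / (2 * Λ)) + K * D (k n) ^ (s - 2)))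
      atTop (𝓝 (Λ * ((ρ / Λ + (1 - ρ) / (2 * Λ)) + K * 0))) := by
    have h1 : Tendsto (fun n => D (k n) ^ (s - 2)) atTop (𝓝 0) := by
      have := hDt.rpow_const (p := s - 2) (Or.inr (by linarith))
      rwa [Real.zero_rpow (by linarith)] at this
    exact (hlt.comp hk.tendsto_atTop).mul ((h1.const_mul K).const_add _)
  have h1 := ge_of_tendsto hfin (Eventually.of_forall fun n => hest2 (k n))
  have h2 : Λ * ((ρ / Λ + (1 - ρ) / (2 * Λ)) + K * 0) = (1 + ρ) / 2 := by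
    field_simp
    ring
  rw [h2] at h1
  linarith

end Pool.Agent.Helper793.Iso
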