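import Pool.Agent.Helper793.Two
import Pool.Agent.Helper793.FDefs2

set_option autoImplicit false
set_option linter.unusedSectionVars false

open MeasureTheory Metric Set Filter Topology
open scoped ENNReal NNReal
open Pool.Agent.Helper793.QEig Pool.Agent.Helper793.Sob Pool.Agent.Helper793.Cut
open Pool.Agent.Helper793.Uni
open Pool.Agent.Helper793.FEig (FP IsD Spec SpecLS Sphere genus HasOddMap lamLS energy normLq cls
  cls_mem cls_neg cls_tendsto isEig_of isD_of_mem normLq_coe energy_coe ConvD IsCompactD lam1 lam2)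

namespace Pool.Agent.Helper793.Main0

variable {N : ℕ}

variable {q : ℝ≥0} [Fact (1 ≤ (q : ℝ≥0∞))]

theorem lam1_eq {Ω : Set (EuclideanSpace ℝ (Fin N))} (hN : 2 ≤ N)
    (hΩ : Bornology.IsBounded Ω) (hq' : ((N : ℝ) - 2) * q < 2 * N) : lam1 q Ω = l1 q Ω := by
  rw [lam1, l1]
  congr 1
  ext r
  constructor
  · rintro ⟨p, hp, rfl⟩
    obtain ⟨a1, a2, a3, _, _⟩ := cls_mem (q := q) hN hΩ hq' hp.1
    exact ⟨cls q p, a1, by rw [a2, hp.2], a3⟩
  · rintro ⟨p, hp, h1, rfl⟩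
    refine ⟨_, ⟨isD_of_mem hN hΩ hp, ?_⟩, energy_coe p.2⟩
    rw [normLq_coe, h1]

theorem l1_lt {Ω₁ Ω₂ : Set (EuclideanSpace ℝ (Fin N))} {χ : EuclideanSpace ℝ (Fin N) → ℝ}
    (h : Sep Ω₁ Ω₂ χ) (hN : 2 ≤ N) (hb1 : Bornology.IsBounded Ω₁) (hb2 : Bornology.IsBounded Ω₂)
    (hq' : ((N : ℝ) - 2) * q < 2 * N) (hne1 : Ω₁.Nonempty) (hne2 : Ω₂.Nonempty) (hq2 : q < 2) :
    l1 q (Ω₁ ∪ Ω₂) < l1 q Ω₁ := by
  have hq0 := q_pos (q := q)
  have hq2' : (q:ℝ) < 2 := by exact_mod_cast hq2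
  obtain ⟨p₁, h1, n1, e1⟩ := exists_minimizer (q := q) hN h.o1 hne1 hb1 hq'
  obtain ⟨p₂, h2, n2, e2⟩ := exists_minimizer (q := q) hN h.o2 hne2 hb2 hq'
  set L₁ := l1 q Ω₁ with hL1
  set L₂ := l1 q Ω₂ with hL2
  have hL1p : 0 < L₁ := l1_pos hN h.o1 hne1 hb1 hq'
  have hL2p : 0 < L₂ := l1_pos hN h.o2 hne2 hb2 hq'
  set s : ℝ := 2 / (q:ℝ) with hs
  have hs1 : 1 < s := by rw [hs, lt_div_iff₀ hq0]; linarith
  -- the small mass
  set b : ℝ := min (1 / 2) ((L₁ / (2 * L₂)) ^ (1 / (s - 1))) with hb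
  have hb0 : 0 < b := lt_min (by norm_num) (by positivity)
  have hb12 : b ≤ 1 / 2 := min_le_left _ _
  have hs10 : s - 1 ≠ 0 := by linarith
  have hbs : b ^ (s - 1) ≤ L₁ / (2 * L₂) := by
    calc b ^ (s - 1) ≤ ((L₁ / (2 * L₂)) ^ (1 / (s - 1))) ^ (s - 1) :=
          Real.rpow_le_rpow hb0.le (min_le_right _ _) (by linarith)
      _ = L₁ / (2 * L₂) := by
          rw [← Real.rpow_mul (by positivity), one_div, inv_mul_cancel₀ hs10, Real.rpow_one]
  have hbs2 : b ^ s * L₂ ≤ b * (L₁ / 2) := by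
    have e : b ^ s = b * b ^ (s - 1) := by
      rw [Real.rpow_sub_one hb0.ne']
      field_simp
    rw [e]
    calc b * b ^ (s - 1) * L₂ ≤ b * (L₁ / (2 * L₂)) * L₂ := by gcongr
      _ = b * (L₁ / 2) := by field_simp
  have h1b : (1 - b) ^ s ≤ 1 - b := by
    calc (1 - b) ^ s ≤ (1 - b) ^ (1:ℝ) :=
          Real.rpow_le_rpow_of_exponent_ge (by linarith) (by linarith) hs1.le
      _ = 1 - b := Real.rpow_one _
  set α : ℝ := (1 - b) ^ ((q:ℝ)⁻¹) with hα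
  set β : ℝ := b ^ ((q:ℝ)⁻¹) with hβ
  have h1b0 : 0 ≤ 1 - b := by linarith
  have hα0 : 0 ≤ α := Real.rpow_nonneg h1b0 _
  have hβ0 : 0 ≤ β := Real.rpow_nonneg hb0.le _
  have hαq : α ^ (q:ℝ) = 1 - b := by
    rw [hα, ← Real.rpow_mul h1b0, inv_mul_cancel₀ hq0.ne', Real.rpow_one]
  have hβq : β ^ (q:ℝ) = b := by
    rw [hβ, ← Real.rpow_mul hb0.le, inv_mul_cancel₀ hq0.ne', Real.rpow_one]
  have hα2 : α ^ 2 = (1 - b) ^ s := by
    rw [← Real.rpow_natCast, hα, ← Real.rpow_mul h1b0, hs]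
    congr 1
    push_cast
    ring
  have hβ2 : β ^ 2 = b ^ s := by
    rw [← Real.rpow_natCast, hβ, ← Real.rpow_mul hb0.le, hs]
    congr 1
    push_cast
    ring
  have hmem : α • p₁ + β • p₂ ∈ D012 q (Ω₁ ∪ Ω₂) :=
    D012_add (D012_mono subset_union_left (D012_smul α h1))
      (D012_mono subset_union_right (D012_smul β h2))
  obtain ⟨m1, m2⟩ := h.norm_add (D012_smul α h1) (D012_smul β h2)
  rw [Prod.smul_fst, Prod.smul_fst, norm_smul, norm_smul, n1, n2, mul_one, mul_one,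
    Real.norm_eq_abs, Real.norm_eq_abs, abs_of_nonneg hα0, abs_of_nonneg hβ0, hαq, hβq] at m1
  rw [Prod.smul_snd, Prod.smul_snd, norm_smul, norm_smul, mul_pow, mul_pow, Real.norm_eq_abs,
    Real.norm_eq_abs, sq_abs, sq_abs, e1, e2, hα2, hβ2] at m2
  have h4 : ‖(α • p₁ + β • p₂).1‖ = 1 := by
    have : ‖(α • p₁ + β • p₂).1‖ = (‖(α • p₁ + β • p₂).1‖ ^ (q:ℝ)) ^ ((q:ℝ)⁻¹) := by
      rw [← Real.rpow_mul (norm_nonneg _), mul_inv_cancel₀ hq0.ne', Real.rpow_one]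
    rw [this, m1, sub_add_cancel, Real.one_rpow]
  have h5 := l1_le hmem h4
  rw [m2] at h5
  nlinarith

/-- the arithmetic behind the choice of the small ball -/
theorem exists_large {s m μ : ℝ} (hs : 1 < s) (hμ : 0 < μ) (hm : μ < m) :
    ∃ K : ℝ, 0 < K ∧ ∀ L, K ≤ L → ∀ t ∈ Icc (0:ℝ) 1, μ ≤ m * t ^ s + L * (1 - t) ^ s := by
  have hm0 : 0 < m := hμ.trans hm
  set t0 : ℝ := (μ / m) ^ (1 / s) with ht0
  have hr : 0 < μ / m := by positivity
  have hr1 : μ / m < 1 := by rw [div_lt_one hm0]; exact hm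
  have h0 : 0 < t0 := by positivity
  have h1 : t0 < 1 := Real.rpow_lt_one hr.le hr1 (by positivity)
  have h1t : 0 < 1 - t0 := by linarith
  have hts : t0 ^ s = μ / m := by
    rw [ht0, ← Real.rpow_mul hr.le, one_div, inv_mul_cancel₀ (by linarith), Real.rpow_one]
  refine ⟨μ / (1 - t0) ^ s, by positivity, ?_⟩
  intro L hL t ht
  have hLp : 0 < L := lt_of_lt_of_le (by positivity) hL
  rcases le_total t0 t with h | h
  · have a1 : t0 ^ s ≤ t ^ s := Real.rpow_le_rpow h0.le h (by linarith)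
    have a2 : 0 ≤ L * (1 - t) ^ s := mul_nonneg hLp.le (Real.rpow_nonneg (by linarith [ht.2]) _)
    have a3 : m * t0 ^ s = μ := by rw [hts]; field_simp
    have a4 : m * t0 ^ s ≤ m * t ^ s := by gcongr
    linarith
  · have a1 : (1 - t0) ^ s ≤ (1 - t) ^ s := Real.rpow_le_rpow h1t.le (by linarith) (by linarith)
    have a2 : 0 ≤ m * t ^ s := mul_nonneg hm0.le (Real.rpow_nonneg ht.1 _)
    have a3 : μ ≤ L * (1 - t0) ^ s := by
      rw [div_le_iff₀ (by positivity)] at hL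
      exact hL
    have a4 : L * (1 - t0) ^ s ≤ L * (1 - t) ^ s := by gcongr
    linarith

/-- separation of the two balls -/
theorem exists_sep (hN : 2 ≤ N) {r : ℝ} (hr0 : 0 < r) (hr1 : r < 1) :
    ∃ (a : EuclideanSpace ℝ (Fin N)) (χ : EuclideanSpace ℝ (Fin N) → ℝ), ‖a‖ = 3 ∧
      Sep (ball (0 : EuclideanSpace ℝ (Fin N)) 1) (ball a r) χ := by
  set a : EuclideanSpace ℝ (Fin N) := EuclideanSpace.single (⟨0, by omega⟩ : Fin N) (3:ℝ) with ha
  have hna : ‖a‖ = 3 := by rw [ha]; simp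
  have hfar : ∀ x ∈ ball a r, 2 ≤ ‖x‖ := by
    intro x hx
    rw [mem_ball, dist_eq_norm] at hx
    have := norm_sub_norm_le a x
    rw [norm_sub_rev] at this
    linarith
  let χ : ContDiffBump (0 : EuclideanSpace ℝ (Fin N)) := ⟨1, 2, by norm_num, by norm_num⟩
  refine ⟨a, χ, hna, isOpen_ball, isOpen_ball, χ.contDiff, ?_, ?_⟩
  · intro x hx
    apply χ.one_of_mem_closedBall
    exact ball_subset_closedBall hx
  · intro x hx
    apply χ.zero_of_le_dist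
    rw [dist_zero_right]
    exact hfar x hx

theorem l1_ball_scale {r : ℝ} (hr0 : 0 < r) (a : EuclideanSpace ℝ (Fin N)) :
    l1 q (ball a r) = l1 q (ball (0 : EuclideanSpace ℝ (Fin N)) 1) * r ^ ((N : ℝ) - 2 - 2 * N / q) := by
  rw [l1_scale isOpen_ball ⟨a, mem_ball_self hr0⟩ hr0 a]
  congr 2
  ext x
  rw [mem_preimage, mem_ball, mem_ball, dist_eq_norm, add_sub_cancel_left, norm_smul,
    Real.norm_eq_abs, abs_of_pos hr0, dist_zero_right, mul_lt_iff_lt_one_right hr0]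

theorem main (hN : 2 ≤ N) (hq : 1 < q) (hq2 : q < 2) :
    ∃ (a : EuclideanSpace ℝ (Fin N)) (r : ℝ) (χ : EuclideanSpace ℝ (Fin N) → ℝ), 0 < r ∧ r < 1 ∧
      ‖a‖ = 3 ∧ Sep (ball (0 : EuclideanSpace ℝ (Fin N)) 1) (ball a r) χ ∧
      l1 q (ball (0 : EuclideanSpace ℝ (Fin N)) 1) ∈
        Spec q (ball (0 : EuclideanSpace ℝ (Fin N)) 1 ∪ ball a r) ∧
      lam1 q (ball (0 : EuclideanSpace ℝ (Fin N)) 1 ∪ ball a r) <
        l1 q (ball (0 : EuclideanSpace ℝ (Fin N)) 1) ∧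
      l1 q (ball (0 : EuclideanSpace ℝ (Fin N)) 1) <
        lamLS q (ball (0 : EuclideanSpace ℝ (Fin N)) 1 ∪ ball a r) 2 := by
  have hq0 := q_pos (q := q)
  have hq2' : (q:ℝ) < 2 := by exact_mod_cast hq2
  have hN2 : (2:ℝ) ≤ N := by exact_mod_cast hN
  have hq' : ((N : ℝ) - 2) * q < 2 * N := by nlinarith
  set B : Set (EuclideanSpace ℝ (Fin N)) := ball (0 : EuclideanSpace ℝ (Fin N)) 1 with hB
  have oB : IsOpen B := isOpen_ball
  have nB : B.Nonempty := ⟨0, mem_ball_self one_pos⟩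
  have bB : Bornology.IsBounded B := isBounded_ball
  have hΛ : 0 < l1 q B := l1_pos hN oB nB bB hq'
  obtain ⟨m, hm, hmB⟩ := Gap.gap (q := q) hN hq hq2 (0 : EuclideanSpace ℝ (Fin N)) one_pos hq'
  set Λ := l1 q B with hΛd
  have hs1 : 1 < 2 / (q:ℝ) := by rw [lt_div_iff₀ hq0]; linarith
  have hm' : Λ < m := hm
  obtain ⟨K, hK0, hK⟩ := exists_large (s := 2 / (q:ℝ)) (m := m) (μ := (Λ + m) / 2) hs1
    (by linarith) (by linarith)
  -- the scaling exponent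
  set α : ℝ := (N : ℝ) - 2 - 2 * N / q with hα
  have hαneg : α < 0 := by
    rw [hα, sub_neg, lt_div_iff₀ hq0]
    exact hq'
  set κ : ℝ := 1 + K / Λ with hκ
  have hκ1 : 1 < κ := by rw [hκ]; have : 0 < K / Λ := by positivity
                         linarith
  set r : ℝ := κ ^ (1 / α) with hr
  have hr0 : 0 < r := by positivity
  have hr1 : r < 1 := by
    apply Real.rpow_lt_one_of_one_lt_of_neg hκ1
    exact one_div_neg.mpr hαneg
  have hrα : r ^ α = κ := by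
    rw [hr, ← Real.rpow_mul (by positivity), one_div, inv_mul_cancel₀ hαneg.ne, Real.rpow_one]
  obtain ⟨a, χ, hna, hsep⟩ := exists_sep (N := N) hN hr0 hr1
  have nr : (ball a r).Nonempty := ⟨a, mem_ball_self hr0⟩
  have br : Bornology.IsBounded (ball a r) := isBounded_ball
  have hL2 : l1 q (ball a r) = Λ * κ := by
    rw [l1_ball_scale hr0 a, ← hα, hrα]
  have hKL : K ≤ l1 q (ball a r) := by
    rw [hL2, hκ, mul_add, mul_one, mul_div_cancel₀ _ hΛ.ne']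
    linarith
  refine ⟨a, r, χ, hr0, hr1, hna, hsep, ?_, ?_, ?_⟩
  · obtain ⟨p, hp, hp1, hp2⟩ := exists_minimizer (q := q) hN oB nB bB hq'
    exact ⟨_, isEig_of (q := q) hN (bB.union br) (hsep.eigenpair_union hq hp hp1 hp2)⟩
  · rw [lam1_eq hN (bB.union br) hq']
    exact l1_lt hsep hN bB br hq' nB nr hq2
  · have := Two.le_lamLS hsep hN (bB.union br) hq' nB nr hmB (fun p hp => l1_ineq hp) (hK _ hKL)
    linarith

end Pool.Agent.Helper793.Main0
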