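import Pool.Agent.Helper793.Iso
import Pool.Agent.Helper793.Main0

set_option autoImplicit false
set_option linter.unusedSectionVars false

open MeasureTheory Metric Set Filter Topology
open scoped ENNReal NNReal
open Pool.Agent.Helper793.QEig Pool.Agent.Helper793.Sob Pool.Agent.Helper793.Cut
open Pool.Agent.Helper793.Hop Pool.Agent.Helper793.Uni

namespace Pool.Agent.Helper793.IsoU

variable {N : ℕ}

/-- one summand: monotonicity -/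
theorem pow_le_of {q Λ lam n : ℝ} (hq0 : 0 < q) (hq2 : q < 2) (hΛ : 0 < Λ) (hn : 0 ≤ n)
    (h : Λ * n ^ (2 - q) ≤ lam) : n ^ q ≤ (lam / Λ) ^ (q / (2 - q)) := by
  have h2q : 0 < 2 - q := by linarith
  have h1 : n ^ (2 - q) ≤ lam / Λ := by
    rw [le_div_iff₀ hΛ]; linarith
  have h2 : n ^ q = (n ^ (2 - q)) ^ (q / (2 - q)) := by
    rw [← Real.rpow_mul hn]
    congr 1
    field_simp
  rw [h2]
  exact Real.rpow_le_rpow (by positivity) h1 (by positivity)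

theorem pow_eq_of {q Λ lam n : ℝ} (hq0 : 0 < q) (hq2 : q < 2) (hΛ : 0 < Λ) (hn : 0 ≤ n)
    (h : lam = Λ * n ^ (2 - q)) : (lam / Λ) ^ (q / (2 - q)) = n ^ q := by
  have h2q : 0 < 2 - q := by linarith
  have h1 : lam / Λ = n ^ (2 - q) := by
    rw [h]; field_simp
  rw [h1, ← Real.rpow_mul hn]
  congr 1
  field_simp

/-- the arithmetic of the union -/
theorem arith {q Λ₁ Λ₂ δ₁ δ₂ N₁ N₂ L : ℝ} (hq0 : 0 < q) (hq2 : q < 2) (hΛ1 : 0 < Λ₁)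
    (hΛ2 : 0 < Λ₂) (hδ1 : 0 < δ₁) (hδ2 : 0 < δ₂) (hN1 : 0 < N₁) (hN2 : 0 < N₂)
    (hN : N₁ ^ q + N₂ ^ q = 1) (hL1 : L = Λ₁ * N₁ ^ (2 - q)) (hL2 : L = Λ₂ * N₂ ^ (2 - q)) :
    ∃ δ > 0, ∀ lam, L ≤ lam → lam < L + δ → ∀ n₁ n₂ : ℝ, 0 ≤ n₁ → 0 ≤ n₂ →
      n₁ ^ q + n₂ ^ q = 1 →
      (n₁ = 0 ∨ lam = Λ₁ * n₁ ^ (2 - q) ∨ (Λ₁ + δ₁) * n₁ ^ (2 - q) ≤ lam) →
      (n₂ = 0 ∨ lam = Λ₂ * n₂ ^ (2 - q) ∨ (Λ₂ + δ₂) * n₂ ^ (2 - q) ≤ lam) → lam = L := by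
  have h2q : 0 < 2 - q := by linarith
  have hL0 : 0 < L := by rw [hL1]; positivity
  set P := q / (2 - q) with hP
  have hP0 : 0 < P := by positivity
  have e1 := pow_eq_of hq0 hq2 hΛ1 hN1.le hL1
  have e2 := pow_eq_of hq0 hq2 hΛ2 hN2.le hL2
  rw [← hP] at e1 e2
  have c1 : Continuous (fun lam : ℝ => (lam / (Λ₁ + δ₁)) ^ P + (lam / Λ₂) ^ P) :=
    ((continuous_id.div_const _).rpow_const fun _ => Or.inr hP0.le).add
      ((continuous_id.div_const _).rpow_const fun _ => Or.inr hP0.le)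
  have c2 : Continuous (fun lam : ℝ => (lam / Λ₁) ^ P + (lam / (Λ₂ + δ₂)) ^ P) :=
    ((continuous_id.div_const _).rpow_const fun _ => Or.inr hP0.le).add
      ((continuous_id.div_const _).rpow_const fun _ => Or.inr hP0.le)
  have v1 : (L / (Λ₁ + δ₁)) ^ P + (L / Λ₂) ^ P < 1 := by
    have : (L / (Λ₁ + δ₁)) ^ P < (L / Λ₁) ^ P := by
      apply Real.rpow_lt_rpow (by positivity) _ hP0
      apply div_lt_div_of_pos_left hL0 hΛ1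
      linarith
    linarith
  have v2 : (L / Λ₁) ^ P + (L / (Λ₂ + δ₂)) ^ P < 1 := by
    have : (L / (Λ₂ + δ₂)) ^ P < (L / Λ₂) ^ P := by
      apply Real.rpow_lt_rpow (by positivity) _ hP0
      apply div_lt_div_of_pos_left hL0 hΛ2
      linarith
    linarith
  have ev := ((c1.tendsto L).eventually_lt_const v1).and ((c2.tendsto L).eventually_lt_const v2)
  obtain ⟨δ, hδ, hball⟩ := Metric.eventually_nhds_iff.mp ev
  refine ⟨δ, hδ, ?_⟩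
  intro lam hlam hlam2 n₁ n₂ hn1 hn2 hn h1 h2
  have hlam0 : 0 < lam := lt_of_lt_of_le hL0 hlam
  obtain ⟨b1, b2⟩ := hball (y := lam) (by
    rw [Real.dist_eq, abs_of_nonneg (by linarith)]; linarith)
  have w1 : Λ₁ * n₁ ^ (2 - q) ≤ lam := by
    rcases h1 with h | h | h
    · rw [h, Real.zero_rpow h2q.ne', mul_zero]; exact hlam0.le
    · exact h.ge
    · have : 0 ≤ δ₁ * n₁ ^ (2 - q) := by positivity
      linarith
  have w2 : Λ₂ * n₂ ^ (2 - q) ≤ lam := by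
    rcases h2 with h | h | h
    · rw [h, Real.zero_rpow h2q.ne', mul_zero]; exact hlam0.le
    · exact h.ge
    · have : 0 ≤ δ₂ * n₂ ^ (2 - q) := by positivity
      linarith
  have x1 : lam = Λ₁ * n₁ ^ (2 - q) := by
    by_contra hne
    have h3 : (Λ₁ + δ₁) * n₁ ^ (2 - q) ≤ lam := by
      rcases h1 with h | h | h
      · rw [h, Real.zero_rpow h2q.ne', mul_zero]; exact hlam0.le
      · exact absurd h hne
      · exact h
    have y1 := pow_le_of hq0 hq2 (by linarith) hn1 h3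
    have y2 := pow_le_of hq0 hq2 hΛ2 hn2 w2
    linarith
  have x2 : lam = Λ₂ * n₂ ^ (2 - q) := by
    by_contra hne
    have h3 : (Λ₂ + δ₂) * n₂ ^ (2 - q) ≤ lam := by
      rcases h2 with h | h | h
      · rw [h, Real.zero_rpow h2q.ne', mul_zero]; exact hlam0.le
      · exact absurd h hne
      · exact h
    have y1 := pow_le_of hq0 hq2 hΛ1 hn1 w1
    have y2 := pow_le_of hq0 hq2 (by linarith) hn2 h3
    linarith
  -- both equalities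
  have z1 := pow_eq_of hq0 hq2 hΛ1 hn1 x1
  have z2 := pow_eq_of hq0 hq2 hΛ2 hn2 x2
  rw [← hP] at z1 z2
  by_contra hne
  have hlt : L < lam := lt_of_le_of_ne hlam (Ne.symm hne)
  have u1 : (L / Λ₁) ^ P < (lam / Λ₁) ^ P := by
    apply Real.rpow_lt_rpow (by positivity) _ hP0
    exact div_lt_div_of_pos_right hlt hΛ1
  have u2 : (L / Λ₂) ^ P < (lam / Λ₂) ^ P := by
    apply Real.rpow_lt_rpow (by positivity) _ hP0
    exact div_lt_div_of_pos_right hlt hΛ2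
  linarith

variable {q : ℝ≥0} [Fact (1 ≤ (q : ℝ≥0∞))]

/-- the restriction of an eigenfunction to a component -/
theorem restrict {Ω₁ Ω₂ : Set (EuclideanSpace ℝ (Fin N))} {χ : EuclideanSpace ℝ (Fin N) → ℝ}
    (h : Sep Ω₁ Ω₂ χ) {u : Pairs N q} (hu : u ∈ D012 q (Ω₁ ∪ Ω₂)) {lam : ℝ}
    (hw : ∀ ψ : EuclideanSpace ℝ (Fin N) → ℝ, IsTest (Ω₁ ∪ Ω₂) ψ →
        ∫ x, inner ℝ (u.2 x) (gradient ψ x) = lam * ∫ x, |u.1 x| ^ ((q : ℝ) - 2) * u.1 x * ψ x) :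
    ∀ ψ : EuclideanSpace ℝ (Fin N) → ℝ, IsTest Ω₁ ψ →
        ∫ x, inner ℝ ((tr q h.o1.measurableSet u).2 x) (gradient ψ x) =
          lam * ∫ x, |(tr q h.o1.measurableSet u).1 x| ^ ((q : ℝ) - 2) *
            (tr q h.o1.measurableSet u).1 x * ψ x := by
  intro ψ hψ
  have hψ' : IsTest (Ω₁ ∪ Ω₂) ψ := isTest_mono subset_union_left hψ
  obtain ⟨d0, d1, d2⟩ := h.decomp hu
  have h1 := hw ψ hψ'
  have e1 : ∫ x, inner ℝ (u.2 x) (gradient ψ x) =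
      ∫ x, inner ℝ ((tr q h.o1.measurableSet u).2 x) (gradient ψ x) := by
    rw [← inner_pairOf' u hψ', ← inner_pairOf' (tr q h.o1.measurableSet u) hψ]
    have e2 : u.2 = (tr q h.o1.measurableSet u).2 + (tr q h.o2.measurableSet u).2 := by
      rw [← Prod.snd_add, d0]
    have e3 : (pairOf q hψ').2 = (pairOf q hψ).2 := rfl
    rw [e3]
    conv_lhs => rw [e2]
    rw [inner_add_left, real_inner_comm (pairOf q hψ).2 (tr q h.o2.measurableSet u).2,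
      h.inner_zero (pairOf_mem (q := q) hψ) d2, add_zero]
  have e4 : ∫ x, |u.1 x| ^ ((q : ℝ) - 2) * u.1 x * ψ x =
      ∫ x, |(tr q h.o1.measurableSet u).1 x| ^ ((q : ℝ) - 2) *
            (tr q h.o1.measurableSet u).1 x * ψ x := by
    apply integral_congr_ae
    filter_upwards [tr_fst_coe h.o1.measurableSet u] with x hx
    by_cases hx1 : x ∈ Ω₁
    · rw [hx, indicator_of_mem hx1]
    · have : ψ x = 0 := by
        by_contra hne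
        exact hx1 (hψ.2.2 (subset_tsupport ψ hne))
      rw [this, mul_zero, mul_zero]
  rw [← e1, h1, e4]

/-- spectral information on one component -/
theorem component {Ω₁ Ω₂ : Set (EuclideanSpace ℝ (Fin N))} {χ : EuclideanSpace ℝ (Fin N) → ℝ}
    (h : Sep Ω₁ Ω₂ χ) (hq : 1 < q) {δ₁ : ℝ}
    (hiso : ∀ (lam : ℝ) (p : Pairs N q), IsEigenpair q Ω₁ lam p →
      lam < l1 q Ω₁ + δ₁ → lam = l1 q Ω₁)
    {u : Pairs N q} (hu : u ∈ D012 q (Ω₁ ∪ Ω₂)) {lam : ℝ}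
    (hw : ∀ ψ : EuclideanSpace ℝ (Fin N) → ℝ, IsTest (Ω₁ ∪ Ω₂) ψ →
        ∫ x, inner ℝ (u.2 x) (gradient ψ x) = lam * ∫ x, |u.1 x| ^ ((q : ℝ) - 2) * u.1 x * ψ x) :
    ‖(tr q h.o1.measurableSet u).1‖ = 0 ∨
      lam = l1 q Ω₁ * ‖(tr q h.o1.measurableSet u).1‖ ^ (2 - (q:ℝ)) ∨
      (l1 q Ω₁ + δ₁) * ‖(tr q h.o1.measurableSet u).1‖ ^ (2 - (q:ℝ)) ≤ lam := by
  set u₁ := tr q h.o1.measurableSet u with hu₁
  obtain ⟨d0, d1, d2⟩ := h.decomp hu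
  rcases eq_or_ne ‖u₁.1‖ 0 with h0 | h0
  · exact Or.inl h0
  · right
    have hn : 0 < ‖u₁.1‖ := lt_of_le_of_ne (norm_nonneg _) (Ne.symm h0)
    set n := ‖u₁.1‖ with hnd
    have hnn : n ^ ((q:ℝ) - 2) * n ^ (2 - (q:ℝ)) = 1 := by
      rw [← Real.rpow_add hn]
      norm_num
    have hnpos : 0 < n ^ (2 - (q:ℝ)) := by positivity
    have hE : IsEigenpair q Ω₁ (lam * n ^ ((q:ℝ) - 2)) u₁ := by
      refine ⟨d1, ?_, ?_⟩
      · intro h1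
        rw [hnd, h1, norm_zero] at hn
        exact lt_irrefl _ hn
      · intro ψ hψ
        rw [restrict h hu hw ψ hψ, ← hnd, mul_assoc lam, hnn, mul_one]
    have key := hiso _ _ hE
    rcases lt_or_ge (lam * n ^ ((q:ℝ) - 2)) (l1 q Ω₁ + δ₁) with h1 | h1
    · left
      rw [← key h1, mul_assoc, hnn, mul_one]
    · right
      calc (l1 q Ω₁ + δ₁) * n ^ (2 - (q:ℝ)) ≤ (lam * n ^ ((q:ℝ) - 2)) * n ^ (2 - (q:ℝ)) := by gcongr
        _ = lam := by rw [mul_assoc, hnn, mul_one]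

/-- **isolation for a disjoint union** -/
theorem union_isolated {Ω₁ Ω₂ : Set (EuclideanSpace ℝ (Fin N))} {χ : EuclideanSpace ℝ (Fin N) → ℝ}
    (h : Sep Ω₁ Ω₂ χ) (hN : 2 ≤ N) (hb1 : Bornology.IsBounded Ω₁) (hb2 : Bornology.IsBounded Ω₂)
    (hq' : ((N : ℝ) - 2) * q < 2 * N) (hne1 : Ω₁.Nonempty) (hne2 : Ω₂.Nonempty) (hq : 1 < q)
    (hq2 : q < 2)
    (hiso1 : ∃ δ > 0, ∀ (lam : ℝ) (p : Pairs N q), IsEigenpair q Ω₁ lam p →
      lam < l1 q Ω₁ + δ → lam = l1 q Ω₁)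
    (hiso2 : ∃ δ > 0, ∀ (lam : ℝ) (p : Pairs N q), IsEigenpair q Ω₂ lam p →
      lam < l1 q Ω₂ + δ → lam = l1 q Ω₂) :
    ∃ δ > 0, ∀ (lam : ℝ) (p : Pairs N q), IsEigenpair q (Ω₁ ∪ Ω₂) lam p →
      lam < l1 q (Ω₁ ∪ Ω₂) + δ → lam = l1 q (Ω₁ ∪ Ω₂) := by
  have hq0 := q_pos (q := q)
  have hq2' : (q:ℝ) < 2 := by exact_mod_cast hq2
  have h2q : 0 < 2 - (q:ℝ) := by linarith
  have hb : Bornology.IsBounded (Ω₁ ∪ Ω₂) := hb1.union hb2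
  have ho : IsOpen (Ω₁ ∪ Ω₂) := h.o1.union h.o2
  obtain ⟨δ₁, hδ1, hi1⟩ := hiso1
  obtain ⟨δ₂, hδ2, hi2⟩ := hiso2
  have hΛ1 : 0 < l1 q Ω₁ := l1_pos hN h.o1 hne1 hb1 hq'
  have hΛ2 : 0 < l1 q Ω₂ := l1_pos hN h.o2 hne2 hb2 hq'
  have hlt1 : l1 q (Ω₁ ∪ Ω₂) < l1 q Ω₁ := Main0.l1_lt h hN hb1 hb2 hq' hne1 hne2 hq2
  have hlt2 : l1 q (Ω₁ ∪ Ω₂) < l1 q Ω₂ := by
    have := Main0.l1_lt h.symm hN hb2 hb1 hq' hne2 hne1 hq2
    rwa [union_comm] at this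
  -- general information
  have info : ∀ u ∈ D012 q (Ω₁ ∪ Ω₂), ‖u.1‖ = 1 → ∀ lam : ℝ,
      (∀ ψ : EuclideanSpace ℝ (Fin N) → ℝ, IsTest (Ω₁ ∪ Ω₂) ψ →
        ∫ x, inner ℝ (u.2 x) (gradient ψ x) = lam * ∫ x, |u.1 x| ^ ((q : ℝ) - 2) * u.1 x * ψ x) →
      ∃ n₁ n₂ : ℝ, 0 ≤ n₁ ∧ 0 ≤ n₂ ∧ n₁ ^ (q:ℝ) + n₂ ^ (q:ℝ) = 1 ∧
        (n₁ = 0 ∨ lam = l1 q Ω₁ * n₁ ^ (2 - (q:ℝ)) ∨ (l1 q Ω₁ + δ₁) * n₁ ^ (2 - (q:ℝ)) ≤ lam) ∧
        (n₂ = 0 ∨ lam = l1 q Ω₂ * n₂ ^ (2 - (q:ℝ)) ∨ (l1 q Ω₂ + δ₂) * n₂ ^ (2 - (q:ℝ)) ≤ lam) := by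
    intro u hu hu1 lam hw
    have n1 := (h.norm_decomp hu).1
    rw [hu1, Real.one_rpow] at n1
    refine ⟨_, _, norm_nonneg _, norm_nonneg _, n1.symm, component h hq hi1 hu hw, ?_⟩
    have hu' : u ∈ D012 q (Ω₂ ∪ Ω₁) := by rwa [union_comm]
    have hw' : ∀ ψ : EuclideanSpace ℝ (Fin N) → ℝ, IsTest (Ω₂ ∪ Ω₁) ψ →
        ∫ x, inner ℝ (u.2 x) (gradient ψ x) = lam * ∫ x, |u.1 x| ^ ((q : ℝ) - 2) * u.1 x * ψ x := by
      intro ψ hψ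
      exact hw ψ (by rwa [union_comm])
    exact component h.symm hq hi2 hu' hw'
  -- the minimiser
  obtain ⟨P, hP, hP1, hP2⟩ := exists_minimizer (q := q) hN ho (hne1.mono subset_union_left) hb hq'
  set L := l1 q (Ω₁ ∪ Ω₂) with hL
  have hL0 : 0 < L := l1_pos hN ho (hne1.mono subset_union_left) hb hq'
  have hwP : ∀ ψ : EuclideanSpace ℝ (Fin N) → ℝ, IsTest (Ω₁ ∪ Ω₂) ψ →
        ∫ x, inner ℝ (P.2 x) (gradient ψ x) = L * ∫ x, |P.1 x| ^ ((q : ℝ) - 2) * P.1 x * ψ x := by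
    intro ψ hψ
    have el := euler_lagrange hq hP1 hψ (Eventually.of_forall fun t => by
      rw [hP2]
      have := l1_ineq (D012_add hP (D012_smul t (pairOf_mem (q := q) hψ)))
      exact this)
    rw [el, hP2]
  obtain ⟨N₁, N₂, hN1, hN2, hNs, hc1, hc2⟩ := info P hP hP1 L hwP
  have hN1' : N₁ ≠ 0 := by
    intro h0
    rw [h0, Real.zero_rpow hq0.ne', zero_add] at hNs
    have hN2e : N₂ = 1 := by
      have : N₂ = (N₂ ^ (q:ℝ)) ^ ((q:ℝ)⁻¹) := by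
        rw [← Real.rpow_mul hN2, mul_inv_cancel₀ hq0.ne', Real.rpow_one]
      rw [this, hNs, Real.one_rpow]
    rw [hN2e, Real.one_rpow, mul_one, mul_one] at hc2
    rcases hc2 with h1 | h1 | h1
    · norm_num at h1
    · linarith
    · linarith
  have hN2' : N₂ ≠ 0 := by
    intro h0
    rw [h0, Real.zero_rpow hq0.ne', add_zero] at hNs
    have hN1e : N₁ = 1 := by
      have : N₁ = (N₁ ^ (q:ℝ)) ^ ((q:ℝ)⁻¹) := by
        rw [← Real.rpow_mul hN1, mul_inv_cancel₀ hq0.ne', Real.rpow_one]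
      rw [this, hNs, Real.one_rpow]
    rw [hN1e, Real.one_rpow, mul_one, mul_one] at hc1
    rcases hc1 with h1 | h1 | h1
    · norm_num at h1
    · linarith
    · linarith
  have hN1p : 0 < N₁ := lt_of_le_of_ne hN1 (Ne.symm hN1')
  have hN2p : 0 < N₂ := lt_of_le_of_ne hN2 (Ne.symm hN2')
  have hpw : ∀ n : ℝ, 0 < n → n ^ (2 - (q:ℝ)) * n ^ (q:ℝ) = n ^ 2 := by
    intro n hn
    rw [← Real.rpow_add hn, ← Real.rpow_natCast]
    norm_num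
  -- comparison with the combination of minimisers
  obtain ⟨p₁, hp1, hn1, he1⟩ := exists_minimizer (q := q) hN h.o1 hne1 hb1 hq'
  obtain ⟨p₂, hp2, hn2, he2⟩ := exists_minimizer (q := q) hN h.o2 hne2 hb2 hq'
  have hcomp : L ≤ l1 q Ω₁ * N₁ ^ 2 + l1 q Ω₂ * N₂ ^ 2 := by
    have hmem : N₁ • p₁ + N₂ • p₂ ∈ D012 q (Ω₁ ∪ Ω₂) :=
      D012_add (D012_mono subset_union_left (D012_smul N₁ hp1))
        (D012_mono subset_union_right (D012_smul N₂ hp2))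
    obtain ⟨m1, m2⟩ := h.norm_add (D012_smul N₁ hp1) (D012_smul N₂ hp2)
    rw [Prod.smul_fst, Prod.smul_fst, norm_smul, norm_smul, hn1, hn2, mul_one, mul_one,
      Real.norm_eq_abs, Real.norm_eq_abs, abs_of_pos hN1p, abs_of_pos hN2p, hNs] at m1
    rw [Prod.smul_snd, Prod.smul_snd, norm_smul, norm_smul, mul_pow, mul_pow, Real.norm_eq_abs,
      Real.norm_eq_abs, sq_abs, sq_abs, he1, he2] at m2
    have h4 : ‖(N₁ • p₁ + N₂ • p₂).1‖ = 1 := by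
      have : ‖(N₁ • p₁ + N₂ • p₂).1‖ = (‖(N₁ • p₁ + N₂ • p₂).1‖ ^ (q:ℝ)) ^ ((q:ℝ)⁻¹) := by
        rw [← Real.rpow_mul (norm_nonneg _), mul_inv_cancel₀ hq0.ne', Real.rpow_one]
      rw [this, m1, Real.one_rpow]
    have h5 := l1_le hmem h4
    rw [m2] at h5
    linarith
  have g1 : L = l1 q Ω₁ * N₁ ^ (2 - (q:ℝ)) ∨ (l1 q Ω₁ + δ₁) * N₁ ^ (2 - (q:ℝ)) ≤ L :=
    hc1.resolve_left hN1'
  have g2 : L = l1 q Ω₂ * N₂ ^ (2 - (q:ℝ)) ∨ (l1 q Ω₂ + δ₂) * N₂ ^ (2 - (q:ℝ)) ≤ L :=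
    hc2.resolve_left hN2'
  have q1 := hpw N₁ hN1p
  have q2 := hpw N₂ hN2p
  have r1 : l1 q Ω₁ * N₁ ^ 2 ≤ L * N₁ ^ (q:ℝ) := by
    rw [← q1, ← mul_assoc]
    apply mul_le_mul_of_nonneg_right _ (by positivity)
    rcases g1 with hh | hh
    · exact hh.ge
    · have : 0 ≤ δ₁ * N₁ ^ (2 - (q:ℝ)) := by positivity
      linarith
  have r2 : l1 q Ω₂ * N₂ ^ 2 ≤ L * N₂ ^ (q:ℝ) := by
    rw [← q2, ← mul_assoc]
    apply mul_le_mul_of_nonneg_right _ (by positivity)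
    rcases g2 with hh | hh
    · exact hh.ge
    · have : 0 ≤ δ₂ * N₂ ^ (2 - (q:ℝ)) := by positivity
      linarith
  have hsum : L = L * N₁ ^ (q:ℝ) + L * N₂ ^ (q:ℝ) := by rw [← mul_add, hNs, mul_one]
  have s1 : L = l1 q Ω₁ * N₁ ^ (2 - (q:ℝ)) := by
    have e : L * N₁ ^ (q:ℝ) = l1 q Ω₁ * N₁ ^ (2 - (q:ℝ)) * N₁ ^ (q:ℝ) := by
      rw [mul_assoc, q1]; linarith
    exact mul_right_cancel₀ (by positivity) e
  have s2 : L = l1 q Ω₂ * N₂ ^ (2 - (q:ℝ)) := by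
    have e : L * N₂ ^ (q:ℝ) = l1 q Ω₂ * N₂ ^ (2 - (q:ℝ)) * N₂ ^ (q:ℝ) := by
      rw [mul_assoc, q2]; linarith
    exact mul_right_cancel₀ (by positivity) e
  obtain ⟨δ, hδ, hfin⟩ := arith hq0 hq2' hΛ1 hΛ2 hδ1 hδ2 hN1p hN2p hNs s1 s2
  refine ⟨δ, hδ, ?_⟩
  intro lam p hp hlt
  obtain ⟨u, hu, hu1, hw⟩ := Iso.normalise hp
  obtain ⟨n₁, n₂, a1, a2, a3, a4, a5⟩ := info u hu hu1 lam hw
  have hen := Iso.energy_eq hq hu hw
  rw [hu1, Real.one_rpow, mul_one] at hen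
  have hge : L ≤ lam := by rw [← hen]; exact l1_le hu hu1
  exact hfin lam hge hlt n₁ n₂ a1 a2 a3 a4 a5

end Pool.Agent.Helper793.IsoU
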