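import Pool.Agent.Helper793.HC

set_option autoImplicit false
set_option linter.unusedSectionVars false

open MeasureTheory Metric Set Filter Topology
open scoped ENNReal NNReal
open Pool.Agent.Helper793.QEig Pool.Agent.Helper793.Sob Pool.Agent.Helper793.Cut

namespace Pool.Agent.Helper793.Jac

variable {N : ℕ}

theorem real_of_lint {f : EuclideanSpace ℝ (Fin N) → ℝ} (hm : AEStronglyMeasurable f volume)
    (h0 : ∀ᵐ x ∂volume, 0 ≤ f x) {M : ℝ} (hM : 0 ≤ M)
    (h : ∫⁻ x, ENNReal.ofReal (f x) ≤ ENNReal.ofReal M) :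
    Integrable f volume ∧ ∫ x, f x ≤ M := by
  have hi : Integrable f volume := by
    refine ⟨hm, ?_⟩
    rw [hasFiniteIntegral_iff_norm]
    have e : ∫⁻ x, ENNReal.ofReal ‖f x‖ = ∫⁻ x, ENNReal.ofReal (f x) := by
      apply lintegral_congr_ae
      filter_upwards [h0] with x hx
      rw [Real.norm_eq_abs, abs_of_nonneg hx]
    rw [e]
    exact h.trans_lt ENNReal.ofReal_lt_top
  refine ⟨hi, ?_⟩
  rw [integral_eq_lintegral_of_nonneg_ae h0 hm]
  exact ENNReal.toReal_le_of_le_ofReal hM h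

variable {q : ℝ≥0} [Fact (1 ≤ (q : ℝ≥0∞))]

/-- the Jacobi inequality for a positive minimiser -/
theorem jacobi {Ω : Set (EuclideanSpace ℝ (Fin N))} (hΩ : MeasurableSet Ω) (hq2 : q < 2)
    (hL : 0 < l1 q Ω) {p : Pairs N q} (hp : p ∈ D012 q Ω) (hp1 : ‖p.1‖ = 1)
    (hp2 : ‖p.2‖ ^ 2 = l1 q Ω) (hpos : ∀ᵐ x ∂volume, x ∈ Ω → 0 < p.1 x)
    {p' : Pairs N q} (hp' : p' ∈ D012 q Ω) :
    Integrable (fun x => (p.1 x) ^ ((q:ℝ) - 2) * (p'.1 x) ^ 2) volume ∧
    l1 q Ω * ∫ x, (p.1 x) ^ ((q:ℝ) - 2) * (p'.1 x) ^ 2 ≤ ‖p'.2‖ ^ 2 := by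
  have hq0 := q_pos (q := q)
  have hq2' : (q:ℝ) < 2 := by exact_mod_cast hq2
  set Λ := l1 q Ω with hΛ
  set D := ‖p'.2‖ ^ 2 with hD
  have hD0 : 0 ≤ D := by positivity
  set et : ℕ → ℝ := fun n => 1 / ((n:ℝ) + 1) with het
  have hetp : ∀ n, 0 < et n := fun n => by positivity
  have hett : Tendsto et atTop (𝓝 0) := tendsto_one_div_add_atTop_nhds_zero_nat
  set F : EuclideanSpace ℝ (Fin N) → ℝ → ℝ := fun x t =>
    ((p.1 x) ^ 2 + t * (p'.1 x) ^ 2) ^ ((q:ℝ) / 2) with hF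
  -- integrals
  have hFi : ∀ n, Integrable (fun x => F x (et n)) volume ∧
      ∫ x, F x (et n) ≤ 1 + (q:ℝ) / 2 * (et n * D / Λ) := by
    intro n
    set s := √(et n) with hs
    have hs2 : s ^ 2 = et n := Real.sq_sqrt (hetp n).le
    have e1 : (fun x => ((p.1 x) ^ 2 + ((s • p'.1 : Lp ℝ (q : ℝ≥0∞) (volume : Measure (EuclideanSpace ℝ (Fin N)))) x) ^ 2) ^ ((q:ℝ) / 2)) =ᵐ[volume]
        fun x => F x (et n) := by
      filter_upwards [Lp.coeFn_smul s p'.1] with x hx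
      rw [hx, Pi.smul_apply, smul_eq_mul, mul_pow, hs2]
    have h1 := HC.hc hp (D012_smul s hp')
    rw [Prod.smul_fst, Prod.smul_snd, norm_smul, mul_pow, Real.norm_eq_abs, sq_abs, hs2, hp2] at h1
    have h2 : ‖HC.cpl p.1 (s • p'.1)‖ ^ 2 ≤ 1 + et n * D / Λ := by
      rw [← hΛ] at h1
      rw [← sub_nonneg]
      have h3 : 0 ≤ Λ * (1 + et n * D / Λ - ‖HC.cpl p.1 (s • p'.1)‖ ^ 2) := by
        have : Λ * (1 + et n * D / Λ - ‖HC.cpl p.1 (s • p'.1)‖ ^ 2) =
            Λ + et n * D - Λ * ‖HC.cpl p.1 (s • p'.1)‖ ^ 2 := by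
          field_simp
        rw [this]
        linarith
      exact nonneg_of_mul_nonneg_right h3 hL
    refine ⟨(HC.cpl_int p.1 (s • p'.1)).congr e1, ?_⟩
    rw [← integral_congr_ae e1, ← HC.cpl_norm]
    have h4 : ‖HC.cpl p.1 (s • p'.1)‖ ^ (q:ℝ) = (‖HC.cpl p.1 (s • p'.1)‖ ^ 2) ^ ((q:ℝ) / 2) := by
      rw [← Real.rpow_natCast, ← Real.rpow_mul (norm_nonneg _)]
      congr 1
      push_cast
      ring
    rw [h4]
    have h5 : 0 ≤ et n * D / Λ := by
      have := hetp n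
      positivity
    calc (‖HC.cpl p.1 (s • p'.1)‖ ^ 2) ^ ((q:ℝ) / 2) ≤ (1 + et n * D / Λ) ^ ((q:ℝ) / 2) :=
          Real.rpow_le_rpow (by positivity) h2 (by positivity)
      _ ≤ 1 + (q:ℝ) / 2 * (et n * D / Λ) :=
          rpow_one_add_le_one_add_mul_self (by linarith) (by positivity) (by linarith)
  have hF0 : Integrable (fun x => |p.1 x| ^ (q:ℝ)) volume ∧ ∫ x, |p.1 x| ^ (q:ℝ) = 1 := by
    refine ⟨integrable_abs_rpow _, ?_⟩
    rw [← norm_Lp_rpow, hp1, Real.one_rpow]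
  have hF0' : ∀ x, F x 0 = |p.1 x| ^ (q:ℝ) := by
    intro x
    simp only [hF]
    rw [zero_mul, add_zero, ← sq_abs, ← Real.rpow_natCast, ← Real.rpow_mul (abs_nonneg _)]
    congr 1
    push_cast
    ring
  -- difference quotients
  set f : ℕ → EuclideanSpace ℝ (Fin N) → ℝ := fun n x => (F x (et n) - F x 0) / et n with hf
  have hf0 : ∀ n x, 0 ≤ f n x := by
    intro n x
    apply div_nonneg _ (hetp n).le
    rw [sub_nonneg]
    apply Real.rpow_le_rpow (by positivity) _ (by positivity)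
    have := (hetp n).le
    have : 0 ≤ et n * (p'.1 x) ^ 2 := by positivity
    linarith
  have hfi : ∀ n, Integrable (f n) volume ∧ ∫ x, f n x ≤ (q:ℝ) / 2 * (D / Λ) := by
    intro n
    have e0 : (fun x => F x 0) = fun x => |p.1 x| ^ (q:ℝ) := by ext x; exact hF0' x
    have i0 : Integrable (fun x => F x 0) volume := by rw [e0]; exact hF0.1
    have i1 : Integrable (fun x => F x (et n) - F x 0) volume := (hFi n).1.sub i0
    refine ⟨i1.div_const _, ?_⟩
    simp only [hf]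
    rw [integral_div, integral_sub (hFi n).1 i0, e0, hF0.2, div_le_iff₀ (hetp n)]
    have := (hFi n).2
    have e3 : (q:ℝ) / 2 * (D / Λ) * et n = (q:ℝ) / 2 * (et n * D / Λ) := by ring
    rw [e3]
    linarith
  -- pointwise limit
  have hz' := Gap.zero_off (q := q) hΩ hp'
  have hlim : ∀ᵐ x ∂volume, Tendsto (fun n => f n x) atTop
      (𝓝 ((q:ℝ) / 2 * ((p.1 x) ^ ((q:ℝ) - 2) * (p'.1 x) ^ 2))) := by
    filter_upwards [hpos, hz'] with x h1 h2
    by_cases hx : x ∈ Ω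
    · have hW := h1 hx
      have d1 : HasDerivAt (fun t : ℝ => (p.1 x) ^ 2 + t * (p'.1 x) ^ 2) (1 * (p'.1 x) ^ 2) 0 :=
        ((hasDerivAt_id (0:ℝ)).mul_const _).const_add _
      have d2 := d1.rpow_const (p := (q:ℝ) / 2) (Or.inl (by
        rw [zero_mul, add_zero]; positivity))
      have d3 := d2.tendsto_slope
      have d4 : Tendsto et atTop (𝓝[≠] (0:ℝ)) := by
        rw [tendsto_nhdsWithin_iff]
        exact ⟨hett, Eventually.of_forall fun n => (hetp n).ne'⟩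
      have d5 := d3.comp d4
      have e1 : (1 * (p'.1 x) ^ 2 * ((q:ℝ) / 2) * ((p.1 x) ^ 2 + 0 * (p'.1 x) ^ 2) ^ ((q:ℝ) / 2 - 1)) =
          (q:ℝ) / 2 * ((p.1 x) ^ ((q:ℝ) - 2) * (p'.1 x) ^ 2) := by
        have e2 : ((p.1 x) ^ 2) ^ ((q:ℝ) / 2 - 1) = (p.1 x) ^ ((q:ℝ) - 2) := by
          rw [← Real.rpow_natCast, ← Real.rpow_mul hW.le]
          congr 1
          push_cast
          ring
        rw [zero_mul, add_zero, e2]
        ring
      rw [e1] at d5
      refine d5.congr fun n => ?_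
      simp only [Function.comp_apply, slope_def_field, hf, hF, sub_zero]
    · rw [h2 hx]
      have e1 : (fun n => f n x) = fun _ => 0 := by
        ext n
        simp only [hf, hF]
        rw [h2 hx]
        simp
      rw [e1]
      simp
  -- Fatou
  have hM0 : 0 ≤ (q:ℝ) / 2 * (D / Λ) := by positivity
  have hfat : ∫⁻ x, ENNReal.ofReal ((q:ℝ) / 2 * ((p.1 x) ^ ((q:ℝ) - 2) * (p'.1 x) ^ 2)) ≤
      ENNReal.ofReal ((q:ℝ) / 2 * (D / Λ)) := by
    calc ∫⁻ x, ENNReal.ofReal ((q:ℝ) / 2 * ((p.1 x) ^ ((q:ℝ) - 2) * (p'.1 x) ^ 2))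
        = ∫⁻ x, liminf (fun n => ENNReal.ofReal (f n x)) atTop := by
          apply lintegral_congr_ae
          filter_upwards [hlim] with x hx
          exact ((ENNReal.tendsto_ofReal hx).liminf_eq).symm
      _ ≤ liminf (fun n => ∫⁻ x, ENNReal.ofReal (f n x)) atTop := by
          apply lintegral_liminf_le'
          intro n
          exact (hfi n).1.1.aemeasurable.ennreal_ofReal
      _ ≤ liminf (fun _ : ℕ => ENNReal.ofReal ((q:ℝ) / 2 * (D / Λ))) atTop := by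
          apply liminf_le_liminf
          · refine Eventually.of_forall fun n => ?_
            rw [← ofReal_integral_eq_lintegral_ofReal (hfi n).1 (Eventually.of_forall (hf0 n))]
            exact ENNReal.ofReal_le_ofReal (hfi n).2
          · exact ⟨0, Eventually.of_forall fun _ => bot_le⟩
          · exact ⟨ENNReal.ofReal ((q:ℝ) / 2 * (D / Λ)), fun a ha => by
              rw [eventually_map] at ha
              obtain ⟨n, hn⟩ := ha.exists
              exact hn⟩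
      _ = ENNReal.ofReal ((q:ℝ) / 2 * (D / Λ)) := liminf_const _
  have hWm : AEStronglyMeasurable (fun x => (q:ℝ) / 2 * ((p.1 x) ^ ((q:ℝ) - 2) * (p'.1 x) ^ 2)) volume := by
    have m1 : Measurable (p.1 : EuclideanSpace ℝ (Fin N) → ℝ) := (Lp.stronglyMeasurable p.1).measurable
    have m2 : Measurable (p'.1 : EuclideanSpace ℝ (Fin N) → ℝ) := (Lp.stronglyMeasurable p'.1).measurable
    exact (((m1.pow_const _).mul (m2.pow_const 2)).const_mul _).aestronglyMeasurable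
  have hz := Gap.zero_off (q := q) hΩ hp
  have hnn : ∀ᵐ x ∂volume, 0 ≤ (q:ℝ) / 2 * ((p.1 x) ^ ((q:ℝ) - 2) * (p'.1 x) ^ 2) := by
    filter_upwards [hpos, hz] with x h1 h2
    have : 0 ≤ p.1 x := by
      by_cases hx : x ∈ Ω
      · exact (h1 hx).le
      · rw [h2 hx]
    positivity
  obtain ⟨i1, i2⟩ := real_of_lint hWm hnn hM0 hfat
  have hq2ne : (q:ℝ) / 2 ≠ 0 := by positivity
  constructor
  · have := i1.const_mul (((q:ℝ) / 2)⁻¹)
    refine this.congr (Eventually.of_forall fun x => ?_)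
    simp only
    rw [← mul_assoc, inv_mul_cancel₀ hq2ne, one_mul]
  · rw [integral_const_mul] at i2
    have h6 := le_of_mul_le_mul_left i2 (by positivity)
    rw [le_div_iff₀ hL] at h6
    linarith

end Pool.Agent.Helper793.Jac
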