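import Pool.Agent.Helper793.Cmp
import Pool.Agent.Helper793.FConv
set_option autoImplicit false
set_option linter.unusedSectionVars false
open MeasureTheory Metric Set Filter Topology
open scoped ENNReal NNReal

namespace Pool.Agent.Helper793.Sgn

open Pool.Agent.Helper793.QEig Pool.Agent.Helper793.Sob Pool.Agent.Helper793.Cut
open Pool.Agent.Helper793.Hop Pool.Agent.Helper793.Cmp
open Pool.Agent.Helper793.FEig (appr_of_mem)

variable {N : ℕ} {q : ℝ≥0} [Fact (1 ≤ (q : ℝ≥0∞))]

/-- two point Poincare inequality on convex sets -/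
theorem two_point {K : Set (EuclideanSpace ℝ (Fin N))} (hK : Convex ℝ K) (hKm : MeasurableSet K)
    {a : EuclideanSpace ℝ (Fin N)} {ρ : ℝ} (hKb : K ⊆ closedBall a ρ)
    {g : EuclideanSpace ℝ (Fin N) → ℝ} (hg : ContDiff ℝ 1 g) :
    ∫⁻ x in K, ∫⁻ y in K, ‖g y - g x‖ₑ ^ 2 ≤
      (∫⁻ w in closedBall (0 : EuclideanSpace ℝ (Fin N)) (2 * ρ), ‖w‖ₑ ^ 2) *
        ∫⁻ x in K, ‖fderiv ℝ g x‖ₑ ^ 2 := by
  have hgc := hg.continuous
  have hdc : Continuous (fderiv ℝ g) := hg.continuous_fderiv (by simp)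
  set f : EuclideanSpace ℝ (Fin N) → EuclideanSpace ℝ (Fin N) → ℝ≥0∞ := fun x w =>
    K.indicator (fun _ => 1) x * (K.indicator (fun _ => 1) (x + w) * ‖g (x + w) - g x‖ₑ ^ 2) with hf
  have hm1 : Measurable (K.indicator (fun _ => (1:ℝ≥0∞))) := measurable_const.indicator hKm
  have hfm : Measurable (Function.uncurry f) := by
    simp only [hf, Function.uncurry_def]
    have h1 : Measurable fun p : EuclideanSpace ℝ (Fin N) × EuclideanSpace ℝ (Fin N) =>
      K.indicator (fun _ => (1:ℝ≥0∞)) p.1 := hm1.comp measurable_fst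
    have h2 : Measurable fun p : EuclideanSpace ℝ (Fin N) × EuclideanSpace ℝ (Fin N) =>
      K.indicator (fun _ => (1:ℝ≥0∞)) (p.1 + p.2) := hm1.comp (by fun_prop)
    have h3 : Measurable fun p : EuclideanSpace ℝ (Fin N) × EuclideanSpace ℝ (Fin N) =>
      ‖g (p.1 + p.2) - g p.1‖ₑ ^ 2 := by
      have : Continuous fun p : EuclideanSpace ℝ (Fin N) × EuclideanSpace ℝ (Fin N) =>
        g (p.1 + p.2) - g p.1 := by fun_prop
      exact (this.measurable.enorm).pow_const 2
    exact h1.mul (h2.mul h3)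
  have e1 : ∫⁻ x in K, ∫⁻ y in K, ‖g y - g x‖ₑ ^ 2 = ∫⁻ x, ∫⁻ w, f x w := by
    rw [← lintegral_indicator hKm]
    apply lintegral_congr
    intro x
    by_cases hx : x ∈ K
    · rw [indicator_of_mem hx, ← lintegral_indicator hKm, ← lintegral_add_left_eq_self _ x]
      apply lintegral_congr
      intro w
      simp only [hf]
      rw [indicator_of_mem hx, one_mul]
      by_cases hw : x + w ∈ K
      · rw [indicator_of_mem hw, indicator_of_mem hw, one_mul]
      · rw [indicator_of_notMem hw, indicator_of_notMem hw, zero_mul]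
    · rw [indicator_of_notMem hx]
      have : (fun w => f x w) = fun _ => 0 := by
        ext w
        simp only [hf]
        rw [indicator_of_notMem hx, zero_mul]
      rw [this, lintegral_zero]
  rw [e1, lintegral_lintegral_swap hfm.aemeasurable]
  have hcb : MeasurableSet (closedBall (0 : EuclideanSpace ℝ (Fin N)) (2 * ρ)) := measurableSet_closedBall
  set J := ∫⁻ x in K, ‖fderiv ℝ g x‖ₑ ^ 2 with hJ
  set F : EuclideanSpace ℝ (Fin N) → ℝ≥0∞ := K.indicator (fun y => ‖fderiv ℝ g y‖ₑ ^ 2) with hF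
  have hFm : Measurable F := by
    have : Measurable fun y => ‖fderiv ℝ g y‖ₑ ^ 2 := (hdc.measurable.enorm).pow_const 2
    exact this.indicator hKm
  have hFJ : ∫⁻ x, F x = J := by rw [hF, lintegral_indicator hKm]
  have key : ∀ w, ∫⁻ x, f x w ≤
      (closedBall (0 : EuclideanSpace ℝ (Fin N)) (2 * ρ)).indicator (fun w => ‖w‖ₑ ^ 2) w * J := by
    intro w
    by_cases hw : w ∈ closedBall (0 : EuclideanSpace ℝ (Fin N)) (2 * ρ)
    · rw [indicator_of_mem hw]
      have h1 : ∀ x, f x w ≤ ‖w‖ₑ ^ 2 * ∫⁻ t in Ioc (0:ℝ) 1, F (x + t • w) := by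
        intro x
        by_cases hx : x ∈ K
        · by_cases hxw : x + w ∈ K
          · simp only [hf]
            rw [indicator_of_mem hx, indicator_of_mem hxw, one_mul, one_mul]
            refine (enorm_sub_translate_sq_le hg w x).trans (le_of_eq ?_)
            congr 1
            apply setLIntegral_congr_fun measurableSet_Ioc
            intro t ht
            have h2 : x + t • w ∈ K := hK.add_smul_mem hx hxw ⟨ht.1.le, ht.2⟩
            simp only [hF]
            rw [indicator_of_mem h2]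
          · simp only [hf]
            rw [indicator_of_notMem hxw, zero_mul, mul_zero]
            exact zero_le
        · simp only [hf]
          rw [indicator_of_notMem hx, zero_mul]
          exact zero_le
      calc ∫⁻ x, f x w ≤ ∫⁻ x, ‖w‖ₑ ^ 2 * ∫⁻ t in Ioc (0:ℝ) 1, F (x + t • w) := lintegral_mono h1
        _ = ‖w‖ₑ ^ 2 * ∫⁻ x, ∫⁻ t in Ioc (0:ℝ) 1, F (x + t • w) := by
            rw [lintegral_const_mul]
            exact Measurable.lintegral_prod_right' (f := fun p : EuclideanSpace ℝ (Fin N) × ℝ =>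
              F (p.1 + p.2 • w)) (hFm.comp (by fun_prop))
        _ = ‖w‖ₑ ^ 2 * ∫⁻ t in Ioc (0:ℝ) 1, ∫⁻ x, F (x + t • w) := by
            rw [lintegral_lintegral_swap]
            exact (hFm.comp (by fun_prop : Measurable fun p : EuclideanSpace ℝ (Fin N) × ℝ =>
              p.1 + p.2 • w)).aemeasurable
        _ = ‖w‖ₑ ^ 2 * ∫⁻ t in Ioc (0:ℝ) 1, J := by
            congr 2
            ext t
            rw [lintegral_add_right_eq_self, hFJ]
        _ = ‖w‖ₑ ^ 2 * J := by simp
    · rw [indicator_of_notMem hw, zero_mul]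
      have : (fun x => f x w) = fun _ => 0 := by
        ext x
        simp only [hf]
        by_cases hx : x ∈ K
        · by_cases hxw : x + w ∈ K
          · exfalso
            apply hw
            have h1 := hKb hx
            have h2 := hKb hxw
            rw [mem_closedBall, dist_eq_norm] at h1 h2
            rw [mem_closedBall, dist_zero_right]
            have h3 : w = (x + w - a) - (x - a) := by abel
            rw [h3]
            refine (norm_sub_le _ _).trans ?_
            linarith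
          · rw [indicator_of_notMem hxw, zero_mul, mul_zero]
        · rw [indicator_of_notMem hx, zero_mul]
      rw [this, lintegral_zero]
  refine (lintegral_mono key).trans ?_
  rw [lintegral_mul_const _ ((by fun_prop : Measurable fun w : EuclideanSpace ℝ (Fin N) => ‖w‖ₑ ^ 2).indicator hcb),
    lintegral_indicator hcb]

/-- the smooth sign function -/
noncomputable def sg (c s : ℝ) : ℝ := 2 * Real.smoothTransition ((s + c / 2) / c) - 1

theorem sg_contDiff (c : ℝ) : ContDiff ℝ ((⊤ : ℕ∞) : WithTop ℕ∞) (sg c) := by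
  unfold sg
  have h1 : ContDiff ℝ ((⊤ : ℕ∞) : WithTop ℕ∞) Real.smoothTransition := Real.smoothTransition.contDiff
  exact (contDiff_const.mul (h1.comp ((contDiff_id.add contDiff_const).div_const _))).sub contDiff_const

theorem sg_one {c s : ℝ} (hc : 0 < c) (hs : c / 2 ≤ s) : sg c s = 1 := by
  rw [sg, Real.smoothTransition.one_of_one_le]
  · ring
  · rw [le_div_iff₀ hc]; linarith

theorem sg_neg_one {c s : ℝ} (hc : 0 < c) (hs : s ≤ - (c / 2)) : sg c s = -1 := by
  rw [sg, Real.smoothTransition.zero_of_nonpos]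
  · ring
  · exact div_nonpos_of_nonpos_of_nonneg (by linarith) hc.le

theorem sg_bound {c : ℝ} (hc : 0 < c) : ∃ M : ℝ, 0 ≤ M ∧ ∀ s, |deriv (sg c) s| ≤ M ∧
    (c / 2 < |s| → deriv (sg c) s = 0) := by
  have hcd : Continuous (deriv (sg c)) := (sg_contDiff c).continuous_deriv (by simp)
  obtain ⟨M, hM⟩ := isCompact_Icc.exists_bound_of_continuousOn (s := Icc (-(c/2)) (c/2)) hcd.continuousOn
  have hz : ∀ s, c / 2 < |s| → deriv (sg c) s = 0 := by
    intro s hs
    rcases lt_abs.mp hs with h | h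
    · have : sg c =ᶠ[𝓝 s] fun _ => 1 := by
        filter_upwards [Ioi_mem_nhds h] with y hy
        exact sg_one hc (le_of_lt hy)
      rw [this.deriv_eq]
      simp
    · have : sg c =ᶠ[𝓝 s] fun _ => -1 := by
        filter_upwards [Iio_mem_nhds (show s < -(c/2) by linarith)] with y hy
        exact sg_neg_one hc (le_of_lt hy)
      rw [this.deriv_eq]
      simp
  refine ⟨max M 0, le_max_right _ _, fun s => ⟨?_, hz s⟩⟩
  by_cases hs : c / 2 < |s|
  · rw [hz s hs, abs_zero]
    exact le_max_right _ _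
  · rw [not_lt, abs_le] at hs
    exact (hM s ⟨hs.1, hs.2⟩).trans (le_max_left _ _)

/-- a function of the space bounded away from zero on a convex set has constant sign there -/
theorem sign_const {Ω K : Set (EuclideanSpace ℝ (Fin N))} (hK : Convex ℝ K) (hKm : MeasurableSet K)
    {a : EuclideanSpace ℝ (Fin N)} {ρ : ℝ} (hKb : K ⊆ closedBall a ρ) {c : ℝ} (hc : 0 < c)
    {p : Pairs N q} (hp : p ∈ D012 q Ω) :
    volume {x | x ∈ K ∧ c ≤ p.1 x} = 0 ∨ volume {x | x ∈ K ∧ p.1 x ≤ - c} = 0 ∨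
      ¬ (∀ᵐ x ∂volume, x ∈ K → c ≤ |p.1 x|) := by
  by_cases hlow : ∀ᵐ x ∂volume, x ∈ K → c ≤ |p.1 x|
  swap
  · exact Or.inr (Or.inr hlow)
  obtain ⟨φ, hφ, h1, h2⟩ := appr_of_mem hp
  obtain ⟨M, hM, hMb⟩ := sg_bound hc
  have hKfin : volume K < ⊤ := (isCompact_closedBall a ρ).measure_lt_top.trans_le' (measure_mono hKb)
  set A : Set (EuclideanSpace ℝ (Fin N)) := {x | x ∈ K ∧ c ≤ p.1 x} with hA
  set A' : Set (EuclideanSpace ℝ (Fin N)) := {x | x ∈ K ∧ p.1 x ≤ - c} with hA'
  have hum : Measurable (p.1 : EuclideanSpace ℝ (Fin N) → ℝ) := (Lp.stronglyMeasurable p.1).measurable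
  have hAm : MeasurableSet A := hKm.inter (measurableSet_le measurable_const hum)
  have hA'm : MeasurableSet A' := hKm.inter (measurableSet_le hum measurable_const)
  set E : ℕ → Set (EuclideanSpace ℝ (Fin N)) := fun n => {x | c / 2 ≤ |φ n x - p.1 x|} with hE
  have hEm : ∀ n, MeasurableSet (E n) := by
    intro n
    have : Measurable fun x => |φ n x - p.1 x| := by
      have := (hφ n).1.continuous.measurable
      fun_prop
    exact measurableSet_le measurable_const this
  -- convergence in measure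
  have hEt : Tendsto (fun n => volume (E n)) atTop (𝓝 0) := by
    have m2 : TendstoInMeasure volume φ atTop p.1 := by
      apply tendstoInMeasure_of_tendsto_eLpNorm (p := (q : ℝ≥0∞)) qe_ne (fun n => (memLp_test (hφ n) q).1)
        (Lp.aestronglyMeasurable p.1)
      have e : ∀ n, eLpNorm (φ n - (p.1 : EuclideanSpace ℝ (Fin N) → ℝ)) q volume =
          eLpNorm (fun x => p.1 x - φ n x) q volume := by
        intro n
        rw [eLpNorm_sub_comm]
        rfl
      simp_rw [e]
      exact h1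
    have m3 := m2 (ENNReal.ofReal (c / 2)) (by positivity)
    refine m3.congr fun n => ?_
    congr 1
    ext x
    simp only [hE, mem_ofPred_eq]
    rw [edist_dist, Real.dist_eq, ENNReal.ofReal_le_ofReal_iff (abs_nonneg _)]
  -- energies
  set g : ℕ → EuclideanSpace ℝ (Fin N) → ℝ := fun n x => sg c (φ n x) with hg
  have hgd : ∀ n, ContDiff ℝ 1 (g n) := fun n =>
    ((sg_contDiff c).comp (hφ n).1).of_le (by simp)
  have hgf : ∀ n x, fderiv ℝ (g n) x = deriv (sg c) (φ n x) • fderiv ℝ (φ n) x := by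
    intro n x
    have h3 : HasDerivAt (sg c) (deriv (sg c) (φ n x)) (φ n x) :=
      ((sg_contDiff c).differentiable (by simp) _).hasDerivAt
    exact (h3.comp_hasFDerivAt x (((hφ n).1.differentiable (by simp) x).hasFDerivAt)).fderiv
  set T : ℕ → ℝ≥0∞ := fun n => ENNReal.ofReal M ^ 2 * (2 * (eLpNorm (fun x => p.2 x - gradient (φ n) x) 2 volume ^ 2 +
    ∫⁻ x in E n, ‖p.2 x‖ₑ ^ 2)) with hT
  have hG2 : ∫⁻ x, ‖p.2 x‖ₑ ^ 2 ≠ ⊤ := by
    rw [← eLpNorm_two_sq]
    exact ENNReal.pow_ne_top (Lp.eLpNorm_ne_top p.2)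
  have hTt : Tendsto T atTop (𝓝 0) := by
    have t1 : Tendsto (fun n => eLpNorm (fun x => p.2 x - gradient (φ n) x) 2 volume ^ 2) atTop (𝓝 0) := by
      have := ENNReal.Tendsto.pow (n := 2) h2
      simpa using this
    have t2 := tendsto_setLIntegral_zero hG2 hEt
    have t3 := t1.add t2
    rw [add_zero] at t3
    have t4 := ENNReal.Tendsto.const_mul (a := 2) t3 (Or.inr (by norm_num))
    have t5 := ENNReal.Tendsto.const_mul (a := ENNReal.ofReal M ^ 2) t4
      (Or.inr (ENNReal.pow_ne_top ENNReal.ofReal_ne_top))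
    simpa using t5
  have hen : ∀ n, ∫⁻ x in K, ‖fderiv ℝ (g n) x‖ₑ ^ 2 ≤ T n := by
    intro n
    have p1 : ∀ᵐ x ∂(volume.restrict K), ‖fderiv ℝ (g n) x‖ₑ ^ 2 ≤ ENNReal.ofReal M ^ 2 *
        (2 * (‖p.2 x - gradient (φ n) x‖ₑ ^ 2 + (E n).indicator (fun x => ‖p.2 x‖ₑ ^ 2) x)) := by
      rw [ae_restrict_iff' hKm]
      filter_upwards [hlow] with x hx hxK
      have hx2 := hx hxK
      rw [hgf]
      by_cases hs : c / 2 < |φ n x|
      · have h00 : ‖(0 : EuclideanSpace ℝ (Fin N) →L[ℝ] ℝ)‖ₑ = 0 := by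
          rw [← ofReal_norm, norm_zero, ENNReal.ofReal_zero]
        rw [(hMb (φ n x)).2 hs, zero_smul, h00, zero_pow (by norm_num)]
        exact zero_le
      · have hxE : x ∈ E n := by
          rw [not_lt] at hs
          simp only [hE, mem_ofPred_eq]
          have : |p.1 x| - |φ n x| ≤ |φ n x - p.1 x| := by
            rw [abs_sub_comm]
            exact abs_sub_abs_le_abs_sub _ _
          linarith
        rw [indicator_of_mem hxE, enorm_smul, mul_pow]
        have b1 : ‖deriv (sg c) (φ n x)‖ₑ ≤ ENNReal.ofReal M := by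
          rw [← ofReal_norm]
          exact ENNReal.ofReal_le_ofReal ((hMb (φ n x)).1)
        have b2 : ‖fderiv ℝ (φ n) x‖ₑ = ‖gradient (φ n) x‖ₑ := by
          rw [← ofReal_norm, ← ofReal_norm, gradient_norm]
        have b3 : ‖gradient (φ n) x‖ₑ ^ 2 ≤ 2 * (‖p.2 x - gradient (φ n) x‖ₑ ^ 2 + ‖p.2 x‖ₑ ^ 2) := by
          have b4 : ‖gradient (φ n) x‖ₑ ≤ ‖p.2 x - gradient (φ n) x‖ₑ + ‖p.2 x‖ₑ := by
            have : gradient (φ n) x = p.2 x - (p.2 x - gradient (φ n) x) := by abel
            calc ‖gradient (φ n) x‖ₑ = ‖p.2 x - (p.2 x - gradient (φ n) x)‖ₑ := by rw [← this]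
              _ ≤ ‖p.2 x‖ₑ + ‖p.2 x - gradient (φ n) x‖ₑ := enorm_sub_le
              _ = _ := add_comm _ _
          calc ‖gradient (φ n) x‖ₑ ^ 2 ≤ (‖p.2 x - gradient (φ n) x‖ₑ + ‖p.2 x‖ₑ) ^ 2 := by gcongr
            _ ≤ _ := by
              have := ENNReal.rpow_add_le_mul_rpow_add_rpow (‖p.2 x - gradient (φ n) x‖ₑ) (‖p.2 x‖ₑ)
                (show (1:ℝ) ≤ 2 by norm_num)
              norm_num at this
              exact this
        rw [b2]
        gcongr
    calc ∫⁻ x in K, ‖fderiv ℝ (g n) x‖ₑ ^ 2 ≤ ∫⁻ x in K, ENNReal.ofReal M ^ 2 *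
        (2 * (‖p.2 x - gradient (φ n) x‖ₑ ^ 2 + (E n).indicator (fun x => ‖p.2 x‖ₑ ^ 2) x)) :=
          lintegral_mono_ae p1
      _ ≤ ∫⁻ x, ENNReal.ofReal M ^ 2 *
        (2 * (‖p.2 x - gradient (φ n) x‖ₑ ^ 2 + (E n).indicator (fun x => ‖p.2 x‖ₑ ^ 2) x)) :=
          lintegral_mono' Measure.restrict_le_self le_rfl
      _ = T n := by
          have hGm : Measurable fun x => ‖p.2 x‖ₑ ^ 2 :=
            ((Lp.stronglyMeasurable p.2).measurable.enorm).pow_const 2
          have hm1 : Measurable fun x => ‖p.2 x - gradient (φ n) x‖ₑ ^ 2 :=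
            (((Lp.stronglyMeasurable p.2).measurable.sub (gradient_cont (hφ n)).measurable).enorm).pow_const 2
          have hm2 : Measurable fun x => ‖p.2 x - gradient (φ n) x‖ₑ ^ 2 +
              (E n).indicator (fun x => ‖p.2 x‖ₑ ^ 2) x := hm1.add (hGm.indicator (hEm n))
          have hm3 : Measurable fun x => 2 * (‖p.2 x - gradient (φ n) x‖ₑ ^ 2 +
              (E n).indicator (fun x => ‖p.2 x‖ₑ ^ 2) x) := hm2.const_mul 2
          rw [lintegral_const_mul _ hm3, lintegral_const_mul _ hm2, lintegral_add_left hm1,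
            lintegral_indicator (hEm n), ← eLpNorm_two_sq]
  -- lower bound
  have hlo : ∀ n, 4 * (volume A - volume (E n)) * (volume A' - volume (E n)) ≤
      (∫⁻ w in closedBall (0 : EuclideanSpace ℝ (Fin N)) (2 * ρ), ‖w‖ₑ ^ 2) * T n := by
    intro n
    refine le_trans ?_ ((two_point hK hKm hKb (hgd n)).trans (mul_le_mul_right (hen n) _))
    have h5 : ∀ x ∈ A \ E n, ∀ y ∈ A' \ E n, ‖g n y - g n x‖ₑ ^ 2 = 4 := by
      rintro x ⟨⟨_, hx1⟩, hx2⟩ y ⟨⟨_, hy1⟩, hy2⟩
      simp only [hE, mem_ofPred_eq, not_le] at hx2 hy2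
      rw [abs_lt] at hx2 hy2
      have e1 : g n x = 1 := sg_one hc (by linarith)
      have e2 : g n y = -1 := sg_neg_one hc (by linarith)
      rw [e1, e2, ← enorm_pow]
      norm_num
      rw [Real.enorm_of_nonneg (by norm_num)]
      norm_num
    calc 4 * (volume A - volume (E n)) * (volume A' - volume (E n)) ≤
          4 * volume (A \ E n) * volume (A' \ E n) := by
            gcongr
            · exact le_measure_sdiff
            · exact le_measure_sdiff
      _ = ∫⁻ x in A \ E n, ∫⁻ y in A' \ E n, 4 := by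
          rw [setLIntegral_const, setLIntegral_const]
          ring
      _ = ∫⁻ x in A \ E n, ∫⁻ y in A' \ E n, ‖g n y - g n x‖ₑ ^ 2 := by
          apply setLIntegral_congr_fun (hAm.diff (hEm n))
          intro x hx
          apply setLIntegral_congr_fun (hA'm.diff (hEm n))
          intro y hy
          exact (h5 x hx y hy).symm
      _ ≤ ∫⁻ x in A \ E n, ∫⁻ y in K, ‖g n y - g n x‖ₑ ^ 2 := by
          apply lintegral_mono
          intro x
          exact lintegral_mono_set (fun y hy => hy.1.1)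
      _ ≤ _ := lintegral_mono_set (fun y hy => hy.1.1)
  have hAfin : volume A ≠ ⊤ := ((measure_mono (fun x hx => hx.1)).trans_lt hKfin).ne
  have hA'fin : volume A' ≠ ⊤ := ((measure_mono (fun x hx => hx.1)).trans_lt hKfin).ne
  have hC : (∫⁻ w in closedBall (0 : EuclideanSpace ℝ (Fin N)) (2 * ρ), ‖w‖ₑ ^ 2) ≠ ⊤ := by
    have h6 : ∫⁻ w in closedBall (0 : EuclideanSpace ℝ (Fin N)) (2 * ρ), ‖w‖ₑ ^ 2 ≤
        ∫⁻ w in closedBall (0 : EuclideanSpace ℝ (Fin N)) (2 * ρ), ENNReal.ofReal (2 * ρ) ^ 2 := by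
      apply setLIntegral_mono measurable_const
      intro w hw
      rw [mem_closedBall, dist_zero_right] at hw
      rw [← ofReal_norm]
      gcongr
    refine (h6.trans_lt ?_).ne
    rw [setLIntegral_const]
    exact ENNReal.mul_lt_top (ENNReal.pow_lt_top ENNReal.ofReal_lt_top)
      (isCompact_closedBall _ _).measure_lt_top
  have hlim1 : Tendsto (fun n => 4 * (volume A - volume (E n)) * (volume A' - volume (E n))) atTop
      (𝓝 (4 * (volume A - 0) * (volume A' - 0))) := by
    have t1 := ENNReal.Tendsto.sub (tendsto_const_nhds (x := volume A)) hEt (Or.inl hAfin)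
    have t2 := ENNReal.Tendsto.sub (tendsto_const_nhds (x := volume A')) hEt (Or.inl hA'fin)
    have t3 := ENNReal.Tendsto.const_mul (a := 4) t1 (Or.inr (by norm_num))
    refine ENNReal.Tendsto.mul t3 (Or.inr ?_) t2 (Or.inr ?_)
    · rw [tsub_zero]; exact hA'fin
    · rw [tsub_zero]; exact ENNReal.mul_ne_top (by norm_num) hAfin
  have hlim2 := ENNReal.Tendsto.const_mul (a := ∫⁻ w in closedBall (0 : EuclideanSpace ℝ (Fin N)) (2 * ρ), ‖w‖ₑ ^ 2)
    hTt (Or.inr hC)
  have hfin := le_of_tendsto_of_tendsto' hlim1 hlim2 hlo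
  rw [mul_zero, tsub_zero, tsub_zero, nonpos_iff_eq_zero, mul_eq_zero, mul_eq_zero] at hfin
  rcases hfin with (h | h) | h
  · norm_num at h
  · exact Or.inl h
  · exact Or.inr (Or.inl h)

end Pool.Agent.Helper793.Sgn
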