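import Pool.Agent.Helper793.QDefs
set_option autoImplicit false
open MeasureTheory Metric Set Filter Topology
open scoped ENNReal NNReal

namespace Pool.Agent.Helper793.Sob

open Pool.Agent.Helper793.QEig

variable {N : ℕ}

/-- Cauchy-Schwarz on a probability space. -/
theorem lintegral_sq_le {α : Type*} [MeasurableSpace α] {ν : Measure α} [IsProbabilityMeasure ν]
    {g : α → ℝ≥0∞} (hg : AEMeasurable g ν) : (∫⁻ a, g a ∂ν) ^ 2 ≤ ∫⁻ a, g a ^ 2 ∂ν := by
  have h := ENNReal.lintegral_mul_norm_pow_le (μ := ν) (f := fun a => g a ^ 2) (g := fun _ => 1)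
    (hg.pow_const 2) (by fun_prop) (p := 1/2) (q := 1/2) (by norm_num) (by norm_num) (by norm_num)
  simp only [ENNReal.one_rpow, mul_one, lintegral_const, measure_univ] at h
  have e : ∀ a, (g a ^ 2) ^ (1/2 : ℝ) = g a := by
    intro a
    rw [← ENNReal.rpow_natCast, ← ENNReal.rpow_mul]
    norm_num
  simp only [e] at h
  calc (∫⁻ a, g a ∂ν) ^ 2 ≤ ((∫⁻ a, g a ^ 2 ∂ν) ^ (1/2 : ℝ)) ^ 2 := by gcongr
    _ = _ := by
      rw [← ENNReal.rpow_natCast, ← ENNReal.rpow_mul]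
      norm_num

theorem enorm_sub_translate_sq_le {φ : EuclideanSpace ℝ (Fin N) → ℝ} (hφ : ContDiff ℝ 1 φ)
    (w x : EuclideanSpace ℝ (Fin N)) :
    ‖φ (x + w) - φ x‖ₑ ^ 2 ≤
      ‖w‖ₑ ^ 2 * ∫⁻ t in Ioc (0:ℝ) 1, ‖fderiv ℝ φ (x + t • w)‖ₑ ^ 2 := by
  have hd : Continuous (fderiv ℝ φ) := hφ.continuous_fderiv (by simp)
  have hc : Continuous (fun t : ℝ => fderiv ℝ φ (x + t • w) w) := by fun_prop
  have h1 : φ (x + w) - φ x = ∫ t in (0:ℝ)..1, fderiv ℝ φ (x + t • w) w := by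
    have h2 : ∀ t ∈ uIcc (0:ℝ) 1, HasDerivAt (fun t : ℝ => φ (x + t • w))
        (fderiv ℝ φ (x + t • w) w) t := by
      intro t _
      have h3 : HasDerivAt (fun t : ℝ => x + t • w) w t := by
        simpa using ((hasDerivAt_id t).smul_const w).const_add x
      exact ((hφ.differentiable (by simp)) (x + t • w)).hasFDerivAt.comp_hasDerivAt t h3
    rw [intervalIntegral.integral_eq_sub_of_hasDerivAt h2 (hc.intervalIntegrable _ _)]
    simp
  rw [h1, intervalIntegral.integral_of_le (by norm_num)]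
  have h4 : ‖∫ t in Ioc (0:ℝ) 1, fderiv ℝ φ (x + t • w) w‖ₑ ≤
      ‖w‖ₑ * ∫⁻ t in Ioc (0:ℝ) 1, ‖fderiv ℝ φ (x + t • w)‖ₑ := by
    refine (enorm_integral_le_lintegral_enorm _).trans ?_
    rw [← lintegral_const_mul _ (by fun_prop)]
    gcongr with t
    rw [mul_comm]
    exact ContinuousLinearMap.le_opENorm _ _
  have : IsProbabilityMeasure (volume.restrict (Ioc (0:ℝ) 1)) := by
    constructor
    simp
  calc _ ≤ (‖w‖ₑ * ∫⁻ t in Ioc (0:ℝ) 1, ‖fderiv ℝ φ (x + t • w)‖ₑ) ^ 2 := by gcongr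
    _ = ‖w‖ₑ ^ 2 * (∫⁻ t in Ioc (0:ℝ) 1, ‖fderiv ℝ φ (x + t • w)‖ₑ) ^ 2 := by rw [mul_pow]
    _ ≤ _ := by
      gcongr
      exact lintegral_sq_le (by fun_prop)

theorem lintegral_sub_translate_le {φ : EuclideanSpace ℝ (Fin N) → ℝ} (hφ : ContDiff ℝ 1 φ)
    (w : EuclideanSpace ℝ (Fin N)) {S : Set (EuclideanSpace ℝ (Fin N))} (hS : MeasurableSet S)
    (hinv : ∀ t : ℝ, ∀ x, x + t • w ∈ S ↔ x ∈ S) :
    ∫⁻ x in S, ‖φ (x + w) - φ x‖ₑ ^ 2 ≤ ‖w‖ₑ ^ 2 * ∫⁻ x in S, ‖fderiv ℝ φ x‖ₑ ^ 2 := by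
  have hd : Continuous (fderiv ℝ φ) := hφ.continuous_fderiv (by simp)
  calc ∫⁻ x in S, ‖φ (x + w) - φ x‖ₑ ^ 2
      ≤ ∫⁻ x in S, ‖w‖ₑ ^ 2 * ∫⁻ t in Ioc (0:ℝ) 1, ‖fderiv ℝ φ (x + t • w)‖ₑ ^ 2 := by
        gcongr with x
        exact enorm_sub_translate_sq_le hφ w x
    _ = ‖w‖ₑ ^ 2 * ∫⁻ x in S, ∫⁻ t in Ioc (0:ℝ) 1, ‖fderiv ℝ φ (x + t • w)‖ₑ ^ 2 := by
        rw [lintegral_const_mul]
        exact Measurable.lintegral_prod_right' (f := fun p : EuclideanSpace ℝ (Fin N) × ℝ =>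
          ‖fderiv ℝ φ (p.1 + p.2 • w)‖ₑ ^ 2) (by fun_prop)
    _ = ‖w‖ₑ ^ 2 * ∫⁻ t in Ioc (0:ℝ) 1, ∫⁻ x in S, ‖fderiv ℝ φ (x + t • w)‖ₑ ^ 2 := by
        rw [lintegral_lintegral_swap]
        exact Continuous.aemeasurable (by fun_prop)
    _ = ‖w‖ₑ ^ 2 * ∫⁻ t in Ioc (0:ℝ) 1, ∫⁻ x in S, ‖fderiv ℝ φ x‖ₑ ^ 2 := by
        congr 1
        apply lintegral_congr
        intro t
        rw [← lintegral_indicator hS, ← lintegral_indicator hS,
          ← lintegral_add_right_eq_self (fun x => S.indicator (fun x => ‖fderiv ℝ φ x‖ₑ ^ 2) x) (t • w)]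
        congr 1
        ext x
        by_cases hx : x ∈ S
        · rw [indicator_of_mem hx, indicator_of_mem ((hinv t x).mpr hx)]
        · rw [indicator_of_notMem hx, indicator_of_notMem (fun h => hx ((hinv t x).mp h))]
    _ = _ := by simp

/-- Sobolev-Poincare inequality for functions supported in a bounded set. -/
theorem sobolev {Ω : Set (EuclideanSpace ℝ (Fin N))} (hN : 2 ≤ N) (hΩ : Bornology.IsBounded Ω)
    {q : ℝ≥0} (hq : 1 ≤ q) (hq' : ((N : ℝ) - 2) * q < 2 * N) :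
    ∃ C : ℝ≥0, ∀ φ : EuclideanSpace ℝ (Fin N) → ℝ, ContDiff ℝ 1 φ → Function.support φ ⊆ Ω →
      eLpNorm φ q volume ≤ C * eLpNorm (fderiv ℝ φ) 2 volume := by
  have hN0 : (0 : ℝ) < N := by
    have : (2 : ℝ) ≤ N := by exact_mod_cast hN
    linarith
  have hN2 : (2 : ℝ) ≤ N := by exact_mod_cast hN
  have hq0 : (0 : ℝ) < q := by
    have : (1 : ℝ) ≤ q := by exact_mod_cast hq
    linarith
  have hq1 : (1 : ℝ) ≤ q := by exact_mod_cast hq
  obtain ⟨p, hp1, hp2, hpq⟩ : ∃ p : ℝ≥0, 1 ≤ p ∧ p < 2 ∧ (p : ℝ)⁻¹ - (N : ℝ)⁻¹ ≤ (q : ℝ)⁻¹ := by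
    by_cases h : 1 ≤ (q : ℝ)⁻¹ + (N : ℝ)⁻¹
    · refine ⟨1, le_rfl, by norm_num, ?_⟩
      simp only [NNReal.coe_one, inv_one]
      linarith
    · push Not at h
      have hpos : 0 < (q : ℝ)⁻¹ + (N : ℝ)⁻¹ := by positivity
      refine ⟨(q⁻¹ + (N : ℝ≥0)⁻¹)⁻¹, ?_, ?_, ?_⟩
      · rw [← NNReal.coe_le_coe]
        push_cast
        exact (one_le_inv₀ hpos).mpr h.le
      · rw [← NNReal.coe_lt_coe]
        push_cast
        rw [inv_lt_comm₀ hpos (by norm_num)]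
        have h3 : (q : ℝ)⁻¹ > 1 / 2 - (N : ℝ)⁻¹ := by
          rw [gt_iff_lt, ← mul_lt_mul_iff_of_pos_right hq0, inv_mul_cancel₀ hq0.ne',
            ← mul_lt_mul_iff_of_pos_left (show (0:ℝ) < 2 * N by positivity)]
          calc 2 * (N : ℝ) * ((1 / 2 - (N : ℝ)⁻¹) * q) = ((N : ℝ) - 2) * q := by field_simp
            _ < 2 * N := hq'
            _ = 2 * N * 1 := by ring
        linarith
      · push_cast
        rw [inv_inv]
        linarith
  set s := closure Ω with hs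
  have hsb : Bornology.IsBounded s := hΩ.closure
  have hsm : (volume : Measure (EuclideanSpace ℝ (Fin N))) s < ⊤ := hsb.measure_lt_top
  set C1 := eLpNormLESNormFDerivOfLeConst ℝ (volume : Measure (EuclideanSpace ℝ (Fin N))) s p q
  set t := (volume : Measure (EuclideanSpace ℝ (Fin N))) s ^ (1 / (p : ℝ≥0∞).toReal - 1 / (2 : ℝ≥0∞).toReal) with ht
  have hp2' : (p : ℝ≥0∞) ≤ 2 := by
    have : (p : ℝ≥0∞) ≤ ((2 : ℝ≥0) : ℝ≥0∞) := by exact_mod_cast hp2.le
    simpa using this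
  have ht_top : t ≠ ⊤ := by
    apply ENNReal.rpow_ne_top_of_nonneg _ hsm.ne
    simp only [ENNReal.coe_toReal, ENNReal.toReal_ofNat]
    have h1 : (1 : ℝ) ≤ p := by exact_mod_cast hp1
    have h2 : (p : ℝ) < 2 := by exact_mod_cast hp2
    rw [sub_nonneg]
    exact one_div_le_one_div_of_le (by linarith) h2.le
  refine ⟨C1 * t.toNNReal, fun φ hφ hsup => ?_⟩
  have hsup' : Function.support φ ⊆ s := hsup.trans subset_closure
  have hfin : Module.finrank ℝ (EuclideanSpace ℝ (Fin N)) = N := by simp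
  have h1 := eLpNorm_le_eLpNorm_fderiv_of_le (F := ℝ) (volume : Measure (EuclideanSpace ℝ (Fin N)))
    hφ hsup' (p := p) (q := q) hp1
    (by
      rw [hfin]
      have h2 : (p : ℝ) < 2 := by exact_mod_cast hp2
      have : (p : ℝ) < (N : ℝ) := by linarith
      exact_mod_cast this) (by rw [hfin]; exact_mod_cast hpq) hsb
  refine h1.trans ?_
  set g : EuclideanSpace ℝ (Fin N) → ℝ := fun x => ‖fderiv ℝ φ x‖ with hg
  have hgsup : Function.support g ⊆ s := by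
    intro x hx
    have hx1 : x ∈ Function.support (fderiv ℝ φ) := by
      intro h0
      apply hx
      simp only [hg, h0, norm_zero]
    exact closure_minimal hsup' isClosed_closure (support_fderiv_subset ℝ hx1)
  have hgc : Continuous g := (hφ.continuous_fderiv (by simp)).norm
  have hgm : AEStronglyMeasurable g (volume.restrict s) := hgc.aestronglyMeasurable
  have hgp : ∀ r : ℝ≥0∞, eLpNorm (fderiv ℝ φ) r volume = eLpNorm g r volume := fun r =>
    (eLpNorm_norm _).symm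
  have h2 : eLpNorm (fderiv ℝ φ) p volume ≤ eLpNorm (fderiv ℝ φ) 2 volume * t := by
    rw [hgp, hgp, ← eLpNorm_restrict_eq_of_support_subset hgsup (p := (p : ℝ≥0∞)),
      ← eLpNorm_restrict_eq_of_support_subset hgsup (p := 2)]
    have := eLpNorm_le_eLpNorm_mul_rpow_measure_univ hp2' hgm
    rwa [Measure.restrict_apply_univ] at this
  calc (C1 : ℝ≥0∞) * eLpNorm (fderiv ℝ φ) p volume ≤ C1 * (eLpNorm (fderiv ℝ φ) 2 volume * t) := by
        gcongr
    _ = _ := by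
      push_cast
      rw [ENNReal.coe_toNNReal ht_top]
      ring

theorem exists_bump (N : ℕ) : ∃ (ρ : EuclideanSpace ℝ (Fin N) → ℝ) (Cρ Mρ : ℝ≥0), Continuous ρ ∧
    (∀ z, 0 ≤ ρ z) ∧ Integrable ρ volume ∧ ∫ z, ρ z = 1 ∧ (∀ z, 1 < ‖z‖ → ρ z = 0) ∧
    LipschitzWith Cρ ρ ∧ ∀ z, ρ z ≤ Mρ := by
  let φ : ContDiffBump (0 : EuclideanSpace ℝ (Fin N)) := ⟨1/2, 1, by norm_num, by norm_num⟩
  have hcs : HasCompactSupport (φ.normed volume) := φ.hasCompactSupport_normed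
  obtain ⟨C, hC⟩ := (φ.contDiff_normed (n := 1) (μ := volume)).lipschitzWith_of_hasCompactSupport
      φ.hasCompactSupport_normed (by simp)
  obtain ⟨M, hM⟩ := hcs.exists_bound_of_continuous (φ.continuous_normed (μ := volume))
  refine ⟨φ.normed volume, C, M.toNNReal, φ.continuous_normed, φ.nonneg_normed, φ.integrable_normed,
    φ.integral_normed, ?_, hC, ?_⟩
  · intro z hz
    by_contra hne
    have : z ∈ Function.support (φ.normed volume) := hne
    rw [φ.support_normed_eq] at this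
    have h3 : ‖z‖ < 1 := by simpa using this
    linarith
  · intro z
    have h1 := hM z
    rw [Real.norm_eq_abs] at h1
    have h2 := le_abs_self (φ.normed volume z)
    exact (h2.trans h1).trans (Real.le_coe_toNNReal M)

/-- mollification at scale `h` -/
noncomputable def mm (ρ φ : EuclideanSpace ℝ (Fin N) → ℝ) (h : ℝ) (x : EuclideanSpace ℝ (Fin N)) : ℝ :=
  ∫ z, ρ z * φ (x - h • z)

theorem mm_l2 {ρ : EuclideanSpace ℝ (Fin N) → ℝ} (hc : Continuous ρ) (h0 : ∀ z, 0 ≤ ρ z)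
    (hi : Integrable ρ volume) (h1 : ∫ z, ρ z = 1) (hs : ∀ z, 1 < ‖z‖ → ρ z = 0)
    {φ : EuclideanSpace ℝ (Fin N) → ℝ} (hφ : ContDiff ℝ 1 φ) (hφc : HasCompactSupport φ) (h : ℝ) :
    ∫⁻ x, ‖φ x - mm ρ φ h x‖ₑ ^ 2 ≤ ‖h‖ₑ ^ 2 * ∫⁻ x, ‖fderiv ℝ φ x‖ₑ ^ 2 := by
  set ν : Measure (EuclideanSpace ℝ (Fin N)) :=
    volume.withDensity (fun z => ENNReal.ofReal (ρ z)) with hν
  have hνp : IsProbabilityMeasure ν := by
    constructor
    rw [hν, withDensity_apply _ MeasurableSet.univ, Measure.restrict_univ,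
      ← ofReal_integral_eq_lintegral_ofReal hi (Eventually.of_forall h0), h1, ENNReal.ofReal_one]
  have hνa : ∀ᵐ z ∂ν, ‖z‖ ≤ 1 := by
    rw [hν, ae_withDensity_iff (by fun_prop)]
    refine Eventually.of_forall fun z hz => ?_
    by_contra hz1
    apply hz
    rw [hs z (not_le.mp hz1), ENNReal.ofReal_zero]
  have hνi : ∀ g : EuclideanSpace ℝ (Fin N) → ℝ, ∫ z, g z ∂ν = ∫ z, ρ z * g z := by
    intro g
    rw [hν, integral_withDensity_eq_integral_toReal_smul (by fun_prop)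
      (Eventually.of_forall fun z => ENNReal.ofReal_lt_top)]
    congr 1
    ext z
    rw [ENNReal.toReal_ofReal (h0 z), smul_eq_mul]
  have hcφ := hφ.continuous
  obtain ⟨M, hM⟩ := hφc.exists_bound_of_continuous hcφ
  have hint : ∀ x, Integrable (fun z => φ (x - h • z)) ν := by
    intro x
    refine Integrable.of_bound (Continuous.aestronglyMeasurable (by fun_prop)) M ?_
    exact Eventually.of_forall fun z => hM _
  have hpt : ∀ x, ‖φ x - mm ρ φ h x‖ₑ ^ 2 ≤ ∫⁻ z, ‖φ (x + (-h) • z) - φ x‖ₑ ^ 2 ∂ν := by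
    intro x
    have e1 : φ x - mm ρ φ h x = ∫ z, (φ x - φ (x - h • z)) ∂ν := by
      rw [integral_sub (integrable_const _) (hint x), hνi (fun z => φ (x - h • z)), mm]
      simp
    rw [e1]
    have e2 : ‖∫ z, (φ x - φ (x - h • z)) ∂ν‖ₑ ≤ ∫⁻ z, ‖φ (x + (-h) • z) - φ x‖ₑ ∂ν := by
      refine (enorm_integral_le_lintegral_enorm _).trans ?_
      apply le_of_eq
      apply lintegral_congr
      intro z
      rw [← enorm_neg, neg_sub, neg_smul, ← sub_eq_add_neg]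
    calc _ ≤ (∫⁻ z, ‖φ (x + (-h) • z) - φ x‖ₑ ∂ν) ^ 2 := by gcongr
      _ ≤ _ := lintegral_sq_le (by fun_prop)
  calc ∫⁻ x, ‖φ x - mm ρ φ h x‖ₑ ^ 2 ≤ ∫⁻ x, ∫⁻ z, ‖φ (x + (-h) • z) - φ x‖ₑ ^ 2 ∂ν := by
        gcongr with x; exact hpt x
    _ = ∫⁻ z, (∫⁻ x, ‖φ (x + (-h) • z) - φ x‖ₑ ^ 2) ∂ν := by
        rw [lintegral_lintegral_swap]
        exact Continuous.aemeasurable (by fun_prop)
    _ ≤ ∫⁻ z, (‖h‖ₑ ^ 2 * ∫⁻ x, ‖fderiv ℝ φ x‖ₑ ^ 2) ∂ν := by
        apply lintegral_mono_ae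
        filter_upwards [hνa] with z hz
        have h5 := lintegral_sub_translate_le hφ ((-h) • z) MeasurableSet.univ (by simp)
        simp only [Measure.restrict_univ] at h5
        refine h5.trans ?_
        gcongr
        rw [enorm_smul, enorm_neg]
        calc ‖h‖ₑ * ‖z‖ₑ ≤ ‖h‖ₑ * 1 := by
              gcongr
              rw [← ofReal_norm]
              exact ENNReal.ofReal_le_one.mpr hz
          _ = ‖h‖ₑ := mul_one _
    _ = _ := by simp

theorem mm_eq {ρ : EuclideanSpace ℝ (Fin N) → ℝ} (φ : EuclideanSpace ℝ (Fin N) → ℝ) {h : ℝ} (hh : 0 < h)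
    (x : EuclideanSpace ℝ (Fin N)) :
    mm ρ φ h x = ∫ y, (h ^ N)⁻¹ * ρ (h⁻¹ • (x - y)) * φ y := by
  rw [mm]
  have h3 := Measure.integral_comp_smul (volume : Measure (EuclideanSpace ℝ (Fin N)))
    (fun z => ρ z * φ (x - h • z)) (h⁻¹)
  simp only [smul_smul, mul_inv_cancel₀ hh.ne', one_smul, finrank_euclideanSpace_fin] at h3
  have h4 : ∫ z, ρ z * φ (x - h • z) = (h ^ N)⁻¹ * ∫ z, ρ (h⁻¹ • z) * φ (x - z) := by
    rw [h3, smul_eq_mul, ← mul_assoc]
    have : (h ^ N)⁻¹ * |(h⁻¹ ^ N)⁻¹| = 1 := by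
      rw [inv_pow, inv_inv, abs_of_pos (by positivity)]
      exact inv_mul_cancel₀ (by positivity)
    rw [this, one_mul]
  rw [h4, ← integral_const_mul]
  rw [← integral_sub_left_eq_self _ volume x]
  congr 1
  ext1 y
  simp only [sub_sub_cancel]
  ring

theorem mm_bound {ρ : EuclideanSpace ℝ (Fin N) → ℝ} (h0 : ∀ z, 0 ≤ ρ z)
    {Mρ : ℝ≥0} (hM : ∀ z, ρ z ≤ Mρ)
    {φ : EuclideanSpace ℝ (Fin N) → ℝ} (hφ : Integrable φ volume) {h : ℝ} (hh : 0 < h)
    (x : EuclideanSpace ℝ (Fin N)) :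
    |mm ρ φ h x| ≤ (h ^ N)⁻¹ * Mρ * ∫ y, |φ y| := by
  rw [mm_eq φ hh, ← Real.norm_eq_abs, ← integral_const_mul]
  refine (norm_integral_le_of_norm_le (hφ.abs.const_mul ((h ^ N)⁻¹ * Mρ)) ?_)
  refine Eventually.of_forall fun y => ?_
  rw [norm_mul, norm_mul, Real.norm_eq_abs, Real.norm_eq_abs, Real.norm_eq_abs,
    abs_of_pos (show 0 < (h ^ N)⁻¹ by positivity), abs_of_nonneg (h0 _)]
  gcongr
  exact hM _

theorem mm_lip {ρ : EuclideanSpace ℝ (Fin N) → ℝ} (hc : Continuous ρ) (h0 : ∀ z, 0 ≤ ρ z)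
    {Mρ Cρ : ℝ≥0} (hM : ∀ z, ρ z ≤ Mρ) (hρ : LipschitzWith Cρ ρ)
    {φ : EuclideanSpace ℝ (Fin N) → ℝ} (hφ : Integrable φ volume) {h : ℝ} (hh : 0 < h)
    (x x' : EuclideanSpace ℝ (Fin N)) :
    |mm ρ φ h x - mm ρ φ h x'| ≤ (h ^ N)⁻¹ * (Cρ * h⁻¹ * ‖x - x'‖) * ∫ y, |φ y| := by
  have hint : ∀ x, Integrable (fun y => (h ^ N)⁻¹ * ρ (h⁻¹ • (x - y)) * φ y) volume := by
    intro x
    apply Integrable.bdd_mul (c := (h ^ N)⁻¹ * Mρ) hφ
    · exact Continuous.aestronglyMeasurable (by fun_prop)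
    · refine Eventually.of_forall fun y => ?_
      rw [norm_mul, Real.norm_eq_abs, Real.norm_eq_abs,
        abs_of_pos (show 0 < (h ^ N)⁻¹ by positivity), abs_of_nonneg (h0 _)]
      gcongr
      exact hM _
  rw [mm_eq φ hh, mm_eq φ hh, ← integral_sub (hint x) (hint x'), ← Real.norm_eq_abs,
    ← integral_const_mul]
  refine (norm_integral_le_of_norm_le (hφ.abs.const_mul _) ?_)
  refine Eventually.of_forall fun y => ?_
  have e : (h ^ N)⁻¹ * ρ (h⁻¹ • (x - y)) * φ y - (h ^ N)⁻¹ * ρ (h⁻¹ • (x' - y)) * φ y =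
    (h ^ N)⁻¹ * (ρ (h⁻¹ • (x - y)) - ρ (h⁻¹ • (x' - y))) * φ y := by ring
  rw [e, norm_mul, norm_mul, Real.norm_eq_abs, Real.norm_eq_abs, Real.norm_eq_abs,
    abs_of_pos (show 0 < (h ^ N)⁻¹ by positivity)]
  gcongr
  have := hρ.dist_le_mul (h⁻¹ • (x - y)) (h⁻¹ • (x' - y))
  rw [Real.dist_eq, dist_eq_norm, ← smul_sub, sub_sub_sub_cancel_right, norm_smul, norm_inv,
    Real.norm_eq_abs, abs_of_pos hh] at this
  rw [mul_assoc]
  exact this

theorem eLpNorm_two_sq {α : Type*} [MeasurableSpace α] {μ : Measure α} {F : Type*}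
    [NormedAddCommGroup F] (f : α → F) : eLpNorm f 2 μ ^ 2 = ∫⁻ x, ‖f x‖ₑ ^ 2 ∂μ := by
  rw [eLpNorm_eq_lintegral_rpow_enorm_toReal (by norm_num) (by norm_num)]
  simp only [ENNReal.toReal_ofNat]
  rw [← ENNReal.rpow_natCast, ← ENNReal.rpow_mul]
  norm_num

theorem mm_l2' {ρ : EuclideanSpace ℝ (Fin N) → ℝ} (hc : Continuous ρ) (h0 : ∀ z, 0 ≤ ρ z)
    (hi : Integrable ρ volume) (h1 : ∫ z, ρ z = 1) (hs : ∀ z, 1 < ‖z‖ → ρ z = 0)
    {φ : EuclideanSpace ℝ (Fin N) → ℝ} (hφ : ContDiff ℝ 1 φ) (hφc : HasCompactSupport φ) (h : ℝ) :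
    eLpNorm (fun x => φ x - mm ρ φ h x) 2 volume ≤ ‖h‖ₑ * eLpNorm (fderiv ℝ φ) 2 volume := by
  have h2 := mm_l2 hc h0 hi h1 hs hφ hφc h
  rw [← eLpNorm_two_sq, ← eLpNorm_two_sq, ← mul_pow] at h2
  exact (ENNReal.pow_le_pow_left_iff (by norm_num)).mp h2

theorem rellich {Ω : Set (EuclideanSpace ℝ (Fin N))} (hN : 2 ≤ N) (hΩ : Bornology.IsBounded Ω)
    (M : ℝ≥0) {ε : ℝ} (hε : 0 < ε) :
    ∃ T : Set (EuclideanSpace ℝ (Fin N) → ℝ), T.Finite ∧
      (∀ φ ∈ T, IsTest Ω φ ∧ eLpNorm (fderiv ℝ φ) 2 volume ≤ M) ∧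
      ∀ φ, IsTest Ω φ → eLpNorm (fderiv ℝ φ) 2 volume ≤ M →
        ∃ ψ ∈ T, eLpNorm (fun x => φ x - ψ x) 2 volume ≤ ENNReal.ofReal ε := by
  classical
  obtain ⟨ρ, Cρ, Mρ, hc, h0, hi, h1, hs, hρ, hMρ⟩ := exists_bump N
  obtain ⟨R, hR⟩ := hΩ.subset_closedBall (0 : EuclideanSpace ℝ (Fin N))
  obtain ⟨C, hC⟩ := sobolev hN hΩ (q := 1) le_rfl (by simp; linarith)
  set K : Set (EuclideanSpace ℝ (Fin N)) := closedBall 0 (R + 1) with hK
  have hKc : IsCompact K := isCompact_closedBall _ _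
  have : CompactSpace K := isCompact_iff_compactSpace.mp hKc
  -- L1 bound
  have hL1 : ∀ φ, IsTest Ω φ → eLpNorm (fderiv ℝ φ) 2 volume ≤ M →
      Integrable φ volume ∧ ∫ y, |φ y| ≤ C * M := by
    intro φ hφ hM
    have hint : Integrable φ volume := hφ.1.continuous.integrable_of_hasCompactSupport hφ.2.1
    refine ⟨hint, ?_⟩
    have h2 := hC φ (hφ.1.of_le (by simp)) ((subset_tsupport φ).trans hφ.2.2)
    have h3 : eLpNorm φ 1 volume ≤ (C * M : ℝ≥0) := by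
      push_cast
      refine h2.trans ?_
      gcongr
    have h4 : ∫ y, |φ y| = (eLpNorm φ 1 volume).toReal := by
      rw [eLpNorm_one_eq_lintegral_enorm]
      exact integral_norm_eq_lintegral_enorm hint.1
    rw [h4]
    have := ENNReal.toReal_mono ENNReal.coe_ne_top h3
    simpa using this
  set h : ℝ := min 1 (ε / (3 * (M + 1))) with hh
  have hhpos : 0 < h := lt_min one_pos (by positivity)
  have hh1 : h ≤ 1 := min_le_left _ _
  have hhM : h * M ≤ ε / 3 := by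
    have : h ≤ ε / (3 * (M + 1)) := min_le_right _ _
    calc h * M ≤ ε / (3 * (M + 1)) * (M + 1) := by
          gcongr
          linarith
      _ = ε / 3 := by field_simp
  set δ : ℝ := ε / (3 * ((volume K).toReal ^ (1/2 : ℝ) + 1)) with hδ
  have hVK : 0 ≤ (volume K).toReal ^ (1/2 : ℝ) := by positivity
  have hδpos : 0 < δ := by positivity
  set A : Set (BoundedContinuousFunction K ℝ) := {f | ∃ φ, IsTest Ω φ ∧
    eLpNorm (fderiv ℝ φ) 2 volume ≤ M ∧ ∀ x : K, f x = mm ρ φ h x} with hA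
  have hAcomp : IsCompact (closure A) := by
    apply BoundedContinuousFunction.arzela_ascoli (closedBall (0:ℝ) ((h ^ N)⁻¹ * Mρ * (C * M)))
      (isCompact_closedBall _ _)
    · rintro f x ⟨φ, hφ, hM, hf⟩
      rw [hf, mem_closedBall, dist_zero_right, Real.norm_eq_abs]
      refine (mm_bound h0 hMρ (hL1 φ hφ hM).1 hhpos x).trans ?_
      gcongr
      exact (hL1 φ hφ hM).2
    · apply equicontinuous_of_continuity_modulus (fun t => (h ^ N)⁻¹ * (Cρ * h⁻¹ * t) * (C * M))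
      · have : Continuous (fun t : ℝ => (h ^ N)⁻¹ * (Cρ * h⁻¹ * t) * (C * M)) := by fun_prop
        have h5 := this.tendsto 0
        simpa using h5
      · rintro x y ⟨f, φ, hφ, hM, hf⟩
        simp only
        rw [hf, hf, Real.dist_eq]
        refine (mm_lip hc h0 hMρ hρ (hL1 φ hφ hM).1 hhpos x y).trans ?_
        rw [Subtype.dist_eq, dist_eq_norm]
        gcongr
        exact (hL1 φ hφ hM).2
  have hAtb : TotallyBounded A := hAcomp.totallyBounded.subset subset_closure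
  obtain ⟨t, htA, htf, htc⟩ := Metric.finite_approx_of_totallyBounded hAtb δ hδpos
  have hch : ∀ f ∈ t, ∃ φ, IsTest Ω φ ∧
    eLpNorm (fderiv ℝ φ) 2 volume ≤ M ∧ ∀ x : K, f x = mm ρ φ h x := fun f hf => htA hf
  choose! Φ hΦ using hch
  refine ⟨Φ '' t, htf.image Φ, ?_, ?_⟩
  · rintro _ ⟨f, hf, rfl⟩
    exact ⟨(hΦ f hf).1, (hΦ f hf).2.1⟩
  intro φ hφ hM
  have hmmc : Continuous (mm ρ φ h) := by
    have hL : LipschitzWith ((h ^ N)⁻¹ * (Cρ * h⁻¹) * ∫ y, |φ y|).toNNReal (mm ρ φ h) := by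
      apply LipschitzWith.of_dist_le_mul
      intro x y
      have h6 := mm_lip hc h0 hMρ hρ (hL1 φ hφ hM).1 hhpos x y
      have h7 : 0 ≤ ∫ y, |φ y| := integral_nonneg (fun _ => abs_nonneg _)
      rw [Real.coe_toNNReal _ (by positivity), Real.dist_eq, dist_eq_norm]
      refine h6.trans (le_of_eq ?_)
      ring
    exact hL.continuous
  set f₀ : BoundedContinuousFunction K ℝ :=
    BoundedContinuousFunction.mkOfCompact ⟨fun x : K => mm ρ φ h x, hmmc.comp continuous_subtype_val⟩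
    with hf₀
  have hf₀A : f₀ ∈ A := ⟨φ, hφ, hM, fun x => rfl⟩
  have := htc hf₀A
  simp only [mem_iUnion, mem_ball, exists_prop] at this
  obtain ⟨f, hft, hfd⟩ := this
  refine ⟨Φ f, ⟨f, hft, rfl⟩, ?_⟩
  obtain ⟨hψ, hψM, hψf⟩ := hΦ f hft
  set ψ := Φ f with hψdef
  -- the three pieces
  have hzero : ∀ χ, IsTest Ω χ → ∀ x, x ∉ K → mm ρ χ h x = 0 := by
    intro χ hχ x hx
    rw [mm]
    have : ∀ z, ρ z * χ (x - h • z) = 0 := by
      intro z
      by_cases hz : 1 < ‖z‖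
      · rw [hs z hz, zero_mul]
      · push Not at hz
        have hχ0 : χ (x - h • z) = 0 := by
          by_contra hne
          have h8 : x - h • z ∈ Ω := hχ.2.2 (subset_tsupport _ hne)
          have h9 := hR h8
          rw [mem_closedBall, dist_zero_right] at h9
          apply hx
          rw [hK, mem_closedBall, dist_zero_right]
          have h10 : ‖x‖ ≤ ‖x - h • z‖ + ‖h • z‖ := by
            have := norm_add_le (x - h • z) (h • z)
            simpa using this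
          have h11 : ‖h • z‖ ≤ 1 := by
            rw [norm_smul, Real.norm_eq_abs, abs_of_pos hhpos]
            nlinarith
          linarith
        rw [hχ0, mul_zero]
    simp [this]
  have hmid : eLpNorm (fun x => mm ρ φ h x - mm ρ ψ h x) 2 volume ≤ ENNReal.ofReal (ε / 3) := by
    have hsup : Function.support (fun x => mm ρ φ h x - mm ρ ψ h x) ⊆ K := by
      intro x hx
      by_contra hxK
      apply hx
      simp only
      rw [hzero φ hφ x hxK, hzero ψ hψ x hxK, sub_zero]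
    rw [← eLpNorm_restrict_eq_of_support_subset hsup]
    have hb : ∀ᵐ x ∂(volume.restrict K), ‖mm ρ φ h x - mm ρ ψ h x‖ ≤ δ := by
      rw [ae_restrict_iff' hKc.measurableSet]
      refine Eventually.of_forall fun x hx => ?_
      have h12 : dist (f₀ ⟨x, hx⟩) (f ⟨x, hx⟩) ≤ δ :=
        (BoundedContinuousFunction.dist_coe_le_dist _).trans hfd.le
      rw [hψf ⟨x, hx⟩, Real.dist_eq] at h12
      exact h12
    refine (eLpNorm_le_of_ae_bound hb).trans ?_
    rw [Measure.restrict_apply_univ]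
    have hKt : volume K ≠ ⊤ := hKc.measure_lt_top.ne
    have e1 : (volume K) ^ ((2 : ℝ≥0∞).toReal)⁻¹ = ENNReal.ofReal ((volume K).toReal ^ (1/2 : ℝ)) := by
      rw [← ENNReal.ofReal_rpow_of_nonneg ENNReal.toReal_nonneg (by norm_num),
        ENNReal.ofReal_toReal hKt]
      norm_num
    rw [e1, ← ENNReal.ofReal_mul hVK]
    apply ENNReal.ofReal_le_ofReal
    rw [hδ]
    set V := (volume K).toReal ^ (1/2 : ℝ)
    calc V * (ε / (3 * (V + 1))) ≤ (V + 1) * (ε / (3 * (V + 1))) := by gcongr; linarith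
      _ = ε / 3 := by field_simp
  have hside : ∀ χ, IsTest Ω χ → eLpNorm (fderiv ℝ χ) 2 volume ≤ M →
      eLpNorm (fun x => χ x - mm ρ χ h x) 2 volume ≤ ENNReal.ofReal (ε / 3) := by
    intro χ hχ hχM
    refine (mm_l2' hc h0 hi h1 hs (hχ.1.of_le (by simp)) hχ.2.1 h).trans ?_
    calc ‖h‖ₑ * eLpNorm (fderiv ℝ χ) 2 volume ≤ ENNReal.ofReal h * M := by
          gcongr
          rw [Real.enorm_eq_ofReal hhpos.le]
      _ = ENNReal.ofReal (h * M) := by
          rw [ENNReal.ofReal_mul hhpos.le, ENNReal.ofReal_coe_nnreal]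
      _ ≤ _ := ENNReal.ofReal_le_ofReal hhM
  have hmmcψ : Continuous (mm ρ ψ h) := by
    have hL : LipschitzWith ((h ^ N)⁻¹ * (Cρ * h⁻¹) * ∫ y, |ψ y|).toNNReal (mm ρ ψ h) := by
      apply LipschitzWith.of_dist_le_mul
      intro x y
      have h6 := mm_lip hc h0 hMρ hρ (hL1 ψ hψ hψM).1 hhpos x y
      have h7 : 0 ≤ ∫ y, |ψ y| := integral_nonneg (fun _ => abs_nonneg _)
      rw [Real.coe_toNNReal _ (by positivity), Real.dist_eq, dist_eq_norm]
      refine h6.trans (le_of_eq ?_)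
      ring
    exact hL.continuous
  have hφc := hφ.1.continuous
  have hψc := hψ.1.continuous
  have hdec : (fun x => φ x - ψ x) = (fun x => φ x - mm ρ φ h x) +
      ((fun x => mm ρ φ h x - mm ρ ψ h x) + -(fun x => ψ x - mm ρ ψ h x)) := by
    ext x
    simp only [Pi.add_apply, Pi.neg_apply]
    ring
  rw [hdec]
  have m1 : AEStronglyMeasurable (fun x => φ x - mm ρ φ h x) volume :=
    (hφc.sub hmmc).aestronglyMeasurable
  have m2 : AEStronglyMeasurable (fun x => mm ρ φ h x - mm ρ ψ h x) volume :=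
    (hmmc.sub hmmcψ).aestronglyMeasurable
  have m3 : AEStronglyMeasurable (-(fun x => ψ x - mm ρ ψ h x)) volume :=
    (hψc.sub hmmcψ).neg.aestronglyMeasurable
  refine (eLpNorm_add_le m1 (m2.add m3) (by norm_num)).trans ?_
  have e3 : ENNReal.ofReal ε = ENNReal.ofReal (ε / 3) + (ENNReal.ofReal (ε / 3) + ENNReal.ofReal (ε / 3)) := by
    rw [← ENNReal.ofReal_add (by positivity) (by positivity),
      ← ENNReal.ofReal_add (by positivity) (by positivity)]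
    congr 1
    ring
  rw [e3]
  refine add_le_add (hside φ hφ hM) ((eLpNorm_add_le m2 m3 (by norm_num)).trans ?_)
  refine add_le_add hmid ?_
  rw [eLpNorm_neg]
  exact hside ψ hψ hψM

end Pool.Agent.Helper793.Sob
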