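import Pool.Agent.Helper793.Sob
set_option autoImplicit false
set_option linter.unusedSectionVars false
open MeasureTheory Metric Set Filter Topology
open scoped ENNReal NNReal

namespace Pool.Agent.Helper793.Sob

open Pool.Agent.Helper793.QEig

variable {N : ℕ}

theorem eLpNorm_nn_rpow {α : Type*} [MeasurableSpace α] {μ : Measure α} {F : Type*}
    [NormedAddCommGroup F] (f : α → F) {q : ℝ≥0} (hq : 0 < q) :
    eLpNorm f q μ ^ (q : ℝ) = ∫⁻ x, ‖f x‖ₑ ^ (q : ℝ) ∂μ := by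
  rw [eLpNorm_eq_lintegral_rpow_enorm_toReal (by exact_mod_cast hq.ne') (by simp)]
  simp only [ENNReal.coe_toReal]
  rw [← ENNReal.rpow_mul, one_div, inv_mul_cancel₀ (by exact_mod_cast hq.ne'), ENNReal.rpow_one]

/-- Interpolation between `L^2` and `L^{q1}`. -/
theorem interp {α : Type*} [MeasurableSpace α] {μ : Measure α} {f : α → ℝ}
    (hf : AEStronglyMeasurable f μ) {q q1 : ℝ≥0} (hq : 2 ≤ q) (hq1 : q < q1)
    {δ B : ℝ} (hδ : 0 ≤ δ) (hB : 0 ≤ B)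
    (h2 : eLpNorm f 2 μ ≤ ENNReal.ofReal δ) (h1 : eLpNorm f q1 μ ≤ ENNReal.ofReal B) :
    eLpNorm f q μ ≤ ENNReal.ofReal
      (((δ ^ (2:ℝ)) ^ (((q1:ℝ) - q) / (q1 - 2)) * (B ^ (q1:ℝ)) ^ (((q:ℝ) - 2) / (q1 - 2))) ^ ((q:ℝ)⁻¹)) := by
  have hq2 : (2:ℝ) ≤ q := by exact_mod_cast hq
  have hqq1 : (q:ℝ) < q1 := by exact_mod_cast hq1
  have hq0 : 0 < q := lt_of_lt_of_le (by norm_num) hq
  have hq10 : 0 < q1 := hq0.trans hq1
  set a := ((q1:ℝ) - q) / (q1 - 2) with ha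
  set b := ((q:ℝ) - 2) / (q1 - 2) with hb
  have hden : 0 < (q1:ℝ) - 2 := by linarith
  have ha0 : 0 ≤ a := div_nonneg (by linarith) hden.le
  have hb0 : 0 ≤ b := div_nonneg (by linarith) hden.le
  have hab : a + b = 1 := by rw [ha, hb]; field_simp; ring
  have hexp : 2 * a + q1 * b = q := by rw [ha, hb]; field_simp; ring
  have h3 : ∫⁻ x, ‖f x‖ₑ ^ (q:ℝ) ∂μ ≤ (∫⁻ x, ‖f x‖ₑ ^ (2:ℝ) ∂μ) ^ a * (∫⁻ x, ‖f x‖ₑ ^ (q1:ℝ) ∂μ) ^ b := by
    have := ENNReal.lintegral_mul_norm_pow_le (μ := μ) (f := fun x => ‖f x‖ₑ ^ (2:ℝ))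
      (g := fun x => ‖f x‖ₑ ^ (q1:ℝ)) (hf.enorm.pow_const _) (hf.enorm.pow_const _) ha0 hb0 hab
    refine le_trans (le_of_eq ?_) this
    apply lintegral_congr
    intro x
    rw [← ENNReal.rpow_mul, ← ENNReal.rpow_mul, ← ENNReal.rpow_add_of_nonneg _ _ (by positivity)
      (by positivity), hexp]
  have h4 : ∫⁻ x, ‖f x‖ₑ ^ (2:ℝ) ∂μ ≤ ENNReal.ofReal (δ ^ (2:ℝ)) := by
    have h5 := eLpNorm_two_sq (μ := μ) f
    have h6 : ∫⁻ x, ‖f x‖ₑ ^ (2:ℝ) ∂μ = ∫⁻ x, ‖f x‖ₑ ^ 2 ∂μ := by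
      apply lintegral_congr; intro x; norm_cast
    rw [h6, ← h5, ← ENNReal.ofReal_rpow_of_nonneg hδ (by norm_num)]
    calc eLpNorm f 2 μ ^ 2 ≤ (ENNReal.ofReal δ) ^ 2 := by gcongr
      _ = _ := by norm_cast
  have h5 : ∫⁻ x, ‖f x‖ₑ ^ (q1:ℝ) ∂μ ≤ ENNReal.ofReal (B ^ (q1:ℝ)) := by
    rw [← eLpNorm_nn_rpow f hq10, ← ENNReal.ofReal_rpow_of_nonneg hB (by positivity)]
    gcongr
  have h6 : eLpNorm f q μ ^ (q:ℝ) ≤ ENNReal.ofReal ((δ ^ (2:ℝ)) ^ a * (B ^ (q1:ℝ)) ^ b) := by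
    rw [eLpNorm_nn_rpow f hq0]
    refine h3.trans ?_
    rw [ENNReal.ofReal_mul (by positivity), ← ENNReal.ofReal_rpow_of_nonneg (by positivity) ha0,
      ← ENNReal.ofReal_rpow_of_nonneg (by positivity) hb0]
    gcongr
  have h7 : eLpNorm f q μ = (eLpNorm f q μ ^ (q:ℝ)) ^ ((q:ℝ)⁻¹) := by
    rw [← ENNReal.rpow_mul, mul_inv_cancel₀ (by positivity), ENNReal.rpow_one]
  rw [h7, ← ENNReal.ofReal_rpow_of_nonneg (by positivity) (by positivity)]
  gcongr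

theorem isTest_sub {Ω : Set (EuclideanSpace ℝ (Fin N))} {φ ψ : EuclideanSpace ℝ (Fin N) → ℝ}
    (hφ : IsTest Ω φ) (hψ : IsTest Ω ψ) : IsTest Ω (fun x => φ x - ψ x) := by
  refine ⟨hφ.1.sub hψ.1, hφ.2.1.sub hψ.2.1, ?_⟩
  refine (tsupport_sub φ ψ).trans (union_subset hφ.2.2 hψ.2.2)

theorem exists_exponent {q : ℝ≥0} (hN : 2 ≤ N) (hq' : ((N : ℝ) - 2) * q < 2 * N) :
    ∃ q1 : ℝ≥0, q < q1 ∧ ((N : ℝ) - 2) * q1 < 2 * N := by
  have hN2 : (2 : ℝ) ≤ N := by exact_mod_cast hN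
  have h0 : 0 ≤ (N:ℝ) - 2 := by linarith
  set e : ℝ := (2 * N - ((N : ℝ) - 2) * q) / (2 * N) with he
  have hepos : 0 < e := div_pos (by linarith) (by linarith)
  refine ⟨q + e.toNNReal, ?_, ?_⟩
  · rw [← NNReal.coe_lt_coe]
    push_cast
    rw [Real.coe_toNNReal _ hepos.le]
    linarith
  · push_cast
    rw [Real.coe_toNNReal _ hepos.le]
    have h2N : (0:ℝ) < 2 * N := by linarith
    have h3 : ((N:ℝ) - 2) * e < 2 * N - ((N : ℝ) - 2) * q := by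
      rw [he, mul_div_assoc', div_lt_iff₀ h2N]
      nlinarith
    linarith

theorem rellich_q {Ω : Set (EuclideanSpace ℝ (Fin N))} (hN : 2 ≤ N) (hΩ : Bornology.IsBounded Ω)
    {q : ℝ≥0} (hq : 1 ≤ q) (hq' : ((N : ℝ) - 2) * q < 2 * N) (M : ℝ≥0) {ε : ℝ} (hε : 0 < ε) :
    ∃ T : Set (EuclideanSpace ℝ (Fin N) → ℝ), T.Finite ∧
      (∀ φ ∈ T, IsTest Ω φ ∧ eLpNorm (fderiv ℝ φ) 2 volume ≤ M) ∧
      ∀ φ, IsTest Ω φ → eLpNorm (fderiv ℝ φ) 2 volume ≤ M →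
        ∃ ψ ∈ T, eLpNorm (fun x => φ x - ψ x) q volume ≤ ENNReal.ofReal ε := by
  rcases le_or_gt 2 q with h2 | h2
  · obtain ⟨q1, hqq1, hq1'⟩ := exists_exponent hN hq'
    have hq1 : 1 ≤ q1 := hq.trans hqq1.le
    obtain ⟨C, hC⟩ := sobolev hN hΩ hq1 hq1'
    set B : ℝ := C * (2 * M) with hB
    have hB0 : 0 ≤ B := by positivity
    have hq2 : (2:ℝ) ≤ q := by exact_mod_cast h2
    have hqq1' : (q:ℝ) < q1 := by exact_mod_cast hqq1
    set a := ((q1:ℝ) - q) / (q1 - 2) with ha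
    set b := ((q:ℝ) - 2) / (q1 - 2) with hb
    have ha0 : 0 < a := div_pos (by linarith) (by linarith)
    -- choose δ
    have hlim : Tendsto (fun δ : ℝ => ((δ ^ (2:ℝ)) ^ a * (B ^ (q1:ℝ)) ^ b) ^ ((q:ℝ)⁻¹)) (𝓝 0) (𝓝 0) := by
      have hc : ContinuousAt (fun δ : ℝ => ((δ ^ (2:ℝ)) ^ a * (B ^ (q1:ℝ)) ^ b) ^ ((q:ℝ)⁻¹)) 0 := by
        apply ContinuousAt.rpow_const _ (Or.inr (by positivity))
        apply ContinuousAt.mul _ continuousAt_const
        apply ContinuousAt.rpow_const _ (Or.inr ha0.le)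
        exact continuousAt_id.rpow_const (Or.inr (by norm_num))
      have h5 := hc.tendsto
      have h6 : (((0:ℝ) ^ (2:ℝ)) ^ a * (B ^ (q1:ℝ)) ^ b) ^ ((q:ℝ)⁻¹) = 0 := by
        rw [Real.zero_rpow (by norm_num), Real.zero_rpow ha0.ne', zero_mul,
          Real.zero_rpow (by positivity)]
      rwa [h6] at h5
    have hev : ∀ᶠ δ in 𝓝[>] (0:ℝ), ((δ ^ (2:ℝ)) ^ a * (B ^ (q1:ℝ)) ^ b) ^ ((q:ℝ)⁻¹) < ε :=
      (hlim.mono_left nhdsWithin_le_nhds).eventually_lt_const hε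
    obtain ⟨δ, hδε, hδ0⟩ := (hev.and self_mem_nhdsWithin).exists
    have hδ0 : 0 < δ := hδ0
    obtain ⟨T, hTf, hT, hTc⟩ := rellich hN hΩ M hδ0
    refine ⟨T, hTf, hT, fun φ hφ hM => ?_⟩
    obtain ⟨ψ, hψT, hψ⟩ := hTc φ hφ hM
    refine ⟨ψ, hψT, ?_⟩
    have hψt := (hT ψ hψT).1
    have hψM := (hT ψ hψT).2
    have hdt := isTest_sub hφ hψt
    have hB' : eLpNorm (fun x => φ x - ψ x) q1 volume ≤ ENNReal.ofReal B := by
      refine (hC _ (hdt.1.of_le (by simp)) ((subset_tsupport _).trans hdt.2.2)).trans ?_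
      have e1 : fderiv ℝ (fun x => φ x - ψ x) = fderiv ℝ φ - fderiv ℝ ψ := by
        ext1 x
        rw [Pi.sub_apply]
        exact fderiv_fun_sub ((hφ.1.differentiable (by simp)) x) ((hψt.1.differentiable (by simp)) x)
      have m1 : AEStronglyMeasurable (fderiv ℝ φ) volume :=
        (hφ.1.continuous_fderiv (by simp)).aestronglyMeasurable
      have m2 : AEStronglyMeasurable (fderiv ℝ ψ) volume :=
        (hψt.1.continuous_fderiv (by simp)).aestronglyMeasurable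
      rw [e1]
      calc (C : ℝ≥0∞) * eLpNorm (fderiv ℝ φ - fderiv ℝ ψ) 2 volume ≤ C * (M + M) := by
            gcongr
            refine (eLpNorm_sub_le m1 m2 (by norm_num)).trans ?_
            gcongr
        _ = ENNReal.ofReal B := by
          rw [hB, ENNReal.ofReal_mul (by positivity), ENNReal.ofReal_coe_nnreal,
            ENNReal.ofReal_mul (by norm_num), ENNReal.ofReal_coe_nnreal, ENNReal.ofReal_ofNat, two_mul]
    refine (interp hdt.1.continuous.aestronglyMeasurable h2 hqq1 hδ0.le hB0 hψ hB').trans ?_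
    exact ENNReal.ofReal_le_ofReal hδε.le
  · -- q < 2 : Hölder on the bounded set
    set V : ℝ≥0∞ := (volume : Measure (EuclideanSpace ℝ (Fin N))) (closure Ω) ^
      (1 / ((q : ℝ≥0∞)).toReal - 1 / (2 : ℝ≥0∞).toReal) with hV
    have hVt : V ≠ ⊤ := by
      apply ENNReal.rpow_ne_top_of_nonneg _ hΩ.closure.measure_lt_top.ne
      simp only [ENNReal.coe_toReal, ENNReal.toReal_ofNat]
      have h1 : (1 : ℝ) ≤ q := by exact_mod_cast hq
      have h2 : (q : ℝ) < 2 := by exact_mod_cast h2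
      rw [sub_nonneg]
      exact one_div_le_one_div_of_le (by linarith) h2.le
    set δ : ℝ := ε / (V.toReal + 1) with hδ
    have hδ0 : 0 < δ := by positivity
    obtain ⟨T, hTf, hT, hTc⟩ := rellich hN hΩ M hδ0
    refine ⟨T, hTf, hT, fun φ hφ hM => ?_⟩
    obtain ⟨ψ, hψT, hψ⟩ := hTc φ hφ hM
    refine ⟨ψ, hψT, ?_⟩
    have hψt := (hT ψ hψT).1
    have hdt := isTest_sub hφ hψt
    have hsup : Function.support (fun x => φ x - ψ x) ⊆ closure Ω :=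
      ((subset_tsupport _).trans hdt.2.2).trans subset_closure
    have hq2' : (q : ℝ≥0∞) ≤ 2 := by
      have : (q : ℝ≥0∞) ≤ ((2 : ℝ≥0) : ℝ≥0∞) := by exact_mod_cast h2.le
      simpa using this
    have h8 := eLpNorm_le_eLpNorm_mul_rpow_measure_univ (μ := volume.restrict (closure Ω)) hq2'
      (f := fun x => φ x - ψ x) hdt.1.continuous.aestronglyMeasurable
    rw [eLpNorm_restrict_eq_of_support_subset hsup, eLpNorm_restrict_eq_of_support_subset hsup,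
      Measure.restrict_apply_univ] at h8
    refine h8.trans ?_
    calc eLpNorm (fun x => φ x - ψ x) 2 volume * V ≤ ENNReal.ofReal δ * V := by gcongr
      _ = ENNReal.ofReal δ * ENNReal.ofReal V.toReal := by rw [ENNReal.ofReal_toReal hVt]
      _ = ENNReal.ofReal (δ * V.toReal) := by rw [ENNReal.ofReal_mul hδ0.le]
      _ ≤ ENNReal.ofReal ε := by
        apply ENNReal.ofReal_le_ofReal
        rw [hδ]
        have hV0 : 0 ≤ V.toReal := ENNReal.toReal_nonneg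
        calc ε / (V.toReal + 1) * V.toReal ≤ ε / (V.toReal + 1) * (V.toReal + 1) := by
              gcongr; linarith
          _ = ε := by field_simp

/-! ### The space `D012` -/

theorem gradient_norm (φ : EuclideanSpace ℝ (Fin N) → ℝ) (x : EuclideanSpace ℝ (Fin N)) :
    ‖gradient φ x‖ = ‖fderiv ℝ φ x‖ := by
  rw [gradient, LinearIsometryEquiv.norm_map]

theorem gradient_cont {Ω : Set (EuclideanSpace ℝ (Fin N))} {φ : EuclideanSpace ℝ (Fin N) → ℝ}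
    (hφ : IsTest Ω φ) : Continuous (gradient φ) := by
  have h1 : Continuous (fderiv ℝ φ) := hφ.1.continuous_fderiv (by simp)
  exact (LinearIsometryEquiv.continuous _).comp h1

theorem gradient_hcs {Ω : Set (EuclideanSpace ℝ (Fin N))} {φ : EuclideanSpace ℝ (Fin N) → ℝ}
    (hφ : IsTest Ω φ) : HasCompactSupport (gradient φ) := by
  have h1 : HasCompactSupport (fderiv ℝ φ) := hφ.2.1.fderiv ℝ
  exact h1.comp_left (g := fun A => (InnerProductSpace.toDual ℝ (EuclideanSpace ℝ (Fin N))).symm A)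
    (map_zero _)

theorem memLp_test {Ω : Set (EuclideanSpace ℝ (Fin N))} {φ : EuclideanSpace ℝ (Fin N) → ℝ}
    (hφ : IsTest Ω φ) (r : ℝ≥0∞) : MemLp φ r volume :=
  hφ.1.continuous.memLp_of_hasCompactSupport hφ.2.1

theorem memLp_grad {Ω : Set (EuclideanSpace ℝ (Fin N))} {φ : EuclideanSpace ℝ (Fin N) → ℝ}
    (hφ : IsTest Ω φ) (r : ℝ≥0∞) : MemLp (gradient φ) r volume :=
  (gradient_cont hφ).memLp_of_hasCompactSupport (gradient_hcs hφ)

theorem eLpNorm_gradient (φ : EuclideanSpace ℝ (Fin N) → ℝ) (r : ℝ≥0∞) :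
    eLpNorm (gradient φ) r volume = eLpNorm (fderiv ℝ φ) r volume :=
  eLpNorm_congr_norm_ae (Eventually.of_forall fun x => gradient_norm φ x)

theorem gradient_add' {Ω : Set (EuclideanSpace ℝ (Fin N))} {φ ψ : EuclideanSpace ℝ (Fin N) → ℝ}
    (hφ : IsTest Ω φ) (hψ : IsTest Ω ψ) :
    gradient (fun x => φ x + ψ x) = fun x => gradient φ x + gradient ψ x := by
  ext1 x
  rw [gradient, gradient, gradient, ← map_add]
  congr 1
  exact fderiv_fun_add ((hφ.1.differentiable (by simp)) x) ((hψ.1.differentiable (by simp)) x)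

theorem gradient_smul' {Ω : Set (EuclideanSpace ℝ (Fin N))} {φ : EuclideanSpace ℝ (Fin N) → ℝ}
    (hφ : IsTest Ω φ) (c : ℝ) :
    gradient (fun x => c * φ x) = fun x => c • gradient φ x := by
  ext1 x
  rw [gradient, gradient, ← map_smul]
  congr 1
  exact fderiv_const_mul ((hφ.1.differentiable (by simp)) x) c

theorem isTest_add {Ω : Set (EuclideanSpace ℝ (Fin N))} {φ ψ : EuclideanSpace ℝ (Fin N) → ℝ}
    (hφ : IsTest Ω φ) (hψ : IsTest Ω ψ) : IsTest Ω (fun x => φ x + ψ x) := by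
  refine ⟨hφ.1.add hψ.1, hφ.2.1.add hψ.2.1, ?_⟩
  refine (tsupport_add φ ψ).trans (union_subset hφ.2.2 hψ.2.2)

theorem isTest_smul {Ω : Set (EuclideanSpace ℝ (Fin N))} {φ : EuclideanSpace ℝ (Fin N) → ℝ}
    (hφ : IsTest Ω φ) (c : ℝ) : IsTest Ω (fun x => c * φ x) := by
  refine ⟨contDiff_const.mul hφ.1, hφ.2.1.mul_left, ?_⟩
  refine subset_trans ?_ hφ.2.2
  exact closure_mono (Function.support_mul_subset_right _ _)

theorem isTest_zero {Ω : Set (EuclideanSpace ℝ (Fin N))} : IsTest Ω (fun _ => (0:ℝ)) := by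
  refine ⟨contDiff_const, HasCompactSupport.zero, ?_⟩
  rw [tsupport]
  simp

theorem isTest_mono {Ω Ω' : Set (EuclideanSpace ℝ (Fin N))} (h : Ω ⊆ Ω')
    {φ : EuclideanSpace ℝ (Fin N) → ℝ} (hφ : IsTest Ω φ) : IsTest Ω' φ :=
  ⟨hφ.1, hφ.2.1, hφ.2.2.trans h⟩

variable {q : ℝ≥0} [Fact (1 ≤ (q : ℝ≥0∞))]

/-- the pair `(φ, ∇φ)` -/
noncomputable def pairOf (q : ℝ≥0) {Ω : Set (EuclideanSpace ℝ (Fin N))}
    {φ : EuclideanSpace ℝ (Fin N) → ℝ} (hφ : IsTest Ω φ) : Pairs N q :=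
  ((memLp_test hφ q).toLp φ, (memLp_grad hφ 2).toLp (gradient φ))

/-- the submodule of pairs `(φ, ∇φ)` -/
noncomputable def TS (q : ℝ≥0) [Fact (1 ≤ (q : ℝ≥0∞))] (Ω : Set (EuclideanSpace ℝ (Fin N))) :
    Submodule ℝ (Pairs N q) where
  carrier := {p | ∃ φ : EuclideanSpace ℝ (Fin N) → ℝ, IsTest Ω φ ∧
    (p.1 : EuclideanSpace ℝ (Fin N) → ℝ) =ᵐ[volume] φ ∧
    (p.2 : EuclideanSpace ℝ (Fin N) → EuclideanSpace ℝ (Fin N)) =ᵐ[volume] gradient φ}
  add_mem' := by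
    rintro a b ⟨φ, hφ, h1, h2⟩ ⟨ψ, hψ, h3, h4⟩
    refine ⟨fun x => φ x + ψ x, isTest_add hφ hψ, ?_, ?_⟩
    · rw [Prod.fst_add]
      filter_upwards [Lp.coeFn_add a.1 b.1, h1, h3] with x e1 e2 e3
      rw [e1, Pi.add_apply, e2, e3]
    · rw [Prod.snd_add, gradient_add' hφ hψ]
      filter_upwards [Lp.coeFn_add a.2 b.2, h2, h4] with x e1 e2 e3
      rw [e1, Pi.add_apply, e2, e3]
  zero_mem' := by
    refine ⟨fun _ => 0, isTest_zero, ?_, ?_⟩
    · rw [Prod.fst_zero]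
      filter_upwards [Lp.coeFn_zero ℝ (q : ℝ≥0∞) (volume : Measure (EuclideanSpace ℝ (Fin N)))] with x e1
      rw [e1, Pi.zero_apply]
    · rw [Prod.snd_zero]
      filter_upwards [Lp.coeFn_zero (EuclideanSpace ℝ (Fin N)) 2
        (volume : Measure (EuclideanSpace ℝ (Fin N)))] with x e1
      rw [e1, Pi.zero_apply, gradient]
      simp
  smul_mem' := by
    rintro c a ⟨φ, hφ, h1, h2⟩
    refine ⟨fun x => c * φ x, isTest_smul hφ c, ?_, ?_⟩
    · rw [Prod.smul_fst]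
      filter_upwards [Lp.coeFn_smul c a.1, h1] with x e1 e2
      rw [e1, Pi.smul_apply, e2, smul_eq_mul]
    · rw [Prod.smul_snd, gradient_smul' hφ]
      filter_upwards [Lp.coeFn_smul c a.2, h2] with x e1 e2
      rw [e1, Pi.smul_apply, e2]

theorem D012_eq (Ω : Set (EuclideanSpace ℝ (Fin N))) :
    D012 q Ω = ((TS q Ω).topologicalClosure : Set (Pairs N q)) := rfl

theorem pairOf_mem_TS {Ω : Set (EuclideanSpace ℝ (Fin N))}
    {φ : EuclideanSpace ℝ (Fin N) → ℝ} (hφ : IsTest Ω φ) : pairOf q hφ ∈ TS q Ω :=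
  ⟨φ, hφ, MemLp.coeFn_toLp (memLp_test hφ q), MemLp.coeFn_toLp (memLp_grad hφ 2)⟩

theorem pairOf_mem {Ω : Set (EuclideanSpace ℝ (Fin N))}
    {φ : EuclideanSpace ℝ (Fin N) → ℝ} (hφ : IsTest Ω φ) : pairOf q hφ ∈ D012 q Ω :=
  subset_closure (pairOf_mem_TS hφ)

theorem TS_eq_pairOf {Ω : Set (EuclideanSpace ℝ (Fin N))} {p : Pairs N q} (hp : p ∈ TS q Ω) :
    ∃ (φ : EuclideanSpace ℝ (Fin N) → ℝ) (hφ : IsTest Ω φ), p = pairOf q hφ := by
  obtain ⟨φ, hφ, h1, h2⟩ := hp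
  refine ⟨φ, hφ, ?_⟩
  apply Prod.ext
  · apply Lp.ext
    exact h1.trans (MemLp.coeFn_toLp (memLp_test hφ q)).symm
  · apply Lp.ext
    exact h2.trans (MemLp.coeFn_toLp (memLp_grad hφ 2)).symm

/-- to prove a closed property of elements of `D012` it suffices to check test functions -/
theorem D012_induction {Ω : Set (EuclideanSpace ℝ (Fin N))} {P : Pairs N q → Prop}
    (hcl : IsClosed {p | P p})
    (h : ∀ (φ : EuclideanSpace ℝ (Fin N) → ℝ) (hφ : IsTest Ω φ), P (pairOf q hφ))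
    {p : Pairs N q} (hp : p ∈ D012 q Ω) : P p := by
  have : D012 q Ω ⊆ {p | P p} := by
    apply closure_minimal _ hcl
    intro p hp
    obtain ⟨φ, hφ, rfl⟩ := TS_eq_pairOf (Ω := Ω) hp
    exact h φ hφ
  exact this hp

theorem D012_add {Ω : Set (EuclideanSpace ℝ (Fin N))} {a b : Pairs N q} (ha : a ∈ D012 q Ω)
    (hb : b ∈ D012 q Ω) : a + b ∈ D012 q Ω := by
  rw [D012_eq] at *
  exact Submodule.add_mem _ ha hb

theorem D012_smul {Ω : Set (EuclideanSpace ℝ (Fin N))} {a : Pairs N q} (c : ℝ) (ha : a ∈ D012 q Ω) :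
    c • a ∈ D012 q Ω := by
  rw [D012_eq] at *
  exact Submodule.smul_mem _ c ha

theorem D012_neg {Ω : Set (EuclideanSpace ℝ (Fin N))} {a : Pairs N q} (ha : a ∈ D012 q Ω) :
    -a ∈ D012 q Ω := by
  rw [D012_eq] at *
  exact Submodule.neg_mem _ ha

theorem D012_sub {Ω : Set (EuclideanSpace ℝ (Fin N))} {a b : Pairs N q} (ha : a ∈ D012 q Ω)
    (hb : b ∈ D012 q Ω) : a - b ∈ D012 q Ω := by
  rw [D012_eq] at *
  exact Submodule.sub_mem _ ha hb

theorem D012_closed (Ω : Set (EuclideanSpace ℝ (Fin N))) : IsClosed (D012 q Ω) := isClosed_closure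

theorem D012_mono {Ω Ω' : Set (EuclideanSpace ℝ (Fin N))} (h : Ω ⊆ Ω') :
    D012 q Ω ⊆ D012 q Ω' := by
  apply closure_mono
  rintro p ⟨φ, hφ, h1, h2⟩
  exact ⟨φ, isTest_mono h hφ, h1, h2⟩

theorem norm_pairOf_fst {Ω : Set (EuclideanSpace ℝ (Fin N))}
    {φ : EuclideanSpace ℝ (Fin N) → ℝ} (hφ : IsTest Ω φ) :
    ‖(pairOf q hφ).1‖ = (eLpNorm φ q volume).toReal := Lp.norm_toLp φ (memLp_test hφ q)

theorem norm_pairOf_snd {Ω : Set (EuclideanSpace ℝ (Fin N))}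
    {φ : EuclideanSpace ℝ (Fin N) → ℝ} (hφ : IsTest Ω φ) :
    ‖(pairOf q hφ).2‖ = (eLpNorm (fderiv ℝ φ) 2 volume).toReal := by
  rw [← eLpNorm_gradient]
  exact Lp.norm_toLp (gradient φ) (memLp_grad hφ 2)

theorem eLpNorm_fderiv_lt_top {Ω : Set (EuclideanSpace ℝ (Fin N))}
    {φ : EuclideanSpace ℝ (Fin N) → ℝ} (hφ : IsTest Ω φ) (r : ℝ≥0∞) :
    eLpNorm (fderiv ℝ φ) r volume < ⊤ := by
  rw [← eLpNorm_gradient]
  exact (memLp_grad hφ r).2

/-- Sobolev on `D012`. -/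
theorem sobolev_D {Ω : Set (EuclideanSpace ℝ (Fin N))} (hN : 2 ≤ N) (hΩ : Bornology.IsBounded Ω)
    (hq : 1 ≤ q) (hq' : ((N : ℝ) - 2) * q < 2 * N) :
    ∃ C : ℝ, 0 < C ∧ ∀ p ∈ D012 q Ω, ‖p.1‖ ≤ C * ‖p.2‖ := by
  obtain ⟨C, hC⟩ := sobolev hN hΩ hq hq'
  refine ⟨C + 1, by positivity, fun p hp => ?_⟩
  apply D012_induction (P := fun p => ‖p.1‖ ≤ ((C : ℝ) + 1) * ‖p.2‖) _ _ hp
  · exact isClosed_le (by fun_prop) (by fun_prop)
  · intro φ hφ
    rw [norm_pairOf_fst, norm_pairOf_snd]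
    have h1 := hC φ (hφ.1.of_le (by simp)) ((subset_tsupport φ).trans hφ.2.2)
    have h2 := ENNReal.toReal_mono (ENNReal.mul_ne_top ENNReal.coe_ne_top
      (eLpNorm_fderiv_lt_top hφ 2).ne) h1
    rw [ENNReal.toReal_mul, ENNReal.coe_toReal] at h2
    refine h2.trans ?_
    gcongr
    linarith

theorem totallyBounded_D {Ω : Set (EuclideanSpace ℝ (Fin N))} (hN : 2 ≤ N)
    (hΩ : Bornology.IsBounded Ω)
    (hq : 1 ≤ q) (hq' : ((N : ℝ) - 2) * q < 2 * N) (M : ℝ) :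
    TotallyBounded ((fun p : Pairs N q => p.1) '' {p | p ∈ D012 q Ω ∧ ‖p.2‖ ≤ M}) := by
  rw [Metric.totallyBounded_iff]
  intro ε hε
  obtain ⟨T, hTf, hT, hTc⟩ := rellich_q hN hΩ hq hq' (M + 1).toNNReal (show 0 < ε / 3 by positivity)
  classical
  set Θ : (EuclideanSpace ℝ (Fin N) → ℝ) → Lp ℝ (q : ℝ≥0∞) (volume : Measure (EuclideanSpace ℝ (Fin N))) :=
    fun φ => if h : IsTest Ω φ then (pairOf q h).1 else 0 with hΘ
  refine ⟨Θ '' T, hTf.image Θ, ?_⟩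
  rintro _ ⟨p, ⟨hp, hpM⟩, rfl⟩
  rw [mem_iUnion₂]
  -- approximate by test functions
  have hcl : p ∈ closure (TS q Ω : Set (Pairs N q)) := hp
  rw [Metric.mem_closure_iff] at hcl
  obtain ⟨p', hp', hd⟩ := hcl (min 1 (ε / 3)) (lt_min one_pos (by positivity))
  obtain ⟨φ, hφ, rfl⟩ := TS_eq_pairOf hp'
  have hd1 : dist p.1 (pairOf q hφ).1 < ε / 3 :=
    (le_max_left _ _).trans_lt (hd.trans_le (min_le_right _ _))
  have hd2 : dist p.2 (pairOf q hφ).2 < 1 :=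
    (le_max_right _ _).trans_lt (hd.trans_le (min_le_left _ _))
  have hM0 : 0 ≤ M := (norm_nonneg _).trans hpM
  have hφM : eLpNorm (fderiv ℝ φ) 2 volume ≤ (M + 1).toNNReal := by
    have h3 : ‖(pairOf q hφ).2‖ ≤ M + 1 := by
      have h4 := norm_sub_norm_le (pairOf q hφ).2 p.2
      rw [dist_comm, dist_eq_norm] at hd2
      linarith
    rw [norm_pairOf_snd] at h3
    rw [← ENNReal.ofReal_toReal (eLpNorm_fderiv_lt_top hφ 2).ne, ← ENNReal.ofReal]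
    exact ENNReal.ofReal_le_ofReal h3
  obtain ⟨ψ, hψT, hψ⟩ := hTc φ hφ hφM
  have hψt := (hT ψ hψT).1
  refine ⟨Θ ψ, ⟨ψ, hψT, rfl⟩, ?_⟩
  have hΘψ : Θ ψ = (pairOf q hψt).1 := by simp only [hΘ, dif_pos hψt]
  rw [mem_ball, hΘψ]
  have hd3 : dist (pairOf q hφ).1 (pairOf q hψt).1 ≤ ε / 3 := by
    have e1 : (pairOf q hφ).1 - (pairOf q hψt).1 =
        ((memLp_test hφ q).sub (memLp_test hψt q)).toLp (φ - ψ) :=
      (MemLp.toLp_sub (memLp_test hφ q) (memLp_test hψt q)).symm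
    rw [dist_eq_norm, e1, Lp.norm_toLp]
    have h5 := ENNReal.toReal_mono ENNReal.ofReal_ne_top hψ
    rw [ENNReal.toReal_ofReal (by positivity)] at h5
    exact h5
  calc dist p.1 (pairOf q hψt).1 ≤ dist p.1 (pairOf q hφ).1 + dist (pairOf q hφ).1 (pairOf q hψt).1 :=
        dist_triangle _ _ _
    _ < ε := by linarith

/-- lower semicontinuity -/
theorem lsc_D {Ω : Set (EuclideanSpace ℝ (Fin N))} {y : Lp ℝ (q : ℝ≥0∞) (volume : Measure (EuclideanSpace ℝ (Fin N)))}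
    {c : ℝ}
    (h : ∀ ε > 0, ∃ p ∈ D012 q Ω, ‖p.1 - y‖ ≤ ε ∧ ‖p.2‖ ≤ c + ε) :
    ∃ p ∈ D012 q Ω, p.1 = y ∧ ‖p.2‖ ≤ c := by
  -- minimal norms
  set e : ℕ → ℝ := fun n => 1 / ((n : ℝ) + 1) with he
  have hepos : ∀ n, 0 < e n := fun n => by positivity
  have helim : Tendsto e atTop (𝓝 0) := tendsto_one_div_add_atTop_nhds_zero_nat
  have hemono : ∀ K n, K ≤ n → e n ≤ e K := by
    intro K n hKn
    have : (K : ℝ) ≤ n := by exact_mod_cast hKn
    apply one_div_le_one_div_of_le (by positivity)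
    linarith
  set S : ℕ → Set ℝ := fun n => {r | ∃ p ∈ D012 q Ω, ‖p.1 - y‖ ≤ e n ∧ ‖p.2‖ = r} with hS
  have hSbdd : ∀ n, BddBelow (S n) := fun n => ⟨0, by rintro r ⟨p, _, _, rfl⟩; exact norm_nonneg _⟩
  have hSne : ∀ n, (S n).Nonempty := by
    intro n
    obtain ⟨p, hp, h1, h2⟩ := h (e n) (hepos n)
    exact ⟨_, p, hp, h1, rfl⟩
  set m : ℕ → ℝ := fun n => sInf (S n) with hm
  have hm0 : ∀ n, 0 ≤ m n := fun n => le_csInf (hSne n) (by rintro r ⟨p, _, _, rfl⟩; exact norm_nonneg _)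
  have hmono : Monotone m := by
    intro K n hKn
    apply csInf_le_csInf (hSbdd K) (hSne n)
    rintro r ⟨p, hp, h1, h2⟩
    exact ⟨p, hp, h1.trans (hemono K n hKn), h2⟩
  have hmc : ∀ n, m n ≤ c := by
    intro n
    apply le_of_forall_pos_le_add
    intro ε hε
    obtain ⟨p, hp, h1, h2⟩ := h (min ε (e n)) (lt_min hε (hepos n))
    calc m n ≤ ‖p.2‖ := csInf_le (hSbdd n) ⟨p, hp, h1.trans (min_le_right _ _), rfl⟩
      _ ≤ c + min ε (e n) := h2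
      _ ≤ c + ε := by gcongr; exact min_le_left _ _
  have hbdd : BddAbove (range m) := ⟨c, by rintro _ ⟨n, rfl⟩; exact hmc n⟩
  set m0 : ℝ := ⨆ n, m n with hm0def
  have hmlim : Tendsto m atTop (𝓝 m0) := tendsto_atTop_ciSup hmono hbdd
  have hmle : ∀ n, m n ≤ m0 := fun n => le_ciSup hbdd n
  have hm0c : m0 ≤ c := ciSup_le hmc
  have hex : ∀ n, ∃ p ∈ D012 q Ω, ‖p.1 - y‖ ≤ e n ∧ ‖p.2‖ < m n + e n := by
    intro n
    obtain ⟨r, ⟨p, hp, h1, rfl⟩, h2⟩ := exists_lt_of_csInf_lt (hSne n)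
      (show sInf (S n) < m n + e n by have := hepos n; linarith)
    exact ⟨p, hp, h1, h2⟩
  choose P hP hP1 hP2 using hex
  have hP1lim : Tendsto (fun n => (P n).1) atTop (𝓝 y) := by
    rw [tendsto_iff_norm_sub_tendsto_zero]
    exact squeeze_zero (fun _ => norm_nonneg _) hP1 helim
  have hcau : CauchySeq (fun n => (P n).2) := by
    apply cauchySeq_of_le_tendsto_0 (fun K => 2 * Real.sqrt ((m0 + e K) ^ 2 - m K ^ 2))
    · intro n k K hn hk
      have hn2 : ‖(P n).2‖ ≤ m0 + e K := by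
        have := hP2 n; have := hmle n; have := hemono K n hn; linarith
      have hk2 : ‖(P k).2‖ ≤ m0 + e K := by
        have := hP2 k; have := hmle k; have := hemono K k hk; linarith
      have hmid : m K ≤ ‖(1/2 : ℝ) • ((P n).2 + (P k).2)‖ := by
        apply csInf_le (hSbdd K)
        refine ⟨(1/2 : ℝ) • (P n + P k), D012_smul _ (D012_add (hP n) (hP k)), ?_, rfl⟩
        have e1 : ((1/2 : ℝ) • (P n + P k)).1 - y = (1/2 : ℝ) • (((P n).1 - y) + ((P k).1 - y)) := by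
          rw [Prod.smul_fst, Prod.fst_add]
          have : y = (1/2 : ℝ) • (y + y) := by rw [← two_smul ℝ y, smul_smul]; norm_num
          nth_rewrite 1 [this]
          rw [← smul_sub]
          congr 1
          abel
        rw [e1, norm_smul]
        have h5 := norm_add_le ((P n).1 - y) ((P k).1 - y)
        have h6 := (hP1 n).trans (hemono K n hn)
        have h7 := (hP1 k).trans (hemono K k hk)
        rw [Real.norm_eq_abs, abs_of_pos (by norm_num : (0:ℝ) < 1/2)]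
        linarith
      rw [norm_smul, Real.norm_eq_abs, abs_of_pos (by norm_num : (0:ℝ) < 1/2)] at hmid
      have hpar := parallelogram_law_with_norm ℝ (P n).2 (P k).2
      rw [dist_eq_norm]
      have h8 : ‖(P n).2 - (P k).2‖ ^ 2 ≤ 4 * ((m0 + e K) ^ 2 - m K ^ 2) := by
        have h9 : m K ^ 2 ≤ (1/2 * ‖(P n).2 + (P k).2‖) ^ 2 := by
          have := hm0 K
          gcongr
        have h10 : ‖(P n).2‖ ^ 2 ≤ (m0 + e K) ^ 2 := by gcongr
        have h11 : ‖(P k).2‖ ^ 2 ≤ (m0 + e K) ^ 2 := by gcongr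
        nlinarith
      have h12 : ‖(P n).2 - (P k).2‖ ≤ Real.sqrt (4 * ((m0 + e K) ^ 2 - m K ^ 2)) :=
        Real.le_sqrt_of_sq_le h8
      rw [Real.sqrt_mul (by norm_num)] at h12
      have h13 : Real.sqrt 4 = 2 := by
        rw [show (4:ℝ) = 2 ^ 2 by norm_num]
        exact Real.sqrt_sq (by norm_num)
      rwa [h13] at h12
    · have h14 : Tendsto (fun K => 2 * Real.sqrt ((m0 + e K) ^ 2 - m K ^ 2)) atTop
          (𝓝 (2 * Real.sqrt ((m0 + 0) ^ 2 - m0 ^ 2))) := by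
        apply Tendsto.const_mul
        apply (Real.continuous_sqrt.tendsto _).comp
        exact ((tendsto_const_nhds.add helim).pow 2).sub (hmlim.pow 2)
      simpa using h14
  obtain ⟨G, hG⟩ := cauchySeq_tendsto_of_complete hcau
  have hlim : Tendsto P atTop (𝓝 (y, G)) := hP1lim.prodMk_nhds hG
  refine ⟨(y, G), (D012_closed Ω).mem_of_tendsto hlim (Eventually.of_forall hP), rfl, ?_⟩
  have h15 : Tendsto (fun n => m n + e n) atTop (𝓝 (m0 + 0)) := hmlim.add helim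
  rw [add_zero] at h15
  have h16 := le_of_tendsto_of_tendsto hG.norm h15 (Eventually.of_forall fun n => (hP2 n).le)
  exact h16.trans hm0c

end Pool.Agent.Helper793.Sob
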