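import Pool.Agent.Helper793.Sob2
set_option autoImplicit false
set_option linter.unusedSectionVars false
open MeasureTheory Metric Set Filter Topology
open scoped ENNReal NNReal

namespace Pool.Agent.Helper793.Sob

open Pool.Agent.Helper793.QEig

variable {N : ℕ} {q : ℝ≥0} [Fact (1 ≤ (q : ℝ≥0∞))]

theorem one_le_q : 1 ≤ q := by
  have h : 1 ≤ (q : ℝ≥0∞) := Fact.out
  exact_mod_cast h

/-- the direct method -/
theorem exists_min {Ω : Set (EuclideanSpace ℝ (Fin N))} (hN : 2 ≤ N)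
    (hΩ : Bornology.IsBounded Ω) (hq' : ((N : ℝ) - 2) * q < 2 * N)
    {A : Set (Lp ℝ (q : ℝ≥0∞) (volume : Measure (EuclideanSpace ℝ (Fin N))))} (hA : IsClosed A)
    (hne : ∃ p ∈ D012 q Ω, p.1 ∈ A) :
    ∃ p ∈ D012 q Ω, p.1 ∈ A ∧ ∀ p' ∈ D012 q Ω, p'.1 ∈ A → ‖p.2‖ ≤ ‖p'.2‖ := by
  set S : Set ℝ := {r | ∃ p ∈ D012 q Ω, p.1 ∈ A ∧ ‖p.2‖ = r} with hS
  have hSne : S.Nonempty := by
    obtain ⟨p, hp, hpA⟩ := hne
    exact ⟨_, p, hp, hpA, rfl⟩
  have hSb : BddBelow S := ⟨0, by rintro r ⟨p, _, _, rfl⟩; exact norm_nonneg _⟩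
  set m := sInf S with hm
  have hex : ∀ n : ℕ, ∃ p ∈ D012 q Ω, p.1 ∈ A ∧ ‖p.2‖ < m + 1 / ((n : ℝ) + 1) := by
    intro n
    obtain ⟨r, ⟨p, hp, h1, rfl⟩, h2⟩ := exists_lt_of_csInf_lt hSne
      (show sInf S < m + 1 / ((n : ℝ) + 1) by
        have : 0 < 1 / ((n : ℝ) + 1) := by positivity
        linarith)
    exact ⟨p, hp, h1, h2⟩
  choose P hP hPA hPm using hex
  have htb := totallyBounded_D (q := q) hN hΩ one_le_q hq' (m + 1)
  have hcomp : IsCompact (closure ((fun p : Pairs N q => p.1) '' {p | p ∈ D012 q Ω ∧ ‖p.2‖ ≤ m + 1})) :=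
    htb.closure.isCompact_of_isClosed isClosed_closure
  have hmem : ∀ n, (P n).1 ∈ closure ((fun p : Pairs N q => p.1) '' {p | p ∈ D012 q Ω ∧ ‖p.2‖ ≤ m + 1}) := by
    intro n
    apply subset_closure
    refine ⟨P n, ⟨hP n, ?_⟩, rfl⟩
    have h1 : 1 / ((n : ℝ) + 1) ≤ 1 := by
      rw [div_le_one (by positivity)]
      have : (0:ℝ) ≤ n := by positivity
      linarith
    have := hPm n
    linarith
  obtain ⟨y, -, φ, hφ, hy⟩ := hcomp.tendsto_subseq hmem
  have hyA : y ∈ A := hA.mem_of_tendsto hy (Eventually.of_forall fun n => hPA _)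
  obtain ⟨p, hp, hp1, hp2⟩ := lsc_D (Ω := Ω) (y := y) (c := m) (by
    intro ε hε
    have e1 : ∀ᶠ n in atTop, dist (P (φ n)).1 y < ε := hy.eventually (ball_mem_nhds y hε)
    have e2 : ∀ᶠ n in atTop, 1 / (((φ n : ℕ) : ℝ) + 1) < ε :=
      (tendsto_one_div_add_atTop_nhds_zero_nat.comp hφ.tendsto_atTop).eventually_lt_const hε
    obtain ⟨n, hn1, hn2⟩ := (e1.and e2).exists
    refine ⟨P (φ n), hP _, ?_, ?_⟩
    · rw [← dist_eq_norm]; exact hn1.le
    · have := hPm (φ n)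
      linarith)
  refine ⟨p, hp, hp1 ▸ hyA, fun p' hp' hp'A => ?_⟩
  exact hp2.trans (csInf_le hSb ⟨p', hp', hp'A, rfl⟩)

theorem norm_Lp_rpow (f : Lp ℝ (q : ℝ≥0∞) (volume : Measure (EuclideanSpace ℝ (Fin N)))) :
    ‖f‖ ^ (q : ℝ) = ∫ x, |f x| ^ (q : ℝ) := by
  have hq : (1:ℝ) ≤ q := by exact_mod_cast one_le_q (q := q)
  have hq0 : (q : ℝ≥0∞) ≠ 0 := by
    have := one_le_q (q := q)
    have : 0 < q := lt_of_lt_of_le one_pos this
    exact_mod_cast this.ne'
  rw [Lp.norm_def, (Lp.memLp f).eLpNorm_eq_integral_rpow_norm hq0 ENNReal.coe_ne_top,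
    ENNReal.toReal_ofReal (by positivity)]
  simp only [ENNReal.coe_toReal, Real.norm_eq_abs]
  rw [← Real.rpow_mul (integral_nonneg fun _ => by positivity), inv_mul_cancel₀ (by positivity),
    Real.rpow_one]

theorem integrable_abs_rpow (f : Lp ℝ (q : ℝ≥0∞) (volume : Measure (EuclideanSpace ℝ (Fin N)))) :
    Integrable (fun x => |f x| ^ (q : ℝ)) volume := by
  have hq0 : (q : ℝ≥0∞) ≠ 0 := by
    have := one_le_q (q := q)
    have : 0 < q := lt_of_lt_of_le one_pos this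
    exact_mod_cast this.ne'
  have := (Lp.memLp f).integrable_norm_rpow hq0 ENNReal.coe_ne_top
  simpa using this

/-- smooth approximation of the positive part -/
noncomputable def hsm (ε t : ℝ) : ℝ := ∫ s in (0:ℝ)..t, Real.smoothTransition (s / ε)

theorem hsm_deriv (ε t : ℝ) : HasDerivAt (hsm ε) (Real.smoothTransition (t / ε)) t := by
  have hc : Continuous (fun s : ℝ => Real.smoothTransition (s / ε)) :=
    Real.smoothTransition.continuous.comp (by fun_prop)
  exact intervalIntegral.integral_hasDerivAt_right (hc.intervalIntegrable _ _)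
      (hc.stronglyMeasurableAtFilter _ _) hc.continuousAt

theorem hsm_contDiff (ε : ℝ) : ContDiff ℝ ((⊤ : ℕ∞) : WithTop ℕ∞) (hsm ε) := by
  rw [contDiff_infty_iff_deriv]
  refine ⟨fun t => (hsm_deriv ε t).differentiableAt, ?_⟩
  have : deriv (hsm ε) = fun t => Real.smoothTransition (t / ε) := by
    ext t; exact (hsm_deriv ε t).deriv
  rw [this]
  exact Real.smoothTransition.contDiff.comp (by fun_prop)

theorem hsm_zero (ε : ℝ) : hsm ε 0 = 0 := by simp [hsm]

theorem hsm_nonpos {ε t : ℝ} (hε : 0 < ε) (ht : t ≤ 0) : hsm ε t = 0 := by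
  unfold hsm
  rw [intervalIntegral.integral_symm, neg_eq_zero]
  have : ∫ s in t..(0:ℝ), Real.smoothTransition (s / ε) = ∫ s in t..(0:ℝ), (0:ℝ) := by
    apply intervalIntegral.integral_congr
    intro s hs
    rw [uIcc_of_le ht] at hs
    exact Real.smoothTransition.zero_of_nonpos (div_nonpos_of_nonpos_of_nonneg hs.2 hε.le)
  rw [this]; simp

theorem hsm_le {ε t : ℝ} (ht : 0 ≤ t) : hsm ε t ≤ t := by
  have hc : Continuous (fun s : ℝ => Real.smoothTransition (s / ε)) :=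
    Real.smoothTransition.continuous.comp (by fun_prop)
  have h1 : hsm ε t ≤ ∫ s in (0:ℝ)..t, (1:ℝ) := by
    apply intervalIntegral.integral_mono_on ht (hc.intervalIntegrable _ _) (by simp)
    intro s _
    exact Real.smoothTransition.le_one _
  simpa using h1

theorem hsm_nonneg {ε t : ℝ} (hε : 0 < ε) : 0 ≤ hsm ε t := by
  rcases le_total t 0 with ht | ht
  · rw [hsm_nonpos hε ht]
  · exact intervalIntegral.integral_nonneg ht (fun s _ => Real.smoothTransition.nonneg _)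

theorem hsm_ge {ε t : ℝ} (hε : 0 < ε) (ht : 0 ≤ t) : t - ε ≤ hsm ε t := by
  rcases le_total t ε with h | h
  · have := hsm_nonneg (t := t) hε
    linarith
  · have hc : Continuous (fun s : ℝ => Real.smoothTransition (s / ε)) :=
      Real.smoothTransition.continuous.comp (by fun_prop)
    unfold hsm
    rw [← intervalIntegral.integral_add_adjacent_intervals (hc.intervalIntegrable 0 ε)
      (hc.intervalIntegrable ε t)]
    have h1 : 0 ≤ ∫ s in (0:ℝ)..ε, Real.smoothTransition (s / ε) :=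
      intervalIntegral.integral_nonneg hε.le (fun s _ => Real.smoothTransition.nonneg _)
    have h2 : ∫ s in ε..t, Real.smoothTransition (s / ε) = ∫ s in ε..t, (1:ℝ) := by
      apply intervalIntegral.integral_congr
      intro s hs
      rw [uIcc_of_le h] at hs
      exact Real.smoothTransition.one_of_one_le ((one_le_div hε).mpr hs.1)
    rw [h2]
    simp only [intervalIntegral.integral_const, smul_eq_mul, mul_one]
    linarith

theorem hsm_abs {ε t : ℝ} (hε : 0 < ε) : |hsm ε t - max t 0| ≤ ε := by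
  rcases le_total t 0 with ht | ht
  · rw [hsm_nonpos hε ht, max_eq_right ht]
    simp [hε.le]
  · rw [max_eq_left ht, abs_le]
    have h1 := hsm_ge hε ht
    have h2 := hsm_le (ε := ε) ht
    constructor <;> linarith

theorem isTest_hsm {Ω : Set (EuclideanSpace ℝ (Fin N))} {φ : EuclideanSpace ℝ (Fin N) → ℝ}
    (hφ : IsTest Ω φ) (ε : ℝ) : IsTest Ω (fun x => hsm ε (φ x)) := by
  have hsup : Function.support (fun x => hsm ε (φ x)) ⊆ Function.support φ := by
    intro x hx h0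
    apply hx
    simp only
    rw [h0, hsm_zero]
  refine ⟨(hsm_contDiff ε).comp hφ.1, hφ.2.1.mono hsup, ?_⟩
  exact (closure_mono hsup).trans hφ.2.2

theorem isTest_neg {Ω : Set (EuclideanSpace ℝ (Fin N))} {φ : EuclideanSpace ℝ (Fin N) → ℝ}
    (hφ : IsTest Ω φ) : IsTest Ω (fun x => - φ x) := by
  have := isTest_smul hφ (-1)
  simpa using this

theorem fderiv_hsm {Ω : Set (EuclideanSpace ℝ (Fin N))} {φ : EuclideanSpace ℝ (Fin N) → ℝ}
    (hφ : IsTest Ω φ) (ε : ℝ) (x : EuclideanSpace ℝ (Fin N)) :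
    fderiv ℝ (fun x => hsm ε (φ x)) x = Real.smoothTransition (φ x / ε) • fderiv ℝ φ x :=
  ((hsm_deriv ε (φ x)).comp_hasFDerivAt x ((hφ.1.differentiable (by simp)) x).hasFDerivAt).fderiv

theorem fderiv_neg' (φ : EuclideanSpace ℝ (Fin N) → ℝ) (x : EuclideanSpace ℝ (Fin N)) :
    fderiv ℝ (fun x => - φ x) x = - fderiv ℝ φ x := fderiv_fun_neg

/-- convergence of the smooth positive parts -/
theorem tendsto_hsm {Ω : Set (EuclideanSpace ℝ (Fin N))} {φ : EuclideanSpace ℝ (Fin N) → ℝ}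
    (hφ : IsTest Ω φ) :
    Tendsto (fun n : ℕ => (pairOf q (isTest_hsm hφ (1 / ((n : ℝ) + 1)))).1) atTop
      (𝓝 (Lp.posPart (pairOf q hφ).1)) := by
  set K := tsupport φ with hK
  have hKc : IsCompact K := hφ.2.1
  have hKt : volume K ≠ ⊤ := hKc.measure_lt_top.ne
  set V : ℝ := ((volume K) ^ ((q : ℝ≥0∞).toReal)⁻¹).toReal with hV
  rw [tendsto_iff_norm_sub_tendsto_zero]
  have hb : ∀ n : ℕ, ‖(pairOf q (isTest_hsm hφ (1 / ((n : ℝ) + 1)))).1 - Lp.posPart (pairOf q hφ).1‖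
      ≤ (1 / ((n : ℝ) + 1)) * V := by
    intro n
    set ε := 1 / ((n : ℝ) + 1) with hε
    have hε0 : 0 < ε := by positivity
    set g : EuclideanSpace ℝ (Fin N) → ℝ := fun x => hsm ε (φ x) - max (φ x) 0 with hg
    have hae : ((pairOf q (isTest_hsm hφ ε)).1 - Lp.posPart (pairOf q hφ).1 :
        Lp ℝ (q : ℝ≥0∞) (volume : Measure (EuclideanSpace ℝ (Fin N)))) =ᵐ[volume] g := by
      filter_upwards [Lp.coeFn_sub (pairOf q (isTest_hsm hφ ε)).1 (Lp.posPart (pairOf q hφ).1),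
        MemLp.coeFn_toLp (memLp_test (isTest_hsm hφ ε) q), Lp.coeFn_posPart (pairOf q hφ).1,
        MemLp.coeFn_toLp (memLp_test hφ q)] with x h1 h2 h3 h4
      rw [h1, Pi.sub_apply, h3]
      have h5 : (pairOf q (isTest_hsm hφ ε)).1 x = hsm ε (φ x) := h2
      have h6 : (pairOf q hφ).1 x = φ x := h4
      rw [h5, h6]
    rw [Lp.norm_def, eLpNorm_congr_ae hae]
    have hsup : Function.support g ⊆ K := by
      intro x hx
      apply subset_tsupport
      intro h0
      apply hx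
      simp only [hg]
      rw [h0, hsm_zero, max_self, sub_zero]
    rw [← eLpNorm_restrict_eq_of_support_subset hsup]
    have hbb : ∀ᵐ x ∂(volume.restrict K), ‖g x‖ ≤ ε := Eventually.of_forall fun x => hsm_abs hε0
    have h7 := eLpNorm_le_of_ae_bound (p := (q : ℝ≥0∞)) hbb
    rw [Measure.restrict_apply_univ] at h7
    have hVt : (volume K) ^ ((q : ℝ≥0∞).toReal)⁻¹ ≠ ⊤ := by
      apply ENNReal.rpow_ne_top_of_nonneg _ hKt
      simp
    have h8 := ENNReal.toReal_mono (ENNReal.mul_ne_top hVt ENNReal.ofReal_ne_top) h7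
    rw [ENNReal.toReal_mul, ENNReal.toReal_ofReal hε0.le, ← hV, mul_comm] at h8
    exact h8
  refine squeeze_zero (fun _ => norm_nonneg _) hb ?_
  have := (tendsto_one_div_add_atTop_nhds_zero_nat (𝕜 := ℝ)).mul_const V
  simpa using this

theorem pairOf_neg {Ω : Set (EuclideanSpace ℝ (Fin N))} {φ : EuclideanSpace ℝ (Fin N) → ℝ}
    (hφ : IsTest Ω φ) : (pairOf q (isTest_neg hφ)).1 = - (pairOf q hφ).1 :=
  MemLp.toLp_neg (memLp_test hφ q)

theorem norm_snd_sq {Ω : Set (EuclideanSpace ℝ (Fin N))} {φ : EuclideanSpace ℝ (Fin N) → ℝ}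
    (hφ : IsTest Ω φ) : ‖(pairOf q hφ).2‖ ^ 2 = ∫ x, ‖fderiv ℝ φ x‖ ^ 2 := by
  rw [norm_pairOf_snd, ← ENNReal.toReal_pow, eLpNorm_two_sq]
  have h1 : ∫⁻ x, ‖fderiv ℝ φ x‖ₑ ^ 2 = ∫⁻ x, ENNReal.ofReal (‖fderiv ℝ φ x‖ ^ 2) := by
    apply lintegral_congr
    intro x
    rw [ENNReal.ofReal_pow (norm_nonneg _), ofReal_norm]
  rw [h1, ← integral_eq_lintegral_of_nonneg_ae (Eventually.of_forall fun x => by positivity)]
  exact ((hφ.1.continuous_fderiv (by simp)).norm.pow 2).aestronglyMeasurable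

theorem integrable_fderiv_sq {Ω : Set (EuclideanSpace ℝ (Fin N))} {φ : EuclideanSpace ℝ (Fin N) → ℝ}
    (hφ : IsTest Ω φ) : Integrable (fun x => ‖fderiv ℝ φ x‖ ^ 2) volume := by
  apply Continuous.integrable_of_hasCompactSupport
  · exact (hφ.1.continuous_fderiv (by simp)).norm.pow 2
  · exact (hφ.2.1.fderiv ℝ).comp_left (g := fun A => ‖A‖ ^ 2) (by simp)

theorem st_sq (a ε : ℝ) (hε : 0 < ε) :
    Real.smoothTransition (a / ε) ^ 2 + Real.smoothTransition (-a / ε) ^ 2 ≤ 1 := by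
  rcases le_total a 0 with ha | ha
  · rw [Real.smoothTransition.zero_of_nonpos (div_nonpos_of_nonpos_of_nonneg ha hε.le)]
    have h1 := Real.smoothTransition.le_one (-a / ε)
    have h2 := Real.smoothTransition.nonneg (-a / ε)
    nlinarith
  · rw [Real.smoothTransition.zero_of_nonpos (x := -a / ε)
      (div_nonpos_of_nonpos_of_nonneg (by linarith) hε.le)]
    have h1 := Real.smoothTransition.le_one (a / ε)
    have h2 := Real.smoothTransition.nonneg (a / ε)
    nlinarith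

/-- positive and negative parts split the energy -/
theorem pos_neg_ineq {Ω : Set (EuclideanSpace ℝ (Fin N))} {lam : ℝ}
    (h : ∀ p ∈ D012 q Ω, lam * ‖p.1‖ ^ 2 ≤ ‖p.2‖ ^ 2) {p : Pairs N q} (hp : p ∈ D012 q Ω) :
    lam * (‖Lp.posPart p.1‖ ^ 2 + ‖Lp.negPart p.1‖ ^ 2) ≤ ‖p.2‖ ^ 2 := by
  apply D012_induction (P := fun p => lam * (‖Lp.posPart p.1‖ ^ 2 + ‖Lp.negPart p.1‖ ^ 2) ≤ ‖p.2‖ ^ 2)
    _ _ hp
  · apply isClosed_le
    · have h1 := (Lp.continuous_posPart (p := (q : ℝ≥0∞)) (μ := (volume : Measure (EuclideanSpace ℝ (Fin N)))))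
      have h2 := (Lp.continuous_negPart (p := (q : ℝ≥0∞)) (μ := (volume : Measure (EuclideanSpace ℝ (Fin N)))))
      have h3 := h1.comp (continuous_fst (X := Lp ℝ (q : ℝ≥0∞) (volume : Measure (EuclideanSpace ℝ (Fin N))))
        (Y := Lp (EuclideanSpace ℝ (Fin N)) 2 (volume : Measure (EuclideanSpace ℝ (Fin N)))))
      have h4 := h2.comp (continuous_fst (X := Lp ℝ (q : ℝ≥0∞) (volume : Measure (EuclideanSpace ℝ (Fin N))))
        (Y := Lp (EuclideanSpace ℝ (Fin N)) 2 (volume : Measure (EuclideanSpace ℝ (Fin N)))))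
      exact continuous_const.mul ((h3.norm.pow 2).add (h4.norm.pow 2))
    · fun_prop
  · intro φ hφ
    have key : ∀ n : ℕ, lam * (‖(pairOf q (isTest_hsm hφ (1 / ((n : ℝ) + 1)))).1‖ ^ 2 +
        ‖(pairOf q (isTest_hsm (isTest_neg hφ) (1 / ((n : ℝ) + 1)))).1‖ ^ 2) ≤ ‖(pairOf q hφ).2‖ ^ 2 := by
      intro n
      set ε := 1 / ((n : ℝ) + 1) with hε
      have hε0 : 0 < ε := by positivity
      have h1 := h _ (pairOf_mem (q := q) (isTest_hsm hφ ε))
      have h2 := h _ (pairOf_mem (q := q) (isTest_hsm (isTest_neg hφ) ε))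
      rw [norm_snd_sq] at h1 h2
      rw [norm_snd_sq]
      have h3 : (∫ x, ‖fderiv ℝ (fun x => hsm ε (φ x)) x‖ ^ 2) +
          (∫ x, ‖fderiv ℝ (fun x => hsm ε (- φ x)) x‖ ^ 2) ≤ ∫ x, ‖fderiv ℝ φ x‖ ^ 2 := by
        rw [← integral_add (integrable_fderiv_sq (isTest_hsm hφ ε))
          (integrable_fderiv_sq (isTest_hsm (isTest_neg hφ) ε))]
        apply integral_mono ((integrable_fderiv_sq (isTest_hsm hφ ε)).add
          (integrable_fderiv_sq (isTest_hsm (isTest_neg hφ) ε))) (integrable_fderiv_sq hφ)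
        intro x
        simp only [Pi.add_apply]
        rw [fderiv_hsm hφ, fderiv_hsm (isTest_neg hφ), fderiv_neg', norm_smul, norm_smul, norm_neg,
          mul_pow, mul_pow, ← add_mul, Real.norm_eq_abs, Real.norm_eq_abs, sq_abs, sq_abs]
        have h4 := st_sq (φ x) ε hε0
        have h5 : 0 ≤ ‖fderiv ℝ φ x‖ ^ 2 := by positivity
        nlinarith
      linarith
    have t1 := tendsto_hsm (q := q) hφ
    have t2 := tendsto_hsm (q := q) (isTest_neg hφ)
    rw [pairOf_neg hφ] at t2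
    have t3 : Tendsto (fun n : ℕ => lam * (‖(pairOf q (isTest_hsm hφ (1 / ((n : ℝ) + 1)))).1‖ ^ 2 +
        ‖(pairOf q (isTest_hsm (isTest_neg hφ) (1 / ((n : ℝ) + 1)))).1‖ ^ 2)) atTop
        (𝓝 (lam * (‖Lp.posPart (pairOf q hφ).1‖ ^ 2 + ‖Lp.posPart (-(pairOf q hφ).1)‖ ^ 2))) :=
      ((t1.norm.pow 2).add (t2.norm.pow 2)).const_mul lam
    exact le_of_tendsto t3 (Eventually.of_forall key)

/-- the absolute value stays in the space with no larger energy -/
theorem exists_abs {Ω : Set (EuclideanSpace ℝ (Fin N))} {p : Pairs N q} (hp : p ∈ D012 q Ω) :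
    ∃ p' ∈ D012 q Ω, p'.1 = Lp.posPart p.1 + Lp.negPart p.1 ∧ ‖p'.2‖ ≤ ‖p.2‖ := by
  apply lsc_D
  intro ε hε
  have hcl : p ∈ closure (TS q Ω : Set (Pairs N q)) := hp
  rw [mem_closure_iff_seq_limit] at hcl
  obtain ⟨P, hP, hPl⟩ := hcl
  have l1 : Tendsto (fun n => Lp.posPart (P n).1 + Lp.negPart (P n).1) atTop
      (𝓝 (Lp.posPart p.1 + Lp.negPart p.1)) := by
    have h1 : Tendsto (fun n => (P n).1) atTop (𝓝 p.1) := (continuous_fst.tendsto p).comp hPl
    exact ((Lp.continuous_posPart.tendsto _).comp h1).add ((Lp.continuous_negPart.tendsto _).comp h1)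
  have l2 : Tendsto (fun n => ‖(P n).2‖) atTop (𝓝 ‖p.2‖) :=
    ((continuous_snd.tendsto p).comp hPl).norm
  have e1 : ∀ᶠ n in atTop, dist (Lp.posPart (P n).1 + Lp.negPart (P n).1)
      (Lp.posPart p.1 + Lp.negPart p.1) < ε / 2 := l1.eventually (ball_mem_nhds _ (by positivity))
  have e2 : ∀ᶠ n in atTop, ‖(P n).2‖ < ‖p.2‖ + ε := l2.eventually_lt_const (by linarith)
  obtain ⟨n, hn1, hn2⟩ := (e1.and e2).exists
  obtain ⟨φ, hφ, hPφ⟩ := TS_eq_pairOf (hP n)
  rw [hPφ] at hn1 hn2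
  have t1 := tendsto_hsm (q := q) hφ
  have t2 := tendsto_hsm (q := q) (isTest_neg hφ)
  rw [pairOf_neg hφ] at t2
  have t3 := t1.add t2
  have e3 := t3.eventually (ball_mem_nhds _ (show 0 < ε / 2 by positivity))
  obtain ⟨k, hk⟩ := e3.exists
  set δ := 1 / ((k : ℝ) + 1) with hδ
  have hδ0 : 0 < δ := by positivity
  refine ⟨pairOf q (isTest_add (isTest_hsm hφ δ) (isTest_hsm (isTest_neg hφ) δ)), pairOf_mem _, ?_, ?_⟩
  · have e4 : (pairOf q (isTest_add (isTest_hsm hφ δ) (isTest_hsm (isTest_neg hφ) δ))).1 =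
        (pairOf q (isTest_hsm hφ δ)).1 + (pairOf q (isTest_hsm (isTest_neg hφ) δ)).1 :=
      MemLp.toLp_add (memLp_test (isTest_hsm hφ δ) q) (memLp_test (isTest_hsm (isTest_neg hφ) δ) q)
    rw [e4, ← dist_eq_norm]
    refine (dist_triangle _ (Lp.posPart (pairOf q hφ).1 + Lp.negPart (pairOf q hφ).1) _).trans ?_
    have h9 : dist ((pairOf q (isTest_hsm hφ δ)).1 + (pairOf q (isTest_hsm (isTest_neg hφ) δ)).1)
        (Lp.posPart (pairOf q hφ).1 + Lp.negPart (pairOf q hφ).1) < ε / 2 := hk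
    linarith
  · refine le_trans ?_ hn2.le
    rw [← sq_le_sq₀ (norm_nonneg _) (norm_nonneg _), norm_snd_sq, norm_snd_sq]
    apply integral_mono (integrable_fderiv_sq
      (isTest_add (isTest_hsm hφ δ) (isTest_hsm (isTest_neg hφ) δ))) (integrable_fderiv_sq hφ)
    intro x
    simp only
    have hd1 : DifferentiableAt ℝ (fun x => hsm δ (φ x)) x :=
      ((isTest_hsm hφ δ).1.differentiable (by simp)) x
    have hd2 : DifferentiableAt ℝ (fun x => hsm δ (- φ x)) x :=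
      ((isTest_hsm (isTest_neg hφ) δ).1.differentiable (by simp)) x
    rw [fderiv_fun_add hd1 hd2, fderiv_hsm hφ, fderiv_hsm (isTest_neg hφ), fderiv_neg', smul_neg,
      ← sub_eq_add_neg, ← sub_smul, norm_smul, mul_pow, Real.norm_eq_abs, sq_abs]
    have h5 : 0 ≤ ‖fderiv ℝ φ x‖ ^ 2 := by positivity
    have h6 : (Real.smoothTransition (φ x / δ) - Real.smoothTransition (-φ x / δ)) ^ 2 ≤ 1 := by
      have h4 := st_sq (φ x) δ hδ0
      have h7 := Real.smoothTransition.nonneg (φ x / δ)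
      have h8 := Real.smoothTransition.nonneg (-φ x / δ)
      nlinarith [mul_nonneg h7 h8]
    nlinarith

/-- Euler-Lagrange equation -/
theorem euler_lagrange {Ω : Set (EuclideanSpace ℝ (Fin N))} (hq : 1 < q) {p : Pairs N q}
    (hp1 : ‖p.1‖ = 1) {ψ : EuclideanSpace ℝ (Fin N) → ℝ}
    (hψ : IsTest Ω ψ)
    (hmin : ∀ᶠ t in 𝓝 (0:ℝ), ‖p.2‖ ^ 2 * ‖p.1 + t • (pairOf q hψ).1‖ ^ 2 ≤
      ‖p.2 + t • (pairOf q hψ).2‖ ^ 2) :
    ∫ x, inner ℝ (p.2 x) (gradient ψ x) =
      ‖p.2‖ ^ 2 * ∫ x, |p.1 x| ^ ((q : ℝ) - 2) * p.1 x * ψ x := by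
  have hq1 : (1:ℝ) < q := by exact_mod_cast hq
  have hq0 : (0:ℝ) < q := by linarith
  set u : EuclideanSpace ℝ (Fin N) → ℝ := fun x => p.1 x with hu
  have hum : StronglyMeasurable u := Lp.stronglyMeasurable p.1
  have hψc : Continuous ψ := hψ.1.continuous
  set F : ℝ → EuclideanSpace ℝ (Fin N) → ℝ := fun t x => |u x + t * ψ x| ^ (q : ℝ) with hF
  set F' : ℝ → EuclideanSpace ℝ (Fin N) → ℝ := fun t x =>
    ((q : ℝ) * |u x + t * ψ x| ^ ((q : ℝ) - 2) * (u x + t * ψ x)) * ψ x with hF'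
  have hmem : MemLp (fun x => |u x| + |ψ x|) (q : ℝ≥0∞) volume :=
    (Lp.memLp p.1).abs.add (memLp_test hψ q).abs
  have hqne : (q : ℝ≥0∞) ≠ 0 := by
    have : 0 < q := lt_trans one_pos hq
    exact_mod_cast this.ne'
  have hbint : Integrable (fun x => (q : ℝ) * (|u x| + |ψ x|) ^ (q : ℝ)) volume := by
    have h1 := hmem.integrable_norm_rpow hqne ENNReal.coe_ne_top
    simp only [ENNReal.coe_toReal, Real.norm_eq_abs] at h1
    refine (h1.const_mul (q : ℝ)).congr (Eventually.of_forall fun x => ?_)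
    simp only
    rw [abs_of_nonneg (by positivity)]
  have hFm : ∀ t, AEStronglyMeasurable (F t) volume := by
    intro t
    have : Measurable (F t) := by
      have h1 := hum.measurable
      have h2 := hψc.measurable
      simp only [hF]
      fun_prop
    exact this.aestronglyMeasurable
  have hF'm : AEStronglyMeasurable (F' 0) volume := by
    have : Measurable (F' 0) := by
      have h1 := hum.measurable
      have h2 := hψc.measurable
      simp only [hF']
      fun_prop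
    exact this.aestronglyMeasurable
  have hF0int : Integrable (F 0) volume := by
    have h1 := integrable_abs_rpow p.1
    refine h1.congr (Eventually.of_forall fun x => ?_)
    simp [hF, hu]
  have hbound : ∀ x, ∀ t ∈ ball (0:ℝ) 1, ‖F' t x‖ ≤ (q : ℝ) * (|u x| + |ψ x|) ^ (q : ℝ) := by
    intro x t ht
    rw [mem_ball, dist_zero_right, Real.norm_eq_abs] at ht
    simp only [hF']
    set a := u x + t * ψ x with ha
    have haa : |a| ≤ |u x| + |ψ x| := by
      refine (abs_add_le _ _).trans ?_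
      have h0 : |t * ψ x| ≤ |ψ x| := by
        rw [abs_mul]
        nlinarith [abs_nonneg (ψ x)]
      linarith
    have h1 : |a| ^ ((q:ℝ) - 2) * |a| = |a| ^ ((q:ℝ) - 1) := by
      rcases eq_or_ne a 0 with h0 | h0
      · rw [h0]
        simp only [abs_zero, mul_zero]
        rw [Real.zero_rpow (by linarith)]
      · have h2 : 0 < |a| := abs_pos.mpr h0
        rw [← Real.rpow_add_one h2.ne']
        congr 1
        ring
    rw [norm_mul, norm_mul, norm_mul, Real.norm_eq_abs, Real.norm_eq_abs, Real.norm_eq_abs,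
      Real.norm_eq_abs, abs_of_pos hq0, abs_of_nonneg (by positivity : 0 ≤ |a| ^ ((q:ℝ) - 2)),
      mul_assoc (q : ℝ), h1, mul_assoc]
    gcongr
    have h3 : (|u x| + |ψ x|) ^ (q:ℝ) = (|u x| + |ψ x|) ^ ((q:ℝ) - 1) * (|u x| + |ψ x|) := by
      rcases eq_or_lt_of_le (show 0 ≤ |u x| + |ψ x| by positivity) with h0 | h0
      · rw [← h0, Real.zero_rpow hq0.ne', mul_zero]
      · rw [← Real.rpow_add_one h0.ne']
        congr 1
        ring
    rw [h3]
    have h4 : |ψ x| ≤ |u x| + |ψ x| := by linarith [abs_nonneg (u x)]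
    have h5 : |a| ^ ((q:ℝ) - 1) ≤ (|u x| + |ψ x|) ^ ((q:ℝ) - 1) :=
      Real.rpow_le_rpow (abs_nonneg _) haa (by linarith)
    exact mul_le_mul h5 h4 (abs_nonneg _) (by positivity)
  have hdiff : ∀ x, ∀ t ∈ ball (0:ℝ) 1, HasDerivAt (fun t => F t x) (F' t x) t := by
    intro x t _
    have h1 : HasDerivAt (fun t => u x + t * ψ x) (ψ x) t := by
      simpa using ((hasDerivAt_id t).mul_const (ψ x)).const_add (u x)
    exact (hasDerivAt_abs_rpow (u x + t * ψ x) hq1).comp t h1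
  obtain ⟨-, hder⟩ := hasDerivAt_integral_of_dominated_loc_of_deriv_le (μ := (volume : Measure (EuclideanSpace ℝ (Fin N))))
    (x₀ := (0:ℝ)) (s := ball (0:ℝ) 1) (ball_mem_nhds 0 one_pos) (F := F) (F' := F')
    (Eventually.of_forall hFm) hF0int hF'm (Eventually.of_forall fun x => hbound x) hbint
    (Eventually.of_forall fun x => hdiff x)
  -- norm in terms of F
  have hnorm : ∀ t : ℝ, ‖p.1 + t • (pairOf q hψ).1‖ ^ 2 = (∫ x, F t x) ^ ((2:ℝ) / q) := by
    intro t
    have h1 := norm_Lp_rpow (p.1 + t • (pairOf q hψ).1)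
    have h2 : ∫ x, |(p.1 + t • (pairOf q hψ).1 : Lp ℝ (q : ℝ≥0∞) (volume : Measure (EuclideanSpace ℝ (Fin N)))) x| ^ (q:ℝ)
        = ∫ x, F t x := by
      apply integral_congr_ae
      filter_upwards [Lp.coeFn_add p.1 (t • (pairOf q hψ).1), Lp.coeFn_smul t (pairOf q hψ).1,
        MemLp.coeFn_toLp (memLp_test hψ q)] with x e1 e2 e3
      have e4 : (pairOf q hψ).1 x = ψ x := e3
      rw [e1, Pi.add_apply, e2, Pi.smul_apply, e4, smul_eq_mul]
    rw [h2] at h1
    rw [← h1, ← Real.rpow_mul (norm_nonneg _)]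
    have : (q:ℝ) * (2 / q) = (2:ℕ) := by field_simp; norm_num
    rw [this, Real.rpow_natCast]
  have hF0 : ∫ x, F 0 x = 1 := by
    have h1 := norm_Lp_rpow p.1
    rw [hp1, Real.one_rpow] at h1
    rw [h1]
    congr 1
    ext x
    simp [hF, hu]
  have hder2 : HasDerivAt (fun t => (∫ x, F t x) ^ ((2:ℝ) / q))
      ((∫ x, F' 0 x) * ((2:ℝ) / q) * (∫ x, F 0 x) ^ ((2:ℝ) / q - 1)) 0 :=
    hder.rpow_const (Or.inl (by rw [hF0]; norm_num))
  rw [hF0, Real.one_rpow, mul_one] at hder2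
  -- quadratic part
  have hquad : HasDerivAt (fun t : ℝ => ‖p.2 + t • (pairOf q hψ).2‖ ^ 2)
      (2 * inner ℝ p.2 (pairOf q hψ).2) 0 := by
    have h1 : HasDerivAt (fun t : ℝ => p.2 + t • (pairOf q hψ).2) (pairOf q hψ).2 0 := by
      simpa using ((hasDerivAt_id (0:ℝ)).smul_const (pairOf q hψ).2).const_add p.2
    have h2 := h1.norm_sq
    simpa using h2
  have hloc : IsLocalMin (fun t : ℝ => ‖p.2 + t • (pairOf q hψ).2‖ ^ 2 -
      ‖p.2‖ ^ 2 * (∫ x, F t x) ^ ((2:ℝ) / q)) 0 := by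
    filter_upwards [hmin] with t ht
    rw [hnorm] at ht
    rw [hF0]
    simp only [zero_smul, add_zero, Real.one_rpow, mul_one, sub_self]
    linarith
  have hzero := hloc.hasDerivAt_eq_zero (hquad.sub (hder2.const_mul (‖p.2‖ ^ 2)))
  have hinner : inner ℝ p.2 (pairOf q hψ).2 = ∫ x, inner ℝ (p.2 x) (gradient ψ x) := by
    rw [L2.inner_def]
    apply integral_congr_ae
    filter_upwards [MemLp.coeFn_toLp (memLp_grad hψ 2)] with x e3
    have e4 : (pairOf q hψ).2 x = gradient ψ x := e3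
    rw [e4]
  have hF'0 : ∫ x, F' 0 x = q * ∫ x, |p.1 x| ^ ((q : ℝ) - 2) * p.1 x * ψ x := by
    rw [← integral_const_mul]
    congr 1
    ext x
    simp only [hF', hu, zero_mul, add_zero]
    ring
  rw [hinner, hF'0] at hzero
  have h9 : (q:ℝ) * (∫ x, |p.1 x| ^ ((q : ℝ) - 2) * p.1 x * ψ x) * (2 / q) =
      2 * ∫ x, |p.1 x| ^ ((q : ℝ) - 2) * p.1 x * ψ x := by
    field_simp
  rw [h9] at hzero
  linarith

end Pool.Agent.Helper793.Sob
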