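import Pool.Agent.Helper793.Uni
import Pool.Agent.Helper793.FConv

set_option autoImplicit false
set_option linter.unusedSectionVars false

open MeasureTheory Metric Set Filter Topology
open scoped ENNReal NNReal
open Pool.Agent.Helper793.QEig Pool.Agent.Helper793.Sob Pool.Agent.Helper793.Cut
open Pool.Agent.Helper793.Uni
open Pool.Agent.Helper793.FEig (FP IsD Spec SpecLS Sphere genus HasOddMap lamLS energy normLq cls
  cls_mem cls_neg cls_tendsto isEig_of isD_of_mem normLq_coe energy_coe ConvD IsCompactD)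

namespace Pool.Agent.Helper793.Two

variable {N : ℕ}

variable {q : ℝ≥0} [Fact (1 ≤ (q : ℝ≥0∞))]

/-- a continuous odd function vanishes somewhere on a set of genus at least two -/
theorem exists_zero {Ω : Set (EuclideanSpace ℝ (Fin N))} (hN : 2 ≤ N)
    (hΩ : Bornology.IsBounded Ω) (hq' : ((N : ℝ) - 2) * q < 2 * N) {F : Set (FP N)}
    (hF : F ⊆ Sphere q Ω) (hg : (2 : ℕ∞) ≤ genus F) {g : Pairs N q → ℝ} (hgc : Continuous g)
    (hgodd : ∀ p, g (-p) = - g p) : ∃ p ∈ F, g (cls q p) = 0 := by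
  by_contra hcon
  push Not at hcon
  have hodd : HasOddMap F 1 := by
    refine ⟨fun p => (g (cls q p) / |g (cls q p)|) • EuclideanSpace.single (0 : Fin 1) (1:ℝ), ?_, ?_, ?_⟩
    · intro s hs p hp hsp
      have h1 := cls_tendsto (q := q) hN hΩ hq' (fun n => (hF (hs n)).1) (hF hp).1 hsp
      have h2 : Tendsto (fun n => g (cls q (s n))) atTop (𝓝 (g (cls q p))) :=
        (hgc.tendsto _).comp h1
      exact (h2.div h2.abs (abs_ne_zero.mpr (hcon p hp))).smul_const _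
    · intro p hp
      rw [norm_smul, norm_div, Real.norm_eq_abs, Real.norm_eq_abs, abs_abs,
        div_self (abs_ne_zero.mpr (hcon p hp))]
      simp
    · intro p hp
      obtain ⟨_, _, _, hu, hG⟩ := cls_mem (q := q) hN hΩ hq' (hF hp).1
      simp only
      rw [cls_neg hu hG, hgodd, abs_neg, neg_div, neg_smul]
  have h1 : genus F ≤ 1 := sInf_le ⟨1, by norm_num, le_rfl, hodd⟩
  have h2 := hg.trans h1
  norm_num at h2

/-- lower bound for the energy on sets of genus at least two -/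
theorem ls_lower {Ω₁ Ω₂ : Set (EuclideanSpace ℝ (Fin N))} {χ : EuclideanSpace ℝ (Fin N) → ℝ}
    (h : Sep Ω₁ Ω₂ χ) (hN : 2 ≤ N) (hΩ : Bornology.IsBounded (Ω₁ ∪ Ω₂))
    (hq' : ((N : ℝ) - 2) * q < 2 * N) {m L μ : ℝ}
    (hm : ∀ p ∈ D012 q Ω₁, ‖Lp.posPart p.1‖ = ‖Lp.negPart p.1‖ → m * ‖p.1‖ ^ 2 ≤ ‖p.2‖ ^ 2)
    (hL : ∀ p ∈ D012 q Ω₂, L * ‖p.1‖ ^ 2 ≤ ‖p.2‖ ^ 2)
    (hμ : ∀ t ∈ Icc (0:ℝ) 1, μ ≤ m * t ^ (2 / (q:ℝ)) + L * (1 - t) ^ (2 / (q:ℝ)))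
    {F : Set (FP N)} (hF : F ⊆ Sphere q (Ω₁ ∪ Ω₂)) (hg : (2 : ℕ∞) ≤ genus F) :
    ∃ p ∈ F, μ ≤ energy p.2 := by
  have hq0 := q_pos (q := q)
  have hpc : Continuous (fun f : Lp ℝ (q : ℝ≥0∞) (volume : Measure (EuclideanSpace ℝ (Fin N))) =>
      Lp.posPart f) := Lp.continuous_posPart
  have hnc : Continuous (fun f : Lp ℝ (q : ℝ≥0∞) (volume : Measure (EuclideanSpace ℝ (Fin N))) =>
      Lp.negPart f) := Lp.continuous_negPart
  have htc : Continuous (fun p : Pairs N q => (tr q h.o1.measurableSet p).1) :=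
    continuous_fst.comp (ContinuousLinearMap.continuous _)
  obtain ⟨p, hpF, hp0⟩ := exists_zero (g := fun p : Pairs N q =>
    ‖Lp.posPart (tr q h.o1.measurableSet p).1‖ - ‖Lp.negPart (tr q h.o1.measurableSet p).1‖)
    hN hΩ hq' hF hg ((hpc.comp htc).norm.sub (hnc.comp htc).norm) (by
      intro p
      rw [map_neg, Prod.fst_neg]
      have h1 : Lp.posPart (-(tr q h.o1.measurableSet p).1) =
        Lp.negPart (tr q h.o1.measurableSet p).1 := rfl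
      have h2 : Lp.negPart (-(tr q h.o1.measurableSet p).1) =
          Lp.posPart (tr q h.o1.measurableSet p).1 := by
        change Lp.posPart (- -(tr q h.o1.measurableSet p).1) = _
        rw [neg_neg]
      rw [h1, h2]
      ring)
  refine ⟨p, hpF, ?_⟩
  obtain ⟨hm', hn, he, _, _⟩ := cls_mem (q := q) hN hΩ hq' (hF hpF).1
  rw [(hF hpF).2] at hn
  rw [← he]
  set P := cls q p with hP
  obtain ⟨d0, d1, d2⟩ := h.decomp hm'
  obtain ⟨n1, n2⟩ := h.norm_decomp hm'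
  set P₁ := tr q h.o1.measurableSet P with hP1
  set P₂ := tr q h.o2.measurableSet P with hP2
  rw [hn, Real.one_rpow] at n1
  have e1 := hm P₁ d1 (by linarith)
  have e2 := hL P₂ d2
  have hsq : ∀ c : ℝ, 0 ≤ c → c ^ 2 = (c ^ (q:ℝ)) ^ (2 / (q:ℝ)) := by
    intro c hc
    rw [← Real.rpow_mul hc]
    have : (q:ℝ) * (2 / q) = (2:ℕ) := by field_simp; norm_num
    rw [this, Real.rpow_natCast]
  rw [hsq _ (norm_nonneg P₁.1)] at e1
  rw [hsq _ (norm_nonneg P₂.1)] at e2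
  have h3 : ‖P₂.1‖ ^ (q:ℝ) = 1 - ‖P₁.1‖ ^ (q:ℝ) := by linarith
  rw [h3] at e2
  have h4 := hμ (‖P₁.1‖ ^ (q:ℝ)) ⟨by positivity, by
    have : 0 ≤ ‖P₂.1‖ ^ (q:ℝ) := by positivity
    linarith⟩
  linarith

theorem isD_congr {Ω : Set (EuclideanSpace ℝ (Fin N))} {P Q : FP N} (h : IsD Ω P)
    (h1 : P.1 =ᵐ[volume] Q.1) (h2 : P.2 =ᵐ[volume] Q.2) : IsD Ω Q := by
  obtain ⟨a1, a2, φ, hφ, a3, a4⟩ := h
  refine ⟨(memLp_congr_ae h1).mp a1, (memLp_congr_ae h2).mp a2, φ, hφ, ?_, ?_⟩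
  · refine a3.congr fun n => ?_
    apply eLpNorm_congr_ae
    filter_upwards [h1] with x hx
    rw [hx]
  · refine a4.congr fun n => ?_
    apply eLpNorm_congr_ae
    filter_upwards [h2] with x hx
    rw [hx]

/-- the function-level representative of a pair -/
noncomputable def rep (p : Pairs N q) : FP N :=
  ((p.1 : EuclideanSpace ℝ (Fin N) → ℝ), (p.2 : EuclideanSpace ℝ (Fin N) → EuclideanSpace ℝ (Fin N)))

theorem comb_ae (p₁ p₂ : Pairs N q) (α β : ℝ) :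
    (rep (α • p₁ + β • p₂)).1 =ᵐ[volume] (α • rep p₁ + β • rep p₂).1 ∧
    (rep (α • p₁ + β • p₂)).2 =ᵐ[volume] (α • rep p₁ + β • rep p₂).2 := by
  constructor
  · filter_upwards [Lp.coeFn_add (α • p₁.1) (β • p₂.1), Lp.coeFn_smul α p₁.1,
      Lp.coeFn_smul β p₂.1] with x a1 a2 a3
    change (α • p₁.1 + β • p₂.1 : Lp ℝ (q : ℝ≥0∞) (volume : Measure (EuclideanSpace ℝ (Fin N)))) x =
      α • p₁.1 x + β • p₂.1 x
    rw [a1, Pi.add_apply, a2, a3]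
    rfl
  · filter_upwards [Lp.coeFn_add (α • p₁.2) (β • p₂.2), Lp.coeFn_smul α p₁.2,
      Lp.coeFn_smul β p₂.2] with x a1 a2 a3
    change (α • p₁.2 + β • p₂.2 :
      Lp (EuclideanSpace ℝ (Fin N)) 2 (volume : Measure (EuclideanSpace ℝ (Fin N)))) x =
      α • p₁.2 x + β • p₂.2 x
    rw [a1, Pi.add_apply, a2, a3]
    rfl

theorem normLq_congr {u v : EuclideanSpace ℝ (Fin N) → ℝ} (h : u =ᵐ[volume] v) (s : ℝ) :
    normLq s u = normLq s v := by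
  rw [normLq, normLq]
  congr 1
  apply integral_congr_ae
  filter_upwards [h] with x hx
  rw [hx]

theorem energy_congr {G H : EuclideanSpace ℝ (Fin N) → EuclideanSpace ℝ (Fin N)}
    (h : G =ᵐ[volume] H) : energy G = energy H := by
  rw [energy, energy]
  apply integral_congr_ae
  filter_upwards [h] with x hx
  rw [hx]

theorem comb_energy {Ω₁ Ω₂ : Set (EuclideanSpace ℝ (Fin N))} {χ : EuclideanSpace ℝ (Fin N) → ℝ}
    (h : Sep Ω₁ Ω₂ χ) {p₁ p₂ : Pairs N q} (h1 : p₁ ∈ D012 q Ω₁) (h2 : p₂ ∈ D012 q Ω₂) (α β : ℝ) :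
    energy (α • rep p₁ + β • rep p₂).2 = α ^ 2 * ‖p₁.2‖ ^ 2 + β ^ 2 * ‖p₂.2‖ ^ 2 := by
  rw [← energy_congr (comb_ae p₁ p₂ α β).2]
  change energy ((α • p₁ + β • p₂).2 : EuclideanSpace ℝ (Fin N) → EuclideanSpace ℝ (Fin N)) = _
  rw [energy_coe, (h.norm_add (D012_smul α h1) (D012_smul β h2)).2, Prod.smul_snd, Prod.smul_snd,
    norm_smul, norm_smul, mul_pow, mul_pow, Real.norm_eq_abs, Real.norm_eq_abs, sq_abs, sq_abs]

theorem comb_sphere {Ω₁ Ω₂ : Set (EuclideanSpace ℝ (Fin N))} {χ : EuclideanSpace ℝ (Fin N) → ℝ}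
    (h : Sep Ω₁ Ω₂ χ) (hN : 2 ≤ N) (hΩ : Bornology.IsBounded (Ω₁ ∪ Ω₂)) {p₁ p₂ : Pairs N q}
    (h1 : p₁ ∈ D012 q Ω₁) (h2 : p₂ ∈ D012 q Ω₂)
    (n1 : ‖p₁.1‖ = 1) (n2 : ‖p₂.1‖ = 1) {α β : ℝ} (hαβ : |α| ^ (q:ℝ) + |β| ^ (q:ℝ) = 1) :
    α • rep p₁ + β • rep p₂ ∈ Sphere q (Ω₁ ∪ Ω₂) := by
  have hq0 := q_pos (q := q)
  have hmem : α • p₁ + β • p₂ ∈ D012 q (Ω₁ ∪ Ω₂) :=
    D012_add (D012_mono subset_union_left (D012_smul α h1))
      (D012_mono subset_union_right (D012_smul β h2))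
  obtain ⟨c1, c2⟩ := comb_ae p₁ p₂ α β
  refine ⟨isD_congr (isD_of_mem hN hΩ hmem) c1 c2, ?_⟩
  rw [← normLq_congr c1]
  change normLq q ((α • p₁ + β • p₂).1 : EuclideanSpace ℝ (Fin N) → ℝ) = 1
  rw [normLq_coe]
  have h3 := (h.norm_add (D012_smul α h1) (D012_smul β h2)).1
  rw [Prod.smul_fst, Prod.smul_fst, norm_smul, norm_smul, n1, n2, mul_one, mul_one,
    Real.norm_eq_abs, Real.norm_eq_abs, hαβ] at h3
  have h4 : ‖(α • p₁ + β • p₂).1‖ = (‖(α • p₁ + β • p₂).1‖ ^ (q:ℝ)) ^ ((q:ℝ)⁻¹) := by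
    rw [← Real.rpow_mul (norm_nonneg _), mul_inv_cancel₀ hq0.ne', Real.rpow_one]
  rw [h4, h3, Real.one_rpow]

/-- the parameter curve -/
def KK (s : ℝ) : Set (ℝ × ℝ) := {x | |x.1| ^ s + |x.2| ^ s = 1}

theorem KK_compact {s : ℝ} (hs : 0 < s) : IsCompact (KK s) := by
  have hcl : IsClosed (KK s) := by
    apply isClosed_eq _ continuous_const
    exact (continuous_fst.abs.rpow_const (fun _ => Or.inr hs.le)).add
      (continuous_snd.abs.rpow_const (fun _ => Or.inr hs.le))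
  have hb : KK s ⊆ closedBall 0 1 := by
    intro x hx
    have h1 : |x.1| ^ s + |x.2| ^ s = 1 := hx
    have a1 : 0 ≤ |x.1| ^ s := by positivity
    have a2 : 0 ≤ |x.2| ^ s := by positivity
    rw [mem_closedBall, dist_zero_right, Prod.norm_def, max_le_iff, Real.norm_eq_abs,
      Real.norm_eq_abs]
    constructor
    · by_contra hc
      have := Real.one_lt_rpow (not_le.mp hc) hs
      linarith
    · by_contra hc
      have := Real.one_lt_rpow (not_le.mp hc) hs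
      linarith
  exact (isCompact_closedBall _ _).of_isClosed_subset hcl hb

/-- the two-parameter family -/
def Fam (p₁ p₂ : Pairs N q) : Set (FP N) :=
  {p | ∃ x ∈ KK (q:ℝ), p = x.1 • rep p₁ + x.2 • rep p₂}

theorem comb_conv {Ω₁ Ω₂ : Set (EuclideanSpace ℝ (Fin N))} {χ : EuclideanSpace ℝ (Fin N) → ℝ}
    (h : Sep Ω₁ Ω₂ χ) {p₁ p₂ : Pairs N q} (h1 : p₁ ∈ D012 q Ω₁) (h2 : p₂ ∈ D012 q Ω₂)
    {s : ℕ → ℝ × ℝ} {x : ℝ × ℝ} (hs : Tendsto s atTop (𝓝 x)) :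
    ConvD (fun n => (s n).1 • rep p₁ + (s n).2 • rep p₂) (x.1 • rep p₁ + x.2 • rep p₂) := by
  have e : ∀ n, (energy fun y => ((s n).1 • rep p₁ + (s n).2 • rep p₂).2 y -
      (x.1 • rep p₁ + x.2 • rep p₂).2 y) =
      ((s n).1 - x.1) ^ 2 * ‖p₁.2‖ ^ 2 + ((s n).2 - x.2) ^ 2 * ‖p₂.2‖ ^ 2 := by
    intro n
    rw [← comb_energy h h1 h2]
    congr 1
    ext1 y
    change ((s n).1 • (rep p₁).2 y + (s n).2 • (rep p₂).2 y) -
      (x.1 • (rep p₁).2 y + x.2 • (rep p₂).2 y) =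
      ((s n).1 - x.1) • (rep p₁).2 y + ((s n).2 - x.2) • (rep p₂).2 y
    module
  rw [ConvD]
  simp_rw [e]
  have t1 : Tendsto (fun n => (s n).1) atTop (𝓝 x.1) := (continuous_fst.tendsto x).comp hs
  have t2 : Tendsto (fun n => (s n).2) atTop (𝓝 x.2) := (continuous_snd.tendsto x).comp hs
  have := (((t1.sub_const x.1).pow 2).mul_const (‖p₁.2‖ ^ 2)).add
    (((t2.sub_const x.2).pow 2).mul_const (‖p₂.2‖ ^ 2))
  simpa using this

theorem Fam_compact {Ω₁ Ω₂ : Set (EuclideanSpace ℝ (Fin N))} {χ : EuclideanSpace ℝ (Fin N) → ℝ}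
    (h : Sep Ω₁ Ω₂ χ) {p₁ p₂ : Pairs N q} (h1 : p₁ ∈ D012 q Ω₁) (h2 : p₂ ∈ D012 q Ω₂) :
    IsCompactD (Fam p₁ p₂) := by
  intro s hs
  choose x hx hsx using hs
  obtain ⟨y, hy, k, hk, hlim⟩ := (KK_compact (q_pos (q := q))).tendsto_subseq hx
  refine ⟨_, ⟨y, hy, rfl⟩, k, hk, ?_⟩
  have := comb_conv h h1 h2 hlim
  have e : (fun n => s (k n)) = fun n => ((x ∘ k) n).1 • rep p₁ + ((x ∘ k) n).2 • rep p₂ := by
    ext1 n
    rw [hsx (k n)]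
    rfl
  rw [e]
  exact this

theorem Fam_neg {p₁ p₂ : Pairs N q} {p : FP N} (hp : p ∈ Fam p₁ p₂) : -p ∈ Fam p₁ p₂ := by
  obtain ⟨x, hx, rfl⟩ := hp
  refine ⟨-x, ?_, ?_⟩
  · change |(-x).1| ^ (q:ℝ) + |(-x).2| ^ (q:ℝ) = 1
    rw [Prod.fst_neg, Prod.snd_neg, abs_neg, abs_neg]
    exact hx
  · rw [Prod.fst_neg, Prod.snd_neg]
    module

theorem Fam_genus {Ω₁ Ω₂ : Set (EuclideanSpace ℝ (Fin N))} {χ : EuclideanSpace ℝ (Fin N) → ℝ}
    (h : Sep Ω₁ Ω₂ χ) {p₁ p₂ : Pairs N q} (h1 : p₁ ∈ D012 q Ω₁) (h2 : p₂ ∈ D012 q Ω₂) :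
    (2 : ℕ∞) ≤ genus (Fam p₁ p₂) := by
  have hq0 := q_pos (q := q)
  apply le_sInf
  rintro b ⟨j, rfl, hj, f, hf1, hf2, hf3⟩
  rcases Nat.lt_or_ge 1 j with hj2 | hj1
  · exact_mod_cast hj2
  · exfalso
    obtain rfl : j = 1 := le_antisymm hj1 hj
    set γ : ℝ → ℝ × ℝ := fun t => (t, (1 - |t| ^ (q:ℝ)) ^ ((q:ℝ)⁻¹)) with hγ
    have hγc : Continuous γ := by
      refine continuous_id.prodMk ?_
      exact (continuous_const.sub (continuous_abs.rpow_const fun _ => Or.inr hq0.le)).rpow_const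
        fun _ => Or.inr (by positivity)
    have hγK : ∀ t ∈ Icc (-1:ℝ) 1, γ t ∈ KK (q:ℝ) := by
      intro t ht
      have h1 : |t| ≤ 1 := abs_le.mpr ht
      have h2 : |t| ^ (q:ℝ) ≤ 1 := Real.rpow_le_one (abs_nonneg _) h1 hq0.le
      change |t| ^ (q:ℝ) + |(1 - |t| ^ (q:ℝ)) ^ ((q:ℝ)⁻¹)| ^ (q:ℝ) = 1
      have h3 : 0 ≤ 1 - |t| ^ (q:ℝ) := by linarith
      rw [abs_of_nonneg (Real.rpow_nonneg h3 ((q:ℝ)⁻¹)), ← Real.rpow_mul h3,
        inv_mul_cancel₀ hq0.ne', Real.rpow_one]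
      ring
    set G : ℝ → ℝ := fun t => f ((γ t).1 • rep p₁ + (γ t).2 • rep p₂) 0 with hG
    have hGc : ContinuousOn G (Icc (-1) 1) := by
      rw [continuousOn_iff_continuous_domRestrict]
      apply SeqContinuous.continuous
      intro s t hst
      have h3 : Tendsto (fun n => ((s n : Icc (-1:ℝ) 1) : ℝ)) atTop (𝓝 (t : ℝ)) :=
        (continuous_subtype_val.tendsto t).comp hst
      have h4 : Tendsto (fun n => γ (s n)) atTop (𝓝 (γ t)) := (hγc.tendsto _).comp h3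
      have h5 := comb_conv h h1 h2 h4
      have h6 := hf1 (fun n => (γ (s n)).1 • rep p₁ + (γ (s n)).2 • rep p₂)
        (fun n => ⟨_, hγK _ (s n).2, rfl⟩) _ ⟨_, hγK _ t.2, rfl⟩ h5
      have h7 : Continuous (fun v : EuclideanSpace ℝ (Fin 1) => v 0) := by fun_prop
      exact (h7.tendsto _).comp h6
    have hGn : ∀ t ∈ Icc (-1:ℝ) 1, |G t| = 1 := by
      intro t ht
      have h3 := hf2 _ ⟨γ t, hγK t ht, rfl⟩
      rw [EuclideanSpace.norm_eq, Fin.sum_univ_one, Real.norm_eq_abs, sq_abs,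
        Real.sqrt_eq_one] at h3
      have h4 : G t ^ 2 = 1 := h3
      have h5 : |G t| ^ 2 = 1 := by rw [sq_abs, h4]
      nlinarith [abs_nonneg (G t)]
    have hodd : G (-1) = - G 1 := by
      have h3 := hf3 ((γ 1).1 • rep p₁ + (γ 1).2 • rep p₂) ⟨γ 1, hγK 1 (by simp), rfl⟩
      have h4 : (γ (-1)).1 • rep p₁ + (γ (-1)).2 • rep p₂ =
          -((γ 1).1 • rep p₁ + (γ 1).2 • rep p₂) := by
        have e1 : γ (-1) = (-1, 0) := by
          simp only [hγ, abs_neg, abs_one, Real.one_rpow, sub_self]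
          rw [Real.zero_rpow (by positivity)]
        have e2 : γ 1 = (1, 0) := by
          simp only [hγ, abs_one, Real.one_rpow, sub_self]
          rw [Real.zero_rpow (by positivity)]
        rw [e1, e2]
        module
      simp only [hG]
      rw [h4, h3]
      rfl
    have hz : ∃ t ∈ Icc (-1:ℝ) 1, G t = 0 := by
      rcases le_total (G 1) 0 with hs | hs
      · have h3 : (0:ℝ) ∈ Icc (G 1) (G (-1)) := ⟨hs, by rw [hodd]; linarith⟩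
        obtain ⟨t, ht, ht0⟩ := intermediate_value_Icc' (by norm_num : (-1:ℝ) ≤ 1) hGc h3
        exact ⟨t, ht, ht0⟩
      · have h3 : (0:ℝ) ∈ Icc (G (-1)) (G 1) := ⟨by rw [hodd]; linarith, hs⟩
        obtain ⟨t, ht, ht0⟩ := intermediate_value_Icc (by norm_num : (-1:ℝ) ≤ 1) hGc h3
        exact ⟨t, ht, ht0⟩
    obtain ⟨t, ht, ht0⟩ := hz
    have := hGn t ht
    rw [ht0, abs_zero] at this
    norm_num at this

/-- The second Lusternik-Schnirelman value is at least the common lower bound. -/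
theorem le_lamLS {Ω₁ Ω₂ : Set (EuclideanSpace ℝ (Fin N))} {χ : EuclideanSpace ℝ (Fin N) → ℝ}
    (h : Sep Ω₁ Ω₂ χ) (hN : 2 ≤ N) (hΩ : Bornology.IsBounded (Ω₁ ∪ Ω₂))
    (hq' : ((N : ℝ) - 2) * q < 2 * N) (hne1 : Ω₁.Nonempty) (hne2 : Ω₂.Nonempty) {m L μ : ℝ}
    (hm : ∀ p ∈ D012 q Ω₁, ‖Lp.posPart p.1‖ = ‖Lp.negPart p.1‖ → m * ‖p.1‖ ^ 2 ≤ ‖p.2‖ ^ 2)
    (hL : ∀ p ∈ D012 q Ω₂, L * ‖p.1‖ ^ 2 ≤ ‖p.2‖ ^ 2)
    (hμ : ∀ t ∈ Icc (0:ℝ) 1, μ ≤ m * t ^ (2 / (q:ℝ)) + L * (1 - t) ^ (2 / (q:ℝ))) :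
    μ ≤ lamLS q (Ω₁ ∪ Ω₂) 2 := by
  have hq0 := q_pos (q := q)
  apply le_csInf
  · obtain ⟨p₁, h1, n1⟩ := exists_unit (q := q) h.o1 hne1
    obtain ⟨p₂, h2, n2⟩ := exists_unit (q := q) h.o2 hne2
    have hKne : (KK (q:ℝ)).Nonempty := ⟨(1, 0), by
      change |(1:ℝ)| ^ (q:ℝ) + |(0:ℝ)| ^ (q:ℝ) = 1
      rw [abs_one, abs_zero, Real.one_rpow, Real.zero_rpow hq0.ne', add_zero]⟩
    obtain ⟨x, hx, hmax⟩ := (KK_compact hq0).exists_isMaxOn hKne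
      (f := fun x : ℝ × ℝ => x.1 ^ 2 * ‖p₁.2‖ ^ 2 + x.2 ^ 2 * ‖p₂.2‖ ^ 2) (by fun_prop)
    refine ⟨x.1 ^ 2 * ‖p₁.2‖ ^ 2 + x.2 ^ 2 * ‖p₂.2‖ ^ 2, Fam p₁ p₂, Fam_compact h h1 h2, ?_, ?_,
      fun p hp => Fam_neg hp, ?_, ?_⟩
    · exact ⟨_, x, hx, rfl⟩
    · rintro p ⟨y, hy, rfl⟩
      exact comb_sphere h hN hΩ h1 h2 n1 n2 hy
    · exact_mod_cast Fam_genus h h1 h2
    · constructor
      · exact ⟨_, ⟨x, hx, rfl⟩, comb_energy h h1 h2 _ _⟩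
      · rintro b ⟨p, ⟨y, hy, rfl⟩, rfl⟩
        simp only
        rw [comb_energy h h1 h2]
        exact hmax hy
  · rintro b ⟨F, _, _, hFS, _, hFg, hb⟩
    obtain ⟨p, hpF, hp⟩ := ls_lower h hN hΩ hq' hm hL hμ hFS (by exact_mod_cast hFg)
    exact hp.trans (hb.2 ⟨p, hpF, rfl⟩)

end Pool.Agent.Helper793.Two
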