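import Pool.Agent.Helper793.Gap

set_option autoImplicit false
set_option linter.unusedSectionVars false

open MeasureTheory Metric Set Filter Topology
open scoped ENNReal NNReal
open Pool.Agent.Helper793.QEig Pool.Agent.Helper793.Sob Pool.Agent.Helper793.Cut

namespace Pool.Agent.Helper793.Uni

variable {N : ℕ}

variable {q : ℝ≥0} [Fact (1 ≤ (q : ℝ≥0∞))]

/-! ### disjoint unions -/

theorem isTest_cut {Ω₁ Ω₂ : Set (EuclideanSpace ℝ (Fin N))} (h2 : IsOpen Ω₂)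
    {χ φ : EuclideanSpace ℝ (Fin N) → ℝ} (hχ : ContDiff ℝ ((⊤ : ℕ∞) : WithTop ℕ∞) χ)
    (hχ0 : ∀ x ∈ Ω₂, χ x = 0) (hφ : IsTest (Ω₁ ∪ Ω₂) φ) : IsTest Ω₁ (fun x => χ x * φ x) := by
  refine ⟨hχ.mul hφ.1, hφ.2.1.mul_left, ?_⟩
  have h3 : tsupport (fun x => χ x * φ x) ⊆ tsupport φ :=
    closure_mono (Function.support_mul_subset_right _ _)
  have h4 : tsupport (fun x => χ x * φ x) ⊆ Ω₂ᶜ := by
    apply closure_minimal _ h2.isClosed_compl
    intro x hx hx2
    apply hx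
    simp only
    rw [hχ0 x hx2, zero_mul]
  intro x hx
  rcases hφ.2.2 (h3 hx) with h | h
  · exact h
  · exact absurd h (h4 hx)

theorem split_pointwise {Ω₁ Ω₂ : Set (EuclideanSpace ℝ (Fin N))} (h1 : IsOpen Ω₁) (h2 : IsOpen Ω₂)
    {χ φ : EuclideanSpace ℝ (Fin N) → ℝ}
    (hχ1 : ∀ x ∈ Ω₁, χ x = 1) (hχ0 : ∀ x ∈ Ω₂, χ x = 0) (hφ : IsTest (Ω₁ ∪ Ω₂) φ)
    (x : EuclideanSpace ℝ (Fin N)) :
    (φ =ᶠ[𝓝 x] (fun x => χ x * φ x) ∧ (fun x => (1 - χ x) * φ x) =ᶠ[𝓝 x] fun _ => 0) ∨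
    (φ =ᶠ[𝓝 x] (fun x => (1 - χ x) * φ x) ∧ (fun x => χ x * φ x) =ᶠ[𝓝 x] fun _ => 0) := by
  by_cases hx : x ∈ tsupport φ
  · rcases hφ.2.2 hx with h | h
    · left
      constructor
      · filter_upwards [h1.mem_nhds h] with y hy
        rw [hχ1 y hy, one_mul]
      · filter_upwards [h1.mem_nhds h] with y hy
        rw [hχ1 y hy, sub_self, zero_mul]
    · right
      constructor
      · filter_upwards [h2.mem_nhds h] with y hy
        rw [hχ0 y hy, sub_zero, one_mul]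
      · filter_upwards [h2.mem_nhds h] with y hy
        rw [hχ0 y hy, zero_mul]
  · left
    have h3 : φ =ᶠ[𝓝 x] 0 := notMem_tsupport_iff_eventuallyEq.mp hx
    constructor
    · filter_upwards [h3] with y hy
      rw [hy, Pi.zero_apply, mul_zero]
    · filter_upwards [h3] with y hy
      rw [hy, Pi.zero_apply, mul_zero]

theorem pairOf_split {Ω₁ Ω₂ : Set (EuclideanSpace ℝ (Fin N))} 
    {χ ψ : EuclideanSpace ℝ (Fin N) → ℝ}
    (hψ : IsTest (Ω₁ ∪ Ω₂) ψ) (t1 : IsTest Ω₁ (fun x => χ x * ψ x))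
    (t2 : IsTest Ω₂ (fun x => (1 - χ x) * ψ x)) :
    pairOf q hψ = pairOf q t1 + pairOf q t2 := by
  apply Prod.ext
  · have : (pairOf q t1 + pairOf q t2).1 = ((memLp_test t1 q).add (memLp_test t2 q)).toLp _ :=
      (MemLp.toLp_add (memLp_test t1 q) (memLp_test t2 q)).symm
    rw [this]
    change (memLp_test hψ q).toLp ψ = _
    congr 1
    ext x
    simp only [Pi.add_apply]
    ring
  · have : (pairOf q t1 + pairOf q t2).2 = ((memLp_grad t1 2).add (memLp_grad t2 2)).toLp _ :=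
      (MemLp.toLp_add (memLp_grad t1 2) (memLp_grad t2 2)).symm
    rw [this]
    change (memLp_grad hψ 2).toLp (gradient ψ) = _
    congr 1
    have t1' : IsTest (Ω₁ ∪ Ω₂) (fun x => χ x * ψ x) := isTest_mono subset_union_left t1
    have t2' : IsTest (Ω₁ ∪ Ω₂) (fun x => (1 - χ x) * ψ x) := isTest_mono subset_union_right t2
    have h5 := gradient_add' t1' t2'
    have h6 : (fun x => χ x * ψ x + (1 - χ x) * ψ x) = ψ := by ext x; ring
    rw [h6] at h5
    rw [h5]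
    rfl

/-! ### the indicator operators -/

/-- multiplication by an indicator function, on `L^p` -/
noncomputable def ind0 {F : Type*} [NormedAddCommGroup F] {p : ℝ≥0∞}
    {U : Set (EuclideanSpace ℝ (Fin N))} (hU : MeasurableSet U)
    (f : Lp F p (volume : Measure (EuclideanSpace ℝ (Fin N)))) :
      Lp F p (volume : Measure (EuclideanSpace ℝ (Fin N))) :=
  ((Lp.memLp f).indicator hU).toLp (U.indicator (f : EuclideanSpace ℝ (Fin N) → F))

theorem ind0_coe {F : Type*} [NormedAddCommGroup F] {p : ℝ≥0∞}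
    {U : Set (EuclideanSpace ℝ (Fin N))} (hU : MeasurableSet U)
    (f : Lp F p (volume : Measure (EuclideanSpace ℝ (Fin N)))) :
    (ind0 hU f : EuclideanSpace ℝ (Fin N) → F) =ᵐ[volume]
      U.indicator (f : EuclideanSpace ℝ (Fin N) → F) := by
  unfold ind0
  exact MemLp.coeFn_toLp _

theorem ind0_add {F : Type*} [NormedAddCommGroup F] {p : ℝ≥0∞}
    {U : Set (EuclideanSpace ℝ (Fin N))} (hU : MeasurableSet U)
    (f g : Lp F p (volume : Measure (EuclideanSpace ℝ (Fin N)))) :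
    ind0 hU (f + g) = ind0 hU f + ind0 hU g := by
  apply Lp.ext
  filter_upwards [ind0_coe hU (f + g), ind0_coe hU f, ind0_coe hU g,
    Lp.coeFn_add f g, Lp.coeFn_add (ind0 hU f) (ind0 hU g)] with x a1 a2 a3 a4 a5
  rw [a1, a5, Pi.add_apply, a2, a3]
  by_cases hx : x ∈ U
  · rw [indicator_of_mem hx, indicator_of_mem hx, indicator_of_mem hx, a4, Pi.add_apply]
  · rw [indicator_of_notMem hx, indicator_of_notMem hx, indicator_of_notMem hx, add_zero]

theorem ind0_smul {F : Type*} [NormedAddCommGroup F] [NormedSpace ℝ F] {p : ℝ≥0∞}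
    {U : Set (EuclideanSpace ℝ (Fin N))} (hU : MeasurableSet U) (c : ℝ)
    (f : Lp F p (volume : Measure (EuclideanSpace ℝ (Fin N)))) :
    ind0 hU (c • f) = c • ind0 hU f := by
  apply Lp.ext
  filter_upwards [ind0_coe hU (c • f), ind0_coe hU f,
    Lp.coeFn_smul c f, Lp.coeFn_smul c (ind0 hU f)] with x a1 a2 a4 a5
  rw [a1, a5, Pi.smul_apply, a2]
  by_cases hx : x ∈ U
  · rw [indicator_of_mem hx, indicator_of_mem hx, a4, Pi.smul_apply]
  · rw [indicator_of_notMem hx, indicator_of_notMem hx, smul_zero]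

theorem ind0_norm {F : Type*} [NormedAddCommGroup F] {p : ℝ≥0∞}
    {U : Set (EuclideanSpace ℝ (Fin N))} (hU : MeasurableSet U)
    (f : Lp F p (volume : Measure (EuclideanSpace ℝ (Fin N)))) :
    ‖ind0 hU f‖ ≤ ‖f‖ := by
  apply Lp.norm_le_norm_of_ae_le
  filter_upwards [ind0_coe hU f] with x a1
  rw [a1]
  exact norm_indicator_le_norm_self _ _

/-- multiplication by an indicator function, on `L^p`, as a continuous linear map -/
noncomputable def ind (F : Type*) [NormedAddCommGroup F] [NormedSpace ℝ F] (p : ℝ≥0∞)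
    [Fact (1 ≤ p)] {U : Set (EuclideanSpace ℝ (Fin N))} (hU : MeasurableSet U) :
    Lp F p (volume : Measure (EuclideanSpace ℝ (Fin N))) →L[ℝ]
      Lp F p (volume : Measure (EuclideanSpace ℝ (Fin N))) :=
  LinearMap.mkContinuous
    ({ toFun := ind0 hU
       map_add' := ind0_add hU
       map_smul' := ind0_smul hU } : Lp F p (volume : Measure (EuclideanSpace ℝ (Fin N))) →ₗ[ℝ]
      Lp F p (volume : Measure (EuclideanSpace ℝ (Fin N))))
    1 (fun f => by rw [one_mul]; exact ind0_norm hU f)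

theorem ind_coe {F : Type*} [NormedAddCommGroup F] [NormedSpace ℝ F] {p : ℝ≥0∞}
    [Fact (1 ≤ p)] {U : Set (EuclideanSpace ℝ (Fin N))} (hU : MeasurableSet U)
    (f : Lp F p (volume : Measure (EuclideanSpace ℝ (Fin N)))) :
    (ind F p hU f : EuclideanSpace ℝ (Fin N) → F) =ᵐ[volume]
      U.indicator (f : EuclideanSpace ℝ (Fin N) → F) :=
  ind0_coe hU f

/-- restriction of a pair to a measurable set -/
noncomputable def tr (q : ℝ≥0) [Fact (1 ≤ (q : ℝ≥0∞))] {U : Set (EuclideanSpace ℝ (Fin N))}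
    (hU : MeasurableSet U) : Pairs N q →L[ℝ] Pairs N q :=
  (ind ℝ q hU).prodMap (ind (EuclideanSpace ℝ (Fin N)) 2 hU)

theorem tr_fst {U : Set (EuclideanSpace ℝ (Fin N))} (hU : MeasurableSet U) (p : Pairs N q) :
    (tr q hU p).1 = ind ℝ q hU p.1 := rfl

theorem tr_snd {U : Set (EuclideanSpace ℝ (Fin N))} (hU : MeasurableSet U) (p : Pairs N q) :
    (tr q hU p).2 = ind (EuclideanSpace ℝ (Fin N)) 2 hU p.2 := rfl

theorem tr_fst_coe {U : Set (EuclideanSpace ℝ (Fin N))} (hU : MeasurableSet U) (p : Pairs N q) :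
    ((tr q hU p).1 : EuclideanSpace ℝ (Fin N) → ℝ) =ᵐ[volume]
      U.indicator (p.1 : EuclideanSpace ℝ (Fin N) → ℝ) :=
  ind_coe hU p.1

theorem tr_snd_coe {U : Set (EuclideanSpace ℝ (Fin N))} (hU : MeasurableSet U) (p : Pairs N q) :
    ((tr q hU p).2 : EuclideanSpace ℝ (Fin N) → EuclideanSpace ℝ (Fin N)) =ᵐ[volume]
      U.indicator (p.2 : EuclideanSpace ℝ (Fin N) → EuclideanSpace ℝ (Fin N)) :=
  ind_coe hU p.2

/-- elements living on `Ω` are unchanged by restriction to `Ω` -/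
theorem tr_self {Ω : Set (EuclideanSpace ℝ (Fin N))} (hU : MeasurableSet Ω) {p : Pairs N q}
    (hp : p ∈ D012 q Ω) : tr q hU p = p := by
  apply D012_induction (P := fun p => tr q hU p = p) _ _ hp
  · exact isClosed_eq (ContinuousLinearMap.continuous _) continuous_id
  · intro φ hφ
    apply Prod.ext
    · apply Lp.ext
      filter_upwards [tr_fst_coe hU (pairOf q hφ), MemLp.coeFn_toLp (memLp_test hφ q)] with x a1 a2
      have a3 : (pairOf q hφ).1 x = φ x := a2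
      rw [a1]
      by_cases hx : x ∈ Ω
      · rw [indicator_of_mem hx]
      · rw [indicator_of_notMem hx, a3]
        by_contra hne
        exact hx (hφ.2.2 (subset_tsupport φ (Ne.symm hne)))
    · apply Lp.ext
      filter_upwards [tr_snd_coe hU (pairOf q hφ), MemLp.coeFn_toLp (memLp_grad hφ 2)] with x a1 a2
      have a3 : (pairOf q hφ).2 x = gradient φ x := a2
      rw [a1]
      by_cases hx : x ∈ Ω
      · rw [indicator_of_mem hx]
      · rw [indicator_of_notMem hx, a3]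
        have h3 : φ =ᶠ[𝓝 x] 0 := notMem_tsupport_iff_eventuallyEq.mp (fun h => hx (hφ.2.2 h))
        rw [gradient, h3.fderiv_eq]
        simp

/-- elements living on `Ω` vanish on sets disjoint from `Ω` -/
theorem tr_zero {Ω U : Set (EuclideanSpace ℝ (Fin N))} (hΩ : MeasurableSet Ω) (hU : MeasurableSet U)
    (hd : Disjoint U Ω) {p : Pairs N q} (hp : p ∈ D012 q Ω) : tr q hU p = 0 := by
  have h := tr_self hΩ hp
  apply Prod.ext
  · apply Lp.ext
    have h1 : ∀ᵐ x ∂volume, p.1 x = Ω.indicator p.1 x := by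
      filter_upwards [tr_fst_coe hΩ p] with x a1
      rw [← a1, h]
    filter_upwards [tr_fst_coe hU p, h1, Lp.coeFn_zero ℝ (q : ℝ≥0∞)
      (volume : Measure (EuclideanSpace ℝ (Fin N)))] with x a1 a2 a3
    rw [a1, Prod.fst_zero, a3, Pi.zero_apply]
    by_cases hx : x ∈ U
    · rw [indicator_of_mem hx, a2, indicator_of_notMem (disjoint_left.mp hd hx)]
    · rw [indicator_of_notMem hx]
  · apply Lp.ext
    have h1 : ∀ᵐ x ∂volume, p.2 x = Ω.indicator p.2 x := by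
      filter_upwards [tr_snd_coe hΩ p] with x a1
      rw [← a1, h]
    filter_upwards [tr_snd_coe hU p, h1, Lp.coeFn_zero (EuclideanSpace ℝ (Fin N)) 2
      (volume : Measure (EuclideanSpace ℝ (Fin N)))] with x a1 a2 a3
    rw [a1, Prod.snd_zero, a3, Pi.zero_apply]
    by_cases hx : x ∈ U
    · rw [indicator_of_mem hx, a2, indicator_of_notMem (disjoint_left.mp hd hx)]
    · rw [indicator_of_notMem hx]

/-- The data of two disjoint open sets separated by a smooth function. -/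
structure Sep (Ω₁ Ω₂ : Set (EuclideanSpace ℝ (Fin N))) (χ : EuclideanSpace ℝ (Fin N) → ℝ) :
    Prop where
  o1 : IsOpen Ω₁
  o2 : IsOpen Ω₂
  smooth : ContDiff ℝ ((⊤ : ℕ∞) : WithTop ℕ∞) χ
  one : ∀ x ∈ Ω₁, χ x = 1
  zero : ∀ x ∈ Ω₂, χ x = 0

theorem Sep.disj {Ω₁ Ω₂ : Set (EuclideanSpace ℝ (Fin N))} {χ : EuclideanSpace ℝ (Fin N) → ℝ}
    (h : Sep Ω₁ Ω₂ χ) : Disjoint Ω₁ Ω₂ := by
  rw [disjoint_left]
  intro x hx hx2
  have h1 := h.one x hx
  rw [h.zero x hx2] at h1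
  norm_num at h1

theorem Sep.symm {Ω₁ Ω₂ : Set (EuclideanSpace ℝ (Fin N))} {χ : EuclideanSpace ℝ (Fin N) → ℝ}
    (h : Sep Ω₁ Ω₂ χ) : Sep Ω₂ Ω₁ (fun x => 1 - χ x) :=
  ⟨h.o2, h.o1, contDiff_const.sub h.smooth, fun x hx => by rw [h.zero x hx, sub_zero],
    fun x hx => by rw [h.one x hx, sub_self]⟩

theorem Sep.t1 {Ω₁ Ω₂ : Set (EuclideanSpace ℝ (Fin N))} {χ φ : EuclideanSpace ℝ (Fin N) → ℝ}
    (h : Sep Ω₁ Ω₂ χ) (hφ : IsTest (Ω₁ ∪ Ω₂) φ) : IsTest Ω₁ (fun x => χ x * φ x) :=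
  isTest_cut h.o2 h.smooth h.zero hφ

theorem Sep.t2 {Ω₁ Ω₂ : Set (EuclideanSpace ℝ (Fin N))} {χ φ : EuclideanSpace ℝ (Fin N) → ℝ}
    (h : Sep Ω₁ Ω₂ χ) (hφ : IsTest (Ω₁ ∪ Ω₂) φ) : IsTest Ω₂ (fun x => (1 - χ x) * φ x) :=
  isTest_cut h.o1 h.symm.smooth h.symm.zero (by rwa [union_comm])

theorem Sep.decomp {Ω₁ Ω₂ : Set (EuclideanSpace ℝ (Fin N))} {χ : EuclideanSpace ℝ (Fin N) → ℝ}
    (h : Sep Ω₁ Ω₂ χ) {p : Pairs N q} (hp : p ∈ D012 q (Ω₁ ∪ Ω₂)) :
    tr q h.o1.measurableSet p + tr q h.o2.measurableSet p = p ∧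
    tr q h.o1.measurableSet p ∈ D012 q Ω₁ ∧ tr q h.o2.measurableSet p ∈ D012 q Ω₂ := by
  apply D012_induction (P := fun p => tr q h.o1.measurableSet p + tr q h.o2.measurableSet p = p ∧
    tr q h.o1.measurableSet p ∈ D012 q Ω₁ ∧ tr q h.o2.measurableSet p ∈ D012 q Ω₂) _ _ hp
  · refine IsClosed.inter (isClosed_eq (by fun_prop) continuous_id) (IsClosed.inter ?_ ?_)
    · exact isClosed_closure.preimage (ContinuousLinearMap.continuous (tr q h.o1.measurableSet))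
    · exact isClosed_closure.preimage (ContinuousLinearMap.continuous (tr q h.o2.measurableSet))
  · intro φ hφ
    have hs := pairOf_split (q := q) hφ (h.t1 hφ) (h.t2 hφ)
    have m1 := pairOf_mem (q := q) (h.t1 hφ)
    have m2 := pairOf_mem (q := q) (h.t2 hφ)
    have e1 : tr q h.o1.measurableSet (pairOf q hφ) = pairOf q (h.t1 hφ) := by
      rw [hs, map_add, tr_self h.o1.measurableSet m1,
        tr_zero h.o2.measurableSet h.o1.measurableSet h.disj m2, add_zero]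
    have e2 : tr q h.o2.measurableSet (pairOf q hφ) = pairOf q (h.t2 hφ) := by
      rw [hs, map_add, tr_self h.o2.measurableSet m2,
        tr_zero h.o1.measurableSet h.o2.measurableSet h.disj.symm m1, zero_add]
    rw [e1, e2]
    exact ⟨hs.symm, m1, m2⟩

/-- norms of a sum of two pairs living on disjoint sets -/
theorem Sep.norm_add {Ω₁ Ω₂ : Set (EuclideanSpace ℝ (Fin N))} {χ : EuclideanSpace ℝ (Fin N) → ℝ}
    (h : Sep Ω₁ Ω₂ χ) {p₁ p₂ : Pairs N q} (h1 : p₁ ∈ D012 q Ω₁) (h2 : p₂ ∈ D012 q Ω₂) :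
    ‖(p₁ + p₂).1‖ ^ (q:ℝ) = ‖p₁.1‖ ^ (q:ℝ) + ‖p₂.1‖ ^ (q:ℝ) ∧
    ‖(p₁ + p₂).2‖ ^ 2 = ‖p₁.2‖ ^ 2 + ‖p₂.2‖ ^ 2 := by
  have e1 := tr_self h.o1.measurableSet h1
  have e2 := tr_self h.o2.measurableSet h2
  have hq0 := q_pos (q := q)
  constructor
  · rw [norm_Lp_rpow, norm_Lp_rpow, norm_Lp_rpow,
      ← integral_add (integrable_abs_rpow _) (integrable_abs_rpow _)]
    apply integral_congr_ae
    filter_upwards [Lp.coeFn_add p₁.1 p₂.1, tr_fst_coe h.o1.measurableSet p₁,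
      tr_fst_coe h.o2.measurableSet p₂] with x a1 a2 a3
    rw [e1] at a2
    rw [e2] at a3
    have a4 : (p₁ + p₂).1 x = p₁.1 x + p₂.1 x := a1
    rw [a4]
    by_cases hx : x ∈ Ω₁
    · have : p₂.1 x = 0 := by rw [a3, indicator_of_notMem (disjoint_left.mp h.disj hx)]
      rw [this, add_zero, abs_zero, Real.zero_rpow hq0.ne', add_zero]
    · have : p₁.1 x = 0 := by rw [a2, indicator_of_notMem hx]
      rw [this, zero_add, abs_zero, Real.zero_rpow hq0.ne', zero_add]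
  · rw [Prod.snd_add]
    have hin : inner ℝ p₁.2 p₂.2 = 0 := by
      rw [L2.inner_def]
      have : (fun x => inner ℝ (p₁.2 x) (p₂.2 x)) =ᵐ[volume] fun _ => (0:ℝ) := by
        filter_upwards [tr_snd_coe h.o1.measurableSet p₁,
          tr_snd_coe h.o2.measurableSet p₂] with x a2 a3
        rw [e1] at a2
        rw [e2] at a3
        by_cases hx : x ∈ Ω₁
        · have : p₂.2 x = 0 := by rw [a3, indicator_of_notMem (disjoint_left.mp h.disj hx)]
          rw [this, inner_zero_right]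
        · have : p₁.2 x = 0 := by rw [a2, indicator_of_notMem hx]
          rw [this, inner_zero_left]
      rw [integral_congr_ae this]
      simp
    rw [norm_add_sq_real, hin]
    ring

theorem Sep.norm_decomp {Ω₁ Ω₂ : Set (EuclideanSpace ℝ (Fin N))} {χ : EuclideanSpace ℝ (Fin N) → ℝ}
    (h : Sep Ω₁ Ω₂ χ) {p : Pairs N q} (hp : p ∈ D012 q (Ω₁ ∪ Ω₂)) :
    ‖p.1‖ ^ (q:ℝ) = ‖(tr q h.o1.measurableSet p).1‖ ^ (q:ℝ) +
      ‖(tr q h.o2.measurableSet p).1‖ ^ (q:ℝ) ∧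
    ‖p.2‖ ^ 2 = ‖(tr q h.o1.measurableSet p).2‖ ^ 2 + ‖(tr q h.o2.measurableSet p).2‖ ^ 2 := by
  obtain ⟨h1, h2, h3⟩ := h.decomp hp
  have := h.norm_add h2 h3
  rwa [h1] at this

theorem zero_on {Ω₁ Ω₂ : Set (EuclideanSpace ℝ (Fin N))} (h1 : MeasurableSet Ω₁)
    (h2 : MeasurableSet Ω₂) (hd : Disjoint Ω₁ Ω₂) {p : Pairs N q} (hp : p ∈ D012 q Ω₂) :
    ∀ᵐ x ∂volume, x ∈ Ω₁ → p.1 x = 0 := by
  have e := tr_self h2 hp
  filter_upwards [tr_fst_coe h2 p] with x a1 hx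
  rw [e] at a1
  rw [a1, indicator_of_notMem (disjoint_left.mp hd hx)]

theorem inner_pairOf' {Ω : Set (EuclideanSpace ℝ (Fin N))} (p : Pairs N q)
    {η : EuclideanSpace ℝ (Fin N) → ℝ} (hη : IsTest Ω η) :
    inner ℝ p.2 (pairOf q hη).2 = ∫ x, inner ℝ (p.2 x) (gradient η x) := by
  rw [L2.inner_def]
  apply integral_congr_ae
  filter_upwards [MemLp.coeFn_toLp (memLp_grad hη 2)] with x e3
  have e4 : (pairOf q hη).2 x = gradient η x := e3
  rw [e4]

theorem Sep.inner_zero {Ω₁ Ω₂ : Set (EuclideanSpace ℝ (Fin N))} {χ : EuclideanSpace ℝ (Fin N) → ℝ}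
    (h : Sep Ω₁ Ω₂ χ) {p₁ p₂ : Pairs N q} (h1 : p₁ ∈ D012 q Ω₁) (h2 : p₂ ∈ D012 q Ω₂) :
    inner ℝ p₁.2 p₂.2 = 0 := by
  have e1 := (h.norm_add h1 h2).2
  rw [Prod.snd_add, norm_add_sq_real] at e1
  linarith

/-- a minimiser on one component is an eigenfunction of the union -/
theorem Sep.eigenpair_union {Ω₁ Ω₂ : Set (EuclideanSpace ℝ (Fin N))}
    {χ : EuclideanSpace ℝ (Fin N) → ℝ} (h : Sep Ω₁ Ω₂ χ) (hq : 1 < q)
    {p : Pairs N q} (hp : p ∈ D012 q Ω₁) (hp1 : ‖p.1‖ = 1) (hp2 : ‖p.2‖ ^ 2 = l1 q Ω₁) :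
    IsEigenpair q (Ω₁ ∪ Ω₂) (l1 q Ω₁) p := by
  have hq1 : (1:ℝ) < q := by exact_mod_cast hq
  refine ⟨D012_mono subset_union_left hp, ?_, ?_⟩
  · intro h0
    rw [h0, norm_zero] at hp1
    norm_num at hp1
  intro ψ hψ
  rw [hp1, Real.one_rpow, mul_one]
  have t1 := h.t1 hψ
  have t2 := h.t2 hψ
  have el := euler_lagrange hq hp1 t1 (Eventually.of_forall fun t => by
    rw [hp2]
    have := l1_ineq (D012_add hp (D012_smul t (pairOf_mem (q := q) t1)))
    exact this)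
  have hsum := pairOf_split (q := q) hψ t1 t2
  have hz := h.inner_zero hp (pairOf_mem (q := q) t2)
  have e5 : ∫ x, inner ℝ (p.2 x) (gradient ψ x) =
      ∫ x, inner ℝ (p.2 x) (gradient (fun x => χ x * ψ x) x) := by
    rw [← inner_pairOf' p hψ, ← inner_pairOf' p t1, hsum, Prod.snd_add, inner_add_right, hz,
      add_zero]
  have e6 : ∫ x, |p.1 x| ^ ((q : ℝ) - 2) * p.1 x * ψ x =
      ∫ x, |p.1 x| ^ ((q : ℝ) - 2) * p.1 x * (χ x * ψ x) := by
    apply integral_congr_ae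
    filter_upwards [zero_on h.o2.measurableSet h.o1.measurableSet h.disj.symm hp] with x hx
    by_cases hx1 : x ∈ Ω₂
    · rw [hx hx1]; simp
    · by_cases hx2 : x ∈ Ω₁
      · rw [h.one x hx2]; ring
      · have : ψ x = 0 := by
          by_contra hne
          rcases hψ.2.2 (subset_tsupport ψ hne) with h | h
          · exact hx2 h
          · exact hx1 h
        rw [this]; simp
  rw [e5, e6, el, hp2]

end Pool.Agent.Helper793.Uni
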